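import Mathlib

open Set Filter Topology MeasureTheory

namespace Pool.Agent.V11190.Bicycle

/-- Comparison lemma for scalar differential inequalities. -/
lemma compare {a b C : ℝ} (hab : a ≤ b) {u w u' w' : ℝ → ℝ}
    (hu : ∀ t ∈ Icc a b, HasDerivWithinAt u (u' t) (Icc a b) t)
    (hw : ∀ t ∈ Icc a b, HasDerivWithinAt w (w' t) (Icc a b) t)
    (hineq : ∀ t ∈ Icc a b, w' t - u' t ≤ C * |u t - w t|) (h0 : w a ≤ u a) :
    (∀ t ∈ Icc a b, w t ≤ u t) ∧ (w a < u a → w b < u b) := by
  have hfc : ContinuousOn (fun t => w t - u t) (Icc a b) := fun t ht =>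
    ((hw t ht).sub (hu t ht)).continuousWithinAt
  have hfd : ∀ x ∈ Ico a b, HasDerivWithinAt (fun t => w t - u t) (w' x - u' x) (Ici x) x := by
    intro x hx
    have h1 := (hw x ⟨hx.1, hx.2.le⟩).sub (hu x ⟨hx.1, hx.2.le⟩)
    exact h1.mono_of_mem_nhdsWithin (mem_of_superset (Icc_mem_nhdsGE hx.2)
      (Icc_subset_Icc_left hx.1))
  have part1 : ∀ t ∈ Icc a b, w t ≤ u t := by
    intro t ht
    have key : ∀ ε > 0, w t - u t ≤ ε * Real.exp ((C + 1) * (t - a)) := by
      intro ε hε
      refine image_le_of_deriv_right_lt_deriv_boundary (f := fun t => w t - u t)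
        (B := fun t => ε * Real.exp ((C + 1) * (t - a)))
        (B' := fun t => ε * (Real.exp ((C + 1) * (t - a)) * (C + 1)))
        hfc hfd ?_ ?_ ?_ ht
      · simp only [sub_self, mul_zero, Real.exp_zero, mul_one]; linarith
      · intro x
        have h1 : HasDerivAt (fun t : ℝ => (C + 1) * (t - a)) (C + 1) x := by
          simpa using ((hasDerivAt_id x).sub_const a).const_mul (C + 1)
        exact (h1.exp).const_mul ε
      · intro x hx hxe
        have h1 := hineq x ⟨hx.1, hx.2.le⟩
        have hB : 0 < ε * Real.exp ((C + 1) * (x - a)) := by positivity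
        have hxe : w x - u x = ε * Real.exp ((C + 1) * (x - a)) := hxe
        have h2 : |u x - w x| = ε * Real.exp ((C + 1) * (x - a)) := by
          rw [← hxe, abs_of_neg (by linarith)]; ring
        rw [h2] at h1
        calc w' x - u' x ≤ C * (ε * Real.exp ((C + 1) * (x - a))) := h1
          _ < (C + 1) * (ε * Real.exp ((C + 1) * (x - a))) := by nlinarith
          _ = ε * (Real.exp ((C + 1) * (x - a)) * (C + 1)) := by ring
    have hlim : Tendsto (fun ε : ℝ => ε * Real.exp ((C + 1) * (t - a))) (𝓝[>] 0) (𝓝 0) := by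
      have : Continuous fun ε : ℝ => ε * Real.exp ((C + 1) * (t - a)) := by fun_prop
      have h2 := this.tendsto 0
      simp only [zero_mul] at h2
      exact h2.mono_left nhdsWithin_le_nhds
    have := ge_of_tendsto hlim (by
      filter_upwards [self_mem_nhdsWithin] with ε hε using key ε hε)
    linarith
  refine ⟨part1, fun hlt => ?_⟩
  set h : ℝ → ℝ := fun t => (u t - w t) * Real.exp (C * (t - a)) with hh
  have hhd : ∀ t ∈ Ioo a b, HasDerivAt h ((u' t - w' t) * Real.exp (C * (t - a)) +
      (u t - w t) * (Real.exp (C * (t - a)) * C)) t := by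
    intro t ht
    have h1 : HasDerivAt (fun t : ℝ => C * (t - a)) C t := by
      simpa using ((hasDerivAt_id t).sub_const a).const_mul C
    have hu1 := (hu t ⟨ht.1.le, ht.2.le⟩).hasDerivAt (Icc_mem_nhds ht.1 ht.2)
    have hw1 := (hw t ⟨ht.1.le, ht.2.le⟩).hasDerivAt (Icc_mem_nhds ht.1 ht.2)
    exact (hu1.sub hw1).mul h1.exp
  have hmono : MonotoneOn h (Icc a b) := by
    apply monotoneOn_of_deriv_nonneg (convex_Icc a b)
    · apply ContinuousOn.mul
      · exact fun t ht => ((hu t ht).sub (hw t ht)).continuousWithinAt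
      · fun_prop
    · intro t ht
      rw [interior_Icc] at ht
      exact (hhd t ht).differentiableAt.differentiableWithinAt
    · intro t ht
      rw [interior_Icc] at ht
      rw [(hhd t ht).deriv]
      have h1 := hineq t ⟨ht.1.le, ht.2.le⟩
      have h2 := part1 t ⟨ht.1.le, ht.2.le⟩
      rw [abs_of_nonneg (by linarith)] at h1
      have h3 : 0 < Real.exp (C * (t - a)) := Real.exp_pos _
      nlinarith
  have h1 := hmono (left_mem_Icc.2 hab) (right_mem_Icc.2 hab) hab
  simp only [hh, sub_self, mul_zero, Real.exp_zero, mul_one] at h1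
  have h3 : 0 < Real.exp (C * (b - a)) := Real.exp_pos _
  by_contra hcon
  push Not at hcon
  have h4 : (u b - w b) * Real.exp (C * (b - a)) ≤ 0 :=
    mul_nonpos_of_nonpos_of_nonneg (by linarith) h3.le
  linarith

/-- The algebraic identity behind the radial gauge. -/
lemma gauge_identity (s r r' om c1 s1 C D th P Q P' Q' : ℝ) (h1 : s1 ^ 2 + c1 ^ 2 = 1)
    (hCD : C ^ 2 - D ^ 2 = 1) (hth : th = s * (r' * s1 + r * om * c1)) (hP : P = D * s1)
    (hQ : Q = C - D * c1) (hP' : P' = s * r' / 2 * C * s1 + D * (c1 * (om - th)))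
    (hQ' : Q' = s * r' / 2 * D - (s * r' / 2 * C * c1 + D * (-s1 * (om - th)))) :
    th * (P ^ 2 + Q ^ 2) - 2 * (P' * Q - P * Q') =
      om * ((s * r - 2 * C * D) * c1 + 2 * D ^ 2) := by
  have hPQ : P ^ 2 + Q ^ 2 = C ^ 2 + D ^ 2 - 2 * C * D * c1 := by
    rw [hP, hQ]; linear_combination D ^ 2 * h1
  have hW : P' * Q - P * Q' = s * r' / 2 * s1 + (D * C * c1 - D ^ 2) * (om - th) := by
    rw [hP', hQ, hP, hQ']
    linear_combination (s * r' / 2 * s1) * hCD - D ^ 2 * (om - th) * h1
  rw [hPQ, hW]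
  have e : th * (C ^ 2 + D ^ 2 - 2 * C * D * c1) -
      2 * (s * r' / 2 * s1 + (D * C * c1 - D ^ 2) * (om - th)) =
      th * (C ^ 2 - D ^ 2) - s * r' * s1 + 2 * (D ^ 2 - D * C * c1) * om := by ring
  rw [e, hCD, hth]
  ring

/-- Positivity of the curvature term. -/
lemma curvature_pos (u c : ℝ) (hu : 0 < u) (hc : |c| ≤ 1) :
    0 < (u - Real.sinh u) * c + (Real.cosh u - 1) := by
  have h1 : u ≤ Real.sinh u := Real.self_le_sinh_iff.2 hu.le
  have h2 : Real.cosh u - Real.sinh u = Real.exp (-u) := Real.cosh_sub_sinh u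
  have h3 : -u + 1 < Real.exp (-u) := Real.add_one_lt_exp (by linarith)
  have h4 : (u - Real.sinh u) * c ≥ u - Real.sinh u := by
    have := (abs_le.1 hc).2
    nlinarith
  linarith


lemma alg1 (x y X' Y' c s th r : ℝ) (hr : r ≠ 0) (e : r ^ 2 = x ^ 2 + y ^ 2) :
    ((Y' * c + y * (-s * th) - (X' * s + x * (c * th))) * r - (y * c - x * s) *
      ((x * X' + y * Y') / r)) / r ^ 2 = ((x * c + y * s) / r) * ((x * Y' - y * X') / r ^ 2 - th) := by
  field_simp
  linear_combination (Y' * c - X' * s) * e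

lemma alg2 (x y X' Y' c s th r : ℝ) (hr : r ≠ 0) (e : r ^ 2 = x ^ 2 + y ^ 2) :
    ((X' * c + x * (-s * th) + (Y' * s + y * (c * th))) * r - (x * c + y * s) *
      ((x * X' + y * Y') / r)) / r ^ 2 =
      -((y * c - x * s) / r) * ((x * Y' - y * X') / r ^ 2 - th) := by
  field_simp
  linear_combination (X' * c + Y' * s) * e

lemma alg3 (x y X' Y' c s k r : ℝ) (hr : r ≠ 0) (e : r ^ 2 = x ^ 2 + y ^ 2) :
    k * (Y' * c - X' * s) = k * ((x * X' + y * Y') / r * ((y * c - x * s) / r) +
      r * ((x * Y' - y * X') / r ^ 2) * ((x * c + y * s) / r)) := by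
  field_simp
  linear_combination k * (Y' * c - X' * s) * e

/-- **Positivity of the rotation.** Along a closed curve which winds positively around its starting
point, every solution of the bicycle equation increases. -/
lemma growth {s T : ℝ} (hs : 0 < s) (hT : 0 < T) {X Y X' Y' θ : ℝ → ℝ}
    (hX : ∀ t, HasDerivAt X (X' t) t) (hY : ∀ t, HasDerivAt Y (Y' t) t)
    (hXT : X T = X 0) (hYT : Y T = Y 0)
    (hpos : ∀ t ∈ Ioo 0 T, 0 < (X t - X 0) * Y' t - (Y t - Y 0) * X' t)
    (hθ : ∀ t ∈ Icc 0 T, HasDerivWithinAt θ (s * (Y' t * Real.cos (θ t) - X' t * Real.sin (θ t)))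
      (Icc 0 T) t) : θ 0 < θ T := by
  set x : ℝ → ℝ := fun t => X t - X 0 with hx
  set y : ℝ → ℝ := fun t => Y t - Y 0 with hy
  set r : ℝ → ℝ := fun t => √(x t ^ 2 + y t ^ 2) with hr
  set s1 : ℝ → ℝ := fun t => (y t * Real.cos (θ t) - x t * Real.sin (θ t)) / r t with hs1
  set c1 : ℝ → ℝ := fun t => (x t * Real.cos (θ t) + y t * Real.sin (θ t)) / r t with hc1
  set C : ℝ → ℝ := fun t => Real.cosh (s * r t / 2) with hC
  set D : ℝ → ℝ := fun t => Real.sinh (s * r t / 2) with hD
  set P : ℝ → ℝ := fun t => D t * s1 t with hP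
  set Q : ℝ → ℝ := fun t => C t - D t * c1 t with hQ
  set G : ℝ → ℝ := fun t => θ t - 2 * Real.arctan (P t / Q t) with hG
  have hrsq : ∀ t, r t ^ 2 = x t ^ 2 + y t ^ 2 := fun t => Real.sq_sqrt (by positivity)
  have hr0 : ∀ t, 0 ≤ r t := fun t => Real.sqrt_nonneg _
  have hD0 : ∀ t, 0 ≤ D t := fun t => Real.sinh_nonneg_iff.2 (by
    have := hr0 t; positivity)
  have hCD : ∀ t, C t ^ 2 - D t ^ 2 = 1 := fun t => Real.cosh_sq_sub_sinh_sq _
  have hcs : ∀ t, Real.sin (θ t) ^ 2 + Real.cos (θ t) ^ 2 = 1 := fun t => Real.sin_sq_add_cos_sq _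
  have hsc : ∀ t, s1 t ^ 2 + c1 t ^ 2 ≤ 1 := by
    intro t
    rcases (hr0 t).eq_or_lt with h | h
    · simp only [hs1, hc1, ← h, div_zero]; norm_num
    · simp only [hs1, hc1]
      rw [div_pow, div_pow, ← add_div, div_le_one (by positivity), hrsq]
      have := hcs t
      nlinarith [this]
  have hs1le : ∀ t, |s1 t| ≤ 1 := fun t => by
    rw [← sq_le_one_iff_abs_le_one]
    nlinarith [hsc t, sq_nonneg (c1 t)]
  have hc1le : ∀ t, |c1 t| ≤ 1 := fun t => by
    rw [← sq_le_one_iff_abs_le_one]
    nlinarith [hsc t, sq_nonneg (s1 t)]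
  have hQge : ∀ t, Real.exp (-(s * r t / 2)) ≤ Q t := by
    intro t
    rw [← Real.cosh_sub_sinh]
    have := (abs_le.1 (hc1le t)).2
    have h2 := hD0 t
    simp only [hQ]
    change C t - D t ≤ C t - D t * c1 t
    nlinarith
  have hQpos : ∀ t, 0 < Q t := fun t => (Real.exp_pos _).trans_le (hQge t)
  have hPle : ∀ t, |P t| ≤ D t := by
    intro t
    simp only [hP]
    rw [abs_mul, abs_of_nonneg (hD0 t)]
    have := hs1le t
    have h2 := hD0 t
    nlinarith
  have hbound : ∀ t, |P t / Q t| ≤ D t * Real.exp (s * r t / 2) := by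
    intro t
    rw [abs_div, abs_of_pos (hQpos t), div_le_iff₀ (hQpos t)]
    have h1 : 1 ≤ Real.exp (s * r t / 2) * Q t := by
      have h2 : Real.exp (s * r t / 2) * Real.exp (-(s * r t / 2)) = 1 := by
        rw [← Real.exp_add]; simp
      have h3 := mul_le_mul_of_nonneg_left (hQge t) (Real.exp_pos (s * r t / 2)).le
      linarith
    have h4 := hD0 t
    have h5 := hPle t
    nlinarith
  have hxc : Continuous x := by
    rw [continuous_iff_continuousAt]; exact fun t => (hX t).continuousAt.sub_const _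
  have hyc : Continuous y := by
    rw [continuous_iff_continuousAt]; exact fun t => (hY t).continuousAt.sub_const _
  have hrc : Continuous r := by fun_prop
  have hBc : Continuous fun t => D t * Real.exp (s * r t / 2) := by
    apply Continuous.mul
    · exact Real.continuous_sinh.comp (by fun_prop)
    · fun_prop
  have hθc : ContinuousOn θ (Icc 0 T) := fun t ht => (hθ t ht).continuousWithinAt
  -- behaviour at the times where r = 0
  have hend : ∀ t ∈ Icc 0 T, r t = 0 → ContinuousWithinAt G (Icc 0 T) t := by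
    intro t ht hrt
    have h0 : D t * Real.exp (s * r t / 2) = 0 := by simp [hD, hrt]
    have h1 : Tendsto (fun t' => P t' / Q t') (𝓝[Icc 0 T] t) (𝓝 0) := by
      apply squeeze_zero_norm (a := fun t' => D t' * Real.exp (s * r t' / 2))
      · intro t'; rw [Real.norm_eq_abs]; exact hbound t'
      · have := hBc.tendsto t
        rw [h0] at this
        exact this.mono_left nhdsWithin_le_nhds
    have h2 : P t / Q t = 0 := by
      have : P t = 0 := by simp [hP, hD, hrt]
      rw [this, zero_div]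
    have h3 : ContinuousWithinAt (fun t' => P t' / Q t') (Icc 0 T) t := by
      rw [ContinuousWithinAt, h2]; exact h1
    exact (hθc t ht).sub ((Real.continuous_arctan.continuousAt.comp_continuousWithinAt h3).const_mul 2)
  -- derivative inside
  have hder : ∀ t ∈ Ioo 0 T, ∃ g, 0 < g ∧ HasDerivAt G g t := by
    intro t ht
    have hp := hpos t ht
    have hxy : 0 < x t ^ 2 + y t ^ 2 := by
      rcases eq_or_ne (x t) 0 with h1 | h1
      · rcases eq_or_ne (y t) 0 with h2 | h2
        · exfalso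
          have e1 : X t - X 0 = 0 := h1
          have e2 : Y t - Y 0 = 0 := h2
          rw [e1, e2] at hp; simp at hp
        · positivity
      · positivity
    have hrpos : 0 < r t := Real.sqrt_pos.2 hxy
    have hθt := (hθ t ⟨ht.1.le, ht.2.le⟩).hasDerivAt (Icc_mem_nhds ht.1 ht.2)
    set th := s * (Y' t * Real.cos (θ t) - X' t * Real.sin (θ t)) with hth
    have hxd : HasDerivAt x (X' t) t := (hX t).sub_const _
    have hyd : HasDerivAt y (Y' t) t := (hY t).sub_const _
    set r' : ℝ := (x t * X' t + y t * Y' t) / r t with hr'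
    set om : ℝ := (x t * Y' t - y t * X' t) / r t ^ 2 with hom
    have hompos : 0 < om := div_pos hp (by positivity)
    have hrd : HasDerivAt r r' t := by
      have h1 : HasDerivAt (fun t => x t ^ 2 + y t ^ 2)
          (2 * x t * X' t + 2 * y t * Y' t) t :=
        ((hxd.pow 2).add (hyd.pow 2)).congr_deriv (by simp)
      refine (h1.sqrt hxy.ne').congr_deriv ?_
      have e : √(x t ^ 2 + y t ^ 2) = r t := rfl
      rw [hr', e]
      field_simp
    have hcosd : HasDerivAt (fun t => Real.cos (θ t)) (-Real.sin (θ t) * th) t := hθt.cos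
    have hsind : HasDerivAt (fun t => Real.sin (θ t)) (Real.cos (θ t) * th) t := hθt.sin
    have e := hrsq t
    have hs1d : HasDerivAt s1 (c1 t * (om - th)) t := by
      have hn : HasDerivAt (fun t => y t * Real.cos (θ t) - x t * Real.sin (θ t))
          (Y' t * Real.cos (θ t) + y t * (-Real.sin (θ t) * th) -
            (X' t * Real.sin (θ t) + x t * (Real.cos (θ t) * th))) t :=
        (hyd.mul hcosd).sub (hxd.mul hsind)
      exact (hn.div hrd hrpos.ne').congr_deriv (alg1 _ _ _ _ _ _ _ _ hrpos.ne' e)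
    have hc1d : HasDerivAt c1 (-s1 t * (om - th)) t := by
      have hn : HasDerivAt (fun t => x t * Real.cos (θ t) + y t * Real.sin (θ t))
          (X' t * Real.cos (θ t) + x t * (-Real.sin (θ t) * th) +
            (Y' t * Real.sin (θ t) + y t * (Real.cos (θ t) * th))) t :=
        (hxd.mul hcosd).add (hyd.mul hsind)
      exact (hn.div hrd hrpos.ne').congr_deriv (alg2 _ _ _ _ _ _ _ _ hrpos.ne' e)
    have hud : HasDerivAt (fun t => s * r t / 2) (s * r' / 2) t :=
      (hrd.const_mul s).div_const 2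
    have hCd : HasDerivAt C (D t * (s * r' / 2)) t := hud.cosh
    have hDd : HasDerivAt D (C t * (s * r' / 2)) t := hud.sinh
    set P' : ℝ := s * r' / 2 * C t * s1 t + D t * (c1 t * (om - th)) with hP'
    set Q' : ℝ := s * r' / 2 * D t - (s * r' / 2 * C t * c1 t + D t * (-s1 t * (om - th))) with hQ'
    have hPd : HasDerivAt P P' t := (hDd.mul hs1d).congr_deriv (by rw [hP']; ring)
    have hQd : HasDerivAt Q Q' t := (hCd.sub (hDd.mul hc1d)).congr_deriv (by rw [hQ']; ring)
    have hs1c1 : s1 t ^ 2 + c1 t ^ 2 = 1 := by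
      simp only [hs1, hc1]
      rw [div_pow, div_pow, ← add_div, div_eq_one_iff_eq (by positivity), e]
      linear_combination (x t ^ 2 + y t ^ 2) * hcs t
    have hthr : th = s * (r' * s1 t + r t * om * c1 t) := by
      rw [hth]
      exact alg3 _ _ _ _ _ _ _ _ hrpos.ne' e
    have hGd := hθt.sub (((hPd.div hQd (hQpos t).ne').arctan).const_mul 2)
    refine ⟨_, ?_, hGd⟩
    have hPQpos : 0 < P t ^ 2 + Q t ^ 2 := by
      have := hQpos t; positivity
    have hid := gauge_identity s (r t) r' om (c1 t) (s1 t) (C t) (D t) th (P t) (Q t) P' Q'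
      hs1c1 (hCD t) hthr rfl rfl hP' hQ'
    have hval : th - 2 * (1 / (1 + (P t / Q t) ^ 2) * ((P' * Q t - P t * Q') / Q t ^ 2)) =
        om * ((s * r t - 2 * C t * D t) * c1 t + 2 * D t ^ 2) / (P t ^ 2 + Q t ^ 2) := by
      rw [← hid]
      have := (hQpos t).ne'
      field_simp
      ring
    have hsinh : Real.sinh (s * r t) = 2 * C t * D t := by
      have : s * r t = 2 * (s * r t / 2) := by ring
      rw [this, Real.sinh_two_mul]; simp only [hC, hD]; ring_nf
    have hcosh : Real.cosh (s * r t) - 1 = 2 * D t ^ 2 := by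
      have : s * r t = 2 * (s * r t / 2) := by ring
      rw [this, Real.cosh_two_mul]
      have h3 := hCD t
      simp only [hC, hD] at h3 ⊢
      linarith
    have hcp := curvature_pos (s * r t) (c1 t) (by positivity) (hc1le t)
    rw [hsinh, hcosh] at hcp
    calc (0 : ℝ) < om * ((s * r t - 2 * C t * D t) * c1 t + 2 * D t ^ 2) / (P t ^ 2 + Q t ^ 2) := by
          positivity
      _ = _ := hval.symm
  have hGc : ContinuousOn G (Icc 0 T) := by
    intro t ht
    rcases eq_or_lt_of_le ht.1 with h | h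
    · exact hend t ht (by simp [hr, hx, hy, ← h])
    · rcases eq_or_lt_of_le ht.2 with h' | h'
      · exact hend t ht (by simp [hr, hx, hy, h', hXT, hYT])
      · obtain ⟨g, -, hg⟩ := hder t ⟨h, h'⟩
        exact hg.continuousAt.continuousWithinAt
  have hmono : StrictMonoOn G (Icc 0 T) := by
    apply strictMonoOn_of_deriv_pos (convex_Icc 0 T) hGc
    intro t ht
    rw [interior_Icc] at ht
    obtain ⟨g, hg0, hg⟩ := hder t ht
    rw [hg.deriv]; exact hg0
  have h1 := hmono (left_mem_Icc.2 hT.le) (right_mem_Icc.2 hT.le) hT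
  have e0 : G 0 = θ 0 := by simp [hG, hP, hD, hr, hx, hy]
  have eT : G T = θ T := by simp [hG, hP, hD, hr, hx, hy, hXT, hYT]
  rwa [e0, eT] at h1

end Pool.Agent.V11190.Bicycle
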