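import Mathlib
import Pool.Agent.V11190.Bicycle1

open Set Filter Topology MeasureTheory

namespace Pool.Agent.V11190.Bicycle

/-- Solution on `[0, T]` of the bicycle equation `θ' = s (Y' cos θ - X' sin θ)`. -/
def IsSol (s T : ℝ) (X' Y' θ : ℝ → ℝ) : Prop :=
  ∀ t ∈ Icc 0 T, HasDerivWithinAt θ (s * (Y' t * Real.cos (θ t) - X' t * Real.sin (θ t)))
    (Icc 0 T) t

/-- Analytic data of a strictly convex closed curve, positively oriented. -/
structure Track (T : ℝ) (X Y X' Y' v φ φ' : ℝ → ℝ) : Prop where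
  T_pos : 0 < T
  hX : ∀ t, HasDerivAt X (X' t) t
  hY : ∀ t, HasDerivAt Y (Y' t) t
  cX' : Continuous X'
  cY' : Continuous Y'
  closedX : X T = X 0
  closedY : Y T = Y 0
  eX : ∀ t, X' t = v t * Real.cos (φ t)
  eY : ∀ t, Y' t = v t * Real.sin (φ t)
  v_pos : ∀ t, 0 < v t
  cv : Continuous v
  hφ : ∀ t, HasDerivAt φ (φ' t) t
  φ'_nonneg : ∀ t, 0 ≤ φ' t
  cφ' : Continuous φ'
  turn : φ T = φ 0 + 2 * Real.pi
  wind : ∀ t ∈ Ioo 0 T, 0 < (X t - X 0) * Y' t - (Y t - Y 0) * X' t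

lemma field_eq {v φ X' Y' : ℝ} (hX : X' = v * Real.cos φ) (hY : Y' = v * Real.sin φ) (s θ : ℝ) :
    s * (Y' * Real.cos θ - X' * Real.sin θ) = s * v * Real.sin (φ - θ) := by
  rw [hX, hY, Real.sin_sub]; ring

lemma sin_lip (a b : ℝ) : |Real.sin a - Real.sin b| ≤ |a - b| := by
  have := Real.lipschitzWith_sin.dist_le_mul a b
  simpa [Real.dist_eq] using this

lemma field_lip {s v V φ : ℝ} (hs : 0 < s) (hv : 0 ≤ v) (hV : v ≤ V) (a b : ℝ) :
    s * v * Real.sin (φ - a) - s * v * Real.sin (φ - b) ≤ s * V * |b - a| := by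
  have h1 := sin_lip (φ - a) (φ - b)
  have h2 : (φ - a) - (φ - b) = b - a := by ring
  rw [h2] at h1
  have h3 := (abs_le.1 h1).2
  have h4 : 0 ≤ |b - a| := abs_nonneg _
  calc s * v * Real.sin (φ - a) - s * v * Real.sin (φ - b)
      = s * v * (Real.sin (φ - a) - Real.sin (φ - b)) := by ring
    _ ≤ s * v * |b - a| := mul_le_mul_of_nonneg_left h3 (by positivity)
    _ ≤ s * V * |b - a| := by
        apply mul_le_mul_of_nonneg_right _ h4
        exact mul_le_mul_of_nonneg_left hV hs.le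

variable {T : ℝ} {X Y X' Y' v φ φ' : ℝ → ℝ}

lemma IsSol.form (tr : Track T X Y X' Y' v φ φ') {s : ℝ} {θ : ℝ → ℝ} (h : IsSol s T X' Y' θ) :
    ∀ t ∈ Icc 0 T, HasDerivWithinAt θ (s * v t * Real.sin (φ t - θ t)) (Icc 0 T) t := by
  intro t ht
  have := h t ht
  rwa [field_eq (tr.eX t) (tr.eY t)] at this

lemma Track.vbound (tr : Track T X Y X' Y' v φ φ') : ∃ V, 0 < V ∧ ∀ t ∈ Icc 0 T, v t ≤ V := by
  obtain ⟨x, hx, hmax⟩ := isCompact_Icc.exists_isMaxOn (nonempty_Icc.2 tr.T_pos.le)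
    (tr.cv.continuousOn (s := Icc 0 T))
  exact ⟨v x, tr.v_pos x, fun t ht => hmax ht⟩

/-- A solution does not overtake the tangent direction. -/
lemma barrier (tr : Track T X Y X' Y' v φ φ') {s : ℝ} (hs : 0 < s) {θ : ℝ → ℝ}
    (h : IsSol s T X' Y' θ) (m : ℤ) {a : ℝ} (ha : a ∈ Icc 0 T) (h0 : θ a ≤ φ a - m * Real.pi) :
    (∀ t ∈ Icc a T, θ t ≤ φ t - m * Real.pi) ∧
      (θ a < φ a - m * Real.pi → θ T < φ T - m * Real.pi) := by
  obtain ⟨V, hV, hVb⟩ := tr.vbound
  have hsub : Icc a T ⊆ Icc 0 T := Icc_subset_Icc_left ha.1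
  apply compare (C := s * V) ha.2 (u := fun t => φ t - m * Real.pi) (w := θ)
    (u' := φ') (w' := fun t => s * v t * Real.sin (φ t - θ t))
  · intro t ht
    exact ((tr.hφ t).sub_const _).hasDerivWithinAt
  · intro t ht
    exact ((h.form tr) t (hsub ht)).mono hsub
  · intro t ht
    have h1 := field_lip (φ := φ t) hs (tr.v_pos t).le (hVb t (hsub ht)) (θ t)
      (φ t - m * Real.pi)
    have h2 : φ t - (φ t - m * Real.pi) = m * Real.pi := by ring
    rw [h2, Real.sin_int_mul_pi, mul_zero, sub_zero] at h1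
    have := tr.φ'_nonneg t
    linarith
  · exact h0

lemma φ_ne (tr : Track T X Y X' Y' v φ φ') : φ T ≠ φ 0 := by
  rw [tr.turn]; have := Real.pi_pos; intro h; linarith

/-- Strict form of the barrier over the full period. -/
lemma barrier_strict (tr : Track T X Y X' Y' v φ φ') {s : ℝ} (hs : 0 < s) {θ : ℝ → ℝ}
    (h : IsSol s T X' Y' θ) (m : ℤ) (h0 : θ 0 ≤ φ 0 - m * Real.pi) :
    θ T < φ T - m * Real.pi := by
  have h0T : (0 : ℝ) ∈ Icc 0 T := left_mem_Icc.2 tr.T_pos.le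
  obtain ⟨h1, -⟩ := barrier tr hs h m h0T h0
  by_contra hcon
  push Not at hcon
  have heq : ∀ t ∈ Icc 0 T, θ t = φ t - m * Real.pi := by
    intro t ht
    by_contra hne
    have hlt : θ t < φ t - m * Real.pi := lt_of_le_of_ne (h1 t ht) hne
    have := (barrier tr hs h m ht hlt.le).2 hlt
    linarith
  -- then θ is constant
  have hconst : ∀ t ∈ Icc 0 T, HasDerivWithinAt θ 0 (Icc 0 T) t := by
    intro t ht
    have h2 := h.form tr t ht
    have h3 : φ t - θ t = m * Real.pi := by rw [heq t ht]; ring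
    rwa [h3, Real.sin_int_mul_pi, mul_zero] at h2
  have hc : θ T = θ 0 := by
    have := (convex_Icc 0 T).norm_image_sub_le_of_norm_hasDerivWithin_le (C := 0)
      hconst (fun t _ => by simp) h0T (right_mem_Icc.2 tr.T_pos.le)
    rw [zero_mul, norm_le_zero_iff] at this
    linarith
  rw [heq T (right_mem_Icc.2 tr.T_pos.le), heq 0 h0T] at hc
  exact φ_ne tr (by linarith)

/-- Every solution increases. -/
lemma increases (tr : Track T X Y X' Y' v φ φ') {s : ℝ} (hs : 0 < s) {θ : ℝ → ℝ}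
    (h : IsSol s T X' Y' θ) : θ 0 < θ T :=
  growth hs tr.T_pos tr.hX tr.hY tr.closedX tr.closedY tr.wind h

/-- Crude upper bound. -/
lemma upper (tr : Track T X Y X' Y' v φ φ') {s : ℝ} (hs : 0 < s) {θ : ℝ → ℝ}
    (h : IsSol s T X' Y' θ) : θ T < θ 0 + 4 * Real.pi := by
  have hpi := Real.pi_pos
  set k : ℤ := ⌊(φ 0 - θ 0) / (2 * Real.pi)⌋ with hk
  have h1 : (k : ℝ) ≤ (φ 0 - θ 0) / (2 * Real.pi) := Int.floor_le _
  have h2 : (φ 0 - θ 0) / (2 * Real.pi) < k + 1 := Int.lt_floor_add_one _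
  rw [le_div_iff₀ (by positivity)] at h1
  rw [div_lt_iff₀ (by positivity)] at h2
  have h3 := barrier_strict tr hs h (2 * k) (by push_cast; linarith)
  rw [tr.turn] at h3
  push_cast at h3
  linarith

/-- **Closed solutions turn exactly once.** -/
theorem closed_turn (tr : Track T X Y X' Y' v φ φ') {s : ℝ} (hs : 0 < s) {θ : ℝ → ℝ}
    (h : IsSol s T X' Y' θ) (k : ℤ) (hk : θ T = θ 0 + k * (2 * Real.pi)) : k = 1 := by
  have hpi := Real.pi_pos
  have h1 := increases tr hs h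
  have h2 := upper tr hs h
  rw [hk] at h1 h2
  have h3 : (0 : ℝ) < k := by nlinarith
  have h4 : (k : ℝ) < 2 := by nlinarith
  have h5 : 0 < k := by exact_mod_cast h3
  have h6 : k < 2 := by exact_mod_cast h4
  omega

/-- A solution with rotation at least `2π` stays behind the tangent by an angle in `[0, π)`. -/
lemma sin_nonneg_of_full (tr : Track T X Y X' Y' v φ φ') {s : ℝ} (hs : 0 < s) {θ : ℝ → ℝ}
    (h : IsSol s T X' Y' θ) (hfull : θ 0 + 2 * Real.pi ≤ θ T) :
    (∀ t ∈ Icc 0 T, 0 ≤ Real.sin (φ t - θ t)) ∧ 0 < Real.sin (φ 0 - θ 0) := by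
  have hpi := Real.pi_pos
  have h0T : (0 : ℝ) ∈ Icc 0 T := left_mem_Icc.2 tr.T_pos.le
  have hTT : T ∈ Icc 0 T := right_mem_Icc.2 tr.T_pos.le
  set m : ℤ := ⌊(φ 0 - θ 0) / Real.pi⌋ with hm
  have h1 : (m : ℝ) ≤ (φ 0 - θ 0) / Real.pi := Int.floor_le _
  have h2 : (φ 0 - θ 0) / Real.pi < m + 1 := Int.lt_floor_add_one _
  rw [le_div_iff₀ hpi] at h1
  rw [div_lt_iff₀ hpi] at h2
  have hb := (barrier tr hs h m h0T (by linarith)).1
  have hT1 := barrier_strict tr hs h m (by linarith)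
  -- upper: β t < (m+1) π
  have hup : ∀ t ∈ Icc 0 T, φ t - θ t < (m + 1) * Real.pi := by
    intro t ht
    by_contra hcon
    push Not at hcon
    have h3 := (barrier tr hs h (m + 1) ht (by push_cast; linarith)).1 T ⟨ht.2, le_rfl⟩
    rw [tr.turn] at h3
    push_cast at h3
    linarith
  have hsin : ∀ t, Real.sin (φ t - θ t) = (-1) ^ m * Real.sin (φ t - θ t - m * Real.pi) := by
    intro t
    rw [Real.sin_sub_int_mul_pi]
    rw [← mul_assoc, ← mul_zpow]
    simp
  have hpos : ∀ t ∈ Icc 0 T, 0 ≤ Real.sin (φ t - θ t - m * Real.pi) := by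
    intro t ht
    apply Real.sin_nonneg_of_nonneg_of_le_pi
    · have := hb t ht; linarith
    · have := hup t ht; linarith
  have hstart : 0 < φ 0 - θ 0 - m * Real.pi := by
    rw [tr.turn] at hT1
    linarith
  have hpos0 : 0 < Real.sin (φ 0 - θ 0 - m * Real.pi) := by
    apply Real.sin_pos_of_pos_of_lt_pi hstart
    linarith
  rcases Int.even_or_odd m with hev | hodd
  · have he : ((-1 : ℝ)) ^ m = 1 := hev.neg_one_zpow
    refine ⟨fun t ht => ?_, ?_⟩
    · rw [hsin, he, one_mul]; exact hpos t ht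
    · rw [hsin, he, one_mul]; exact hpos0
  · exfalso
    have he : ((-1 : ℝ)) ^ m = -1 := hodd.neg_one_zpow
    -- then θ' ≤ 0
    have hθmono : θ T ≤ θ 0 := by
      have hanti : AntitoneOn θ (Icc 0 T) := by
        apply antitoneOn_of_deriv_nonpos (convex_Icc 0 T)
        · exact fun t ht => (h t ht).continuousWithinAt
        · intro t ht
          rw [interior_Icc] at ht
          exact ((h t ⟨ht.1.le, ht.2.le⟩).hasDerivAt
            (Icc_mem_nhds ht.1 ht.2)).differentiableAt.differentiableWithinAt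
        · intro t ht
          rw [interior_Icc] at ht
          have hd := ((h.form tr) t ⟨ht.1.le, ht.2.le⟩).hasDerivAt (Icc_mem_nhds ht.1 ht.2)
          rw [hd.deriv, hsin, he]
          have h4 := hpos t ⟨ht.1.le, ht.2.le⟩
          have h5 := tr.v_pos t
          have h6 : 0 ≤ s * v t := by positivity
          nlinarith
      exact hanti h0T hTT tr.T_pos.le
    linarith

/-- Increasing `s` increases the rotation of a fully rotating solution. -/
lemma grow_s (tr : Track T X Y X' Y' v φ φ') {s1 s : ℝ} (hs1 : 0 < s1) (hlt : s1 < s)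
    {θ1 θ : ℝ → ℝ} (h1 : IsSol s1 T X' Y' θ1) (h : IsSol s T X' Y' θ)
    (hfull : θ1 0 + 2 * Real.pi ≤ θ1 T) (h0 : θ 0 = θ1 0) : θ 0 + 2 * Real.pi < θ T := by
  have hs : 0 < s := hs1.trans hlt
  obtain ⟨V, hV, hVb⟩ := tr.vbound
  have h0T : (0 : ℝ) ∈ Icc 0 T := left_mem_Icc.2 tr.T_pos.le
  have hTT : T ∈ Icc 0 T := right_mem_Icc.2 tr.T_pos.le
  obtain ⟨hsin, hsin0⟩ := sin_nonneg_of_full tr hs1 h1 hfull
  have hcmp : ∀ a ∈ Icc 0 T, θ1 a ≤ θ a → (∀ t ∈ Icc a T, θ1 t ≤ θ t) ∧ (θ1 a < θ a → θ1 T < θ T) := by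
    intro a ha hle
    have hsub : Icc a T ⊆ Icc 0 T := Icc_subset_Icc_left ha.1
    apply compare (C := s * V) ha.2 (u := θ) (w := θ1)
      (u' := fun t => s * v t * Real.sin (φ t - θ t))
      (w' := fun t => s1 * v t * Real.sin (φ t - θ1 t))
    · intro t ht
      exact ((h.form tr) t (hsub ht)).mono hsub
    · intro t ht
      exact ((h1.form tr) t (hsub ht)).mono hsub
    · intro t ht
      have e1 := field_lip (φ := φ t) hs (tr.v_pos t).le (hVb t (hsub ht)) (θ1 t) (θ t)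
      have e2 := hsin t (hsub ht)
      have e3 := tr.v_pos t
      have e4 : s1 * v t * Real.sin (φ t - θ1 t) ≤ s * v t * Real.sin (φ t - θ1 t) := by
        apply mul_le_mul_of_nonneg_right _ e2
        exact mul_le_mul_of_nonneg_right hlt.le e3.le
      linarith
    · exact hle
  have hge := (hcmp 0 h0T h0.ge).1
  have hstrict : θ1 T < θ T := by
    by_contra hcon
    push Not at hcon
    have heq : ∀ t ∈ Icc 0 T, θ1 t = θ t := by
      intro t ht
      by_contra hne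
      have hlt' : θ1 t < θ t := lt_of_le_of_ne (hge t ht) hne
      have := (hcmp t ht hlt'.le).2 hlt'
      linarith
    have hd1 := (h1.form tr) 0 h0T
    have hd2 := (h.form tr) 0 h0T
    have hd3 : HasDerivWithinAt θ1 (s * v 0 * Real.sin (φ 0 - θ 0)) (Icc 0 T) 0 :=
      hd2.congr heq (heq 0 h0T)
    have hu : UniqueDiffWithinAt ℝ (Icc 0 T) 0 := uniqueDiffOn_Icc tr.T_pos 0 h0T
    have he := hu.eq_deriv _ hd1 hd3
    rw [h0] at he
    have h5 := tr.v_pos 0
    have h6 : 0 < v 0 * Real.sin (φ 0 - θ1 0) := by positivity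
    have h7 : s1 * (v 0 * Real.sin (φ 0 - θ1 0)) = s * (v 0 * Real.sin (φ 0 - θ1 0)) := by
      linarith
    exact absurd (mul_right_cancel₀ h6.ne' h7) hlt.ne
  rw [h0]
  linarith

/-- Existence of solutions. -/
lemma exists_sol {T : ℝ} (hT : 0 < T) {X' Y' : ℝ → ℝ} (cX : Continuous X') (cY : Continuous Y')
    {s : ℝ} (hs : 0 < s) (θ0 : ℝ) : ∃ θ : ℝ → ℝ, θ 0 = θ0 ∧ IsSol s T X' Y' θ := by
  obtain ⟨B, hB, hBb⟩ : ∃ B : ℝ, 0 < B ∧ ∀ t ∈ Icc 0 T, |X' t| + |Y' t| ≤ B := by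
    obtain ⟨x, hx, hmax⟩ := isCompact_Icc.exists_isMaxOn (nonempty_Icc.2 hT.le)
      ((cX.abs.add cY.abs).continuousOn (s := Icc 0 T))
    refine ⟨|X' x| + |Y' x| + 1, by positivity, fun t ht => ?_⟩
    have : |X' t| + |Y' t| ≤ |X' x| + |Y' x| := hmax ht
    linarith
  set L : NNReal := ⟨s * B, by positivity⟩ with hL
  have hpl : IsPicardLindelof (fun t θ => s * (Y' t * Real.cos θ - X' t * Real.sin θ))
      (tmin := 0) (tmax := T) ⟨0, left_mem_Icc.2 hT.le⟩ θ0 (L * ⟨T, hT.le⟩) 0 L L := by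
    constructor
    · intro t ht
      apply LipschitzOnWith.of_dist_le_mul
      intro a _ b _
      rw [Real.dist_eq, Real.dist_eq]
      have e1 : |Real.cos a - Real.cos b| ≤ |a - b| := by
        have := Real.lipschitzWith_cos.dist_le_mul a b
        simpa [Real.dist_eq] using this
      have e2 := sin_lip a b
      have e3 : s * (Y' t * Real.cos a - X' t * Real.sin a) -
          s * (Y' t * Real.cos b - X' t * Real.sin b) =
          s * (Y' t * (Real.cos a - Real.cos b) - X' t * (Real.sin a - Real.sin b)) := by ring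
      rw [e3, abs_mul, abs_of_pos hs]
      change _ ≤ s * B * |a - b|
      rw [mul_assoc]
      apply mul_le_mul_of_nonneg_left _ hs.le
      calc |Y' t * (Real.cos a - Real.cos b) - X' t * (Real.sin a - Real.sin b)|
          ≤ |Y' t * (Real.cos a - Real.cos b)| + |X' t * (Real.sin a - Real.sin b)| := abs_sub _ _
        _ = |Y' t| * |Real.cos a - Real.cos b| + |X' t| * |Real.sin a - Real.sin b| := by
            rw [abs_mul, abs_mul]
        _ ≤ |Y' t| * |a - b| + |X' t| * |a - b| := by gcongr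
        _ = (|X' t| + |Y' t|) * |a - b| := by ring
        _ ≤ B * |a - b| := by gcongr; exact hBb t ht
    · intro x _
      fun_prop
    · intro t ht x _
      rw [Real.norm_eq_abs, abs_mul, abs_of_pos hs]
      change _ ≤ s * B
      apply mul_le_mul_of_nonneg_left _ hs.le
      calc |Y' t * Real.cos x - X' t * Real.sin x|
          ≤ |Y' t * Real.cos x| + |X' t * Real.sin x| := abs_sub _ _
        _ = |Y' t| * |Real.cos x| + |X' t| * |Real.sin x| := by rw [abs_mul, abs_mul]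
        _ ≤ |Y' t| * 1 + |X' t| * 1 := by
            gcongr
            · exact Real.abs_cos_le_one x
            · exact Real.abs_sin_le_one x
        _ ≤ B := by have := hBb t ht; linarith
    · simp only [sub_zero, sub_self, max_eq_left hT.le, NNReal.coe_mul, NNReal.coe_zero]
      exact le_rfl
  obtain ⟨θ, hθ0, hθ⟩ := hpl.exists_eq_forall_mem_Icc_hasDerivWithinAt₀
  exact ⟨θ, hθ0, hθ⟩


/-- The growth factor along a solution. -/
lemma exists_rho {T : ℝ} (hT : 0 < T) {X' Y' : ℝ → ℝ} (cX : Continuous X') (cY : Continuous Y')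
    {s : ℝ} {θ : ℝ → ℝ} (h : IsSol s T X' Y' θ) : ∃ ρ : ℝ → ℝ, ρ 0 = 1 ∧ (∀ t, 0 < ρ t) ∧
      ∀ t ∈ Icc 0 T, HasDerivWithinAt ρ
        (s / 2 * (X' t * Real.cos (θ t) + Y' t * Real.sin (θ t)) * ρ t) (Icc 0 T) t := by
  have hθc : ContinuousOn θ (Icc 0 T) := fun t ht => (h t ht).continuousWithinAt
  set θe : ℝ → ℝ := IccExtend hT.le ((Icc 0 T).domRestrict θ) with hθe
  have hθec : Continuous θe := (continuousOn_iff_continuous_domRestrict.1 hθc).Icc_extend'
  set g : ℝ → ℝ := fun t => s / 2 * (X' t * Real.cos (θe t) + Y' t * Real.sin (θe t)) with hg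
  have hgc : Continuous g := by fun_prop
  have hI : ∀ t, HasDerivAt (fun t => ∫ τ in (0 : ℝ)..t, g τ) (g t) t := fun t =>
    intervalIntegral.integral_hasDerivAt_right (hgc.intervalIntegrable _ _)
      (hgc.stronglyMeasurableAtFilter _ _) hgc.continuousAt
  refine ⟨fun t => Real.exp (∫ τ in (0 : ℝ)..t, g τ), by simp, fun t => Real.exp_pos _, ?_⟩
  intro t ht
  have h1 := (hI t).exp.hasDerivWithinAt (s := Icc 0 T)
  have h2 : θe t = θ t := by rw [hθe, IccExtend_of_mem _ _ ht]; rfl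
  refine h1.congr_deriv ?_
  simp only [hg, h2]
  ring

/-- Wronskian identity: for two solutions with growth factors `ρ₁, ρ₂`, the quantity
`ρ₁ ρ₂ sin ((θ₂ - θ₁)/2)` is constant. -/
lemma wronskian {T : ℝ} (hT : 0 < T) {X' Y' : ℝ → ℝ} {s : ℝ} {θ1 θ2 ρ1 ρ2 : ℝ → ℝ}
    (h1 : IsSol s T X' Y' θ1) (h2 : IsSol s T X' Y' θ2)
    (hρ1 : ∀ t ∈ Icc 0 T, HasDerivWithinAt ρ1
        (s / 2 * (X' t * Real.cos (θ1 t) + Y' t * Real.sin (θ1 t)) * ρ1 t) (Icc 0 T) t)
    (hρ2 : ∀ t ∈ Icc 0 T, HasDerivWithinAt ρ2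
        (s / 2 * (X' t * Real.cos (θ2 t) + Y' t * Real.sin (θ2 t)) * ρ2 t) (Icc 0 T) t) :
    ρ1 T * ρ2 T * Real.sin ((θ2 T - θ1 T) / 2) = ρ1 0 * ρ2 0 * Real.sin ((θ2 0 - θ1 0) / 2) := by
  have h0T : (0 : ℝ) ∈ Icc 0 T := left_mem_Icc.2 hT.le
  have key : ∀ t ∈ Icc 0 T, HasDerivWithinAt
      (fun t => ρ1 t * ρ2 t * Real.sin ((θ2 t - θ1 t) / 2)) 0 (Icc 0 T) t := by
    intro t ht
    have hd := ((hρ1 t ht).mul (hρ2 t ht)).mul (((h2 t ht).sub (h1 t ht)).div_const 2).sin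
    refine hd.congr_deriv ?_
    set a := θ1 t / 2 with ha
    set b := θ2 t / 2 with hb
    have e1 : θ1 t = 2 * a := by rw [ha]; ring
    have e2 : θ2 t = 2 * b := by rw [hb]; ring
    simp only [Pi.mul_apply, Pi.sub_apply]
    rw [e1, e2]
    have e3 : (2 * b - 2 * a) / 2 = b - a := by ring
    rw [e3, Real.cos_two_mul', Real.cos_two_mul', Real.sin_two_mul, Real.sin_two_mul, Real.sin_sub,
      Real.cos_sub]
    have ea := Real.sin_sq_add_cos_sq a
    have eb := Real.sin_sq_add_cos_sq b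
    linear_combination (s / 2 * ρ1 t * ρ2 t * (X' t * (Real.sin b * Real.cos a +
      Real.cos b * Real.sin a) + Y' t * (Real.sin a * Real.sin b - Real.cos a * Real.cos b))) *
      (ea - eb)
  have := (convex_Icc 0 T).norm_image_sub_le_of_norm_hasDerivWithin_le (C := 0)
    key (fun t _ => by simp) h0T (right_mem_Icc.2 hT.le)
  rw [zero_mul, norm_le_zero_iff] at this
  linarith

end Pool.Agent.V11190.Bicycle
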