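import Mathlib
import Pool.Agent.V11190.Bicycle2

open Set Filter Topology MeasureTheory Matrix

namespace Pool.Agent.V11190.Bicycle

/-- `M ∈ SL(2, ℝ)` induces the monodromy `θ(0) ↦ θ(T)`; the circle of angles `θ` is identified with
the projective line through `θ ↦ [cos (θ/2) : sin (θ/2)]`. -/
def IsMonodromy (s T : ℝ) (X' Y' : ℝ → ℝ) (M : Matrix (Fin 2) (Fin 2) ℝ) : Prop :=
  M.det = 1 ∧ ∀ θ : ℝ → ℝ, IsSol s T X' Y' θ → ∃ c : ℝ, c ≠ 0 ∧
    M.mulVec ![Real.cos (θ 0 / 2), Real.sin (θ 0 / 2)] =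
      c • ![Real.cos (θ T / 2), Real.sin (θ T / 2)]

/-- Existence of the monodromy matrix, with positive factors. -/
lemma exists_mon {s T : ℝ} (hs : 0 < s) (hT : 0 < T) {X' Y' : ℝ → ℝ} (cX : Continuous X')
    (cY : Continuous Y') : ∃ M : Matrix (Fin 2) (Fin 2) ℝ, M.det = 1 ∧
      ∀ θ : ℝ → ℝ, IsSol s T X' Y' θ → ∃ c : ℝ, 0 < c ∧
        M.mulVec ![Real.cos (θ 0 / 2), Real.sin (θ 0 / 2)] =
          c • ![Real.cos (θ T / 2), Real.sin (θ T / 2)] := by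
  obtain ⟨θa, ha0, ha⟩ := exists_sol hT cX cY hs 0
  obtain ⟨θb, hb0, hb⟩ := exists_sol hT cX cY hs Real.pi
  obtain ⟨ρa, ρa0, ρapos, hρa⟩ := exists_rho hT cX cY ha
  obtain ⟨ρb, ρb0, ρbpos, hρb⟩ := exists_rho hT cX cY hb
  have hW := wronskian hT ha hb hρa hρb
  rw [ρa0, ρb0, ha0, hb0] at hW
  have hpi2 : Real.sin ((Real.pi - 0) / 2) = 1 := by rw [sub_zero, Real.sin_pi_div_two]
  rw [hpi2] at hW
  refine ⟨!![ρa T * Real.cos (θa T / 2), ρb T * Real.cos (θb T / 2);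
    ρa T * Real.sin (θa T / 2), ρb T * Real.sin (θb T / 2)], ?_, ?_⟩
  · rw [Matrix.det_fin_two_of]
    have e : (θb T - θa T) / 2 = θb T / 2 - θa T / 2 := by ring
    rw [e, Real.sin_sub] at hW
    linarith
  · intro θ hθ
    obtain ⟨ρ, ρ0, ρpos, hρ⟩ := exists_rho hT cX cY hθ
    refine ⟨ρ T, ρpos T, ?_⟩
    have h1 := wronskian hT hθ hb hρ hρb
    have h2 := wronskian hT ha hθ hρa hρ
    rw [ρ0, ρb0, hb0] at h1
    rw [ρ0, ρa0, ha0] at h2
    have e1 : Real.sin ((Real.pi - θ 0) / 2) = Real.cos (θ 0 / 2) := by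
      rw [← Real.sin_pi_div_two_sub]; ring_nf
    have e2 : Real.sin ((θ 0 - 0) / 2) = Real.sin (θ 0 / 2) := by rw [sub_zero]
    rw [e1] at h1
    rw [e2] at h2
    have f0 : (θb T - θa T) / 2 = θb T / 2 - θa T / 2 := by ring
    have f1 : (θb T - θ T) / 2 = θb T / 2 - θ T / 2 := by ring
    have f2 : (θ T - θa T) / 2 = θ T / 2 - θa T / 2 := by ring
    rw [f0, Real.sin_sub] at hW
    rw [f1, Real.sin_sub] at h1
    rw [f2, Real.sin_sub] at h2
    have ht := Real.sin_sq_add_cos_sq (θ T / 2)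
    ext i
    fin_cases i
    · simp [Matrix.mulVec, dotProduct, Fin.sum_univ_two]
      linear_combination (-(ρa T * Real.cos (θa T / 2))) * h1 -
        (ρb T * Real.cos (θb T / 2)) * h2 + ρ T * Real.cos (θ T / 2) * hW
    · simp [Matrix.mulVec, dotProduct, Fin.sum_univ_two]
      linear_combination (-(ρa T * Real.sin (θa T / 2))) * h1 -
        (ρb T * Real.sin (θb T / 2)) * h2 + ρ T * Real.sin (θ T / 2) * hW

/-- The monodromy matrix is unique up to sign. -/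
lemma mon_unique {s T : ℝ} (hs : 0 < s) (hT : 0 < T) {X' Y' : ℝ → ℝ} (cX : Continuous X')
    (cY : Continuous Y') {M N : Matrix (Fin 2) (Fin 2) ℝ} (hM : IsMonodromy s T X' Y' M)
    (hN : IsMonodromy s T X' Y' N) : M = N ∨ M = -N := by
  -- proportionality of the images of each unit vector
  have key : ∀ α : ℝ, ∃ c : ℝ, M.mulVec ![Real.cos α, Real.sin α] =
      c • N.mulVec ![Real.cos α, Real.sin α] := by
    intro α
    obtain ⟨θ, hθ0, hθ⟩ := exists_sol hT cX cY hs (2 * α)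
    obtain ⟨c, hc, h1⟩ := hM.2 θ hθ
    obtain ⟨d, hd, h2⟩ := hN.2 θ hθ
    have e : θ 0 / 2 = α := by rw [hθ0]; ring
    rw [e] at h1 h2
    refine ⟨c / d, ?_⟩
    rw [h1, h2, smul_smul, div_mul_cancel₀ _ hd]
  have hdM := hM.1
  have hdN := hN.1
  rw [Matrix.det_fin_two] at hdM hdN
  obtain ⟨c1, h1⟩ := key 0
  obtain ⟨c2, h2⟩ := key (Real.pi / 2)
  obtain ⟨c3, h3⟩ := key (Real.pi / 4)
  have a0 := congrFun h1 0
  have a1 := congrFun h1 1
  have b0 := congrFun h2 0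
  have b1 := congrFun h2 1
  have d0 := congrFun h3 0
  have d1 := congrFun h3 1
  simp [Matrix.mulVec, dotProduct, Fin.sum_univ_two] at a0 a1 b0 b1
  simp only [Matrix.mulVec, dotProduct, Fin.sum_univ_two, Matrix.cons_val_zero,
    Matrix.cons_val_one, Real.cos_pi_div_four, Real.sin_pi_div_four, Pi.smul_apply,
    smul_eq_mul] at d0 d1
  have hr : (0 : ℝ) < √2 / 2 := by positivity
  have d0' : M 0 0 + M 0 1 = c3 * (N 0 0 + N 0 1) := by
    apply mul_right_cancel₀ hr.ne'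
    linarith
  have d1' : M 1 0 + M 1 1 = c3 * (N 1 0 + N 1 1) := by
    apply mul_right_cancel₀ hr.ne'
    linarith
  rw [a0, b0] at d0'
  rw [a1, b1] at d1'
  have e1 : c1 = c3 := by
    linear_combination N 1 1 * d0' - N 0 1 * d1' - (c1 - c3) * hdN
  have e2 : c2 = c3 := by
    linear_combination -N 1 0 * d0' + N 0 0 * d1' - (c2 - c3) * hdN
  rw [a0, a1, b0, b1, e1, e2] at hdM
  have hc : c3 ^ 2 = 1 := by linear_combination hdM - c3 ^ 2 * hdN
  have hcc : c3 * c3 = 1 := by rw [← sq]; exact hc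
  rcases mul_self_eq_one_iff.1 hcc with h | h
  · left
    rw [e2, h] at b0 b1
    rw [e1, h] at a0 a1
    ext i j
    fin_cases i <;> fin_cases j <;> simp [a0, a1, b0, b1]
  · right
    rw [e2, h] at b0 b1
    rw [e1, h] at a0 a1
    ext i j
    fin_cases i <;> fin_cases j <;> simp [a0, a1, b0, b1]

/-- hyperbolic monodromy: `|tr M| > 2` -/
def Hyp (s T : ℝ) (X' Y' : ℝ → ℝ) : Prop :=
  (∃ M, IsMonodromy s T X' Y' M) ∧ ∀ M, IsMonodromy s T X' Y' M → 2 < |M.trace|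

/-- elliptic monodromy: `|tr M| < 2` -/
def Ell (s T : ℝ) (X' Y' : ℝ → ℝ) : Prop :=
  (∃ M, IsMonodromy s T X' Y' M) ∧ ∀ M, IsMonodromy s T X' Y' M → |M.trace| < 2

/-- the quadratic form `w ∧ M w` -/
lemma quad {M : Matrix (Fin 2) (Fin 2) ℝ} {a b c : ℝ}
    (h : M.mulVec ![Real.cos a, Real.sin a] = c • ![Real.cos b, Real.sin b]) :
    M 1 0 * Real.cos a ^ 2 + (M 1 1 - M 0 0) * Real.cos a * Real.sin a - M 0 1 * Real.sin a ^ 2 =
      c * Real.sin (b - a) := by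
  have h0 := congrFun h 0
  have h1 := congrFun h 1
  simp [Matrix.mulVec, dotProduct, Fin.sum_univ_two] at h0 h1
  rw [Real.sin_sub]
  linear_combination Real.cos a * h1 - Real.sin a * h0

lemma disc_eq {M : Matrix (Fin 2) (Fin 2) ℝ} (h : M.det = 1) :
    (M 1 1 - M 0 0) ^ 2 + 4 * M 1 0 * M 0 1 = M.trace ^ 2 - 4 := by
  rw [Matrix.det_fin_two] at h
  rw [Matrix.trace_fin_two]
  linear_combination -4 * h

/-- If all rotations lie in `(0, 2π)` the monodromy is elliptic. -/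
lemma ell_of {s T : ℝ} (hs : 0 < s) (hT : 0 < T) {X' Y' : ℝ → ℝ} (cX : Continuous X')
    (cY : Continuous Y')
    (h : ∀ θ : ℝ → ℝ, IsSol s T X' Y' θ → θ 0 < θ T ∧ θ T < θ 0 + 2 * Real.pi) :
    Ell s T X' Y' := by
  obtain ⟨M, hdet, hM⟩ := exists_mon hs hT cX cY
  have hMon : IsMonodromy s T X' Y' M := ⟨hdet, fun θ hθ => by
    obtain ⟨c, hc, h1⟩ := hM θ hθ
    exact ⟨c, hc.ne', h1⟩⟩
  have hq : ∀ α : ℝ, 0 < M 1 0 * Real.cos α ^ 2 + (M 1 1 - M 0 0) * Real.cos α * Real.sin α -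
      M 0 1 * Real.sin α ^ 2 := by
    intro α
    obtain ⟨θ, hθ0, hθ⟩ := exists_sol hT cX cY hs (2 * α)
    obtain ⟨c, hc, h1⟩ := hM θ hθ
    have e : θ 0 / 2 = α := by rw [hθ0]; ring
    rw [e] at h1
    rw [quad h1]
    obtain ⟨h2, h3⟩ := h θ hθ
    apply mul_pos hc
    apply Real.sin_pos_of_pos_of_lt_pi <;> linarith
  have hm : 0 < M 1 0 := by simpa using hq 0
  have htr : |M.trace| < 2 := by
    set z : ℂ := ⟨-(M 1 1 - M 0 0), 2 * M 1 0⟩ with hz
    have hzne : z ≠ 0 := by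
      intro h0
      have := congrArg Complex.im h0
      simp [hz] at this
      linarith
    have hn : 0 < ‖z‖ := norm_pos_iff.2 hzne
    have hc := Complex.cos_arg hzne
    have hsn := Complex.sin_arg z
    have h1 := hq z.arg
    rw [hc, hsn] at h1
    have h2 : 0 < ‖z‖ ^ 2 * (M 1 0 * (z.re / ‖z‖) ^ 2 + (M 1 1 - M 0 0) * (z.re / ‖z‖) *
        (z.im / ‖z‖) - M 0 1 * (z.im / ‖z‖) ^ 2) := by positivity
    have h3 : ‖z‖ ^ 2 * (M 1 0 * (z.re / ‖z‖) ^ 2 + (M 1 1 - M 0 0) * (z.re / ‖z‖) *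
        (z.im / ‖z‖) - M 0 1 * (z.im / ‖z‖) ^ 2) =
        M 1 0 * z.re ^ 2 + (M 1 1 - M 0 0) * z.re * z.im - M 0 1 * z.im ^ 2 := by
      field_simp
    rw [h3] at h2
    simp only [hz] at h2
    have h4 : 0 < -(M 1 0 * ((M 1 1 - M 0 0) ^ 2 + 4 * M 1 0 * M 0 1)) := by
      linarith
    rw [disc_eq hdet] at h4
    rw [← sq_lt_sq₀ (abs_nonneg _) (by norm_num), sq_abs]
    nlinarith
  refine ⟨⟨M, hMon⟩, fun N hN => ?_⟩
  rcases mon_unique hs hT cX cY hN hMon with h1 | h1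
  · rw [h1]; exact htr
  · rw [h1, Matrix.trace_neg, abs_neg]; exact htr

/-- If some rotation lies in `(0, 2π)` and another in `(2π, 4π)` the monodromy is hyperbolic. -/
lemma hyp_of {s T : ℝ} (hs : 0 < s) (hT : 0 < T) {X' Y' : ℝ → ℝ} (cX : Continuous X')
    (cY : Continuous Y') {θ1 θ2 : ℝ → ℝ} (h1 : IsSol s T X' Y' θ1) (h2 : IsSol s T X' Y' θ2)
    (a1 : θ1 0 < θ1 T) (b1 : θ1 T < θ1 0 + 2 * Real.pi) (a2 : θ2 0 + 2 * Real.pi < θ2 T)
    (b2 : θ2 T < θ2 0 + 4 * Real.pi) : Hyp s T X' Y' := by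
  obtain ⟨M, hdet, hM⟩ := exists_mon hs hT cX cY
  have hMon : IsMonodromy s T X' Y' M := ⟨hdet, fun θ hθ => by
    obtain ⟨c, hc, h1⟩ := hM θ hθ
    exact ⟨c, hc.ne', h1⟩⟩
  obtain ⟨c1, hc1, e1⟩ := hM θ1 h1
  obtain ⟨c2, hc2, e2⟩ := hM θ2 h2
  have q1 := quad e1
  have q2 := quad e2
  have s1 : 0 < Real.sin (θ1 T / 2 - θ1 0 / 2) := by
    apply Real.sin_pos_of_pos_of_lt_pi <;> linarith
  have s2 : Real.sin (θ2 T / 2 - θ2 0 / 2) < 0 := by
    have : 0 < Real.sin (θ2 T / 2 - θ2 0 / 2 - Real.pi) := by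
      apply Real.sin_pos_of_pos_of_lt_pi <;> linarith
    rw [Real.sin_sub_pi] at this
    linarith
  have p1 : 0 < M 1 0 * Real.cos (θ1 0 / 2) ^ 2 + (M 1 1 - M 0 0) * Real.cos (θ1 0 / 2) *
      Real.sin (θ1 0 / 2) - M 0 1 * Real.sin (θ1 0 / 2) ^ 2 := by
    rw [q1]; exact mul_pos hc1 s1
  have p2 : M 1 0 * Real.cos (θ2 0 / 2) ^ 2 + (M 1 1 - M 0 0) * Real.cos (θ2 0 / 2) *
      Real.sin (θ2 0 / 2) - M 0 1 * Real.sin (θ2 0 / 2) ^ 2 < 0 := by
    rw [q2]; exact mul_neg_of_pos_of_neg hc2 s2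
  have htr : 2 < |M.trace| := by
    rw [← sq_lt_sq₀ (by norm_num) (abs_nonneg _), sq_abs]
    by_contra hcon
    push Not at hcon
    have hd := disc_eq hdet
    have hdisc : (M 1 1 - M 0 0) ^ 2 + 4 * M 1 0 * M 0 1 ≤ 0 := by linarith
    set m := M 1 0 with hm
    set d := M 1 1 - M 0 0 with hdd
    set n := M 0 1 with hn
    have hsq : ∀ x y : ℝ, 4 * m * (m * x ^ 2 + d * x * y - n * y ^ 2) =
        (2 * m * x + d * y) ^ 2 - (d ^ 2 + 4 * m * n) * y ^ 2 := fun x y => by ring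
    have g1 := hsq (Real.cos (θ1 0 / 2)) (Real.sin (θ1 0 / 2))
    have g2 := hsq (Real.cos (θ2 0 / 2)) (Real.sin (θ2 0 / 2))
    have k1 : 0 ≤ 4 * m * (m * Real.cos (θ1 0 / 2) ^ 2 + d * Real.cos (θ1 0 / 2) *
        Real.sin (θ1 0 / 2) - n * Real.sin (θ1 0 / 2) ^ 2) := by
      rw [g1]
      have := sq_nonneg (2 * m * Real.cos (θ1 0 / 2) + d * Real.sin (θ1 0 / 2))
      have := sq_nonneg (Real.sin (θ1 0 / 2))
      nlinarith
    have k2 : 0 ≤ 4 * m * (m * Real.cos (θ2 0 / 2) ^ 2 + d * Real.cos (θ2 0 / 2) *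
        Real.sin (θ2 0 / 2) - n * Real.sin (θ2 0 / 2) ^ 2) := by
      rw [g2]
      have := sq_nonneg (2 * m * Real.cos (θ2 0 / 2) + d * Real.sin (θ2 0 / 2))
      have := sq_nonneg (Real.sin (θ2 0 / 2))
      nlinarith
    have hm1 : 0 ≤ m := by
      by_contra hneg
      push Not at hneg
      nlinarith
    have hm2 : m ≤ 0 := by
      by_contra hposm
      push Not at hposm
      nlinarith
    have hm0 : m = 0 := le_antisymm hm2 hm1
    rw [hm0] at hdisc p1 p2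
    have hd0 : d = 0 := by nlinarith [sq_nonneg d]
    rw [hd0] at p1 p2
    have r1 := sq_nonneg (Real.sin (θ1 0 / 2))
    have r2 := sq_nonneg (Real.sin (θ2 0 / 2))
    have hn1 : n < 0 := by nlinarith
    nlinarith
  refine ⟨⟨M, hMon⟩, fun N hN => ?_⟩
  rcases mon_unique hs hT cX cY hN hMon with h1 | h1
  · rw [h1]; exact htr
  · rw [h1, Matrix.trace_neg, abs_neg]; exact htr

/-- **Transition theorem**, analytic form. -/
theorem transition {T : ℝ} {X Y X' Y' v φ φ' : ℝ → ℝ} (tr : Track T X Y X' Y' v φ φ') :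
    ∃ s0 : ℝ, 0 < s0 ∧ (∀ s, s0 < s → Hyp s T X' Y') ∧ (∀ s, 0 < s → s < s0 → Ell s T X' Y') := by
  have hpi := Real.pi_pos
  have hT := tr.T_pos
  have h0T : (0 : ℝ) ∈ Icc 0 T := left_mem_Icc.2 hT.le
  have hTT : T ∈ Icc 0 T := right_mem_Icc.2 hT.le
  obtain ⟨V, hV, hVb⟩ := tr.vbound
  set G : Set ℝ := {s | 0 < s ∧ ∃ θ : ℝ → ℝ, IsSol s T X' Y' θ ∧ θ 0 + 2 * Real.pi ≤ θ T} with hG
  -- G is bounded below
  have hlow : ∀ s ∈ G, 2 * Real.pi / (V * T) ≤ s := by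
    rintro s ⟨hs, θ, hθ, hfull⟩
    have h1 := (convex_Icc 0 T).norm_image_sub_le_of_norm_hasDerivWithin_le (C := s * V)
      (hθ.form tr) (fun t ht => by
        rw [Real.norm_eq_abs, abs_mul, abs_mul, abs_of_pos hs, abs_of_pos (tr.v_pos t)]
        have e1 := Real.abs_sin_le_one (φ t - θ t)
        have e2 := hVb t ht
        have e3 := tr.v_pos t
        calc s * v t * |Real.sin (φ t - θ t)| ≤ s * v t * 1 := by gcongr
          _ ≤ s * V := by rw [mul_one]; gcongr) h0T hTT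
    rw [Real.norm_eq_abs, Real.norm_eq_abs, sub_zero, abs_of_pos hT] at h1
    have h2 := le_abs_self (θ T - θ 0)
    rw [div_le_iff₀ (by positivity)]
    linarith
  -- G is nonempty
  have hne : G.Nonempty := by
    obtain ⟨x, hx, hmin⟩ := isCompact_Icc.exists_isMinOn (nonempty_Icc.2 hT.le)
      (tr.cv.continuousOn (s := Icc 0 T))
    obtain ⟨y, hy, hmax⟩ := isCompact_Icc.exists_isMaxOn (nonempty_Icc.2 hT.le)
      (tr.cφ'.continuousOn (s := Icc 0 T))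
    have hvx := tr.v_pos x
    have hφy := tr.φ'_nonneg y
    set s : ℝ := (φ' y + 1) / v x with hs
    have hspos : 0 < s := by positivity
    have hsv : ∀ t ∈ Icc 0 T, φ' t ≤ s * v t := by
      intro t ht
      have e1 : v x ≤ v t := hmin ht
      have e2 : φ' t ≤ φ' y := hmax ht
      calc φ' t ≤ φ' y + 1 := by linarith
        _ = s * v x := by rw [hs]; field_simp
        _ ≤ s * v t := by gcongr
    obtain ⟨θ, hθ0, hθ⟩ := exists_sol hT tr.cX' tr.cY' hspos (φ 0 - Real.pi / 2)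
    refine ⟨s, hspos, θ, hθ, ?_⟩
    have hcmp := compare (C := s * V) hT.le (u := θ) (w := fun t => φ t - Real.pi / 2)
      (u' := fun t => s * v t * Real.sin (φ t - θ t)) (w' := φ') (hθ.form tr)
      (fun t _ => ((tr.hφ t).sub_const _).hasDerivWithinAt) (by
        intro t ht
        have h1 := field_lip (φ := φ t) hspos (tr.v_pos t).le (hVb t ht) (φ t - Real.pi / 2) (θ t)
        have h2 : φ t - (φ t - Real.pi / 2) = Real.pi / 2 := by ring
        rw [h2, Real.sin_pi_div_two, mul_one] at h1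
        have := hsv t ht
        linarith) (by rw [hθ0])
    have h3 := hcmp.1 T hTT
    simp only [tr.turn] at h3
    rw [hθ0]
    linarith
  have hbdd : BddBelow G := ⟨_, hlow⟩
  refine ⟨sInf G, ?_, ?_, ?_⟩
  · exact lt_of_lt_of_le (by positivity) (le_csInf hne hlow)
  · intro s hs
    obtain ⟨s1, ⟨hs1pos, θ1, hθ1, hfull⟩, hs1⟩ := exists_lt_of_csInf_lt hne hs
    have hspos : 0 < s := hs1pos.trans hs1
    obtain ⟨θa, ha0, ha⟩ := exists_sol hT tr.cX' tr.cY' hspos (φ 0)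
    obtain ⟨θb, hb0, hb⟩ := exists_sol hT tr.cX' tr.cY' hspos (θ1 0)
    have hbar := barrier_strict tr hspos ha 0 (by rw [ha0]; simp)
    rw [tr.turn] at hbar
    simp only [Int.cast_zero, zero_mul, sub_zero] at hbar
    exact hyp_of hspos hT tr.cX' tr.cY' ha hb (increases tr hspos ha) (by rw [ha0]; exact hbar)
      (grow_s tr hs1pos hs1 hθ1 hb hfull hb0) (upper tr hspos hb)
  · intro s hs hlt
    apply ell_of hs hT tr.cX' tr.cY'
    intro θ hθ
    refine ⟨increases tr hs hθ, ?_⟩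
    by_contra hcon
    push Not at hcon
    exact notMem_of_lt_csInf hlt hbdd ⟨hs, θ, hθ, hcon⟩

end Pool.Agent.V11190.Bicycle
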