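import Mathlib
import Pool.Agent.V11190.Bicycle3

open Set Filter Topology MeasureTheory

namespace Pool.Agent.V11190.Bicycle

/-- A smooth simple closed curve `Γ` of period `T` in the plane `ℂ` which is the boundary of the
strictly convex compact region `K`. -/
structure IsConvexTrack (Γ : ℝ → ℂ) (T : ℝ) (K : Set ℂ) : Prop where
  period_pos : 0 < T
  smooth : ContDiff ℝ 2 Γ
  periodic : ∀ t, Γ (t + T) = Γ t
  regular : ∀ t, deriv Γ t ≠ 0
  simple : InjOn Γ (Ico 0 T)
  compact : IsCompact K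
  strict : StrictConvex ℝ K
  boundary : frontier K = range Γ

/-- the cross product -/
def cr (a b : ℂ) : ℝ := a.re * b.im - a.im * b.re

variable {Γ : ℝ → ℂ} {T : ℝ} {K : Set ℂ}

lemma IsConvexTrack.mem (h : IsConvexTrack Γ T K) (t : ℝ) : Γ t ∈ K :=
  h.compact.isClosed.frontier_subset (by rw [h.boundary]; exact ⟨t, rfl⟩)

lemma IsConvexTrack.ne (h : IsConvexTrack Γ T K) {t : ℝ} (ht : t ∈ Ioo 0 T) : Γ t ≠ Γ 0 := by
  intro he
  have := h.simple ⟨ht.1.le, ht.2⟩ ⟨le_rfl, h.period_pos⟩ he
  exact ht.1.ne' this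

lemma IsConvexTrack.diff (h : IsConvexTrack Γ T K) (t : ℝ) : HasDerivAt Γ (deriv Γ t) t :=
  (h.smooth.differentiable (by norm_num) t).hasDerivAt

lemma IsConvexTrack.contDeriv (h : IsConvexTrack Γ T K) : Continuous (deriv Γ) :=
  h.smooth.continuous_deriv (by norm_num)

lemma IsConvexTrack.diff2 (h : IsConvexTrack Γ T K) (t : ℝ) :
    HasDerivAt (deriv Γ) (deriv (deriv Γ) t) t := by
  have h1 : ContDiff ℝ 1 (deriv Γ) := by
    have := h.smooth
    rw [show (2 : WithTop ℕ∞) = 1 + 1 by norm_num, contDiff_succ_iff_deriv] at this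
    exact this.2.2
  exact (h1.differentiable (by norm_num) t).hasDerivAt

lemma IsConvexTrack.contDeriv2 (h : IsConvexTrack Γ T K) : Continuous (deriv (deriv Γ)) := by
  have h1 : ContDiff ℝ 1 (deriv Γ) := by
    have := h.smooth
    rw [show (2 : WithTop ℕ∞) = 1 + 1 by norm_num, contDiff_succ_iff_deriv] at this
    exact this.2.2
  exact h1.continuous_deriv (by norm_num)

lemma hasDerivAt_cr {g : ℝ → ℂ} {g' : ℂ} {t : ℝ} (a : ℂ) (hg : HasDerivAt g g' t) :
    HasDerivAt (fun τ => cr a (g τ)) (cr a g') t := by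
  have h1 : HasDerivAt (fun τ => (g τ).im) g'.im t :=
    (Complex.imCLM.hasFDerivAt.comp_hasDerivAt t hg)
  have h2 : HasDerivAt (fun τ => (g τ).re) g'.re t :=
    (Complex.reCLM.hasFDerivAt.comp_hasDerivAt t hg)
  exact (h1.const_mul a.re).sub (h2.const_mul a.im)

lemma IsConvexTrack.support (h : IsConvexTrack Γ T K) (t : ℝ) :
    ∃ σ : ℝ, ∀ q ∈ K, q ≠ Γ t → 0 < σ * cr (deriv Γ t) (q - Γ t) := by
  have hfr : Γ t ∈ frontier K := by rw [h.boundary]; exact ⟨t, rfl⟩
  obtain ⟨f, hf⟩ := geometric_hahn_banach_open_point h.strict.convex.interior isOpen_interior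
    (fun hin => hfr.2 hin)
  have hlt : ∀ q ∈ K, q ≠ Γ t → f q < f (Γ t) := by
    intro q hq hne
    have hm := h.strict hq (h.mem t) hne (a := 1 / 2) (b := 1 / 2) (by norm_num) (by norm_num)
      (by norm_num)
    have h1 := hf _ hm
    rw [map_add, map_smul, map_smul, smul_eq_mul, smul_eq_mul] at h1
    linarith
  set α := f 1 with hα
  set β := f Complex.I with hβ
  have hfz : ∀ z : ℂ, f z = α * z.re + β * z.im := by
    intro z
    have : z = z.re • (1 : ℂ) + z.im • Complex.I := by
      apply Complex.ext <;> simp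
    conv_lhs => rw [this]
    rw [map_add, map_smul, map_smul, smul_eq_mul, smul_eq_mul]
    ring
  -- criticality
  have hcrit : f (deriv Γ t) = 0 := by
    have hmax : IsLocalMax (fun τ => f (Γ τ)) t := by
      apply Eventually.of_forall
      intro τ
      by_cases he : Γ τ = Γ t
      · simp only [he]; exact le_rfl
      · exact (hlt _ (h.mem τ) he).le
    have hd : HasDerivAt (fun τ => f (Γ τ)) (f (deriv Γ t)) t :=
      f.hasFDerivAt.comp_hasDerivAt t (h.diff t)
    exact hmax.hasDerivAt_eq_zero hd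
  rw [hfz] at hcrit
  set x := (deriv Γ t).re with hx
  set y := (deriv Γ t).im with hy
  have hn : 0 < x ^ 2 + y ^ 2 := by
    have hne := h.regular t
    rcases eq_or_ne x 0 with h1 | h1
    · rcases eq_or_ne y 0 with h2 | h2
      · exact absurd (Complex.ext h1 h2) hne
      · positivity
    · positivity
  refine ⟨-((β * x - α * y) / (x ^ 2 + y ^ 2)), fun q hq hne => ?_⟩
  have h1 := hlt q hq hne
  have h2 : f (q - Γ t) < 0 := by rw [map_sub]; linarith
  rw [hfz] at h2
  have h3 : (β * x - α * y) / (x ^ 2 + y ^ 2) * cr (deriv Γ t) (q - Γ t) =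
      α * (q - Γ t).re + β * (q - Γ t).im := by
    rw [div_mul_eq_mul_div, div_eq_iff hn.ne']
    simp only [cr, ← hx, ← hy]
    linear_combination (-(x * (q - Γ t).re + y * (q - Γ t).im)) * hcrit
  rw [neg_mul, h3]
  linarith

/-- the interior point -/
lemma IsConvexTrack.interior_point (h : IsConvexTrack Γ T K) : (interior K).Nonempty := by
  have hT := h.period_pos
  have hne : Γ (T / 2) ≠ Γ 0 := h.ne ⟨by linarith, by linarith⟩
  exact ⟨_, h.strict (h.mem (T / 2)) (h.mem 0) hne (a := 1 / 2) (b := 1 / 2) (by norm_num)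
    (by norm_num) (by norm_num)⟩

lemma IsConvexTrack.not_interior (h : IsConvexTrack Γ T K) {p : ℂ} (hp : p ∈ interior K) (t : ℝ) :
    p ≠ Γ t := by
  rintro rfl
  have hfr : Γ t ∈ frontier K := by rw [h.boundary]; exact ⟨t, rfl⟩
  exact hfr.2 hp

/-- Positive orientation: the region lies to the left. -/
def PosOriented (Γ : ℝ → ℂ) (K : Set ℂ) : Prop :=
  ∀ t, ∀ p ∈ interior K, 0 < cr (deriv Γ t) (p - Γ t)

/-- Negative orientation: the region lies to the right. -/
def NegOriented (Γ : ℝ → ℂ) (K : Set ℂ) : Prop :=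
  ∀ t, ∀ p ∈ interior K, cr (deriv Γ t) (p - Γ t) < 0

lemma IsConvexTrack.pos_all (h : IsConvexTrack Γ T K) (ho : PosOriented Γ K) (t : ℝ) :
    ∀ q ∈ K, q ≠ Γ t → 0 < cr (deriv Γ t) (q - Γ t) := by
  intro q hq hne
  obtain ⟨σ, hσ⟩ := h.support t
  obtain ⟨p, hp⟩ := h.interior_point
  have h1 := hσ p (interior_subset hp) (h.not_interior hp t)
  have h2 := ho t p hp
  have hσpos : 0 < σ := (pos_iff_pos_of_mul_pos h1).2 h2
  exact (pos_iff_pos_of_mul_pos (hσ q hq hne)).1 hσpos

lemma IsConvexTrack.oriented (h : IsConvexTrack Γ T K) : PosOriented Γ K ∨ NegOriented Γ K := by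
  obtain ⟨p0, hp0⟩ := h.interior_point
  have hcont : ∀ p : ℂ, Continuous fun t => cr (deriv Γ t) (p - Γ t) := by
    intro p
    have h1 := h.contDeriv
    have h2 := h.smooth.continuous
    unfold cr
    fun_prop
  have hne0 : ∀ t, cr (deriv Γ t) (p0 - Γ t) ≠ 0 := by
    intro t h0
    obtain ⟨σ, hσ⟩ := h.support t
    have := hσ p0 (interior_subset hp0) (h.not_interior hp0 t)
    rw [h0, mul_zero] at this
    exact lt_irrefl _ this
  have hsame : ∀ t, ∀ p ∈ interior K, 0 < cr (deriv Γ t) (p0 - Γ t) * cr (deriv Γ t) (p - Γ t) := by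
    intro t p hp
    obtain ⟨σ, hσ⟩ := h.support t
    have h1 := hσ p0 (interior_subset hp0) (h.not_interior hp0 t)
    have h2 := hσ p (interior_subset hp) (h.not_interior hp t)
    have h3 := mul_pos h1 h2
    have h4 : σ * cr (deriv Γ t) (p0 - Γ t) * (σ * cr (deriv Γ t) (p - Γ t)) =
        σ ^ 2 * (cr (deriv Γ t) (p0 - Γ t) * cr (deriv Γ t) (p - Γ t)) := by ring
    rw [h4] at h3
    exact (pos_iff_pos_of_mul_pos h3).1 (by
      have : σ ≠ 0 := by rintro rfl; simp at h1
      positivity)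
  rcases lt_or_gt_of_ne (hne0 0) with hneg | hpos
  · right
    have hall : ∀ t, cr (deriv Γ t) (p0 - Γ t) < 0 := by
      intro t
      by_contra hcon
      push Not at hcon
      have hpos := lt_of_le_of_ne hcon (hne0 t).symm
      obtain ⟨c, hc⟩ := mem_range_of_exists_le_of_exists_ge (hcont p0) ⟨0, hneg.le⟩ ⟨t, hpos.le⟩
      exact hne0 c hc
    intro t p hp
    have := hsame t p hp
    have h2 := hall t
    by_contra hcon
    push Not at hcon
    nlinarith
  · left
    have hall : ∀ t, 0 < cr (deriv Γ t) (p0 - Γ t) := by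
      intro t
      by_contra hcon
      push Not at hcon
      have hneg := lt_of_le_of_ne hcon (hne0 t)
      obtain ⟨c, hc⟩ := mem_range_of_exists_le_of_exists_ge (hcont p0) ⟨t, hneg.le⟩ ⟨0, hpos.le⟩
      exact hne0 c hc
    intro t p hp
    exact (pos_iff_pos_of_mul_pos (hsame t p hp)).1 (hall t)


/-- local convexity: `Γ' ∧ Γ'' ≥ 0` -/
lemma IsConvexTrack.curv_nonneg (h : IsConvexTrack Γ T K) (ho : PosOriented Γ K) (t : ℝ) :
    0 ≤ cr (deriv Γ t) (deriv (deriv Γ) t) := by
  by_contra hcon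
  push Not at hcon
  set g : ℝ → ℝ := fun τ => cr (deriv Γ t) (Γ τ - Γ t) with hg
  have hg1 : ∀ τ, HasDerivAt g (cr (deriv Γ t) (deriv Γ τ)) τ := fun τ =>
    hasDerivAt_cr _ ((h.diff τ).sub_const _)
  have hdg : deriv g = fun τ => cr (deriv Γ t) (deriv Γ τ) := by
    ext τ; exact (hg1 τ).deriv
  have hg2 : ∀ τ, HasDerivAt (deriv g) (cr (deriv Γ t) (deriv (deriv Γ) τ)) τ := fun τ => by
    rw [hdg]; exact hasDerivAt_cr _ (h.diff2 τ)
  have hmax : IsLocalMax g t := by
    apply isLocalMax_of_deriv_deriv_neg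
    · rw [(hg2 t).deriv]; exact hcon
    · rw [hdg]; simp only [cr]; ring
    · exact (hg1 t).continuousAt
  have hgt : g t = 0 := by simp [hg, cr]
  have hnn : ∀ τ, 0 ≤ g τ := by
    intro τ
    by_cases he : Γ τ = Γ t
    · simp [hg, he, cr]
    · exact (h.pos_all ho t _ (h.mem τ) he).le
  have hzero : g =ᶠ[𝓝 t] fun _ => 0 := by
    filter_upwards [hmax] with τ hτ
    rw [hgt] at hτ
    exact le_antisymm hτ (hnn τ)
  have h2 : deriv (deriv g) t = 0 := by
    have e1 : deriv g =ᶠ[𝓝 t] deriv fun _ => (0 : ℝ) := hzero.deriv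
    rw [e1.deriv_eq]
    simp
  rw [(hg2 t).deriv] at h2
  linarith

/-- The analytic data of a positively oriented strictly convex curve. -/
theorem IsConvexTrack.toTrack (h : IsConvexTrack Γ T K) (ho : PosOriented Γ K) :
    ∃ v φ φ' : ℝ → ℝ, Track T (fun t => (Γ t).re) (fun t => (Γ t).im) (fun t => (deriv Γ t).re)
      (fun t => (deriv Γ t).im) v φ φ' := by
  have hT := h.period_pos
  have hpi := Real.pi_pos
  have c1 := h.contDeriv
  have c2 := h.contDeriv2
  set q : ℝ → ℂ := fun t => deriv (deriv Γ) t / deriv Γ t with hq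
  have hqc : Continuous q := c2.div c1 h.regular
  set L : ℝ → ℂ := fun t => ∫ τ in (0 : ℝ)..t, q τ with hL
  have hLd : ∀ t, HasDerivAt L (q t) t := fun t =>
    intervalIntegral.integral_hasDerivAt_right (hqc.intervalIntegrable _ _)
      (hqc.stronglyMeasurableAtFilter _ _) hqc.continuousAt
  have hL0 : L 0 = 0 := by simp [hL]
  -- Γ' = Γ'(0) exp L
  have hexp : ∀ t, deriv Γ t = deriv Γ 0 * Complex.exp (L t) := by
    have hd : ∀ t, HasDerivAt (fun t => deriv Γ t * Complex.exp (-L t)) 0 t := by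
      intro t
      have h1 := (h.diff2 t).mul ((hLd t).neg.cexp)
      refine h1.congr_deriv ?_
      simp only [hq]
      have := h.regular t
      field_simp
      simp
    intro t
    have h2 := is_const_of_deriv_eq_zero (fun t => (hd t).differentiableAt)
      (fun t => (hd t).deriv) t 0
    simp only [hL0, neg_zero, Complex.exp_zero, mul_one] at h2
    rw [← h2, mul_assoc, ← Complex.exp_add]
    simp
  set z0 := deriv Γ 0 with hz0
  have hz0ne : z0 ≠ 0 := h.regular 0
  set v : ℝ → ℝ := fun t => ‖z0‖ * Real.exp (L t).re with hv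
  set φ : ℝ → ℝ := fun t => z0.arg + (L t).im with hφ
  set φ' : ℝ → ℝ := fun t => (q t).im with hφ'
  have hn0 : 0 < ‖z0‖ := norm_pos_iff.2 hz0ne
  have hvpos : ∀ t, 0 < v t := fun t => by
    simp only [hv]; positivity
  have hLc : Continuous L := by
    rw [continuous_iff_continuousAt]; exact fun t => (hLd t).continuousAt
  have hform : ∀ t, deriv Γ t = (v t : ℂ) * Complex.exp (φ t * Complex.I) := by
    intro t
    rw [hexp t]
    conv_lhs => rw [← Complex.norm_mul_exp_arg_mul_I z0]
    simp only [hv, hφ]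
    push_cast
    rw [add_mul, Complex.exp_add]
    have : Complex.exp (L t) = Complex.exp ((L t).re) * Complex.exp ((L t).im * Complex.I) := by
      rw [← Complex.exp_add, Complex.re_add_im]
    rw [this]; ring
  have heX : ∀ t, (deriv Γ t).re = v t * Real.cos (φ t) := by
    intro t
    rw [hform t, Complex.re_ofReal_mul, Complex.exp_ofReal_mul_I_re]
  have heY : ∀ t, (deriv Γ t).im = v t * Real.sin (φ t) := by
    intro t
    rw [hform t, Complex.im_ofReal_mul, Complex.exp_ofReal_mul_I_im]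
  have hφd : ∀ t, HasDerivAt φ (φ' t) t := by
    intro t
    have h1 : HasDerivAt (fun τ => (L τ).im) (q t).im t :=
      (Complex.imCLM.hasFDerivAt.comp_hasDerivAt t (hLd t))
    exact h1.const_add _
  have hφ'nn : ∀ t, 0 ≤ φ' t := by
    intro t
    have h1 := h.curv_nonneg ho t
    simp only [hφ', hq]
    rw [Complex.div_im]
    have h2 : 0 < Complex.normSq (deriv Γ t) := Complex.normSq_pos.2 (h.regular t)
    rw [← sub_div]
    apply div_nonneg _ h2.le
    simp only [cr] at h1
    linarith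
  have hcrform : ∀ a b : ℝ, cr (deriv Γ a) (deriv Γ b) = v a * v b * Real.sin (φ b - φ a) := by
    intro a b
    simp only [cr]
    rw [heX, heY, heX, heY, Real.sin_sub]; ring
  have hφmono : Monotone φ := monotone_of_deriv_nonneg (fun t => (hφd t).differentiableAt)
    (fun t => by rw [(hφd t).deriv]; exact hφ'nn t)
  have hφc : Continuous φ := by
    rw [continuous_iff_continuousAt]; exact fun t => (hφd t).continuousAt
  have hclosed : Γ T = Γ 0 := by
    have := h.periodic 0
    rwa [zero_add] at this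
  -- periodicity of the derivative
  have hder : deriv Γ T = deriv Γ 0 := by
    have h1 : (fun t => Γ (t + T)) = Γ := by ext t; exact h.periodic t
    have h2 : HasDerivAt (fun t => Γ (t + T)) (deriv Γ (0 + T)) 0 :=
      HasDerivAt.comp_add_const 0 T (h.diff (0 + T))
    rw [h1, zero_add] at h2
    exact h2.unique (h.diff 0) |>.symm ▸ rfl
  have hLT : Complex.exp (L T) = 1 := by
    have h1 := hexp T
    rw [hder] at h1
    have : deriv Γ 0 * Complex.exp (L T) = deriv Γ 0 * 1 := by rw [mul_one]; exact h1.symm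
    exact mul_left_cancel₀ hz0ne this
  obtain ⟨k, hk⟩ := Complex.exp_eq_one_iff.1 hLT
  have hφT : φ T = φ 0 + k * (2 * Real.pi) := by
    simp only [hφ, hL0, hk]
    simp
  have hne_half : Γ (T / 2) ≠ Γ 0 := h.ne ⟨by linarith, by linarith⟩
  have hk0 : 0 ≤ k := by
    have h1 := hφmono hT.le
    rw [hφT] at h1
    have h2 : (0 : ℝ) ≤ k * (2 * Real.pi) := by linarith
    have h3 : (0 : ℝ) ≤ k := by
      by_contra hneg
      push Not at hneg
      nlinarith
    exact_mod_cast h3
  have hkne : k ≠ 0 := by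
    intro h0
    rw [h0, Int.cast_zero, zero_mul, add_zero] at hφT
    have hconst : ∀ t ∈ Icc 0 T, φ t = φ 0 := fun t ht =>
      le_antisymm (hφT ▸ hφmono ht.2) (hφmono ht.1)
    have hd : ∀ t ∈ Icc 0 T, HasDerivWithinAt (fun τ => cr (deriv Γ 0) (Γ τ - Γ 0)) 0 (Icc 0 T) t := by
      intro t ht
      have h1 := hasDerivAt_cr (deriv Γ 0) ((h.diff t).sub_const (Γ 0))
      rw [hcrform 0 t, hconst t ht, sub_self, Real.sin_zero, mul_zero] at h1
      exact h1.hasDerivWithinAt
    have h2 := (convex_Icc 0 T).norm_image_sub_le_of_norm_hasDerivWithin_le (C := 0)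
      hd (fun t _ => by simp) (left_mem_Icc.2 hT.le)
      (show T / 2 ∈ Icc 0 T from ⟨by linarith, by linarith⟩)
    rw [zero_mul, norm_le_zero_iff] at h2
    have h3 := h.pos_all ho 0 _ (h.mem (T / 2)) hne_half
    simp only [sub_self] at h2
    have h4 : cr (deriv Γ 0) 0 = 0 := by simp [cr]
    rw [h4] at h2
    linarith
  have hk2 : k < 2 := by
    by_contra hcon
    push Not at hcon
    have hk2' : (2 : ℝ) ≤ k := by exact_mod_cast hcon
    have hmem : φ 0 + 2 * Real.pi ∈ Ioo (φ 0) (φ T) := by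
      rw [hφT]
      constructor <;> nlinarith
    obtain ⟨t1, ht1, he⟩ := intermediate_value_Ioo hT.le hφc.continuousOn hmem
    have hne1 := h.ne ht1
    have hp1 := h.pos_all ho 0 _ (h.mem t1) hne1
    have hp2 := h.pos_all ho t1 _ (h.mem 0) hne1.symm
    have hrel : ∀ w, v 0 * cr (deriv Γ t1) w = v t1 * cr (deriv Γ 0) w := by
      intro w
      simp only [cr]
      rw [heX, heY, heX, heY, he, Real.cos_add_two_pi, Real.sin_add_two_pi]
      ring
    have h1 := hrel (Γ 0 - Γ t1)
    have h2 : cr (deriv Γ 0) (Γ 0 - Γ t1) = -cr (deriv Γ 0) (Γ t1 - Γ 0) := by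
      simp only [cr, Complex.sub_re, Complex.sub_im]; ring
    rw [h2] at h1
    have h3 : 0 < v 0 * cr (deriv Γ t1) (Γ 0 - Γ t1) := mul_pos (hvpos 0) hp2
    have h4 : 0 < v t1 * cr (deriv Γ 0) (Γ t1 - Γ 0) := mul_pos (hvpos t1) hp1
    linarith
  have hk1 : k = 1 := by omega
  refine ⟨v, φ, φ', ?_⟩
  refine
    { T_pos := hT
      hX := fun t => Complex.reCLM.hasFDerivAt.comp_hasDerivAt t (h.diff t)
      hY := fun t => Complex.imCLM.hasFDerivAt.comp_hasDerivAt t (h.diff t)
      cX' := Complex.continuous_re.comp c1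
      cY' := Complex.continuous_im.comp c1
      closedX := by simp only [hclosed]
      closedY := by simp only [hclosed]
      eX := heX
      eY := heY
      v_pos := hvpos
      cv := by simp only [hv]; fun_prop
      hφ := hφd
      φ'_nonneg := hφ'nn
      cφ' := Complex.continuous_im.comp hqc
      turn := by rw [hφT, hk1]; simp
      wind := ?_ }
  intro t ht
  have h1 := h.pos_all ho t _ (h.mem 0) (h.ne ht).symm
  simp only [cr, Complex.sub_re, Complex.sub_im] at h1
  linarith

end Pool.Agent.V11190.Bicycle
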