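import Mathlib

open Set Filter Topology MeasureTheory Measure
open scoped ENNReal NNReal

namespace Pool.Agent.V11190.Quasi

/-- Euclidean space `ℝ³`. -/
abbrev E3 : Type := EuclideanSpace ℝ (Fin 3)

/-- The link of the polyhedral surface `S` at `p`: the unit vectors pointing from `p` along `S`. -/
def link (S : Set E3) (p : E3) : Set E3 :=
  {u | ‖u‖ = 1 ∧ ∃ ε : ℝ, 0 < ε ∧ ∀ s ∈ Icc 0 ε, p + s • u ∈ S}

/-- The surface angle condition at `p` for a curve on `S` leaving `p` in the two directions `u` and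
`w`: each of the two sides of the curve at `p`, that is, each connected component of the link minus
`{u, w}`, has angle (one-dimensional measure) at most `π`. -/
def AngleCondition (S : Set E3) (p u w : E3) : Prop :=
  ∀ x ∈ link S p \ {u, w},
    μH[1] (connectedComponentIn (link S p \ {u, w}) x) ≤ ENNReal.ofReal Real.pi

/-- A simple closed quasigeodesic on the polyhedral surface `S`, as a subset of `S`. -/
def IsSimpleClosedQuasigeodesic (S γ : Set E3) : Prop :=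
  ∃ (c : ℝ → E3) (T : ℝ), 0 < T ∧ Continuous c ∧ (∀ t, c (t + T) = c t) ∧ InjOn c (Ico 0 T) ∧
    range c = γ ∧ γ ⊆ S ∧
    ∀ t, ∃ a b : E3, a ≠ 0 ∧ b ≠ 0 ∧ HasDerivWithinAt c a (Ici t) t ∧
      HasDerivWithinAt c (-b) (Iic t) t ∧ AngleCondition S (c t) (‖a‖⁻¹ • a) (‖b‖⁻¹ • b)

/-- triangle wave of period `2`, with `W 0 = -1`, `W 1 = 1` -/
noncomputable def W (t : ℝ) : ℝ := 2 * (Real.arccos (Real.cos (Real.pi * t)) / Real.pi) - 1

lemma W_even (t : ℝ) : W (-t) = W t := by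
  simp [W]

lemma W_add_two (t : ℝ) (k : ℤ) : W (t + 2 * k) = W t := by
  have : Real.pi * (t + 2 * k) = Real.pi * t + k * (2 * Real.pi) := by ring
  rw [W, this, Real.cos_add_int_mul_two_pi, W]

lemma W_val {s : ℝ} (hs : |s| ≤ 1) : W s = 2 * |s| - 1 := by
  have hpi := Real.pi_pos
  rw [W, ← Real.cos_abs, abs_mul, abs_of_pos hpi, Real.arccos_cos (by positivity) (by nlinarith)]
  field_simp

lemma W_val' {s : ℝ} (hs : |s| ≤ 1) (k : ℤ) : W (s + 2 * k) = 2 * |s| - 1 := by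
  rw [W_add_two, W_val hs]

lemma W_cont : Continuous W := by
  unfold W
  have : Continuous fun t => Real.arccos (Real.cos (Real.pi * t)) :=
    Real.continuous_arccos.comp (by fun_prop)
  fun_prop

lemma W_mem (t : ℝ) : W t ∈ Icc (-1 : ℝ) 1 := by
  have hpi := Real.pi_pos
  have h1 := Real.arccos_nonneg (Real.cos (Real.pi * t))
  have h2 := Real.arccos_le_pi (Real.cos (Real.pi * t))
  have h3 : 0 ≤ Real.arccos (Real.cos (Real.pi * t)) / Real.pi := by positivity
  have h4 : Real.arccos (Real.cos (Real.pi * t)) / Real.pi ≤ 1 := by rwa [div_le_one hpi]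
  constructor <;> simp only [W] <;> linarith

lemma W_inj {s t : ℝ} (h : W s = W t) : ∃ k : ℤ, s = t + 2 * k ∨ s = -t + 2 * k := by
  have hpi := Real.pi_pos
  simp only [W] at h
  have h1 : Real.arccos (Real.cos (Real.pi * s)) = Real.arccos (Real.cos (Real.pi * t)) := by
    have : Real.arccos (Real.cos (Real.pi * s)) / Real.pi =
      Real.arccos (Real.cos (Real.pi * t)) / Real.pi := by linarith
    exact (div_left_inj' hpi.ne').1 this
  have h2 : Real.cos (Real.pi * s) = Real.cos (Real.pi * t) := by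
    have := congrArg Real.cos h1
    rwa [Real.cos_arccos (Real.neg_one_le_cos _) (Real.cos_le_one _),
      Real.cos_arccos (Real.neg_one_le_cos _) (Real.cos_le_one _)] at this
  obtain ⟨k, hk⟩ := Real.cos_eq_cos_iff.1 h2
  rcases hk with hk | hk
  · refine ⟨-k, Or.inl ?_⟩
    have h3 : Real.pi * t = Real.pi * (s + 2 * k) := by rw [hk]; ring
    have h4 := mul_left_cancel₀ hpi.ne' h3
    push_cast; linarith
  · refine ⟨k, Or.inr ?_⟩
    have h3 : Real.pi * t = Real.pi * (2 * k - s) := by rw [hk]; ring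
    have h4 := mul_left_cancel₀ hpi.ne' h3
    linarith

/-- Local form of the triangle wave: `g` is its one-sided derivative map at `t`. -/
structure LF (t : ℝ) (g : ℝ → ℝ) : Prop where
  abs : ∀ δ, |g δ| = 2 * |δ|
  lip : ∀ δ δ', |g δ - g δ'| ≤ 2 * |δ - δ'|
  hom : ∀ s, 0 ≤ s → ∀ δ, g (s * δ) = s * g δ
  loc : ∃ ε, 0 < ε ∧ ∀ δ, |δ| < ε → W (t + δ) = W t + g δ
  lin : (¬ ∃ n : ℤ, t = n) → ∃ σ : ℝ, σ ≠ 0 ∧ ∀ δ, g δ = σ * δ
  evn : (∃ n : ℤ, t = n) → ∀ δ, g (-δ) = g δ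

lemma exists_LF (t : ℝ) : ∃ g, LF t g := by
  set k : ℤ := round (t / 2) with hk
  set r : ℝ := t - 2 * k with hr
  have ht : t = r + 2 * k := by rw [hr]; ring
  have hr1 : |r| ≤ 1 := by
    have h1 := abs_sub_round (t / 2)
    rw [← hk] at h1
    have h2 : r = 2 * (t / 2 - k) := by rw [hr]; ring
    rw [h2, abs_mul, abs_two]; linarith
  have labs : ∀ τ : ℝ, |τ| = 1 → (∀ δ : ℝ, |2 * τ * (|δ|)| = 2 * |δ|) ∧
      (∀ δ δ' : ℝ, |2 * τ * (|δ|) - 2 * τ * (|δ'|)| ≤ 2 * |δ - δ'|) ∧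
      (∀ s : ℝ, 0 ≤ s → ∀ δ : ℝ, 2 * τ * |s * δ| = s * (2 * τ * |δ|)) := by
    intro τ hτ
    refine ⟨fun δ => ?_, fun δ δ' => ?_, fun s hs δ => ?_⟩
    · rw [abs_mul, abs_mul, hτ, abs_two, abs_abs, mul_one]
    · rw [← mul_sub, abs_mul, abs_mul, hτ, abs_two, mul_one]
      have := abs_abs_sub_abs_le δ δ'
      linarith
    · rw [abs_mul, abs_of_nonneg hs]; ring
  rcases eq_or_ne r 0 with h0 | h0
  · -- even integer
    obtain ⟨a1, a2, a3⟩ := labs 1 (by simp)
    refine ⟨fun δ => 2 * 1 * |δ|, a1, a2, a3, ⟨1, one_pos, fun δ hδ => ?_⟩, ?_, ?_⟩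
    · rw [ht, h0]
      have e : (0 : ℝ) + 2 * k + δ = δ + 2 * k := by ring
      rw [e, W_val' hδ.le, W_val' (by simp)]
      simp; ring
    · intro h
      exact absurd ⟨2 * k, by rw [ht, h0]; push_cast; ring⟩ h
    · intro _ δ; simp only [abs_neg]
  · rcases eq_or_lt_of_le hr1 with h1 | h1
    · -- odd integer
      obtain ⟨a1, a2, a3⟩ := labs (-1) (by simp)
      have hcase : r = 1 ∨ r = -1 := by
        rcases abs_cases r with ⟨h2, _⟩ | ⟨h2, _⟩
        · left; linarith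
        · right; linarith
      refine ⟨fun δ => 2 * (-1) * |δ|, a1, a2, a3, ⟨1, one_pos, fun δ hδ => ?_⟩, ?_, ?_⟩
      · have hδ' := abs_lt.1 hδ
        rcases hcase with h2 | h2
        · rcases le_total δ 0 with h3 | h3
          · have e : t + δ = (1 + δ) + 2 * k := by rw [ht, h2]; ring
            rw [e, W_val' (by rw [abs_le]; constructor <;> linarith), ht, h2, W_val' (by simp),
              abs_of_nonpos h3, abs_of_nonneg (by linarith : (0 : ℝ) ≤ 1 + δ)]
            simp; ring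
          · have e : t + δ = (-1 + δ) + 2 * ((k + 1 : ℤ) : ℝ) := by rw [ht, h2]; push_cast; ring
            rw [e, W_val' (by rw [abs_le]; constructor <;> linarith), ht, h2, W_val' (by simp),
              abs_of_nonneg h3, abs_of_nonpos (by linarith : (-1 : ℝ) + δ ≤ 0)]
            simp; ring
        · rcases le_total δ 0 with h3 | h3
          · have e : t + δ = (1 + δ) + 2 * ((k - 1 : ℤ) : ℝ) := by rw [ht, h2]; push_cast; ring
            rw [e, W_val' (by rw [abs_le]; constructor <;> linarith), ht, h2, W_val' (by simp),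
              abs_of_nonpos h3, abs_of_nonneg (by linarith : (0 : ℝ) ≤ 1 + δ)]
            simp; ring
          · have e : t + δ = (-1 + δ) + 2 * k := by rw [ht, h2]; ring
            rw [e, W_val' (by rw [abs_le]; constructor <;> linarith), ht, h2, W_val' (by simp),
              abs_of_nonneg h3, abs_of_nonpos (by linarith : (-1 : ℝ) + δ ≤ 0)]
            simp; ring
      · intro h
        rcases hcase with h2 | h2
        · exact absurd ⟨2 * k + 1, by rw [ht, h2]; push_cast; ring⟩ h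
        · exact absurd ⟨2 * k - 1, by rw [ht, h2]; push_cast; ring⟩ h
      · intro _ δ; simp only [abs_neg]
    · -- not an integer
      have hnot : ¬ ∃ n : ℤ, t = n := by
        rintro ⟨n, hn⟩
        have e : r = ((n - 2 * k : ℤ) : ℝ) := by rw [hr, hn]; push_cast; ring
        rw [e] at h0 h1
        have h2 : |(n - 2 * k : ℤ)| < 1 := by exact_mod_cast h1
        rw [Int.abs_lt_one_iff] at h2
        rw [h2] at h0; simp at h0
      obtain ⟨σ, hσ1, hσ⟩ : ∃ σ : ℝ, |σ| = 1 ∧ |r| = σ * r := by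
        rcases abs_cases r with ⟨h2, _⟩ | ⟨h2, _⟩
        · exact ⟨1, by simp, by linarith⟩
        · exact ⟨-1, by simp, by linarith⟩
      have hrpos : 0 < |r| := abs_pos.2 h0
      refine ⟨fun δ => 2 * σ * δ, ?_, ?_, ?_, ⟨min |r| (1 - |r|), lt_min hrpos (by linarith),
        fun δ hδ => ?_⟩, ?_, ?_⟩
      · intro δ; simp only [abs_mul, hσ1, abs_two, mul_one]
      · intro δ δ'
        simp only [← mul_sub, abs_mul, hσ1, abs_two, mul_one]; exact le_rfl
      · intro s _ δ; ring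
      · have hσσ : σ * σ = 1 := by
          have := abs_mul_abs_self σ
          rw [hσ1] at this; linarith
        have h3 : |δ| < |r| := hδ.trans_le (min_le_left _ _)
        have h4 : |δ| < 1 - |r| := hδ.trans_le (min_le_right _ _)
        have h5 : |σ * δ| = |δ| := by rw [abs_mul, hσ1, one_mul]
        have h6 : |r + δ| = σ * (r + δ) := by
          have e : r + δ = σ * (σ * (r + δ)) := by rw [← mul_assoc, hσσ, one_mul]
          have hnn : 0 ≤ σ * (r + δ) := by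
            rw [mul_add, ← hσ]
            have := neg_abs_le (σ * δ)
            rw [h5] at this; linarith
          conv_lhs => rw [e]
          rw [abs_mul, hσ1, one_mul, abs_of_nonneg hnn]
        have h7 : |r + δ| ≤ 1 := (abs_add_le r δ).trans (by linarith)
        have e : t + δ = (r + δ) + 2 * k := by rw [ht]; ring
        rw [e, W_val' h7, h6, ht, W_val' hr1, hσ]; ring
      · intro _
        refine ⟨2 * σ, ?_, fun δ => rfl⟩
        intro h; rw [mul_eq_zero] at h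
        rcases h with h | h
        · norm_num at h
        · rw [h] at hσ1; simp at hσ1
      · intro h; exact absurd h hnot

/-- the folding map -/
noncomputable def Phi (x y : ℝ) : E3 := !₂[W x, W y, -W (x + y)]

/-- the derivative map -/
noncomputable def D (g1 g2 g3 : ℝ → ℝ) (a b : ℝ) : E3 := !₂[g1 a, g2 b, -g3 (a + b)]

/-- the quadratic form -/
noncomputable def Q (a b : ℝ) : ℝ := 8 * (a + b / 2) ^ 2 + 6 * b ^ 2

lemma Q_eq (a b : ℝ) : Q a b = 4 * a ^ 2 + 4 * b ^ 2 + 4 * (a + b) ^ 2 := by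
  simp only [Q]; ring

lemma norm_D {t1 t2 t3 : ℝ} {g1 g2 g3 : ℝ → ℝ} (h1 : LF t1 g1) (h2 : LF t2 g2) (h3 : LF t3 g3)
    (a b : ℝ) : ‖D g1 g2 g3 a b‖ ^ 2 = Q a b := by
  rw [EuclideanSpace.norm_sq_eq, Fin.sum_univ_three, Q_eq]
  simp only [D, Real.norm_eq_abs]
  simp only [Matrix.cons_val_zero, Matrix.cons_val_one, Matrix.cons_val, abs_neg]
  rw [h1.abs, h2.abs, h3.abs]
  have e1 := sq_abs a
  have e2 := sq_abs b
  have e3 := sq_abs (a + b)
  linear_combination 4 * e1 + 4 * e2 + 4 * e3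

lemma dist_D {t1 t2 t3 : ℝ} {g1 g2 g3 : ℝ → ℝ} (h1 : LF t1 g1) (h2 : LF t2 g2) (h3 : LF t3 g3)
    (a b a' b' : ℝ) : ‖D g1 g2 g3 a b - D g1 g2 g3 a' b'‖ ^ 2 ≤ Q (a - a') (b - b') := by
  rw [EuclideanSpace.norm_sq_eq, Fin.sum_univ_three, Q_eq]
  simp only [D, Real.norm_eq_abs, PiLp.sub_apply]
  simp only [Matrix.cons_val_zero, Matrix.cons_val_one, Matrix.cons_val]
  have e1 := pow_le_pow_left₀ (abs_nonneg _) (h1.lip a a') 2
  have e2 := pow_le_pow_left₀ (abs_nonneg _) (h2.lip b b') 2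
  have e3 := pow_le_pow_left₀ (abs_nonneg _) (h3.lip (a + b) (a' + b')) 2
  have e4 : |-g3 (a + b) - -g3 (a' + b')| = |g3 (a + b) - g3 (a' + b')| := by
    rw [← abs_neg]; ring_nf
  rw [e4]
  have s1 := sq_abs (a - a')
  have s2 := sq_abs (b - b')
  have s3 := sq_abs (a + b - (a' + b'))
  have e5 : a - a' + (b - b') = a + b - (a' + b') := by ring
  rw [e5]
  nlinarith

lemma D_hom {t1 t2 t3 : ℝ} {g1 g2 g3 : ℝ → ℝ} (h1 : LF t1 g1) (h2 : LF t2 g2) (h3 : LF t3 g3)
    {s : ℝ} (hs : 0 ≤ s) (a b : ℝ) : D g1 g2 g3 (s * a) (s * b) = s • D g1 g2 g3 a b := by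
  ext i
  fin_cases i
  · simp [D, h1.hom s hs]
  · simp [D, h2.hom s hs]
  · simp only [D, ← mul_add, h3.hom s hs]; simp

/-- angular coordinates -/
noncomputable def pb (ψ : ℝ) : ℝ := Real.sin ψ / √6
noncomputable def pa (ψ : ℝ) : ℝ := Real.cos ψ / √8 - pb ψ / 2

lemma Q_pa (ψ : ℝ) : Q (pa ψ) (pb ψ) = 1 := by
  have h6 : √6 ^ 2 = 6 := Real.sq_sqrt (by norm_num)
  have h8 : √8 ^ 2 = 8 := Real.sq_sqrt (by norm_num)
  have e1 : pa ψ + pb ψ / 2 = Real.cos ψ / √8 := by simp [pa]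
  rw [Q, e1, pb, div_pow, div_pow, h6, h8]
  have := Real.sin_sq_add_cos_sq ψ
  linarith

lemma Q_diff (ψ ψ' : ℝ) : Q (pa ψ - pa ψ') (pb ψ - pb ψ') ≤ (ψ - ψ') ^ 2 := by
  have h6 : √6 ^ 2 = 6 := Real.sq_sqrt (by norm_num)
  have h8 : √8 ^ 2 = 8 := Real.sq_sqrt (by norm_num)
  have e1 : pa ψ - pa ψ' + (pb ψ - pb ψ') / 2 = (Real.cos ψ - Real.cos ψ') / √8 := by
    simp only [pa]; ring
  have e2 : pb ψ - pb ψ' = (Real.sin ψ - Real.sin ψ') / √6 := by simp only [pb]; ring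
  rw [Q, e1, e2, div_pow, div_pow, h6, h8]
  have h1 := Real.one_sub_sq_div_two_le_cos (x := ψ - ψ')
  rw [Real.cos_sub] at h1
  have := Real.sin_sq_add_cos_sq ψ
  have := Real.sin_sq_add_cos_sq ψ'
  nlinarith

lemma exists_psi {a b : ℝ} (h : Q a b = 1) : ∃ ψ, a = pa ψ ∧ b = pb ψ := by
  have h6 : √6 ^ 2 = 6 := Real.sq_sqrt (by norm_num)
  have h8 : √8 ^ 2 = 8 := Real.sq_sqrt (by norm_num)
  have p6 : 0 < √6 := by positivity
  have p8 : 0 < √8 := by positivity
  set z : ℂ := ⟨√8 * (a + b / 2), √6 * b⟩ with hz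
  have hn : ‖z‖ = 1 := by
    have e : ‖z‖ ^ 2 = 1 ^ 2 := by
      rw [Complex.sq_norm, Complex.normSq_apply]
      simp only [hz]
      have e2 : √8 * (a + b / 2) * (√8 * (a + b / 2)) + √6 * b * (√6 * b) =
        √8 ^ 2 * (a + b / 2) ^ 2 + √6 ^ 2 * b ^ 2 := by ring
      rw [e2, h6, h8]
      rw [Q] at h
      rw [h]; norm_num
    exact (pow_left_inj₀ (norm_nonneg _) zero_le_one two_ne_zero).1 e
  have hz0 : z ≠ 0 := by intro h0; rw [h0, norm_zero] at hn; norm_num at hn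
  refine ⟨z.arg, ?_, ?_⟩
  · rw [pa, pb, Complex.cos_arg hz0, Complex.sin_arg, hn]
    simp only [hz]
    field_simp
    ring
  · rw [pb, Complex.sin_arg, hn]
    simp only [hz]
    field_simp


lemma Phi_cont : Continuous fun p : ℝ × ℝ => Phi p.1 p.2 := by
  have h1 : Continuous fun p : ℝ × ℝ => W p.1 := W_cont.comp continuous_fst
  have h2 : Continuous fun p : ℝ × ℝ => W p.2 := W_cont.comp continuous_snd
  have h3 : Continuous fun p : ℝ × ℝ => -W (p.1 + p.2) :=
    (W_cont.comp (continuous_fst.add continuous_snd)).neg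
  refine (PiLp.continuous_toLp 2 _).comp (continuous_pi fun i => ?_)
  fin_cases i
  · exact h1
  · exact h2
  · exact h3

lemma Phi_eq_iff {x y x' y' : ℝ} (h : Phi x y = Phi x' y') :
    ∃ (η : ℝ) (k l : ℤ), (η = 1 ∨ η = -1) ∧ x = η * x' + 2 * k ∧ y = η * y' + 2 * l := by
  have h1 : W x = W x' := by
    have := congrArg (fun v : E3 => v 0) h
    simpa [Phi] using this
  have h2 : W y = W y' := by
    have := congrArg (fun v : E3 => v 1) h
    simpa [Phi] using this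
  have h3 : W (x + y) = W (x' + y') := by
    have := congrArg (fun v : E3 => v 2) h
    simpa [Phi] using this
  obtain ⟨k, hk⟩ := W_inj h1
  obtain ⟨l, hl⟩ := W_inj h2
  obtain ⟨m, hm⟩ := W_inj h3
  rcases hk with hk | hk <;> rcases hl with hl | hl
  · exact ⟨1, k, l, Or.inl rfl, by linarith, by linarith⟩
  · rcases hm with hm | hm
    · exact ⟨1, k, m - k, Or.inl rfl, by linarith, by push_cast; linarith⟩
    · exact ⟨-1, m - l, l, Or.inr rfl, by push_cast; linarith, by linarith⟩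
  · rcases hm with hm | hm
    · exact ⟨1, m - l, l, Or.inl rfl, by push_cast; linarith, by linarith⟩
    · exact ⟨-1, k, m - k, Or.inr rfl, by linarith, by push_cast; linarith⟩
  · exact ⟨-1, k, l, Or.inr rfl, by linarith, by linarith⟩

lemma Phi_symm {η : ℝ} (hη : η = 1 ∨ η = -1) (x y : ℝ) (k l : ℤ) :
    Phi (η * x + 2 * k) (η * y + 2 * l) = Phi x y := by
  have e : η * x + 2 * k + (η * y + 2 * l) = η * (x + y) + 2 * ((k + l : ℤ) : ℝ) := by
    push_cast; ring
  simp only [Phi, e, W_add_two]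
  rcases hη with rfl | rfl
  · simp only [one_mul]
  · simp only [neg_mul, one_mul, W_even]

/-- Every direction of the link comes from a direction of the plane. -/
lemma link_sub {S : Set E3} (hS : ∀ q ∈ S, ∃ x y : ℝ, |x| ≤ 1 ∧ |y| ≤ 1 ∧ Phi x y = q)
    {x y : ℝ} {g1 g2 g3 : ℝ → ℝ} (h1 : LF x g1) (h2 : LF y g2) (h3 : LF (x + y) g3) :
    link S (Phi x y) ⊆ {z | ∃ ψ : ℝ, z = D g1 g2 g3 (pa ψ) (pb ψ)} := by
  rintro z ⟨hz, ε, hε, hzS⟩
  -- a sequence of points of S converging to the base point in direction z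
  set s : ℕ → ℝ := fun n => ε / (n + 1) with hs
  have hspos : ∀ n, 0 < s n := fun n => by simp only [hs]; positivity
  have hsle : ∀ n, s n ≤ ε := fun n => by
    simp only [hs]
    rw [div_le_iff₀ (by positivity)]
    have : (0 : ℝ) ≤ n := by positivity
    nlinarith
  have hs0 : Tendsto s atTop (𝓝 0) := by
    simp only [hs]
    have := (tendsto_one_div_add_atTop_nhds_zero_nat (𝕜 := ℝ)).const_mul ε
    rw [mul_zero] at this
    refine this.congr fun n => ?_
    ring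
  have hq : ∀ n, ∃ p : ℝ × ℝ, p ∈ Icc (-1 : ℝ) 1 ×ˢ Icc (-1 : ℝ) 1 ∧
      Phi p.1 p.2 = Phi x y + s n • z := by
    intro n
    obtain ⟨a, b, ha, hb, hab⟩ := hS _ (hzS (s n) ⟨(hspos n).le, hsle n⟩)
    exact ⟨(a, b), ⟨abs_le.1 ha, abs_le.1 hb⟩, hab⟩
  choose p hp hpe using hq
  obtain ⟨a, ha, φ, hφ, hlim⟩ := (isCompact_Icc.prod isCompact_Icc).tendsto_subseq hp
  have hPa : Phi a.1 a.2 = Phi x y := by
    have l1 : Tendsto (fun n => Phi (p (φ n)).1 (p (φ n)).2) atTop (𝓝 (Phi a.1 a.2)) :=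
      (Phi_cont.tendsto a).comp hlim
    have l2 : Tendsto (fun n => Phi (p (φ n)).1 (p (φ n)).2) atTop (𝓝 (Phi x y + (0 : ℝ) • z)) := by
      simp only [hpe]
      exact ((hs0.comp hφ.tendsto_atTop).smul_const z).const_add _
    rw [zero_smul, add_zero] at l2
    exact tendsto_nhds_unique l1 l2
  obtain ⟨η, k, l, hη, hx, hy⟩ := Phi_eq_iff hPa
  have hηη : η * η = 1 := by rcases hη with rfl | rfl <;> norm_num
  -- transported points
  set u : ℕ → ℝ := fun n => η * ((p (φ n)).1 - 2 * k) - x with hu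
  set v : ℕ → ℝ := fun n => η * ((p (φ n)).2 - 2 * l) - y with hv
  have hu0 : Tendsto u atTop (𝓝 0) := by
    have l1 : Tendsto (fun n => (p (φ n)).1) atTop (𝓝 a.1) := (continuous_fst.tendsto a).comp hlim
    have l2 := (((l1.sub_const (2 * (k : ℝ))).const_mul η).sub_const x)
    have e : η * (a.1 - 2 * k) - x = 0 := by rw [hx]; linear_combination x * hηη
    rwa [e] at l2
  have hv0 : Tendsto v atTop (𝓝 0) := by
    have l1 : Tendsto (fun n => (p (φ n)).2) atTop (𝓝 a.2) := (continuous_snd.tendsto a).comp hlim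
    have l2 := (((l1.sub_const (2 * (l : ℝ))).const_mul η).sub_const y)
    have e : η * (a.2 - 2 * l) - y = 0 := by rw [hy]; linear_combination y * hηη
    rwa [e] at l2
  have hPuv : ∀ n, Phi (x + u n) (y + v n) = Phi x y + s (φ n) • z := by
    intro n
    rw [← hpe]
    have e1 : (p (φ n)).1 = η * (x + u n) + 2 * k := by
      simp only [hu]; linear_combination (-((p (φ n)).1 - 2 * k)) * hηη
    have e2 : (p (φ n)).2 = η * (y + v n) + 2 * l := by
      simp only [hv]; linear_combination (-((p (φ n)).2 - 2 * l)) * hηη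
    conv_rhs => rw [e1, e2]
    exact (Phi_symm hη _ _ _ _).symm
  obtain ⟨ε1, hε1, loc1⟩ := h1.loc
  obtain ⟨ε2, hε2, loc2⟩ := h2.loc
  obtain ⟨ε3, hε3, loc3⟩ := h3.loc
  have huv0 : Tendsto (fun n => u n + v n) atTop (𝓝 0) := by simpa using hu0.add hv0
  have ev1 : ∀ᶠ n in atTop, |u n| < ε1 := by
    have := hu0.abs; rw [abs_zero] at this; exact this.eventually (gt_mem_nhds hε1)
  have ev2 : ∀ᶠ n in atTop, |v n| < ε2 := by
    have := hv0.abs; rw [abs_zero] at this; exact this.eventually (gt_mem_nhds hε2)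
  have ev3 : ∀ᶠ n in atTop, |u n + v n| < ε3 := by
    have := huv0.abs; rw [abs_zero] at this; exact this.eventually (gt_mem_nhds hε3)
  obtain ⟨n, hn1, hn2, hn3⟩ := (ev1.and (ev2.and ev3)).exists
  have hform : Phi (x + u n) (y + v n) = Phi x y + D g1 g2 g3 (u n) (v n) := by
    have e : x + u n + (y + v n) = (x + y) + (u n + v n) := by ring
    simp only [Phi, D, e, loc1 _ hn1, loc2 _ hn2, loc3 _ hn3]
    ext i
    fin_cases i
    · simp
    · simp
    · simp; ring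
  have hDz : D g1 g2 g3 (u n) (v n) = s (φ n) • z := by
    have := hform.symm.trans (hPuv n)
    exact add_left_cancel this
  have hsn := hspos (φ n)
  have hz' : z = D g1 g2 g3 ((s (φ n))⁻¹ * u n) ((s (φ n))⁻¹ * v n) := by
    rw [D_hom h1 h2 h3 (by positivity), hDz, smul_smul, inv_mul_cancel₀ hsn.ne', one_smul]
  have hQ : Q ((s (φ n))⁻¹ * u n) ((s (φ n))⁻¹ * v n) = 1 := by
    rw [← norm_D h1 h2 h3, ← hz', hz]; norm_num
  obtain ⟨ψ, e1, e2⟩ := exists_psi hQ
  exact ⟨ψ, by rw [hz', e1, e2]⟩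

/-- the unit direction at angle `ψ` -/
noncomputable def dir (g1 g2 g3 : ℝ → ℝ) (ψ : ℝ) : E3 := D g1 g2 g3 (pa ψ) (pb ψ)

lemma dir_lip {t1 t2 t3 : ℝ} {g1 g2 g3 : ℝ → ℝ} (h1 : LF t1 g1) (h2 : LF t2 g2) (h3 : LF t3 g3) :
    LipschitzWith 1 (dir g1 g2 g3) := by
  apply LipschitzWith.of_dist_le_mul
  intro a b
  rw [dist_eq_norm, NNReal.coe_one, one_mul, Real.dist_eq]
  have e := (dist_D h1 h2 h3 (pa a) (pb a) (pa b) (pb b)).trans (Q_diff a b)
  have := sq_le_sq.1 e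
  rwa [abs_of_nonneg (norm_nonneg _)] at this

lemma arc_measure {t1 t2 t3 : ℝ} {g1 g2 g3 : ℝ → ℝ} (h1 : LF t1 g1) (h2 : LF t2 g2)
    (h3 : LF t3 g3) (a : ℝ) :
    μH[1] (dir g1 g2 g3 '' Icc a (a + Real.pi)) ≤ ENNReal.ofReal Real.pi := by
  have := (dir_lip h1 h2 h3).lipschitzOnWith (s := Icc a (a + Real.pi)) |>.hausdorffMeasure_image_le
    (d := 1) zero_le_one
  rw [hausdorffMeasure_real, Real.volume_Icc] at this
  simpa using this

lemma pa_add_pi (ψ : ℝ) : pa (ψ + Real.pi) = -pa ψ := by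
  simp only [pa, pb, Real.cos_add_pi, Real.sin_add_pi]; ring
lemma pb_add_pi (ψ : ℝ) : pb (ψ + Real.pi) = -pb ψ := by
  simp only [pb, Real.sin_add_pi]; ring

lemma dir_period {g1 g2 g3 : ℝ → ℝ} (ψ : ℝ) (k : ℤ) :
    dir g1 g2 g3 (ψ + k * (2 * Real.pi)) = dir g1 g2 g3 ψ := by
  simp only [dir, pa, pb, Real.cos_add_int_mul_two_pi, Real.sin_add_int_mul_two_pi]

/-- At a vertex the angle condition is automatic: the whole link has length at most `π`. -/
lemma angle_vertex {S : Set E3} (hS : ∀ q ∈ S, ∃ x y : ℝ, |x| ≤ 1 ∧ |y| ≤ 1 ∧ Phi x y = q)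
    {x y : ℝ} (hx : ∃ n : ℤ, x = n) (hy : ∃ n : ℤ, y = n) (u w : E3) :
    AngleCondition S (Phi x y) u w := by
  have hpi := Real.pi_pos
  obtain ⟨g1, h1⟩ := exists_LF x
  obtain ⟨g2, h2⟩ := exists_LF y
  obtain ⟨g3, h3⟩ := exists_LF (x + y)
  have hxy : ∃ n : ℤ, x + y = n := by
    obtain ⟨a, ha⟩ := hx
    obtain ⟨b, hb⟩ := hy
    exact ⟨a + b, by rw [ha, hb]; push_cast; ring⟩
  intro z hz
  refine le_trans (measure_mono ?_) (arc_measure h1 h2 h3 0)
  refine (connectedComponentIn_subset _ _).trans (sdiff_subset.trans ?_)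
  intro z hz
  obtain ⟨ψ, rfl⟩ := link_sub hS h1 h2 h3 hz
  -- reduce ψ to [0, π] using periodicity and evenness
  have hev : ∀ ψ, dir g1 g2 g3 (ψ + Real.pi) = dir g1 g2 g3 ψ := by
    intro ψ
    simp only [dir, D, pa_add_pi, pb_add_pi]
    have e : -pa ψ + -pb ψ = -(pa ψ + pb ψ) := by ring
    rw [e, h1.evn hx, h2.evn hy, h3.evn hxy]
  have hev' : ∀ (ψ : ℝ) (k : ℤ), dir g1 g2 g3 (ψ + k * Real.pi) = dir g1 g2 g3 ψ := by
    intro ψ k
    rcases Int.even_or_odd' k with ⟨m, hm | hm⟩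
    · have e : ψ + (k : ℝ) * Real.pi = ψ + m * (2 * Real.pi) := by rw [hm]; push_cast; ring
      rw [e, dir_period]
    · have e : ψ + (k : ℝ) * Real.pi = (ψ + Real.pi) + m * (2 * Real.pi) := by
        rw [hm]; push_cast; ring
      rw [e, dir_period, hev]
  set k : ℤ := ⌊ψ / Real.pi⌋ with hk
  have a1 : (k : ℝ) ≤ ψ / Real.pi := Int.floor_le _
  have a2 : ψ / Real.pi < k + 1 := Int.lt_floor_add_one _
  rw [le_div_iff₀ hpi] at a1
  rw [div_lt_iff₀ hpi] at a2
  refine ⟨ψ - k * Real.pi, ⟨by linarith, by linarith⟩, ?_⟩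
  have := hev' (ψ - k * Real.pi) k
  rw [sub_add_cancel] at this
  rw [← this]; rfl

lemma D_inj {x y : ℝ} {g1 g2 g3 : ℝ → ℝ} (h1 : LF x g1) (h2 : LF y g2) (h3 : LF (x + y) g3)
    (hne : ¬ ((∃ n : ℤ, x = n) ∧ ∃ n : ℤ, y = n)) {a b a' b' : ℝ}
    (h : D g1 g2 g3 a b = D g1 g2 g3 a' b') : a = a' ∧ b = b' := by
  have e1 : g1 a = g1 a' := by
    have := congrArg (fun v : E3 => v 0) h
    simpa [D] using this
  have e2 : g2 b = g2 b' := by
    have := congrArg (fun v : E3 => v 1) h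
    simpa [D] using this
  have e3 : g3 (a + b) = g3 (a' + b') := by
    have := congrArg (fun v : E3 => v 2) h
    simpa [D] using this
  have lin : ∀ {t : ℝ} {g : ℝ → ℝ}, LF t g → (¬ ∃ n : ℤ, t = n) → ∀ {δ δ' : ℝ}, g δ = g δ' →
      δ = δ' := by
    intro t g hg hn δ δ' hd
    obtain ⟨σ, hσ, hs⟩ := hg.lin hn
    rw [hs, hs] at hd
    exact mul_left_cancel₀ hσ hd
  by_cases hx : ∃ n : ℤ, x = n
  · have hy : ¬ ∃ n : ℤ, y = n := fun hy => hne ⟨hx, hy⟩
    have hxy : ¬ ∃ n : ℤ, x + y = n := by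
      rintro ⟨m, hm⟩
      obtain ⟨n, hn⟩ := hx
      exact hy ⟨m - n, by push_cast; linarith⟩
    have f2 := lin h2 hy e2
    have f3 := lin h3 hxy e3
    exact ⟨by linarith, f2⟩
  · have f1 := lin h1 hx e1
    by_cases hy : ∃ n : ℤ, y = n
    · have hxy : ¬ ∃ n : ℤ, x + y = n := by
        rintro ⟨m, hm⟩
        obtain ⟨n, hn⟩ := hy
        exact hx ⟨m - n, by push_cast; linarith⟩
      have f3 := lin h3 hxy e3
      exact ⟨f1, by linarith⟩
    · exact ⟨f1, lin h2 hy e2⟩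

lemma pab_inj {ψ ψ' : ℝ} (h1 : pa ψ = pa ψ') (h2 : pb ψ = pb ψ') :
    Real.cos ψ = Real.cos ψ' ∧ Real.sin ψ = Real.sin ψ' := by
  have p6 : (√6 : ℝ) ≠ 0 := by positivity
  have p8 : (√8 : ℝ) ≠ 0 := by positivity
  have hs : Real.sin ψ = Real.sin ψ' := by
    simp only [pb] at h2
    exact (div_left_inj' p6).1 h2
  refine ⟨?_, hs⟩
  simp only [pa, h2] at h1
  exact (div_left_inj' p8).1 (by linarith)

/-- Away from the vertices a straight line satisfies the angle condition. -/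
lemma angle_straight {S : Set E3} (hS : ∀ q ∈ S, ∃ x y : ℝ, |x| ≤ 1 ∧ |y| ≤ 1 ∧ Phi x y = q)
    {x y : ℝ} {g1 g2 g3 : ℝ → ℝ} (h1 : LF x g1) (h2 : LF y g2) (h3 : LF (x + y) g3)
    (hne : ¬ ((∃ n : ℤ, x = n) ∧ ∃ n : ℤ, y = n)) {a b : ℝ} (hab : 0 < Q a b) :
    AngleCondition S (Phi x y) (‖D g1 g2 g3 a b‖⁻¹ • D g1 g2 g3 a b)
      (‖D g1 g2 g3 (-a) (-b)‖⁻¹ • D g1 g2 g3 (-a) (-b)) := by
  have hpi := Real.pi_pos
  -- the direction angle
  have hnorm : ‖D g1 g2 g3 a b‖ ^ 2 = Q a b := norm_D h1 h2 h3 a b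
  set N := ‖D g1 g2 g3 a b‖ with hN
  have hNpos : 0 < N := by
    rcases (norm_nonneg (D g1 g2 g3 a b)).eq_or_lt with h | h
    · rw [hN, ← h] at hnorm; norm_num at hnorm; linarith
    · exact h
  have hnorm' : ‖D g1 g2 g3 (-a) (-b)‖ = N := by
    have e : ‖D g1 g2 g3 (-a) (-b)‖ ^ 2 = N ^ 2 := by
      rw [norm_D h1 h2 h3, hnorm, Q, Q]; ring
    exact (pow_left_inj₀ (norm_nonneg _) hNpos.le two_ne_zero).1 e
  have hQ1 : Q (N⁻¹ * a) (N⁻¹ * b) = 1 := by
    have e : Q (N⁻¹ * a) (N⁻¹ * b) = (N⁻¹) ^ 2 * Q a b := by simp only [Q]; ring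
    rw [e, ← hnorm]; field_simp
  obtain ⟨ψ0, ea, eb⟩ := exists_psi hQ1
  have hu : N⁻¹ • D g1 g2 g3 a b = dir g1 g2 g3 ψ0 := by
    rw [dir, ← ea, ← eb, D_hom h1 h2 h3 (by positivity)]
  have hw : N⁻¹ • D g1 g2 g3 (-a) (-b) = dir g1 g2 g3 (ψ0 + Real.pi) := by
    rw [dir, pa_add_pi, pb_add_pi, ← ea, ← eb, ← mul_neg, ← mul_neg,
      D_hom h1 h2 h3 (by positivity)]
  rw [hnorm', hu, hw]
  intro z hz
  set C := connectedComponentIn (link S (Phi x y) \ {dir g1 g2 g3 ψ0, dir g1 g2 g3 (ψ0 + Real.pi)}) z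
    with hC
  have hCpre : IsPreconnected C := isPreconnected_connectedComponentIn
  have hCsub : C ⊆ link S (Phi x y) \ {dir g1 g2 g3 ψ0, dir g1 g2 g3 (ψ0 + Real.pi)} :=
    connectedComponentIn_subset _ _
  set A := dir g1 g2 g3 '' Icc ψ0 (ψ0 + Real.pi) with hA
  set B := dir g1 g2 g3 '' Icc (ψ0 + Real.pi) (ψ0 + Real.pi + Real.pi) with hB
  have hcont : Continuous (dir g1 g2 g3) := (dir_lip h1 h2 h3).continuous
  have hAc : IsClosed A := (isCompact_Icc.image hcont).isClosed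
  have hBc : IsClosed B := (isCompact_Icc.image hcont).isClosed
  have hcover : C ⊆ A ∪ B := by
    intro q hq
    obtain ⟨ψ, hψ⟩ := link_sub hS h1 h2 h3 (hCsub hq).1
    set k : ℤ := ⌊(ψ - ψ0) / (2 * Real.pi)⌋ with hk
    have a1 : (k : ℝ) ≤ (ψ - ψ0) / (2 * Real.pi) := Int.floor_le _
    have a2 : (ψ - ψ0) / (2 * Real.pi) < k + 1 := Int.lt_floor_add_one _
    rw [le_div_iff₀ (by positivity)] at a1
    rw [div_lt_iff₀ (by positivity)] at a2
    have e : dir g1 g2 g3 (ψ - k * (2 * Real.pi)) = q := by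
      have := dir_period (g1 := g1) (g2 := g2) (g3 := g3) (ψ - k * (2 * Real.pi)) k
      rw [sub_add_cancel] at this
      rw [← this, hψ]; rfl
    rcases le_total (ψ - k * (2 * Real.pi)) (ψ0 + Real.pi) with h | h
    · exact Or.inl ⟨_, ⟨by linarith, h⟩, e⟩
    · exact Or.inr ⟨_, ⟨h, by linarith⟩, e⟩
  have hinter : C ∩ (A ∩ B) = ∅ := by
    rw [Set.eq_empty_iff_forall_notMem]
    rintro q ⟨hqC, ⟨ψ1, hψ1, e1⟩, ⟨ψ2, hψ2, e2⟩⟩
    have hD := e1.trans e2.symm
    obtain ⟨f1, f2⟩ := D_inj h1 h2 h3 hne hD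
    obtain ⟨c1, c2⟩ := pab_inj f1 f2
    have hcos : Real.cos (ψ2 - ψ1) = 1 := by
      rw [Real.cos_sub, c1, c2]
      have := Real.sin_sq_add_cos_sq ψ2
      linarith
    obtain ⟨m, hm⟩ := (Real.cos_eq_one_iff _).1 hcos
    have m0 : (0 : ℝ) ≤ m := by
      by_contra hneg
      push Not at hneg
      nlinarith [hψ1.1, hψ1.2, hψ2.1, hψ2.2]
    have m1 : (m : ℝ) ≤ 1 := by
      by_contra hneg
      push Not at hneg
      nlinarith [hψ1.1, hψ1.2, hψ2.1, hψ2.2]
    have m0' : 0 ≤ m := by exact_mod_cast m0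
    have m1' : m ≤ 1 := by exact_mod_cast m1
    have hq := (hCsub hqC).2
    apply hq
    rcases (by omega : m = 0 ∨ m = 1) with h | h
    · rw [h] at hm
      right
      have : ψ1 = ψ0 + Real.pi := by
        simp at hm
        linarith [hψ1.2, hψ2.1]
      rw [mem_singleton_iff, ← e1, this]
    · rw [h] at hm
      left
      have : ψ1 = ψ0 := by
        push_cast at hm
        linarith [hψ1.1, hψ2.2]
      rw [← e1, this]
  by_cases hCA : (C ∩ A).Nonempty
  · have hCB : ¬ (C ∩ B).Nonempty := by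
      intro hCB
      have := isPreconnected_closed_iff.1 hCpre A B hAc hBc hcover hCA hCB
      rw [hinter] at this
      exact this.ne_empty rfl
    have hsub : C ⊆ A := by
      intro q hq
      rcases hcover hq with h | h
      · exact h
      · exact absurd ⟨q, hq, h⟩ hCB
    exact (measure_mono hsub).trans (arc_measure h1 h2 h3 ψ0)
  · have hsub : C ⊆ B := by
      intro q hq
      rcases hcover hq with h | h
      · exact absurd ⟨q, hq, h⟩ hCA
      · exact h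
    exact (measure_mono hsub).trans (arc_measure h1 h2 h3 (ψ0 + Real.pi))

end Pool.Agent.V11190.Quasi
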