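import Mathlib
import Pool.Agent.V11190.Quasi1

open Set Filter Topology MeasureTheory Measure
open scoped ENNReal NNReal

namespace Pool.Agent.V11190.Quasi

/-- the vertices of a regular tetrahedron -/
noncomputable def tv : Fin 4 → E3 := ![!₂[-1, -1, 1], !₂[1, -1, -1], !₂[-1, 1, -1], !₂[1, 1, 1]]

/-- four times the barycentric coordinates -/
noncomputable def bc : Fin 4 → E3 → ℝ :=
  ![fun z => 1 - z 0 - z 1 + z 2, fun z => 1 + z 0 - z 1 - z 2, fun z => 1 - z 0 + z 1 - z 2,
    fun z => 1 + z 0 + z 1 + z 2]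

/-- the tetrahedron -/
def Tet : Set E3 := convexHull ℝ (range tv)

lemma bc_cont (i : Fin 4) : Continuous (bc i) := by
  fin_cases i <;> simp [bc] <;> fun_prop

lemma bc_tv (i j : Fin 4) : bc i (tv j) = if i = j then 4 else 0 := by
  fin_cases i <;> fin_cases j <;> simp [bc, tv] <;> norm_num

lemma bc_affine (i : Fin 4) (a b : ℝ) (hab : a + b = 1) (z w : E3) :
    bc i (a • z + b • w) = a * bc i z + b * bc i w := by
  fin_cases i
  · simp only [bc]; simp; linear_combination (-1 : ℝ) * hab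
  · simp only [bc]; simp; linear_combination (-1 : ℝ) * hab
  · simp only [bc]; simp; linear_combination (-1 : ℝ) * hab
  · simp only [bc]; simp; linear_combination (-1 : ℝ) * hab

lemma mem_Tet (z : E3) : z ∈ Tet ↔ ∀ i, 0 ≤ bc i z := by
  constructor
  · intro hz i
    have hconv : Convex ℝ {w : E3 | 0 ≤ bc i w} := by
      intro x hx y hy a b ha hb hab
      simp only [Set.mem_ofPred_eq] at *
      rw [bc_affine i a b hab]
      positivity
    have hsub : range tv ⊆ {w : E3 | 0 ≤ bc i w} := by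
      rintro _ ⟨j, rfl⟩
      simp only [Set.mem_ofPred_eq, bc_tv]
      split_ifs <;> norm_num
    exact convexHull_min hsub hconv hz
  · intro h
    have e : z = ∑ i : Fin 4, (bc i z / 4) • tv i := by
      rw [Fin.sum_univ_four]
      ext j
      fin_cases j
      · simp [bc, tv]; ring
      · simp [bc, tv]; ring
      · simp [bc, tv]; ring
    rw [e]
    apply (convex_convexHull ℝ (range tv)).sum_mem
    · intro i _; have := h i; positivity
    · rw [Fin.sum_univ_four]; simp [bc]; ring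
    · intro i _; exact subset_convexHull ℝ _ ⟨i, rfl⟩

lemma Tet_closed : IsClosed Tet := by
  have : Tet = ⋂ i, {z | 0 ≤ bc i z} := by
    ext z; simp [mem_Tet]
  rw [this]
  exact isClosed_iInter fun i => isClosed_le continuous_const (bc_cont i)

lemma Tet_interior : {z : E3 | ∀ i, 0 < bc i z} ⊆ interior Tet := by
  apply interior_maximal
  · intro z hz
    rw [mem_Tet]; exact fun i => (hz i).le
  · have : {z : E3 | ∀ i, 0 < bc i z} = ⋂ i, {z | 0 < bc i z} := by
      ext z; simp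
    rw [this]
    exact isOpen_iInter_of_finite fun i => isOpen_lt continuous_const (bc_cont i)

lemma mem_frontier_Tet (z : E3) : z ∈ frontier Tet ↔ (∀ i, 0 ≤ bc i z) ∧ ∃ i, bc i z = 0 := by
  rw [Tet_closed.frontier_eq]
  constructor
  · rintro ⟨h1, h2⟩
    rw [mem_Tet] at h1
    refine ⟨h1, ?_⟩
    by_contra hcon
    push Not at hcon
    exact h2 (Tet_interior fun i => lt_of_le_of_ne (h1 i) (hcon i).symm)
  · rintro ⟨h1, i, hi⟩
    refine ⟨(mem_Tet z).2 h1, fun hint => ?_⟩
    -- move away from the vertex tv i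
    have hcont : Continuous fun s : ℝ => (1 + s) • z + (-s) • tv i := by fun_prop
    have h0 : (1 + (0 : ℝ)) • z + (-(0 : ℝ)) • tv i ∈ interior Tet := by simpa using hint
    have hev : ∀ᶠ s in 𝓝 (0 : ℝ), (1 + s) • z + (-s) • tv i ∈ interior Tet :=
      hcont.continuousAt.eventually (isOpen_interior.mem_nhds h0)
    have hev2 : ∀ᶠ s in 𝓝[>] (0 : ℝ), (1 + s) • z + (-s) • tv i ∈ interior Tet :=
      hev.filter_mono nhdsWithin_le_nhds
    obtain ⟨s, hs, hspos⟩ := (hev2.and self_mem_nhdsWithin).exists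
    have hspos : 0 < s := hspos
    have h3 := (mem_Tet _).1 (interior_subset hs) i
    rw [bc_affine i _ _ (by ring), hi, bc_tv] at h3
    simp at h3
    linarith

lemma W01 {t : ℝ} (h0 : 0 ≤ t) (h1 : t ≤ 1) : W t = 2 * t - 1 := by
  rw [W_val (by rw [abs_le]; constructor <;> linarith), abs_of_nonneg h0]

lemma W10 {t : ℝ} (h0 : -1 ≤ t) (h1 : t ≤ 0) : W t = -2 * t - 1 := by
  rw [W_val (by rw [abs_le]; constructor <;> linarith), abs_of_nonpos h1]; ring

lemma W12 {t : ℝ} (h0 : 1 ≤ t) (h1 : t ≤ 2) : W t = 3 - 2 * t := by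
  have e : t = (t - 2) + 2 * ((1 : ℤ) : ℝ) := by push_cast; ring
  rw [e, W_val' (by rw [abs_le]; constructor <;> linarith), abs_of_nonpos (by linarith)]
  push_cast; ring

lemma frontier_sub_Phi : ∀ q ∈ frontier Tet, ∃ x y : ℝ, |x| ≤ 1 ∧ |y| ≤ 1 ∧ Phi x y = q := by
  intro z hz
  rw [mem_frontier_Tet] at hz
  obtain ⟨h, i, hi⟩ := hz
  have l0 : 0 ≤ 1 - z 0 - z 1 + z 2 := h 0
  have l1 : 0 ≤ 1 + z 0 - z 1 - z 2 := h 1
  have l2 : 0 ≤ 1 - z 0 + z 1 - z 2 := h 2
  have l3 : 0 ≤ 1 + z 0 + z 1 + z 2 := h 3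
  have a1 : -1 ≤ z 0 := by linarith
  have a2 : z 0 ≤ 1 := by linarith
  have b1 : -1 ≤ z 1 := by linarith
  have b2 : z 1 ≤ 1 := by linarith
  have hx : |(z 0 + 1) / 2| ≤ 1 := by rw [abs_le]; constructor <;> linarith
  have hy : |(z 1 + 1) / 2| ≤ 1 := by rw [abs_le]; constructor <;> linarith
  have hy' : |-((z 1 + 1) / 2)| ≤ 1 := by rwa [abs_neg]
  have wx : W ((z 0 + 1) / 2) = z 0 := by rw [W01 (by linarith) (by linarith)]; ring
  have wy : W ((z 1 + 1) / 2) = z 1 := by rw [W01 (by linarith) (by linarith)]; ring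
  have wy' : W (-((z 1 + 1) / 2)) = z 1 := by rw [W_even, wy]
  have fin : ∀ y, W y = z 1 → W ((z 0 + 1) / 2 + y) = -z 2 → Phi ((z 0 + 1) / 2) y = z := by
    intro y h1 h2
    ext j
    fin_cases j
    · simpa [Phi] using wx
    · simpa [Phi] using h1
    · simp [Phi, h2]
  fin_cases i
  · -- l0 = 0
    have e : 1 - z 0 - z 1 + z 2 = 0 := hi
    refine ⟨_, _, hx, hy, fin _ wy ?_⟩
    rw [W12 (by linarith) (by linarith)]; linarith
  · have e : 1 + z 0 - z 1 - z 2 = 0 := hi
    refine ⟨_, _, hx, hy', fin _ wy' ?_⟩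
    rw [W10 (by linarith) (by linarith)]; linarith
  · have e : 1 - z 0 + z 1 - z 2 = 0 := hi
    refine ⟨_, _, hx, hy', fin _ wy' ?_⟩
    rw [W01 (by linarith) (by linarith)]; linarith
  · have e : 1 + z 0 + z 1 + z 2 = 0 := hi
    refine ⟨_, _, hx, hy, fin _ wy ?_⟩
    rw [W01 (by linarith) (by linarith)]; linarith

lemma Phi_mem (x y : ℝ) : Phi x y ∈ frontier Tet := by
  -- reduce to x ∈ [0, 1], y ∈ [-1, 1]
  have key : ∀ x y : ℝ, 0 ≤ x → x ≤ 1 → -1 ≤ y → y ≤ 1 → Phi x y ∈ frontier Tet := by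
    intro x y hx0 hx1 hy0 hy1
    rw [mem_frontier_Tet]
    have wx := W01 hx0 hx1
    rcases le_total 0 y with h | h
    · have wy := W01 h hy1
      rcases le_total (x + y) 1 with h' | h'
      · have ws := W01 (by linarith : 0 ≤ x + y) h'
        refine ⟨fun i => ?_, 3, ?_⟩
        · fin_cases i <;> simp [bc, Phi, wx, wy, ws] <;> linarith
        · simp [bc, Phi, wx, wy, ws]; ring
      · have ws := W12 h' (by linarith)
        refine ⟨fun i => ?_, 0, ?_⟩
        · fin_cases i <;> simp [bc, Phi, wx, wy, ws] <;> linarith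
        · simp [bc, Phi, wx, wy, ws]; ring
    · have wy := W10 hy0 h
      rcases le_total 0 (x + y) with h' | h'
      · have ws := W01 h' (by linarith)
        refine ⟨fun i => ?_, 2, ?_⟩
        · fin_cases i <;> simp [bc, Phi, wx, wy, ws] <;> linarith
        · simp [bc, Phi, wx, wy, ws]; ring
      · have ws := W10 (by linarith) h'
        refine ⟨fun i => ?_, 1, ?_⟩
        · fin_cases i <;> simp [bc, Phi, wx, wy, ws] <;> linarith
        · simp [bc, Phi, wx, wy, ws]; ring
  have red : ∀ t : ℝ, ∃ (s : ℝ) (k : ℤ), |s| ≤ 1 ∧ t = s + 2 * k := by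
    intro t
    refine ⟨t - 2 * round (t / 2), round (t / 2), ?_, by ring⟩
    have h1 := abs_sub_round (t / 2)
    have h2 : t - 2 * round (t / 2) = 2 * (t / 2 - round (t / 2)) := by ring
    rw [h2, abs_mul, abs_two]; linarith
  obtain ⟨s, k, hs, hx⟩ := red x
  obtain ⟨r, l, hr, hy⟩ := red y
  have hs' := abs_le.1 hs
  have hr' := abs_le.1 hr
  rcases le_total 0 s with h | h
  · have e := Phi_symm (Or.inl rfl : (1 : ℝ) = 1 ∨ (1 : ℝ) = -1) s r k l
    rw [one_mul, one_mul, ← hx, ← hy] at e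
    rw [e]; exact key s r h hs'.2 hr'.1 hr'.2
  · have e := Phi_symm (Or.inr rfl : (-1 : ℝ) = 1 ∨ (-1 : ℝ) = -1) (-s) (-r) k l
    have e1 : (-1 : ℝ) * -s + 2 * k = x := by rw [hx]; ring
    have e2 : (-1 : ℝ) * -r + 2 * l = y := by rw [hy]; ring
    rw [e1, e2] at e
    rw [e]; exact key (-s) (-r) (by linarith) (by linarith) (by linarith) (by linarith)

/-- a straight line of slope `m` through the origin, folded onto the tetrahedron -/
noncomputable def L (m t : ℝ) : E3 := Phi t (m * t)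

lemma L_cont (m : ℝ) : Continuous (L m) := by
  have h : Continuous fun t : ℝ => ((t, m * t) : ℝ × ℝ) := by fun_prop
  have e : L m = (fun p : ℝ × ℝ => Phi p.1 p.2) ∘ fun t : ℝ => ((t, m * t) : ℝ × ℝ) := rfl
  rw [e]
  exact Phi_cont.comp h

lemma L_period (k : ℕ) (t : ℝ) : L (2 * k) (t + 2) = L (2 * k) t := by
  have e := Phi_symm (Or.inl rfl : (1 : ℝ) = 1 ∨ (1 : ℝ) = -1) t (2 * k * t) 1 (2 * k)
  simp only [one_mul] at e
  rw [L, L, ← e]
  push_cast
  ring_nf

lemma L_neg (m t : ℝ) : L m (-t) = L m t := by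
  have e := Phi_symm (Or.inr rfl : (-1 : ℝ) = 1 ∨ (-1 : ℝ) = -1) t (m * t) 0 0
  simp only [Int.cast_zero, mul_zero, add_zero, neg_mul, one_mul] at e
  rw [L, L, ← e]
  ring_nf

lemma L_int (k : ℕ) (n : ℤ) : L (2 * k) n = Phi n 0 := by
  have e1 : W ((2 * k : ℝ) * n) = W 0 := by
    have := W_add_two 0 (k * n)
    rw [← this]; push_cast; ring_nf
  have e2 : W ((n : ℝ) + 2 * k * n) = W ((n : ℝ) + 0) := by
    have := W_add_two n (k * n)
    rw [add_zero, ← this]; push_cast; ring_nf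
  simp only [L, Phi, e1, e2]

lemma L_right {m t : ℝ} {g1 g2 g3 : ℝ → ℝ} (h1 : LF t g1) (h2 : LF (m * t) g2)
    (h3 : LF (t + m * t) g3) : HasDerivWithinAt (L m) (D g1 g2 g3 1 m) (Ici t) t ∧
      HasDerivWithinAt (L m) (-D g1 g2 g3 (-1) (-m)) (Iic t) t := by
  obtain ⟨ε1, hε1, loc1⟩ := h1.loc
  obtain ⟨ε2, hε2, loc2⟩ := h2.loc
  obtain ⟨ε3, hε3, loc3⟩ := h3.loc
  have hloc : ∀ᶠ τ in 𝓝 t, L m τ = L m t + D g1 g2 g3 (τ - t) (m * (τ - t)) := by
    have c1 : Tendsto (fun τ : ℝ => |τ - t|) (𝓝 t) (𝓝 0) := by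
      have : Continuous fun τ : ℝ => |τ - t| := by fun_prop
      have := this.tendsto t
      simpa using this
    have c2 : Tendsto (fun τ : ℝ => |m * (τ - t)|) (𝓝 t) (𝓝 0) := by
      have : Continuous fun τ : ℝ => |m * (τ - t)| := by fun_prop
      have := this.tendsto t
      simpa using this
    have c3 : Tendsto (fun τ : ℝ => |(τ - t) + m * (τ - t)|) (𝓝 t) (𝓝 0) := by
      have : Continuous fun τ : ℝ => |(τ - t) + m * (τ - t)| := by fun_prop
      have := this.tendsto t
      simpa using this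
    filter_upwards [c1.eventually (gt_mem_nhds hε1), c2.eventually (gt_mem_nhds hε2),
      c3.eventually (gt_mem_nhds hε3)] with τ k1 k2 k3
    have e1 := loc1 _ k1
    have e2 := loc2 _ k2
    have e3 := loc3 _ k3
    have f1 : t + (τ - t) = τ := by ring
    have f2 : m * t + m * (τ - t) = m * τ := by ring
    have f3 : t + m * t + ((τ - t) + m * (τ - t)) = τ + m * τ := by ring
    rw [f1] at e1
    rw [f2] at e2
    rw [f3] at e3
    simp only [L, Phi, D, e1, e2, e3]
    ext i
    fin_cases i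
    · simp
    · simp
    · simp; ring
  have haff : ∀ v : E3, HasDerivAt (fun τ : ℝ => L m t + (τ - t) • v) v t := by
    intro v
    have := (((hasDerivAt_id t).sub_const t).smul_const v).const_add (L m t)
    simpa using this
  constructor
  · refine (haff (D g1 g2 g3 1 m)).hasDerivWithinAt.congr_of_eventuallyEq ?_ (by simp)
    filter_upwards [self_mem_nhdsWithin, hloc.filter_mono nhdsWithin_le_nhds] with τ hτ hl
    have hτ' : 0 ≤ τ - t := sub_nonneg.2 hτ
    rw [hl]
    congr 1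
    have := D_hom h1 h2 h3 hτ' 1 m
    rw [← this, mul_one, mul_comm m]
  · refine (haff (-D g1 g2 g3 (-1) (-m))).hasDerivWithinAt.congr_of_eventuallyEq ?_ (by simp)
    filter_upwards [self_mem_nhdsWithin, hloc.filter_mono nhdsWithin_le_nhds] with τ hτ hl
    have hτ' : 0 ≤ t - τ := sub_nonneg.2 hτ
    rw [hl]
    congr 1
    have := D_hom h1 h2 h3 hτ' (-1) (-m)
    have e : (τ - t) • -D g1 g2 g3 (-1) (-m) = (t - τ) • D g1 g2 g3 (-1) (-m) := by
      rw [smul_neg, ← neg_smul, neg_sub]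
    rw [e, ← this]
    congr 1 <;> ring

/-- the closed curve: out along slope `2k`, back along slope `2k + 2` -/
noncomputable def cur (k : ℕ) (t : ℝ) : E3 :=
  if 0 ≤ Real.sin (Real.pi * t) then L (2 * k) t else L (2 * (k + 1 : ℕ)) t

lemma sin_zero_int {t : ℝ} (h : Real.sin (Real.pi * t) = 0) : ∃ n : ℤ, t = n := by
  obtain ⟨n, hn⟩ := Real.sin_eq_zero_iff.1 h
  refine ⟨n, ?_⟩
  have hpi := Real.pi_pos
  have : Real.pi * t = Real.pi * n := by rw [← hn]; ring
  exact mul_left_cancel₀ hpi.ne' this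

lemma L_agree (k : ℕ) {t : ℝ} (h : Real.sin (Real.pi * t) = 0) :
    L (2 * k) t = L (2 * (k + 1 : ℕ)) t := by
  obtain ⟨n, rfl⟩ := sin_zero_int h
  rw [L_int, L_int]

lemma cur_cont (k : ℕ) : Continuous (cur k) := by
  refine Continuous.if_le (L_cont _) (L_cont _) continuous_const (by fun_prop) ?_
  intro t ht
  exact L_agree k ht.symm

lemma cur_period (k : ℕ) (t : ℝ) : cur k (t + 2) = cur k t := by
  have e : Real.sin (Real.pi * (t + 2)) = Real.sin (Real.pi * t) := by
    have : Real.pi * (t + 2) = Real.pi * t + 2 * Real.pi := by ring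
    rw [this, Real.sin_add_two_pi]
  simp only [cur, e, L_period]

lemma cur_low (k : ℕ) {t : ℝ} (h0 : 0 ≤ t) (h1 : t ≤ 1) : cur k t = L (2 * k) t := by
  have hpi := Real.pi_pos
  rw [cur, if_pos]
  exact Real.sin_nonneg_of_nonneg_of_le_pi (by positivity) (by nlinarith)

lemma cur_high (k : ℕ) {t : ℝ} (h0 : 1 < t) (h1 : t < 2) : cur k t = L (2 * (k + 1 : ℕ)) t := by
  have hpi := Real.pi_pos
  rw [cur, if_neg]
  push Not
  have e : Real.sin (Real.pi * t) = -Real.sin (Real.pi * (t - 1)) := by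
    rw [← Real.sin_add_pi]; ring_nf
  rw [e]
  have := Real.sin_pos_of_pos_of_lt_pi (x := Real.pi * (t - 1)) (mul_pos hpi (by linarith))
    (by nlinarith)
  linarith

lemma cross (k : ℕ) {t t' : ℝ} (h0 : 0 ≤ t) (h1 : t ≤ 1) (h0' : 1 < t') (h1' : t' < 2)
    (h : L (2 * k) t = L (2 * (k + 1 : ℕ)) t') : False := by
  have e1 : W t = W t' := by
    have := congrArg (fun v : E3 => v 0) h
    simpa [L, Phi] using this
  rw [W01 h0 h1, W12 h0'.le h1'.le] at e1
  have et : t' = 2 - t := by linarith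
  have hback : L (2 * (k + 1 : ℕ)) t' = L (2 * (k + 1 : ℕ)) t := by
    rw [et]
    have a := L_period (k + 1) (-t)
    have e : -t + 2 = 2 - t := by ring
    rw [e] at a
    rw [a, L_neg]
  rw [hback] at h
  have hint : ∀ n : ℤ, t ≠ n := by
    intro n hn
    have t0 : 0 < t := by linarith
    have t1 : t < 1 := by linarith
    rw [hn] at t0 t1
    have a : 0 < n := by exact_mod_cast t0
    have b : n < 1 := by exact_mod_cast t1
    omega
  have e2 : W (2 * k * t) = W (2 * (k + 1 : ℕ) * t) := by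
    have := congrArg (fun v : E3 => v 1) h
    simpa [L, Phi] using this
  have e3 : W (t + 2 * k * t) = W (t + 2 * (k + 1 : ℕ) * t) := by
    have := congrArg (fun v : E3 => v 2) h
    simpa [L, Phi] using this
  obtain ⟨m, hm⟩ := W_inj e2
  obtain ⟨n, hn⟩ := W_inj e3
  push_cast at hm hn
  rcases hm with hm | hm
  · exact hint (-m) (by push_cast; linarith)
  · rcases hn with hn | hn
    · exact hint (-n) (by push_cast; linarith)
    · exact hint (n - m) (by push_cast; linarith)

lemma cur_inj (k : ℕ) : InjOn (cur k) (Ico 0 2) := by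
  intro t ht t' ht' h
  rcases le_or_gt t 1 with h1 | h1 <;> rcases le_or_gt t' 1 with h2 | h2
  · rw [cur_low k ht.1 h1, cur_low k ht'.1 h2] at h
    have e1 : W t = W t' := by
      have := congrArg (fun v : E3 => v 0) h
      simpa [L, Phi] using this
    rw [W01 ht.1 h1, W01 ht'.1 h2] at e1
    linarith
  · rw [cur_low k ht.1 h1, cur_high k h2 ht'.2] at h
    exact (cross k ht.1 h1 h2 ht'.2 h).elim
  · rw [cur_high k h1 ht.2, cur_low k ht'.1 h2] at h
    exact (cross k ht'.1 h2 h1 ht.2 h.symm).elim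
  · rw [cur_high k h1 ht.2, cur_high k h2 ht'.2] at h
    have e1 : W t = W t' := by
      have := congrArg (fun v : E3 => v 0) h
      simpa [L, Phi] using this
    rw [W12 h1.le ht.2.le, W12 h2.le ht'.2.le] at e1
    linarith

lemma D_ne {t1 t2 t3 : ℝ} {g1 g2 g3 : ℝ → ℝ} (h1 : LF t1 g1) (h2 : LF t2 g2) (h3 : LF t3 g3)
    {a b : ℝ} (h : 0 < Q a b) : D g1 g2 g3 a b ≠ 0 := by
  intro h0
  have := norm_D h1 h2 h3 a b
  rw [h0, norm_zero] at this
  norm_num at this
  linarith

lemma Q_pos (m : ℝ) : 0 < Q 1 m := by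
  simp only [Q]
  nlinarith [sq_nonneg (1 + m / 2), sq_nonneg m]

lemma Q_pos' (m : ℝ) : 0 < Q (-1) (-m) := by
  have := Q_pos m
  have e : Q (-1) (-m) = Q 1 m := by simp only [Q]; ring
  rwa [e]

/-- The curve `cur k` is a simple closed quasigeodesic. -/
theorem cur_quasi (k : ℕ) : IsSimpleClosedQuasigeodesic (frontier Tet) (range (cur k)) := by
  have hpi := Real.pi_pos
  refine ⟨cur k, 2, two_pos, cur_cont k, cur_period k, cur_inj k, rfl, ?_, ?_⟩
  · rintro _ ⟨t, rfl⟩
    simp only [cur]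
    split_ifs <;> exact Phi_mem _ _
  · intro t
    -- one-sided derivatives of a line
    have hline : ∀ j : ℕ, ∃ a b : E3, a ≠ 0 ∧ b ≠ 0 ∧ HasDerivWithinAt (L (2 * j)) a (Ici t) t ∧
        HasDerivWithinAt (L (2 * j)) (-b) (Iic t) t ∧ ((¬ ∃ n : ℤ, t = n) →
        AngleCondition (frontier Tet) (L (2 * j) t) (‖a‖⁻¹ • a) (‖b‖⁻¹ • b)) := by
      intro j
      obtain ⟨g1, h1⟩ := exists_LF t
      obtain ⟨g2, h2⟩ := exists_LF (2 * j * t)
      obtain ⟨g3, h3⟩ := exists_LF (t + 2 * j * t)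
      obtain ⟨d1, d2⟩ := L_right h1 h2 h3
      refine ⟨D g1 g2 g3 1 (2 * j), D g1 g2 g3 (-1) (-(2 * j)), D_ne h1 h2 h3 (Q_pos _),
        D_ne h1 h2 h3 (Q_pos' _), d1, d2, fun hn => ?_⟩
      exact angle_straight frontier_sub_Phi h1 h2 h3 (fun h => hn h.1) (Q_pos _)
    have hsc : Continuous fun τ : ℝ => Real.sin (Real.pi * τ) := by fun_prop
    rcases lt_trichotomy (Real.sin (Real.pi * t)) 0 with hlt | heq | hgt
    · obtain ⟨a, b, ha, hb, d1, d2, hang⟩ := hline (k + 1)
      have hev : cur k =ᶠ[𝓝 t] L (2 * (k + 1 : ℕ)) := by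
        filter_upwards [hsc.continuousAt.eventually (gt_mem_nhds hlt)] with τ hτ
        rw [cur, if_neg (not_le.2 hτ)]
      have hnint : ¬ ∃ n : ℤ, t = n := by
        rintro ⟨n, rfl⟩
        rw [mul_comm, Real.sin_int_mul_pi] at hlt
        exact lt_irrefl _ hlt
      refine ⟨a, b, ha, hb, d1.congr_of_eventuallyEq (hev.filter_mono nhdsWithin_le_nhds)
        hev.eq_of_nhds, d2.congr_of_eventuallyEq (hev.filter_mono nhdsWithin_le_nhds)
        hev.eq_of_nhds, ?_⟩
      rw [hev.eq_of_nhds]; exact hang hnint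
    · -- a vertex
      obtain ⟨n, hn⟩ := sin_zero_int heq
      obtain ⟨a, b, ha, hb, d1, d2, -⟩ := hline k
      obtain ⟨a', b', ha', hb', d1', d2', -⟩ := hline (k + 1)
      have hcurt : cur k t = L (2 * k) t := by rw [cur, if_pos heq.ge]
      have hcurt' : cur k t = L (2 * (k + 1 : ℕ)) t := by rw [hcurt, L_agree k heq]
      have hangle : ∀ u w, AngleCondition (frontier Tet) (cur k t) u w := by
        intro u w
        rw [hcurt, L]
        exact angle_vertex frontier_sub_Phi ⟨n, hn⟩ ⟨2 * k * n, by rw [hn]; push_cast; ring⟩ u w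
      have hcos : Real.cos (Real.pi * t) = 1 ∨ Real.cos (Real.pi * t) = -1 := by
        have := Real.sin_sq_add_cos_sq (Real.pi * t)
        rw [heq] at this
        exact mul_self_eq_one_iff.1 (by linarith)
      have hsin : ∀ τ, Real.sin (Real.pi * τ) = Real.cos (Real.pi * t) * Real.sin (Real.pi * (τ - t)) := by
        intro τ
        have e : Real.pi * τ = Real.pi * t + Real.pi * (τ - t) := by ring
        rw [e, Real.sin_add, heq]; ring
      have hrpos : ∀ τ ∈ Ioo t (t + 1), 0 < Real.sin (Real.pi * (τ - t)) := fun τ hτ =>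
        Real.sin_pos_of_pos_of_lt_pi (mul_pos hpi (by linarith [hτ.1])) (by nlinarith [hτ.2])
      have hlneg : ∀ τ ∈ Ioo (t - 1) t, Real.sin (Real.pi * (τ - t)) < 0 := fun τ hτ =>
        Real.sin_neg_of_neg_of_neg_pi_lt (mul_neg_of_pos_of_neg hpi (by linarith [hτ.2]))
          (by nlinarith [hτ.1])
      have hIoo1 : Iio (t + 1) ∈ 𝓝 t := Iio_mem_nhds (by linarith)
      have hIoo2 : Ioi (t - 1) ∈ 𝓝 t := Ioi_mem_nhds (by linarith)
      rcases hcos with hc | hc
      · -- right: L (2k), left: L (2k+2)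
        have hr : cur k =ᶠ[𝓝[≥] t] L (2 * k) := by
          filter_upwards [self_mem_nhdsWithin, mem_nhdsWithin_of_mem_nhds hIoo1] with τ h1 h2
          rcases eq_or_lt_of_le (show t ≤ τ from h1) with h | h
          · rw [← h, hcurt]
          · rw [cur, if_pos]
            rw [hsin, hc, one_mul]; exact (hrpos τ ⟨h, h2⟩).le
        have hl : cur k =ᶠ[𝓝[≤] t] L (2 * (k + 1 : ℕ)) := by
          filter_upwards [self_mem_nhdsWithin, mem_nhdsWithin_of_mem_nhds hIoo2] with τ h1 h2
          rcases eq_or_lt_of_le (show τ ≤ t from h1) with h | h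
          · rw [h, hcurt']
          · rw [cur, if_neg]
            rw [hsin, hc, one_mul, not_le]; exact hlneg τ ⟨h2, h⟩
        exact ⟨a, b', ha, hb', d1.congr_of_eventuallyEq hr hcurt,
          d2'.congr_of_eventuallyEq hl hcurt', hangle _ _⟩
      · have hr : cur k =ᶠ[𝓝[≥] t] L (2 * (k + 1 : ℕ)) := by
          filter_upwards [self_mem_nhdsWithin, mem_nhdsWithin_of_mem_nhds hIoo1] with τ h1 h2
          rcases eq_or_lt_of_le (show t ≤ τ from h1) with h | h
          · rw [← h, hcurt']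
          · rw [cur, if_neg]
            rw [hsin, hc, not_le]
            have := hrpos τ ⟨h, h2⟩
            linarith
        have hl : cur k =ᶠ[𝓝[≤] t] L (2 * k) := by
          filter_upwards [self_mem_nhdsWithin, mem_nhdsWithin_of_mem_nhds hIoo2] with τ h1 h2
          rcases eq_or_lt_of_le (show τ ≤ t from h1) with h | h
          · rw [h, hcurt]
          · rw [cur, if_pos]
            rw [hsin, hc]
            have := hlneg τ ⟨h2, h⟩
            linarith
        exact ⟨a', b, ha', hb, d1'.congr_of_eventuallyEq hr hcurt',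
          d2.congr_of_eventuallyEq hl hcurt, hangle _ _⟩
    · obtain ⟨a, b, ha, hb, d1, d2, hang⟩ := hline k
      have hev : cur k =ᶠ[𝓝 t] L (2 * k) := by
        filter_upwards [hsc.continuousAt.eventually (lt_mem_nhds hgt)] with τ hτ
        rw [cur, if_pos hτ.le]
      have hnint : ¬ ∃ n : ℤ, t = n := by
        rintro ⟨n, rfl⟩
        rw [mul_comm, Real.sin_int_mul_pi] at hgt
        exact lt_irrefl _ hgt
      refine ⟨a, b, ha, hb, d1.congr_of_eventuallyEq (hev.filter_mono nhdsWithin_le_nhds)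
        hev.eq_of_nhds, d2.congr_of_eventuallyEq (hev.filter_mono nhdsWithin_le_nhds)
        hev.eq_of_nhds, ?_⟩
      rw [hev.eq_of_nhds]; exact hang hnint

end Pool.Agent.V11190.Quasi
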