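import Pool.Agent.V11190.NondegFenchel

/-!
# The Frenet frame of a nondegenerate closed curve
-/

open Real InnerProductGeometry Set Filter Topology MeasureTheory InnerProductSpace

namespace Pool.Agent.V11190.Nondeg

section
variable {n : ℕ} {γ : ℝ → E n}

lemma smooth_iter (h : ContDiff ℝ (⊤ : ℕ∞) γ) (k : ℕ) : ContDiff ℝ (⊤ : ℕ∞) (iteratedDeriv k γ) := by
  rw [iteratedDeriv_eq_iterate]
  exact ContDiff.iterate_deriv k h

lemma hasDeriv_iter (h : ContDiff ℝ (⊤ : ℕ∞) γ) (k : ℕ) (t : ℝ) :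
    HasDerivAt (iteratedDeriv k γ) (iteratedDeriv (k + 1) γ t) t := by
  rw [iteratedDeriv_succ]
  exact ((smooth_iter h k).differentiable (by simp)).differentiableAt.hasDerivAt

lemma gs_ne (h : IsNondegenerate γ) (i : Fin n) (t : ℝ) :
    gramSchmidt ℝ (fun j : Fin n => iteratedDeriv ((j : ℕ) + 1) γ t) i ≠ 0 :=
  gramSchmidt_ne_zero i (h.2 t)

lemma gs_smooth (h : IsNondegenerate γ) (i : Fin n) :
    ContDiff ℝ (⊤ : ℕ∞) fun t => gramSchmidt ℝ (fun j : Fin n => iteratedDeriv ((j : ℕ) + 1) γ t) i := by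
  induction i using WellFoundedLT.induction with
  | _ i ih =>
    have h1 : (fun t => gramSchmidt ℝ (fun j : Fin n => iteratedDeriv ((j : ℕ) + 1) γ t) i) =
        fun t => iteratedDeriv ((i : ℕ) + 1) γ t - ∑ l ∈ Finset.Iio i,
          (inner ℝ (gramSchmidt ℝ (fun j : Fin n => iteratedDeriv ((j : ℕ) + 1) γ t) l)
            (iteratedDeriv ((i : ℕ) + 1) γ t) /
            ‖gramSchmidt ℝ (fun j : Fin n => iteratedDeriv ((j : ℕ) + 1) γ t) l‖ ^ 2) •
          gramSchmidt ℝ (fun j : Fin n => iteratedDeriv ((j : ℕ) + 1) γ t) l := by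
      ext1 t
      have := gramSchmidt_def'' ℝ (fun j : Fin n => iteratedDeriv ((j : ℕ) + 1) γ t) i
      rw [eq_sub_iff_add_eq]
      exact this.symm
    rw [h1]
    refine (smooth_iter h.1.1 _).sub (ContDiff.sum fun l hl => ?_)
    have hl' := ih l (Finset.mem_Iio.mp hl)
    refine ContDiff.smul (ContDiff.div (hl'.inner ℝ (smooth_iter h.1.1 _)) ?_ ?_) hl'
    · exact hl'.norm_sq ℝ
    · intro t
      exact pow_ne_zero 2 (norm_ne_zero_iff.mpr (gs_ne h l t))

lemma frame_smooth (h : IsNondegenerate γ) (i : Fin n) : ContDiff ℝ (⊤ : ℕ∞) (frame γ i) := by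
  have h1 := gs_smooth h i
  have h2 : ContDiff ℝ (⊤ : ℕ∞) fun t =>
      ‖gramSchmidt ℝ (fun j : Fin n => iteratedDeriv ((j : ℕ) + 1) γ t) i‖ :=
    h1.norm ℝ fun t => gs_ne h i t
  exact (h2.inv fun t => norm_ne_zero_iff.mpr (gs_ne h i t)).smul h1

lemma frame_hasDeriv (h : IsNondegenerate γ) (i : Fin n) (t : ℝ) :
    HasDerivAt (frame γ i) (deriv (frame γ i) t) t :=
  ((frame_smooth h i).differentiable (by simp)).differentiableAt.hasDerivAt

lemma frame_ortho (h : IsNondegenerate γ) (t : ℝ) : Orthonormal ℝ fun i => frame γ i t :=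
  gramSchmidtNormed_orthonormal (h.2 t)

lemma frame_iter_zero {i j : Fin n} (hij : j < i) (t : ℝ) :
    inner ℝ (iteratedDeriv ((j : ℕ) + 1) γ t) (frame γ i t) = 0 := by
  have := gramSchmidt_inv_triangular ℝ (fun j : Fin n => iteratedDeriv ((j : ℕ) + 1) γ t) hij
  unfold frame gramSchmidtNormed
  rw [inner_smul_right, real_inner_comm, this, mul_zero]

lemma frame_iter_self (h : IsNondegenerate γ) (i : Fin n) (t : ℝ) :
    0 < inner ℝ (iteratedDeriv ((i : ℕ) + 1) γ t) (frame γ i t) := by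
  have h1 := gramSchmidt_def'' ℝ (fun j : Fin n => iteratedDeriv ((j : ℕ) + 1) γ t) i
  have h2 : inner ℝ (iteratedDeriv ((i : ℕ) + 1) γ t)
      (gramSchmidt ℝ (fun j : Fin n => iteratedDeriv ((j : ℕ) + 1) γ t) i) =
      ‖gramSchmidt ℝ (fun j : Fin n => iteratedDeriv ((j : ℕ) + 1) γ t) i‖ ^ 2 := by
    rw [← real_inner_self_eq_norm_sq]
    nth_rw 1 [h1]
    rw [inner_add_left, sum_inner, Finset.sum_eq_zero, add_zero]
    intro l hl
    rw [inner_smul_left, gramSchmidt_orthogonal ℝ _ (Finset.mem_Iio.mp hl).ne, mul_zero]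
  unfold frame gramSchmidtNormed
  rw [inner_smul_right, h2]
  have := norm_pos_iff.mpr (gs_ne h i t)
  simp only [RCLike.ofReal_real_eq_id, id_eq]
  positivity

/-- Expansion of a vector in the Frenet frame. -/
lemma frame_expand (h : IsNondegenerate γ) (t : ℝ) (x : E n) :
    ∑ i, inner ℝ (frame γ i t) x • frame γ i t = x := by
  have hb : ⊤ ≤ Submodule.span ℝ (range fun i => frame γ i t) := by
    have h1 : LinearIndependent ℝ fun i => frame γ i t := (frame_ortho h t).linearIndependent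
    rw [h1.span_eq_top_of_card_eq_finrank' (by simp)]
  have := (OrthonormalBasis.mk (frame_ortho h t) hb).sum_repr' x
  simpa using this

lemma inner_deriv (h : IsNondegenerate γ) {i j : Fin n} (hij : j < i) (t : ℝ) :
    inner ℝ (iteratedDeriv ((j : ℕ) + 1) γ t) (deriv (frame γ i) t) =
      -inner ℝ (iteratedDeriv ((j : ℕ) + 1 + 1) γ t) (frame γ i t) := by
  have h1 := (hasDeriv_iter h.1.1 ((j : ℕ) + 1) t).inner ℝ (frame_hasDeriv h i t)
  have h2 : (fun t => inner ℝ (iteratedDeriv ((j : ℕ) + 1) γ t) (frame γ i t)) = fun _ => (0 : ℝ) := by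
    ext1 t
    exact frame_iter_zero hij t
  rw [h2] at h1
  have := h1.unique (hasDerivAt_const t (0 : ℝ))
  linarith

lemma inner_frame_deriv (h : IsNondegenerate γ) (i j : Fin n) (t : ℝ) :
    inner ℝ (frame γ i t) (deriv (frame γ j) t) = -inner ℝ (deriv (frame γ i) t) (frame γ j t) := by
  have h1 := (frame_hasDeriv h i t).inner ℝ (frame_hasDeriv h j t)
  have h2 : (fun t => inner ℝ (frame γ i t) (frame γ j t)) = fun _ => (if i = j then (1 : ℝ) else 0) := by
    ext1 t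
    exact (orthonormal_iff_ite.mp (frame_ortho h t)) i j
  rw [h2] at h1
  have := h1.unique (hasDerivAt_const t _)
  linarith

/-- `γ' = r e₁` with `r > 0`. -/
lemma first_eq (h : IsNondegenerate γ) (h0 : 0 < n) (t : ℝ) :
    iteratedDeriv 1 γ t = (inner ℝ (iteratedDeriv 1 γ t) (frame γ ⟨0, h0⟩ t) : ℝ) • frame γ ⟨0, h0⟩ t := by
  have h1 := frame_expand h t (iteratedDeriv 1 γ t)
  rw [Finset.sum_eq_single (⟨0, h0⟩ : Fin n)] at h1
  · rw [real_inner_comm]
    exact h1.symm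
  · intro l _ hl
    have h2 : (⟨0, h0⟩ : Fin n) < l := by
      rw [Fin.lt_def]
      have : (l : ℕ) ≠ 0 := fun h3 => hl (Fin.ext h3)
      simp only
      omega
    have h3 := frame_iter_zero (γ := γ) h2 t
    simp only [zero_add] at h3
    rw [real_inner_comm, h3, zero_smul]
  · intro h2
    exact absurd (Finset.mem_univ _) h2

lemma first_pos (h : IsNondegenerate γ) (h0 : 0 < n) (t : ℝ) :
    0 < inner ℝ (iteratedDeriv 1 γ t) (frame γ ⟨0, h0⟩ t) :=
  frame_iter_self h ⟨0, h0⟩ t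

/-- The derivative of `e₁` is orthogonal to `e₃, e₄, …`. -/
lemma deriv_first_zero (h : IsNondegenerate γ) (h0 : 0 < n) (h1 : 1 < n) {j : Fin n} (hj : 1 < (j : ℕ)) (t : ℝ) :
    inner ℝ (deriv (frame γ ⟨0, h0⟩) t) (frame γ j t) = 0 := by
  have k1 := inner_deriv h (i := j) (j := ⟨0, h0⟩) (by rw [Fin.lt_def]; simp only; omega) t
  have k2 := frame_iter_zero (γ := γ) (i := j) (j := ⟨1, h1⟩) (by rw [Fin.lt_def]; exact hj) t
  simp only [zero_add] at k1
  rw [show ((1 : ℕ) + 1) = 1 + 1 from rfl, k2, neg_zero, first_eq h h0, inner_smul_left] at k1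
  have k3 := (mul_eq_zero.mp k1).resolve_left (by simpa using (first_pos h h0 t).ne')
  rw [inner_frame_deriv h] at k3
  linarith

lemma deriv_first_eq (h : IsNondegenerate γ) (h0 : 0 < n) (h1 : 1 < n) (t : ℝ) :
    ‖deriv (frame γ ⟨0, h0⟩) t‖ = |inner ℝ (deriv (frame γ ⟨0, h0⟩) t) (frame γ ⟨1, h1⟩ t)| := by
  have k := frame_expand h t (deriv (frame γ ⟨0, h0⟩) t)
  rw [Finset.sum_eq_single (⟨1, h1⟩ : Fin n)] at k
  · have k2 := congrArg norm k
    rw [norm_smul, (frame_ortho h t).1, mul_one, Real.norm_eq_abs, real_inner_comm] at k2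
    exact k2.symm
  · intro l _ hl
    rw [real_inner_comm]
    by_cases hl0 : (l : ℕ) = 0
    · have : l = ⟨0, h0⟩ := Fin.ext hl0
      rw [this]
      have := inner_frame_deriv h ⟨0, h0⟩ ⟨0, h0⟩ t
      rw [real_inner_comm] at this
      rw [show inner ℝ (deriv (frame γ ⟨0, h0⟩) t) (frame γ ⟨0, h0⟩ t) = (0 : ℝ) by linarith, zero_smul]
    · have hl1 : (l : ℕ) ≠ 1 := fun h3 => hl (Fin.ext h3)
      rw [deriv_first_zero h h0 h1 (by omega), zero_smul]
  · intro h2
    exact absurd (Finset.mem_univ _) h2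

end

end Pool.Agent.V11190.Nondeg
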