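import Mathlib

/-!
# Nondegenerate closed curves in `ℝⁿ` and perturbations of multiply traversed circles: definitions
-/

open Real

namespace Pool.Agent.V11190.Nondeg

/-- Euclidean space `ℝⁿ`. -/
abbrev E (n : ℕ) := EuclideanSpace ℝ (Fin n)

/-- A smooth closed curve in `ℝⁿ`: a smooth (`C^∞`) map `ℝ → ℝⁿ` of period `2π`. -/
def IsClosedCurve {n : ℕ} (γ : ℝ → E n) : Prop :=
  ContDiff ℝ (⊤ : ℕ∞) γ ∧ ∀ t, γ (t + 2 * π) = γ t

/-- A nondegenerate closed curve in `ℝⁿ`: the derivatives of the orders `1, …, n` are linearly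
independent at every point, that is `γ' ∧ γ'' ∧ ⋯ ∧ γ⁽ⁿ⁾ ≠ 0`. -/
def IsNondegenerate {n : ℕ} (γ : ℝ → E n) : Prop :=
  IsClosedCurve γ ∧ ∀ t, LinearIndependent ℝ fun i : Fin n => iteratedDeriv ((i : ℕ) + 1) γ t

/-- The plane unit circle traversed `m` times, `c_m(t) = (cos mt, sin mt, 0, …, 0)`. -/
noncomputable def circle (n m : ℕ) (t : ℝ) : E n :=
  WithLp.toLp 2 fun j => if (j : ℕ) = 0 then cos (m * t) else if (j : ℕ) = 1 then sin (m * t) else 0

/-- Every `C^∞`-neighbourhood of `c_m` contains a nondegenerate closed curve in `ℝⁿ`: for every order `K` and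
every `ε > 0` there is a nondegenerate closed curve whose derivatives of the orders `0, …, K` are
everywhere within `ε` of those of `c_m`. -/
def Perturbable (n m : ℕ) : Prop :=
  ∀ (K : ℕ) (ε : ℝ), 0 < ε → ∃ γ : ℝ → E n, IsNondegenerate γ ∧
    ∀ k ≤ K, ∀ t, ‖iteratedDeriv k γ t - iteratedDeriv k (circle n m) t‖ < ε

/-- `μ(n)`: the least `m ≥ 1` such that every `C^∞`-neighbourhood of `c_m` contains a nondegenerate closed
curve in `ℝⁿ`. -/
noncomputable def mu (n : ℕ) : ℕ := sInf {m : ℕ | 1 ≤ m ∧ Perturbable n m}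

/-- The Frenet frame of `γ`, obtained by Gram–Schmidt from `γ', γ'', …, γ⁽ⁿ⁾`. The vector `e_{i+1}` of the
literature is `frame γ i`, since the elements of `Fin n` are `0, …, n - 1`. -/
noncomputable def frame {n : ℕ} (γ : ℝ → E n) (i : Fin n) (t : ℝ) : E n :=
  InnerProductSpace.gramSchmidtNormed ℝ (fun j : Fin n => iteratedDeriv ((j : ℕ) + 1) γ t) i

/-- The curvature `κ_{i+1} = ⟨de_{i+1}/ds, e_{i+2}⟩`, where `d/ds = ‖γ'‖⁻¹ d/dt`, and `κ_n = 0`. -/
noncomputable def curvature {n : ℕ} (γ : ℝ → E n) (i : Fin n) (t : ℝ) : ℝ :=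
  if h : (i : ℕ) + 1 < n then
    inner ℝ (deriv (frame γ i) t) (frame γ ⟨(i : ℕ) + 1, h⟩ t) / ‖deriv γ t‖ else 0

/-- The length of the Frenet frame, `L(E) = ∫ (κ_1² + ⋯ + κ_{n-1}²)^{1/2} ds`. -/
noncomputable def frameLength {n : ℕ} (γ : ℝ → E n) : ℝ :=
  ∫ t in 0..(2 * π), √(∑ i, curvature γ i t ^ 2) * ‖deriv γ t‖

end Pool.Agent.V11190.Nondeg
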