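import Pool.Agent.V11190.NondegDefs

/-!
# Fenchel's theorem
-/

open Real InnerProductGeometry Set Filter Topology MeasureTheory

namespace Pool.Agent.V11190.Nondeg

variable {V : Type*} [NormedAddCommGroup V] [InnerProductSpace ℝ V]

lemma chord {x y : V} (hx : ‖x‖ = 1) (hy : ‖y‖ = 1) : ‖x - y‖ = 2 * sin (angle x y / 2) := by
  have h1 : ‖x - y‖ ^ 2 = (2 * sin (angle x y / 2)) ^ 2 := by
    have h2 : cos (angle x y) = inner ℝ x y := by
      rw [cos_angle, hx, hy]; simp
    have h3 : cos (angle x y) = 1 - 2 * sin (angle x y / 2) ^ 2 := by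
      have := cos_sq_add_sin_sq (angle x y / 2)
      have h4 := cos_two_mul (angle x y / 2)
      rw [show 2 * (angle x y / 2) = angle x y by ring] at h4
      linarith
    rw [norm_sub_sq_real, hx, hy, ← h2, h3]
    ring
  have h0 : 0 ≤ 2 * sin (angle x y / 2) := by
    have := sin_nonneg_of_nonneg_of_le_pi (x := angle x y / 2)
      (by have := angle_nonneg x y; linarith) (by have := angle_le_pi x y; have := pi_pos; linarith)
    linarith
  exact (pow_left_inj₀ (norm_nonneg _) h0 two_ne_zero).mp h1

lemma angle_mul_le {x y : V} (hx : ‖x‖ = 1) (hy : ‖y‖ = 1) :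
    angle x y * (1 - ‖x - y‖ ^ 2 / 6) ≤ ‖x - y‖ := by
  set θ := angle x y with hθ
  have h0 : 0 ≤ θ := angle_nonneg x y
  have hpi : θ ≤ π := angle_le_pi x y
  have hc := chord hx hy
  rw [← hθ] at hc
  rcases eq_or_lt_of_le h0 with h | h
  · rw [← h, zero_mul]; exact norm_nonneg _
  · have h1 := sin_gt_sub_cube (x := θ / 2) (by linarith)
    have h2 := mul_le_sin (x := θ / 2) (by linarith) (by linarith)
    have h3 : θ ≤ 2 * ‖x - y‖ := by
      rw [hc]
      have hp := pi_pos
      have hp4 := pi_le_four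
      have h4 : θ ≤ π * sin (θ / 2) := by
        have : θ = π * (2 / π * (θ / 2)) := by field_simp
        calc θ = π * (2 / π * (θ / 2)) := this
          _ ≤ π * sin (θ / 2) := by gcongr
      have h5 : 0 ≤ sin (θ / 2) := le_trans (by positivity) h2
      nlinarith
    have h6 : θ ^ 2 ≤ 4 * ‖x - y‖ ^ 2 := by nlinarith
    nlinarith [mul_le_mul_of_nonneg_left h6 h0]

lemma angle_le_integral {c c' : ℝ → V} (hc : ∀ t, HasDerivAt c (c' t) t) (hc' : Continuous c')
    (h1 : ∀ t, ‖c t‖ = 1) {a b : ℝ} (hab : a ≤ b) : angle (c a) (c b) ≤ ∫ t in a..b, ‖c' t‖ := by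
  have hcc : Continuous c := continuous_iff_continuousAt.mpr fun t => (hc t).continuousAt
  have hne : ∀ t, c t ≠ 0 := fun t h => by have := h1 t; rw [h, norm_zero] at this; norm_num at this
  have key := image_le_of_liminf_slope_right_le_deriv_boundary (f := fun t => angle (c a) (c t))
    (a := a) (b := b) (B := fun x => ∫ t in a..x, ‖c' t‖) (B' := fun x => ‖c' x‖) ?_ ?_ ?_ ?_ ?_
  · exact key ⟨hab, le_rfl⟩
  · apply Continuous.continuousOn
    rw [continuous_iff_continuousAt]
    intro t
    exact (continuousAt_angle (hne a) (hne t)).comp (f := fun t => ((c a, c t) : V × V))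
      (continuousAt_const.prodMk hcc.continuousAt)
  · simp [angle_self (hne a)]
  · exact (intervalIntegral.continuous_primitive (fun _ _ => hc'.norm.intervalIntegrable _ _) a).continuousOn
  · intro x _
    exact (intervalIntegral.integral_hasDerivAt_right (hc'.norm.intervalIntegrable _ _)
      (hc'.norm.stronglyMeasurableAtFilter _ _) hc'.norm.continuousAt).hasDerivWithinAt
  · intro x _ r hr
    apply Eventually.frequently
    set m := (‖c' x‖ + r) / 2 with hm
    have hm1 : ‖c' x‖ < m := by rw [hm]; linarith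
    have hm2 : m < r := by rw [hm]; linarith
    have hm0 : 0 ≤ m := (norm_nonneg _).trans hm1.le
    have hr0 : 0 < r := lt_of_le_of_lt hm0 hm2
    have e1 := (hc x).hasDerivWithinAt (s := Ioi x) |>.limsup_norm_slope_le hm1
    have e2 : ∀ᶠ z in 𝓝[>] x, m < r * (1 - ‖c x - c z‖ ^ 2 / 6) := by
      have hcont : Continuous fun z => r * (1 - ‖c x - c z‖ ^ 2 / 6) := by fun_prop
      have ht := hcont.tendsto x
      simp only [sub_self, norm_zero] at ht
      norm_num at ht
      exact (ht.eventually (lt_mem_nhds (by linarith))).filter_mono nhdsWithin_le_nhds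
    filter_upwards [e1, e2, self_mem_nhdsWithin] with z h2 h3 h4
    have hzx : 0 < z - x := sub_pos.mpr h4
    rw [Real.norm_eq_abs, abs_of_pos hzx, inv_mul_lt_iff₀ hzx] at h2
    have h5 := angle_mul_le (h1 x) (h1 z)
    have h6 : 0 < 1 - ‖c x - c z‖ ^ 2 / 6 := by
      by_contra hcon
      have := mul_nonpos_of_nonneg_of_nonpos hr0.le (not_lt.mp hcon)
      linarith
    rw [norm_sub_rev] at h2
    have h7 : angle (c x) (c z) < r * (z - x) := by
      by_contra hcon
      have h8 := mul_le_mul_of_nonneg_right (not_lt.mp hcon) h6.le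
      have h9 : (z - x) * m < r * (z - x) * (1 - ‖c x - c z‖ ^ 2 / 6) := by
        have := mul_lt_mul_of_pos_left h3 hzx
        calc (z - x) * m < (z - x) * (r * (1 - ‖c x - c z‖ ^ 2 / 6)) := this
          _ = r * (z - x) * (1 - ‖c x - c z‖ ^ 2 / 6) := by ring
      linarith
    have h8 := angle_le_angle_add_angle (c a) (c x) (c z)
    rw [slope_def_field, div_lt_iff₀ hzx]
    linarith

/-- Fenchel's theorem: the tangent indicatrix of a closed curve has length at least `2π`. -/
lemma fenchel {γ γ' c c' : ℝ → V} (hγ : ∀ t, HasDerivAt γ (γ' t) t)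
    (hper : ∀ t, γ (t + 2 * π) = γ t)
    (hcper : c (2 * π) = c 0) (hγc : ∀ t, ∃ r : ℝ, 0 < r ∧ γ' t = r • c t)
    (hc : ∀ t, HasDerivAt c (c' t) t) (hc' : Continuous c') (h1 : ∀ t, ‖c t‖ = 1) :
    2 * π ≤ ∫ t in 0..(2 * π), ‖c' t‖ := by
  by_contra hlt
  push Not at hlt
  set L := ∫ t in 0..(2 * π), ‖c' t‖ with hL
  have hint : ∀ a b, IntervalIntegrable (fun t => ‖c' t‖) volume a b :=
    fun a b => hc'.norm.intervalIntegrable a b
  have hL0 : 0 ≤ L := intervalIntegral.integral_nonneg (by positivity) fun _ _ => norm_nonneg _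
  have hpi := pi_pos
  obtain ⟨τ, hτ, hτL⟩ : ∃ τ ∈ Icc 0 (2 * π), ∫ t in 0..τ, ‖c' t‖ = L / 2 := by
    have hcont : ContinuousOn (fun x => ∫ t in 0..x, ‖c' t‖) (Icc 0 (2 * π)) :=
      (intervalIntegral.continuous_primitive (fun a b => hint a b) 0).continuousOn
    have := intermediate_value_Icc (by positivity : (0 : ℝ) ≤ 2 * π) hcont
    simp only [intervalIntegral.integral_same] at this
    obtain ⟨τ, h2, h3⟩ := this ⟨by linarith, (by linarith : L / 2 ≤ L)⟩
    exact ⟨τ, h2, h3⟩
  have hpos : ∀ P A B : V, ‖P‖ = 1 → ‖A‖ = 1 → ‖B‖ = 1 → angle P A + angle P B < π →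
      0 < inner ℝ P (A + B) := by
    intro P A B hP hA hB h
    rw [inner_add_right]
    have e1 : cos (angle P A) = inner ℝ P A := by rw [cos_angle, hP, hA]; simp
    have e2 : cos (angle P B) = inner ℝ P B := by rw [cos_angle, hP, hB]; simp
    rw [← e1, ← e2]
    have := cos_lt_cos_of_nonneg_of_le_pi (x := angle P B) (y := π - angle P A) (angle_nonneg _ _)
      (by have := angle_nonneg P A; linarith) (by linarith)
    rw [cos_pi_sub] at this
    linarith
  have hall : ∀ t ∈ Icc 0 (2 * π), 0 < inner ℝ (c t) (c 0 + c τ) := by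
    intro t ht
    apply hpos _ _ _ (h1 t) (h1 0) (h1 τ)
    rcases le_total t τ with h | h
    · have k1 := angle_le_integral hc hc' h1 ht.1
      have k2 := angle_le_integral hc hc' h1 h
      have k3 := intervalIntegral.integral_add_adjacent_intervals (hint 0 t) (hint t τ)
      rw [angle_comm (c t) (c 0)]
      linarith
    · have k1 := angle_le_integral hc hc' h1 h
      have k2 := angle_le_integral hc hc' h1 ht.2
      have k3 := intervalIntegral.integral_add_adjacent_intervals (hint τ t) (hint t (2 * π))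
      have k4 := intervalIntegral.integral_add_adjacent_intervals (hint 0 τ) (hint τ (2 * π))
      rw [hcper] at k2
      rw [angle_comm (c t) (c τ)]
      linarith
  have hmono : StrictMonoOn (fun t => inner ℝ (γ t) (c 0 + c τ)) (Icc 0 (2 * π)) := by
    apply strictMonoOn_of_deriv_pos (convex_Icc _ _)
    · apply Continuous.continuousOn
      exact (continuous_iff_continuousAt.mpr fun t => (hγ t).continuousAt).inner continuous_const
    · intro t ht
      rw [interior_Icc] at ht
      have h2 : HasDerivAt (fun t => inner ℝ (γ t) (c 0 + c τ)) (inner ℝ (γ' t) (c 0 + c τ)) t := by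
        have := (hγ t).inner ℝ (hasDerivAt_const t (c 0 + c τ))
        simpa using this
      rw [h2.deriv]
      obtain ⟨r, hr, hr2⟩ := hγc t
      rw [hr2, inner_smul_left]
      exact mul_pos hr (hall t ⟨ht.1.le, ht.2.le⟩)
  have h2 := hmono (left_mem_Icc.mpr (by positivity)) (right_mem_Icc.mpr (by positivity))
    (by positivity : (0 : ℝ) < 2 * π)
  have h3 := hper 0
  rw [zero_add] at h3
  simp only [h3] at h2
  exact lt_irrefl _ h2

end Pool.Agent.V11190.Nondeg
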