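import Pool.Agent.V11190.NondegDefs

/-!
# Trigonometric nondegenerate closed curves near the circle
-/

open Real Polynomial

namespace Pool.Agent.V11190.Nondeg

/-- The function `Re (u (iω)^k e^{iωt} + v (iη)^k e^{iηt})`. -/
noncomputable def trig (u : ℂ) (ω : ℕ) (v : ℂ) (η : ℕ) (k : ℕ) (t : ℝ) : ℝ :=
  (u * (Complex.I * ω) ^ k * Complex.exp (Complex.I * ω * t) +
    v * (Complex.I * η) ^ k * Complex.exp (Complex.I * η * t)).re

lemma hasDerivAt_exp (ω : ℕ) (t : ℝ) :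
    HasDerivAt (fun t : ℝ => Complex.exp (Complex.I * ω * t))
      ((Complex.I * ω) * Complex.exp (Complex.I * ω * t)) t := by
  have h1 : HasDerivAt (fun t : ℝ => Complex.I * ω * (t : ℂ)) (Complex.I * ω) t := by
    simpa using (Complex.ofRealCLM.hasDerivAt (x := t)).const_mul (Complex.I * (ω : ℂ))
  have h2 := h1.cexp
  convert h2 using 1
  ring

lemma hasDerivAt_trig (u : ℂ) (ω : ℕ) (v : ℂ) (η : ℕ) (k : ℕ) (t : ℝ) :
    HasDerivAt (trig u ω v η k) (trig u ω v η (k + 1) t) t := by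
  have h1 := (hasDerivAt_exp ω t).const_mul (u * (Complex.I * ω) ^ k)
  have h2 := (hasDerivAt_exp η t).const_mul (v * (Complex.I * η) ^ k)
  have h3 := h1.add h2
  have h4 := (Complex.reCLM.hasFDerivAt).comp_hasDerivAt t h3
  have h5 : trig u ω v η (k + 1) t = Complex.reCLM
      (u * (Complex.I * ω) ^ k * (Complex.I * ω * Complex.exp (Complex.I * ω * t)) +
        v * (Complex.I * η) ^ k * (Complex.I * η * Complex.exp (Complex.I * η * t))) := by
    rw [Complex.reCLM_apply, trig]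
    congr 1
    ring
  rw [h5]
  exact h4

lemma trig_periodic (u : ℂ) (ω : ℕ) (v : ℂ) (η : ℕ) (k : ℕ) (t : ℝ) :
    trig u ω v η k (t + 2 * π) = trig u ω v η k t := by
  have h : ∀ ω : ℕ, Complex.exp (Complex.I * ω * ((t + 2 * π : ℝ) : ℂ)) =
      Complex.exp (Complex.I * ω * t) := by
    intro ω
    rw [Complex.exp_eq_exp_iff_exists_int]
    refine ⟨ω, ?_⟩
    push_cast
    ring
  simp only [trig, h]

lemma abs_trig_le (u : ℂ) (ω : ℕ) (v : ℂ) (η : ℕ) (k : ℕ) (t : ℝ) :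
    |trig u ω v η k t| ≤ ‖u‖ * (ω : ℝ) ^ k + ‖v‖ * (η : ℝ) ^ k := by
  have h : ∀ ω : ℕ, ‖Complex.exp (Complex.I * ω * (t : ℂ))‖ = 1 := by
    intro ω
    rw [Complex.norm_exp]
    simp
  refine (Complex.abs_re_le_norm _).trans ((norm_add_le _ _).trans ?_)
  rw [norm_mul, norm_mul, norm_mul, norm_mul, h, h, norm_pow, norm_pow, norm_mul, norm_mul]
  simp

/-- The curve with the trigonometric coordinates, and its `k`-th derivative. -/
noncomputable def curve (n : ℕ) (u : ℕ → ℂ) (ω : ℕ → ℕ) (v : ℕ → ℂ) (η : ℕ → ℕ) (k : ℕ) (t : ℝ) :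
    E n := WithLp.toLp 2 fun j => trig (u j) (ω j) (v j) (η j) k t

lemma hasDerivAt_curve (n : ℕ) (u : ℕ → ℂ) (ω : ℕ → ℕ) (v : ℕ → ℂ) (η : ℕ → ℕ) (k : ℕ) (t : ℝ) :
    HasDerivAt (curve n u ω v η k) (curve n u ω v η (k + 1) t) t := by
  have h1 : HasDerivAt (fun t : ℝ => fun j : Fin n => trig (u j) (ω j) (v j) (η j) k t)
      (fun j : Fin n => trig (u j) (ω j) (v j) (η j) (k + 1) t) t :=
    hasDerivAt_pi.mpr fun j => hasDerivAt_trig _ _ _ _ _ _
  exact ((PiLp.continuousLinearEquiv 2 ℝ (fun _ : Fin n => ℝ)).symm.toContinuousLinearMap.hasFDerivAt).comp_hasDerivAt t h1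

lemma iteratedDeriv_curve (n : ℕ) (u : ℕ → ℂ) (ω : ℕ → ℕ) (v : ℕ → ℂ) (η : ℕ → ℕ) (k : ℕ) :
    iteratedDeriv k (curve n u ω v η 0) = curve n u ω v η k := by
  induction k with
  | zero => exact iteratedDeriv_zero
  | succ k ih =>
    rw [iteratedDeriv_succ, ih]
    ext1 t
    exact (hasDerivAt_curve n u ω v η k t).deriv

lemma contDiff_curve (n : ℕ) (u : ℕ → ℂ) (ω : ℕ → ℕ) (v : ℕ → ℂ) (η : ℕ → ℕ) :
    ContDiff ℝ (⊤ : ℕ∞) (curve n u ω v η 0) := by
  rw [contDiff_infty]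
  intro m
  rw [contDiff_nat_iff_iteratedDeriv]
  constructor
  · intro k _
    rw [iteratedDeriv_curve]
    exact continuous_iff_continuousAt.mpr fun t => (hasDerivAt_curve n u ω v η k t).continuousAt
  · intro k _
    rw [iteratedDeriv_curve]
    exact fun t => (hasDerivAt_curve n u ω v η k t).differentiableAt


/-- Evaluation of a real polynomial at the frequencies. -/
noncomputable def pev (u : ℂ) (ω : ℕ) (v : ℂ) (η : ℕ) (t : ℝ) (Q : ℝ[X]) : ℂ :=
  u * aeval (Complex.I * (ω : ℂ)) Q * Complex.exp (Complex.I * ω * t) +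
    v * aeval (Complex.I * (η : ℂ)) Q * Complex.exp (Complex.I * η * t)

lemma pev_eq_sum (u : ℂ) (ω : ℕ) (v : ℂ) (η : ℕ) (t : ℝ) (Q : ℝ[X]) (N : ℕ) (hQ : Q.natDegree < N) :
    (pev u ω v η t Q).re = ∑ k ∈ Finset.range N, Q.coeff k * trig u ω v η k t := by
  have h : ∀ z : ℂ, aeval z Q = ∑ k ∈ Finset.range N, (Q.coeff k : ℂ) * z ^ k := by
    intro z
    rw [aeval_eq_sum_range' hQ]
    refine Finset.sum_congr rfl fun k _ => ?_
    rw [Complex.real_smul]
  have h2 : pev u ω v η t Q = ∑ k ∈ Finset.range N, (Q.coeff k : ℂ) *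
      (u * (Complex.I * ω) ^ k * Complex.exp (Complex.I * ω * t) +
        v * (Complex.I * η) ^ k * Complex.exp (Complex.I * η * t)) := by
    unfold pev
    rw [h, h, Finset.mul_sum, Finset.mul_sum, Finset.sum_mul, Finset.sum_mul,
      ← Finset.sum_add_distrib]
    refine Finset.sum_congr rfl fun k _ => ?_
    ring
  rw [h2, Complex.re_sum]
  refine Finset.sum_congr rfl fun k _ => ?_
  rw [Complex.re_ofReal_mul]
  rfl

/-- If a combination of the coordinates has vanishing derivatives of orders `1, …, n` at `t` then every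
polynomial of degree at most `n` without constant term annihilates it. -/
lemma annihilate {n : ℕ} (u : ℕ → ℂ) (ω : ℕ → ℕ) (v : ℕ → ℂ) (η : ℕ → ℕ) (t : ℝ) (c : ℕ → ℝ)
    (h : ∀ k, 1 ≤ k → k ≤ n →
      ∑ j ∈ Finset.range n, c j * trig (u j) (ω j) (v j) (η j) k t = 0)
    (Q : ℝ[X]) (hQ : Q.natDegree ≤ n) (h0 : Q.coeff 0 = 0) :
    (∑ j ∈ Finset.range n, (c j : ℂ) * pev (u j) (ω j) (v j) (η j) t Q).re = 0 := by
  rw [Complex.re_sum]
  simp only [Complex.re_ofReal_mul]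
  have h1 : ∀ j ∈ Finset.range n, c j * (pev (u j) (ω j) (v j) (η j) t Q).re =
      ∑ k ∈ Finset.range (n + 1), Q.coeff k * (c j * trig (u j) (ω j) (v j) (η j) k t) := by
    intro j _
    rw [pev_eq_sum _ _ _ _ _ _ (n + 1) (by omega), Finset.mul_sum]
    refine Finset.sum_congr rfl fun k _ => ?_
    ring
  rw [Finset.sum_congr rfl h1, Finset.sum_comm]
  refine Finset.sum_eq_zero fun k hk => ?_
  rw [← Finset.mul_sum]
  rcases Nat.eq_zero_or_pos k with rfl | hk0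
  · rw [h0, zero_mul]
  · rw [h k hk0 (by have := Finset.mem_range.mp hk; omega), mul_zero]


lemma det_val (c s : ℝ) (h : s^2 + c^2 = 1) :
   (2*(2*c^2-1)+3*c) * ((8*(2*c^2-1)-6*c) * (-36*(4*c^3-3*c)) - (-6*(3*s-4*s^3)) * (-32*(2*s*c)+12*s))
   - (2*(2*s*c)-3*s) * ((-8*(2*s*c)-6*s) * (-36*(4*c^3-3*c)) - (-6*(3*s-4*s^3)) * (-32*(2*c^2-1)-12*c))
   + (4*c^3-3*c) * ((-8*(2*s*c)-6*s)*(-32*(2*s*c)+12*s) - (8*(2*c^2-1)-6*c) * (-32*(2*c^2-1)-12*c))
   = -4 * (108 - 64*(4*c^3-3*c) + 24*(4*c^3-3*c)^2) := by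
  grind

/-- A three by three linear system with nonzero determinant. -/
lemma cramer (a11 a12 a13 a21 a22 a23 a31 a32 a33 x y z : ℝ)
    (h1 : a11 * x + a12 * y + a13 * z = 0) (h2 : a21 * x + a22 * y + a23 * z = 0)
    (h3 : a31 * x + a32 * y + a33 * z = 0)
    (hD : a11 * (a22 * a33 - a23 * a32) - a12 * (a21 * a33 - a23 * a31) +
      a13 * (a21 * a32 - a22 * a31) ≠ 0) : x = 0 ∧ y = 0 ∧ z = 0 := by
  refine ⟨?_, ?_, ?_⟩
  · apply (mul_eq_zero.mp (?_ : (a11 * (a22 * a33 - a23 * a32) - a12 * (a21 * a33 - a23 * a31) +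
      a13 * (a21 * a32 - a22 * a31)) * x = 0)).resolve_left hD
    linear_combination (a22 * a33 - a23 * a32) * h1 - (a12 * a33 - a13 * a32) * h2 +
      (a12 * a23 - a13 * a22) * h3
  · apply (mul_eq_zero.mp (?_ : (a11 * (a22 * a33 - a23 * a32) - a12 * (a21 * a33 - a23 * a31) +
      a13 * (a21 * a32 - a22 * a31)) * y = 0)).resolve_left hD
    linear_combination -(a21 * a33 - a23 * a31) * h1 + (a11 * a33 - a13 * a31) * h2 -
      (a11 * a23 - a13 * a21) * h3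
  · apply (mul_eq_zero.mp (?_ : (a11 * (a22 * a33 - a23 * a32) - a12 * (a21 * a33 - a23 * a31) +
      a13 * (a21 * a32 - a22 * a31)) * z = 0)).resolve_left hD
    linear_combination (a21 * a32 - a22 * a31) * h1 - (a11 * a32 - a12 * a31) * h2 +
      (a11 * a22 - a12 * a21) * h3

lemma block_zero (x y z t : ℝ)
    (h1 : (2 * cos (4 * t) + 3 * cos (2 * t)) * x + (2 * sin (4 * t) - 3 * sin (2 * t)) * y +
      cos (6 * t) * z = 0)
    (h2 : (-8 * sin (4 * t) - 6 * sin (2 * t)) * x + (8 * cos (4 * t) - 6 * cos (2 * t)) * y +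
      (-6 * sin (6 * t)) * z = 0)
    (h3 : (-32 * cos (4 * t) - 12 * cos (2 * t)) * x + (-32 * sin (4 * t) + 12 * sin (2 * t)) * y +
      (-36 * cos (6 * t)) * z = 0) : x = 0 ∧ y = 0 ∧ z = 0 := by
  refine cramer _ _ _ _ _ _ _ _ _ x y z h1 h2 h3 ?_
  have e1 : cos (4 * t) = 2 * cos (2 * t) ^ 2 - 1 := by
    rw [show 4 * t = 2 * (2 * t) by ring, cos_two_mul]
  have e2 : sin (4 * t) = 2 * sin (2 * t) * cos (2 * t) := by
    rw [show 4 * t = 2 * (2 * t) by ring, sin_two_mul]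
  have e3 : cos (6 * t) = 4 * cos (2 * t) ^ 3 - 3 * cos (2 * t) := by
    rw [show 6 * t = 3 * (2 * t) by ring, cos_three_mul]
  have e4 : sin (6 * t) = 3 * sin (2 * t) - 4 * sin (2 * t) ^ 3 := by
    rw [show 6 * t = 3 * (2 * t) by ring, sin_three_mul]
  rw [e1, e2, e3, e4, det_val _ _ (sin_sq_add_cos_sq (2 * t))]
  nlinarith [sq_nonneg (4 * cos (2 * t) ^ 3 - 3 * cos (2 * t) - 4 / 3)]

/-- The polynomial with the roots `±i, ±3i, …`, with the index `i₀` left out if `i₀ < s`. -/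
noncomputable def PP (S : Finset ℕ) : ℝ[X] := ∏ i ∈ S, (X ^ 2 + C ((2 * i + 1 : ℝ) ^ 2))

lemma natDegree_PP (S : Finset ℕ) : (PP S).natDegree ≤ 2 * S.card := by
  unfold PP
  refine (natDegree_prod_le _ _).trans ?_
  rw [mul_comm, ← smul_eq_mul, ← Finset.sum_const]
  refine Finset.sum_le_sum fun i _ => ?_
  exact (natDegree_X_pow_add_C).le

lemma aeval_PP (S : Finset ℕ) (m : ℕ) :
    aeval (Complex.I * (m : ℂ)) (PP S) = ((∏ i ∈ S, ((2 * i + 1 : ℝ) ^ 2 - (m : ℝ) ^ 2) : ℝ) : ℂ) := by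
  unfold PP
  rw [map_prod, Complex.ofReal_prod]
  refine Finset.prod_congr rfl fun i _ => ?_
  simp only [map_add, map_pow, aeval_X, aeval_C, mul_pow, Complex.I_sq, Complex.coe_algebraMap]
  push_cast
  ring

lemma prod_ne_zero {S : Finset ℕ} {m : ℕ} (h : ∀ i ∈ S, 2 * i + 1 ≠ m) :
    ∏ i ∈ S, ((2 * i + 1 : ℝ) ^ 2 - (m : ℝ) ^ 2) ≠ 0 := by
  rw [Finset.prod_ne_zero_iff]
  intro i hi h0
  apply h i hi
  have h1 : ((2 * i + 1 : ℝ)) = m := by
    have h2 : ((2 * i + 1 : ℝ)) ^ 2 = (m : ℝ) ^ 2 := by linarith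
    exact (pow_left_inj₀ (by positivity) (by positivity) two_ne_zero).mp h2
  exact_mod_cast h1


lemma sum_pairs {M : Type*} [AddCommMonoid M] (f : ℕ → M) (s : ℕ) :
    ∑ j ∈ Finset.range (2 * s), f j = ∑ i ∈ Finset.range s, (f (2 * i) + f (2 * i + 1)) := by
  induction s with
  | zero => simp
  | succ s ih =>
    rw [show 2 * (s + 1) = 2 * s + 1 + 1 by ring, Finset.sum_range_succ, Finset.sum_range_succ, ih,
      Finset.sum_range_succ, add_assoc]

lemma pairs_zero {n s : ℕ} (hn : 2 * s ≤ n) (w : ℕ → ℝ) (hw : ∀ i, w i ≠ 0) (c : ℕ → ℝ) (t : ℝ)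
    (h : ∀ Q : ℝ[X], Q.natDegree ≤ n → Q.coeff 0 = 0 →
      (∑ i ∈ Finset.range s, (w i : ℂ) * ((c (2 * i) : ℂ) - Complex.I * c (2 * i + 1)) *
        aeval (Complex.I * ((2 * i + 1 : ℕ) : ℂ)) Q *
        Complex.exp (Complex.I * ((2 * i + 1 : ℕ) : ℂ) * t)).re = 0) :
    ∀ i < s, c (2 * i) = 0 ∧ c (2 * i + 1) = 0 := by
  intro i₀ hi₀
  set S := (Finset.range s).erase i₀ with hS
  have hcard : S.card = s - 1 := by
    rw [hS, Finset.card_erase_of_mem (Finset.mem_range.mpr hi₀), Finset.card_range]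
  set p : ℝ := ∏ i ∈ S, ((2 * i + 1 : ℝ) ^ 2 - ((2 * i₀ + 1 : ℕ) : ℝ) ^ 2) with hp
  have hp0 : p ≠ 0 := by
    apply prod_ne_zero
    intro i hi h
    exact (Finset.mem_erase.mp hi).1 (by omega)
  have key : ∀ l : ℕ, 1 ≤ l → l ≤ 2 →
      ((w i₀ : ℂ) * ((c (2 * i₀) : ℂ) - Complex.I * c (2 * i₀ + 1)) *
        ((Complex.I * ((2 * i₀ + 1 : ℕ) : ℂ)) ^ l * (p : ℂ)) *
        Complex.exp (Complex.I * ((2 * i₀ + 1 : ℕ) : ℂ) * t)).re = 0 := by
    intro l h1 h2
    have h3 := h (X ^ l * PP S) ?_ ?_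
    · rw [Finset.sum_eq_single i₀] at h3
      · rw [map_mul, map_pow, aeval_X, aeval_PP] at h3
        exact h3
      · intro i hi hne
        rw [map_mul, aeval_PP]
        have : ∏ j ∈ S, ((2 * j + 1 : ℝ) ^ 2 - ((2 * i + 1 : ℕ) : ℝ) ^ 2) = 0 := by
          apply Finset.prod_eq_zero (i := i) (Finset.mem_erase.mpr ⟨hne, hi⟩)
          push_cast
          ring
        rw [this]
        simp
      · intro h4
        exact absurd (Finset.mem_range.mpr hi₀) h4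
    · refine (natDegree_mul_le).trans ?_
      rw [natDegree_X_pow]
      have := natDegree_PP S
      omega
    · rw [mul_coeff_zero, coeff_X_pow, if_neg (by omega), zero_mul]
  have k1 := key 1 le_rfl (by norm_num)
  have k2 := key 2 (by norm_num) le_rfl
  set m : ℝ := ((2 * i₀ + 1 : ℕ) : ℝ) with hm
  have hm0 : m ≠ 0 := by rw [hm]; positivity
  set z : ℂ := (w i₀ : ℂ) * ((c (2 * i₀) : ℂ) - Complex.I * c (2 * i₀ + 1)) * (p : ℂ) *
        Complex.exp (Complex.I * ((2 * i₀ + 1 : ℕ) : ℂ) * t) with hz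
  have e1 : (w i₀ : ℂ) * ((c (2 * i₀) : ℂ) - Complex.I * c (2 * i₀ + 1)) *
        ((Complex.I * ((2 * i₀ + 1 : ℕ) : ℂ)) ^ 1 * (p : ℂ)) *
        Complex.exp (Complex.I * ((2 * i₀ + 1 : ℕ) : ℂ) * t) = (m : ℂ) * (Complex.I * z) := by
    rw [hz, hm]; push_cast; ring
  have e2 : (w i₀ : ℂ) * ((c (2 * i₀) : ℂ) - Complex.I * c (2 * i₀ + 1)) *
        ((Complex.I * ((2 * i₀ + 1 : ℕ) : ℂ)) ^ 2 * (p : ℂ)) *
        Complex.exp (Complex.I * ((2 * i₀ + 1 : ℕ) : ℂ) * t) = ((-m ^ 2 : ℝ) : ℂ) * z := by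
    rw [hz, hm]; push_cast; rw [mul_pow, Complex.I_sq]; ring
  rw [e1, Complex.re_ofReal_mul, Complex.I_mul_re] at k1
  rw [e2, Complex.re_ofReal_mul] at k2
  have hz0 : z = 0 := by
    apply Complex.ext
    · rw [Complex.zero_re]
      exact (mul_eq_zero.mp k2).resolve_left (neg_ne_zero.mpr (pow_ne_zero 2 hm0))
    · rw [Complex.zero_im]
      have := (mul_eq_zero.mp k1).resolve_left hm0
      linarith
  rw [hz] at hz0
  have h5 := (mul_eq_zero.mp hz0).resolve_right (Complex.exp_ne_zero _)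
  have h6 := (mul_eq_zero.mp h5).resolve_right (Complex.ofReal_ne_zero.mpr hp0)
  have h7 := (mul_eq_zero.mp h6).resolve_left (Complex.ofReal_ne_zero.mpr (hw i₀))
  constructor
  · have := congrArg Complex.re h7
    simpa using this
  · have := congrArg Complex.im h7
    simpa using this


/-- Coefficients and frequencies of the coordinates: `w i cos (2i+1)t`, `w i sin (2i+1)t` for `i < s`, then
`a sin 4t + b sin 2t`, `-a cos 4t + b cos 2t`, `c sin 6t`. -/
noncomputable def dU (s : ℕ) (w : ℕ → ℝ) (a c : ℝ) (j : ℕ) : ℂ :=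
  if j < 2 * s then (if Even j then (w (j / 2) : ℂ) else -Complex.I * w (j / 2))
  else if j = 2 * s then -Complex.I * a else if j = 2 * s + 1 then -(a : ℂ) else -Complex.I * c

def dO (s j : ℕ) : ℕ :=
  if j < 2 * s then 2 * (j / 2) + 1 else if j = 2 * s then 4 else if j = 2 * s + 1 then 4 else 6

noncomputable def dV (s : ℕ) (b : ℝ) (j : ℕ) : ℂ :=
  if j = 2 * s then -Complex.I * b else if j = 2 * s + 1 then (b : ℂ) else 0

def dH (_ : ℕ) : ℕ := 2

lemma pair_pev {s : ℕ} (w : ℕ → ℝ) (a b c : ℝ) (d : ℕ → ℝ) (t : ℝ) (Q : ℝ[X]) {i : ℕ} (hi : i < s) :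
    (d (2 * i) : ℂ) * pev (dU s w a c (2 * i)) (dO s (2 * i)) (dV s b (2 * i)) (dH (2 * i)) t Q +
      (d (2 * i + 1) : ℂ) * pev (dU s w a c (2 * i + 1)) (dO s (2 * i + 1)) (dV s b (2 * i + 1))
        (dH (2 * i + 1)) t Q =
      (w i : ℂ) * ((d (2 * i) : ℂ) - Complex.I * d (2 * i + 1)) *
        aeval (Complex.I * ((2 * i + 1 : ℕ) : ℂ)) Q *
        Complex.exp (Complex.I * ((2 * i + 1 : ℕ) : ℂ) * t) := by
  have h1 : dU s w a c (2 * i) = w i := by
    rw [dU, if_pos (by omega), if_pos (even_two_mul i)]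
    congr 2
    omega
  have h2 : dU s w a c (2 * i + 1) = -Complex.I * w i := by
    rw [dU, if_pos (by omega), if_neg (by simp)]
    congr 3
    omega
  have h3 : dO s (2 * i) = 2 * i + 1 := by
    rw [dO, if_pos (by omega)]
    omega
  have h4 : dO s (2 * i + 1) = 2 * i + 1 := by
    rw [dO, if_pos (by omega)]
    omega
  have h5 : dV s b (2 * i) = 0 := by
    rw [dV, if_neg (by omega), if_neg (by omega)]
  have h6 : dV s b (2 * i + 1) = 0 := by
    rw [dV, if_neg (by omega), if_neg (by omega)]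
  rw [h1, h2, h3, h4, h5, h6]
  unfold pev
  ring

lemma nondeg_even (s : ℕ) (w : ℕ → ℝ) (hw : ∀ i, w i ≠ 0) (a b c : ℝ) (d : ℕ → ℝ) (t : ℝ)
    (h : ∀ k, 1 ≤ k → k ≤ 2 * s →
      ∑ j ∈ Finset.range (2 * s), d j * trig (dU s w a c j) (dO s j) (dV s b j) (dH j) k t = 0) :
    ∀ j < 2 * s, d j = 0 := by
  have h1 := pairs_zero (n := 2 * s) le_rfl w hw d t (by
    intro Q hQ h0
    have h2 := annihilate (dU s w a c) (dO s) (dV s b) dH t d h Q hQ h0
    rw [sum_pairs] at h2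
    rw [← h2]
    congr 1
    refine Finset.sum_congr rfl fun i hi => ?_
    rw [pair_pev w a b c d t Q (Finset.mem_range.mp hi)])
  intro j hj
  rcases Nat.even_or_odd' j with ⟨i, rfl | rfl⟩
  · exact (h1 i (by omega)).1
  · exact (h1 i (by omega)).2

lemma exp_re (m : ℕ) (t : ℝ) : (Complex.exp (Complex.I * (m : ℂ) * t)) = (cos (m * t) : ℂ) + sin (m * t) * Complex.I := by
  rw [show Complex.I * (m : ℂ) * t = ((m * t : ℝ) : ℂ) * Complex.I by push_cast; ring,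
    Complex.exp_mul_I, Complex.ofReal_cos, Complex.ofReal_sin]

lemma nondeg_odd (s : ℕ) (w : ℕ → ℝ) (hw : ∀ i, w i ≠ 0) (ε a b c : ℝ) (hε : ε ≠ 0)
    (ha : a * 4 * (∏ i ∈ Finset.range s, ((2 * i + 1 : ℝ) ^ 2 - ((4 : ℕ) : ℝ) ^ 2)) = 2 * ε)
    (hb : b * 2 * (∏ i ∈ Finset.range s, ((2 * i + 1 : ℝ) ^ 2 - ((2 : ℕ) : ℝ) ^ 2)) = 3 * ε)
    (hc : c * 6 * (∏ i ∈ Finset.range s, ((2 * i + 1 : ℝ) ^ 2 - ((6 : ℕ) : ℝ) ^ 2)) = ε)
    (d : ℕ → ℝ) (t : ℝ)
    (h : ∀ k, 1 ≤ k → k ≤ 2 * s + 3 →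
      ∑ j ∈ Finset.range (2 * s + 3), d j * trig (dU s w a c j) (dO s j) (dV s b j) (dH j) k t = 0) :
    ∀ j < 2 * s + 3, d j = 0 := by
  have hblock : ∀ Q : ℝ[X], Q.natDegree ≤ 2 * s + 3 → Q.coeff 0 = 0 →
      (∑ i ∈ Finset.range s, (w i : ℂ) * ((d (2 * i) : ℂ) - Complex.I * d (2 * i + 1)) *
        aeval (Complex.I * ((2 * i + 1 : ℕ) : ℂ)) Q *
        Complex.exp (Complex.I * ((2 * i + 1 : ℕ) : ℂ) * t) +
       ((d (2 * s) : ℂ) * pev (-Complex.I * a) 4 (-Complex.I * b) 2 t Q +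
        (d (2 * s + 1) : ℂ) * pev (-(a : ℂ)) 4 (b : ℂ) 2 t Q +
        (d (2 * s + 2) : ℂ) * pev (-Complex.I * c) 6 0 2 t Q)).re = 0 := by
    intro Q hQ h0
    have h2 := annihilate (dU s w a c) (dO s) (dV s b) dH t d h Q hQ h0
    have hs : ∑ i ∈ Finset.range s, (w i : ℂ) * ((d (2 * i) : ℂ) - Complex.I * d (2 * i + 1)) *
        aeval (Complex.I * ((2 * i + 1 : ℕ) : ℂ)) Q *
        Complex.exp (Complex.I * ((2 * i + 1 : ℕ) : ℂ) * t) =
        ∑ j ∈ Finset.range (2 * s), (d j : ℂ) * pev (dU s w a c j) (dO s j) (dV s b j) (dH j) t Q := by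
      rw [sum_pairs]
      refine Finset.sum_congr rfl fun i hi => ?_
      rw [← pair_pev w a b c d t Q (Finset.mem_range.mp hi)]
    rw [Finset.sum_range_succ, Finset.sum_range_succ, Finset.sum_range_succ, ← hs] at h2
    rw [← h2]
    have e1 : dU s w a c (2 * s) = -Complex.I * a := by simp [dU]
    have e2 : dU s w a c (2 * s + 1) = -(a : ℂ) := by simp [dU]
    have e3 : dU s w a c (2 * s + 2) = -Complex.I * c := by simp [dU]
    have e4 : dO s (2 * s) = 4 := by simp [dO]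
    have e5 : dO s (2 * s + 1) = 4 := by simp [dO]
    have e6 : dO s (2 * s + 2) = 6 := by simp [dO]
    have e7 : dV s b (2 * s) = -Complex.I * b := by simp [dV]
    have e8 : dV s b (2 * s + 1) = b := by simp [dV]
    have e9 : dV s b (2 * s + 2) = 0 := by simp [dV]
    rw [e1, e2, e3, e4, e5, e6, e7, e8, e9]
    simp only [dH, add_assoc]
  -- the block
  have key : ∀ l : ℕ, 1 ≤ l → l ≤ 3 →
      ((d (2 * s) : ℂ) * pev (-Complex.I * a) 4 (-Complex.I * b) 2 t (X ^ l * PP (Finset.range s)) +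
        (d (2 * s + 1) : ℂ) * pev (-(a : ℂ)) 4 (b : ℂ) 2 t (X ^ l * PP (Finset.range s)) +
        (d (2 * s + 2) : ℂ) * pev (-Complex.I * c) 6 0 2 t (X ^ l * PP (Finset.range s))).re = 0 := by
    intro l h1 h2
    have h3 := hblock (X ^ l * PP (Finset.range s)) ?_ ?_
    · rw [Finset.sum_eq_zero, zero_add] at h3
      · exact h3
      · intro i hi
        rw [map_mul, aeval_PP]
        have : ∏ j ∈ Finset.range s, ((2 * j + 1 : ℝ) ^ 2 - ((2 * i + 1 : ℕ) : ℝ) ^ 2) = 0 := by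
          apply Finset.prod_eq_zero (i := i) hi
          push_cast
          ring
        rw [this]
        simp
    · refine (natDegree_mul_le).trans ?_
      rw [natDegree_X_pow]
      have := natDegree_PP (Finset.range s)
      rw [Finset.card_range] at this
      omega
    · rw [mul_coeff_zero, coeff_X_pow, if_neg (by omega), zero_mul]
  set p4 : ℝ := ∏ i ∈ Finset.range s, ((2 * i + 1 : ℝ) ^ 2 - ((4 : ℕ) : ℝ) ^ 2) with hp4
  set p2 : ℝ := ∏ i ∈ Finset.range s, ((2 * i + 1 : ℝ) ^ 2 - ((2 : ℕ) : ℝ) ^ 2) with hp2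
  set p6 : ℝ := ∏ i ∈ Finset.range s, ((2 * i + 1 : ℝ) ^ 2 - ((6 : ℕ) : ℝ) ^ 2) with hp6
  have hz : d (2 * s) = 0 ∧ d (2 * s + 1) = 0 ∧ d (2 * s + 2) = 0 := by
    have k1 := key 1 le_rfl (by norm_num)
    have k2 := key 2 (by norm_num) (by norm_num)
    have k3 := key 3 (by norm_num) le_rfl
    have i2 : ∀ m : ℕ, (Complex.I * (m : ℂ)) ^ 2 = ((-(m : ℝ) ^ 2 : ℝ) : ℂ) := by
      intro m; rw [mul_pow, Complex.I_sq]; push_cast; ring
    have i3 : ∀ m : ℕ, (Complex.I * (m : ℂ)) ^ 3 = ((-(m : ℝ) ^ 3 : ℝ) : ℂ) * Complex.I := by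
      intro m; rw [mul_pow, Complex.I_pow_three]; push_cast; ring
    simp only [pev, map_mul, map_pow, aeval_X, aeval_PP, ← hp4, ← hp2, ← hp6, exp_re, i2, i3,
      pow_one] at k1 k2 k3
    have m1 : ε * ((2 * cos (4 * t) + 3 * cos (2 * t)) * d (2 * s) +
        (2 * sin (4 * t) - 3 * sin (2 * t)) * d (2 * s + 1) + cos (6 * t) * d (2 * s + 2)) = 0 := by
      rw [← k1]
      simp [-Complex.ofReal_cos, -Complex.ofReal_sin, -Complex.ofReal_neg, -Complex.ofReal_pow]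
      linear_combination (-cos (4 * t) * d (2 * s) - sin (4 * t) * d (2 * s + 1)) * ha +
        (-cos (2 * t) * d (2 * s) + sin (2 * t) * d (2 * s + 1)) * hb -
        cos (6 * t) * d (2 * s + 2) * hc
    have m2 : ε * ((-8 * sin (4 * t) - 6 * sin (2 * t)) * d (2 * s) +
        (8 * cos (4 * t) - 6 * cos (2 * t)) * d (2 * s + 1) + (-6 * sin (6 * t)) * d (2 * s + 2)) = 0 := by
      rw [← k2]
      simp [-Complex.ofReal_cos, -Complex.ofReal_sin, -Complex.ofReal_neg, -Complex.ofReal_pow]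
      linear_combination (4 * sin (4 * t) * d (2 * s) - 4 * cos (4 * t) * d (2 * s + 1)) * ha +
        (2 * sin (2 * t) * d (2 * s) + 2 * cos (2 * t) * d (2 * s + 1)) * hb +
        6 * sin (6 * t) * d (2 * s + 2) * hc
    have m3 : ε * ((-32 * cos (4 * t) - 12 * cos (2 * t)) * d (2 * s) +
        (-32 * sin (4 * t) + 12 * sin (2 * t)) * d (2 * s + 1) +
        (-36 * cos (6 * t)) * d (2 * s + 2)) = 0 := by
      rw [← k3]
      simp [-Complex.ofReal_cos, -Complex.ofReal_sin, -Complex.ofReal_neg, -Complex.ofReal_pow]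
      linear_combination (16 * cos (4 * t) * d (2 * s) + 16 * sin (4 * t) * d (2 * s + 1)) * ha +
        (4 * cos (2 * t) * d (2 * s) - 4 * sin (2 * t) * d (2 * s + 1)) * hb +
        36 * cos (6 * t) * d (2 * s + 2) * hc
    exact block_zero _ _ _ t ((mul_eq_zero.mp m1).resolve_left hε)
      ((mul_eq_zero.mp m2).resolve_left hε) ((mul_eq_zero.mp m3).resolve_left hε)
  have h1 := pairs_zero (n := 2 * s + 3) (s := s) (by omega) w hw d t (by
    intro Q hQ h0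
    have h2 := hblock Q hQ h0
    rw [hz.1, hz.2.1, hz.2.2] at h2
    simpa using h2)
  intro j hj
  by_cases hj2 : j < 2 * s
  · rcases Nat.even_or_odd' j with ⟨i, rfl | rfl⟩
    · exact (h1 i (by omega)).1
    · exact (h1 i (by omega)).2
  · obtain rfl | rfl | rfl : j = 2 * s ∨ j = 2 * s + 1 ∨ j = 2 * s + 2 := by omega
    · exact hz.1
    · exact hz.2.1
    · exact hz.2.2


lemma linearIndependent_of_kernel {n : ℕ} (v : Fin n → E n)
    (h : ∀ d : Fin n → ℝ, (∀ i, ∑ j, v i j * d j = 0) → d = 0) : LinearIndependent ℝ v := by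
  set M : Matrix (Fin n) (Fin n) ℝ := Matrix.of fun i j => v i j with hM
  have hdet : M.det ≠ 0 := by
    intro h0
    obtain ⟨d, hd, hd0⟩ := Matrix.exists_mulVec_eq_zero_iff.mpr h0
    apply hd
    apply h
    intro i
    have := congrFun hd0 i
    simpa [Matrix.mulVec, dotProduct, hM] using this
  have h1 : LinearIndependent ℝ M.row :=
    Matrix.linearIndependent_rows_iff_isUnit.mpr ((Matrix.isUnit_iff_isUnit_det M).mpr hdet.isUnit)
  have h2 := h1.map' ((WithLp.linearEquiv 2 ℝ (Fin n → ℝ)).symm : (Fin n → ℝ) →ₗ[ℝ] E n)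
    (LinearEquiv.ker _)
  exact h2

/-- The curve with the coordinates described at `dU`, and its derivatives. -/
noncomputable def tcurve (n s : ℕ) (w : ℕ → ℝ) (a b c : ℝ) (k : ℕ) (t : ℝ) : E n :=
  curve n (dU s w a c) (dO s) (dV s b) dH k t

lemma tcurve_closed (n s : ℕ) (w : ℕ → ℝ) (a b c : ℝ) : IsClosedCurve (tcurve n s w a b c 0) := by
  refine ⟨contDiff_curve _ _ _ _ _, fun t => ?_⟩
  unfold tcurve curve
  congr 1
  ext j
  exact trig_periodic _ _ _ _ _ _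

lemma tcurve_nondeg (n s : ℕ) (w : ℕ → ℝ) (a b c : ℝ)
    (h : ∀ (d : ℕ → ℝ) (t : ℝ), (∀ k, 1 ≤ k → k ≤ n →
      ∑ j ∈ Finset.range n, d j * trig (dU s w a c j) (dO s j) (dV s b j) (dH j) k t = 0) →
      ∀ j < n, d j = 0) : IsNondegenerate (tcurve n s w a b c 0) := by
  refine ⟨tcurve_closed _ _ _ _ _ _, fun t => ?_⟩
  apply linearIndependent_of_kernel
  intro d hd
  set d' : ℕ → ℝ := fun j => if hj : j < n then d ⟨j, hj⟩ else 0 with hd'
  have h1 := h d' t (by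
    intro k h1 h2
    have h3 := hd ⟨k - 1, by omega⟩
    have h4 : iteratedDeriv (((⟨k - 1, by omega⟩ : Fin n) : ℕ) + 1) (tcurve n s w a b c 0) =
        tcurve n s w a b c k := by
      unfold tcurve
      rw [iteratedDeriv_curve]
      congr 1
      simp only
      omega
    rw [h4] at h3
    rw [← h3, Finset.sum_range]
    refine Finset.sum_congr rfl fun j _ => ?_
    simp [hd', tcurve, curve, mul_comm])
  ext j
  have := h1 j j.2
  simpa [hd'] using this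

lemma trig_lin (u u' : ℂ) (ω : ℕ) (v v' : ℂ) (η k : ℕ) (t r : ℝ) :
    trig (u + r * u') ω (v + r * v') η k t = trig u ω v η k t + r * trig u' ω v' η k t := by
  unfold trig
  rw [← Complex.re_ofReal_mul, ← Complex.add_re]
  congr 1
  ring

lemma tcurve_lin (n s : ℕ) (w w' : ℕ → ℝ) (a b c r : ℝ) (k : ℕ) (t : ℝ) :
    tcurve n s (fun i => w i + r * w' i) (r * a) (r * b) (r * c) k t =
      tcurve n s w 0 0 0 k t + r • tcurve n s w' a b c k t := by
  ext j
  simp only [tcurve, curve, PiLp.add_apply, PiLp.smul_apply, smul_eq_mul]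
  rw [← trig_lin]
  congr 1
  · unfold dU
    split_ifs <;> push_cast <;> ring
  · unfold dV
    split_ifs <;> push_cast <;> ring

lemma tcurve_circle {n s : ℕ} (hs : 1 ≤ s) :
    tcurve n s (fun i => if i = 0 then 1 else 0) 0 0 0 0 = circle n 1 := by
  ext t j
  simp only [tcurve, curve, circle]
  by_cases h0 : (j : ℕ) = 0
  · rw [if_pos h0, h0]
    have e1 : dU s (fun i => if i = 0 then 1 else 0) 0 0 0 = 1 := by
      rw [dU, if_pos (by omega)]; simp
    have e2 : dO s 0 = 1 := by rw [dO, if_pos (by omega)]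
    have e3 : dV s 0 0 = 0 := by rw [dV]; simp
    rw [e1, e2, e3, trig]
    simp only [dH]
    rw [exp_re, exp_re]
    simp [-Complex.ofReal_cos, -Complex.ofReal_sin]
  · rw [if_neg h0]
    by_cases h1 : (j : ℕ) = 1
    · rw [if_pos h1, h1]
      have e1 : dU s (fun i => if i = 0 then 1 else 0) 0 0 1 = -Complex.I := by
        rw [dU, if_pos (by omega)]; simp
      have e2 : dO s 1 = 1 := by rw [dO, if_pos (by omega)]
      have e3 : dV s 0 1 = 0 := by rw [dV]; simp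
      rw [e1, e2, e3, trig]
      simp only [dH]
      rw [exp_re, exp_re]
      simp [-Complex.ofReal_cos, -Complex.ofReal_sin]
    · rw [if_neg h1]
      have e1 : dU s (fun i => if i = 0 then 1 else 0) 0 0 j = 0 := by
        rw [dU]
        split_ifs <;> simp <;> omega
      have e3 : dV s 0 j = 0 := by rw [dV]; simp
      rw [e1, e3, trig]
      simp

lemma norm_le_sum {n : ℕ} (x : E n) : ‖x‖ ≤ ∑ j, |x j| := by
  rw [EuclideanSpace.norm_eq]
  apply Real.sqrt_le_iff.mpr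
  refine ⟨Finset.sum_nonneg fun _ _ => abs_nonneg _, ?_⟩
  simp only [Real.norm_eq_abs]
  exact Finset.sum_sq_le_sq_sum_of_nonneg fun _ _ => abs_nonneg _

lemma tcurve_bound (n s : ℕ) (w : ℕ → ℝ) (a b c : ℝ) (k : ℕ) : ∃ M : ℝ, ∀ t,
    ‖tcurve n s w a b c k t‖ ≤ M := by
  refine ⟨∑ j : Fin n, (‖dU s w a c j‖ * (dO s j : ℝ) ^ k + ‖dV s b j‖ * (dH j : ℝ) ^ k), fun t => ?_⟩
  refine (norm_le_sum _).trans (Finset.sum_le_sum fun j _ => ?_)
  exact abs_trig_le _ _ _ _ _ _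

lemma perturb_of {n s : ℕ} (hs : 1 ≤ s) (w' : ℕ → ℝ) (a b c : ℝ)
    (h : ∀ r : ℝ, 0 < r → ∀ (d : ℕ → ℝ) (t : ℝ), (∀ k, 1 ≤ k → k ≤ n →
      ∑ j ∈ Finset.range n, d j * trig (dU s (fun i => (if i = 0 then 1 else 0) + r * w' i) (r * a) (r * c) j)
        (dO s j) (dV s (r * b) j) (dH j) k t = 0) → ∀ j < n, d j = 0) : Perturbable n 1 := by
  intro K ε hε
  choose M hM using fun k => tcurve_bound n s w' a b c k
  set B : ℝ := 1 + ∑ k ∈ Finset.range (K + 1), |M k| with hB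
  have hB0 : 0 < B := by
    have : 0 ≤ ∑ k ∈ Finset.range (K + 1), |M k| := Finset.sum_nonneg fun _ _ => abs_nonneg _
    linarith
  set r : ℝ := ε / (2 * B) with hr
  have hr0 : 0 < r := by positivity
  refine ⟨tcurve n s (fun i => (if i = 0 then 1 else 0) + r * w' i) (r * a) (r * b) (r * c) 0,
    tcurve_nondeg _ _ _ _ _ _ (h r hr0), ?_⟩
  intro k hk t
  have h1 : iteratedDeriv k (tcurve n s (fun i => (if i = 0 then 1 else 0) + r * w' i) (r * a) (r * b)
      (r * c) 0) = tcurve n s (fun i => (if i = 0 then 1 else 0) + r * w' i) (r * a) (r * b) (r * c) k :=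
    iteratedDeriv_curve _ _ _ _ _ _
  have h2 : iteratedDeriv k (circle n 1) = tcurve n s (fun i => if i = 0 then 1 else 0) 0 0 0 k := by
    rw [← tcurve_circle (n := n) hs]
    exact iteratedDeriv_curve _ _ _ _ _ _
  rw [h1, h2, tcurve_lin, add_sub_cancel_left, norm_smul, Real.norm_eq_abs, abs_of_pos hr0]
  have h3 : ‖tcurve n s w' a b c k t‖ ≤ B := by
    have h4 : |M k| ≤ ∑ k ∈ Finset.range (K + 1), |M k| :=
      Finset.single_le_sum (f := fun k => |M k|) (fun _ _ => abs_nonneg _)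
        (Finset.mem_range.mpr (by omega))
    have := hM k t
    have := le_abs_self (M k)
    linarith
  calc r * ‖tcurve n s w' a b c k t‖ ≤ r * B := by gcongr
    _ = ε / 2 := by rw [hr]; field_simp
    _ < ε := by linarith

theorem perturbable_one (n : ℕ) (hn : 4 ≤ n) : Perturbable n 1 := by
  rcases Nat.even_or_odd' n with ⟨s, rfl | rfl⟩
  · apply perturb_of (s := s) (by omega) (fun i => if i = 0 then 0 else 1) 0 0 0
    intro r hr d t h
    refine nondeg_even s _ ?_ _ (r * 0) _ d t h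
    intro i
    by_cases hi : i = 0 <;> simp [hi, hr.ne']
  · obtain ⟨s, rfl⟩ : ∃ s', s = s' + 1 := ⟨s - 1, by omega⟩
    have e : 2 * (s + 1) + 1 = 2 * s + 3 := by ring
    rw [e]
    have q4 : ∏ i ∈ Finset.range s, ((2 * i + 1 : ℝ) ^ 2 - ((4 : ℕ) : ℝ) ^ 2) ≠ 0 :=
      prod_ne_zero fun i _ => by omega
    have q2 : ∏ i ∈ Finset.range s, ((2 * i + 1 : ℝ) ^ 2 - ((2 : ℕ) : ℝ) ^ 2) ≠ 0 :=
      prod_ne_zero fun i _ => by omega
    have q6 : ∏ i ∈ Finset.range s, ((2 * i + 1 : ℝ) ^ 2 - ((6 : ℕ) : ℝ) ^ 2) ≠ 0 :=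
      prod_ne_zero fun i _ => by omega
    apply perturb_of (s := s) (by omega) (fun i => if i = 0 then 0 else 1)
      (2 / (4 * (∏ i ∈ Finset.range s, ((2 * i + 1 : ℝ) ^ 2 - ((4 : ℕ) : ℝ) ^ 2))))
      (3 / (2 * (∏ i ∈ Finset.range s, ((2 * i + 1 : ℝ) ^ 2 - ((2 : ℕ) : ℝ) ^ 2))))
      (1 / (6 * (∏ i ∈ Finset.range s, ((2 * i + 1 : ℝ) ^ 2 - ((6 : ℕ) : ℝ) ^ 2))))
    intro r hr d t h
    refine nondeg_odd s _ ?_ r _ _ _ hr.ne' ?_ ?_ ?_ d t h
    · intro i
      by_cases hi : i = 0 <;> simp [hi, hr.ne']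
    · field_simp
    · field_simp
    · field_simp

end Pool.Agent.V11190.Nondeg
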