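import Mathlib

set_option autoImplicit false

open Set

namespace Pool.Agent.V11190.Quad

/-- The planar cross product. -/
def cr (u v : ℂ) : ℝ := u.re * v.im - u.im * v.re

/-- If every chord of `f` is controlled by the increment of `g`, then so is the length. -/
theorem length_le {f : ℝ → ℂ} {g : ℝ → ℝ} {a b : ℝ} (hab : a ≤ b)
    (h : ∀ s ∈ Icc a b, ∀ t ∈ Icc a b, s < t → ‖f t - f s‖ ≤ g t - g s) :
    eVariationOn f (Icc a b) ≤ ENNReal.ofReal (g b - g a) := by
  have h' : ∀ s ∈ Icc a b, ∀ t ∈ Icc a b, s ≤ t → ‖f t - f s‖ ≤ g t - g s := by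
    intro s hs t ht hst
    rcases hst.lt_or_eq with h1 | h1
    · exact h s hs t ht h1
    · subst h1; simp
  unfold eVariationOn
  refine iSup_le ?_
  rintro ⟨n, u, hu, hus⟩
  have h1 : ∑ i ∈ Finset.range n, edist (f (u (i + 1))) (f (u i))
      = ENNReal.ofReal (∑ i ∈ Finset.range n, ‖f (u (i + 1)) - f (u i)‖) := by
    rw [ENNReal.ofReal_sum_of_nonneg (fun i _ => norm_nonneg _)]
    refine Finset.sum_congr rfl fun i _ => ?_
    rw [edist_dist, dist_eq_norm]
  have h2 : ∑ i ∈ Finset.range n, ‖f (u (i + 1)) - f (u i)‖ ≤ g (u n) - g (u 0) := by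
    rw [← Finset.sum_range_sub (fun i => g (u i)) n]
    exact Finset.sum_le_sum fun i _ => h' _ (hus i) _ (hus (i + 1)) (hu (Nat.le_succ i))
  have h3 : 0 ≤ g (u 0) - g a :=
    (norm_nonneg _).trans (h' a (left_mem_Icc.2 hab) _ (hus 0) (hus 0).1)
  have h4 : 0 ≤ g b - g (u n) :=
    (norm_nonneg _).trans (h' _ (hus n) b (right_mem_Icc.2 hab) (hus n).2)
  show ∑ i ∈ Finset.range n, edist (f (u (i + 1))) (f (u i)) ≤ _
  rw [h1]
  exact ENNReal.ofReal_le_ofReal (by linarith)

theorem chord_le {f : ℝ → ℂ} {a b : ℝ} (hab : a ≤ b) :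
    ENNReal.ofReal ‖f b - f a‖ ≤ eVariationOn f (Icc a b) := by
  have := eVariationOn.edist_le f (right_mem_Icc.2 hab) (left_mem_Icc.2 hab)
  rwa [edist_dist, dist_eq_norm] at this

/-- A convex arc in the first quadrant, run through counterclockwise. -/
structure Arc (z : ℝ → ℂ) (a b x y : ℝ) : Prop where
  hab : a < b
  hx : 0 < x
  hy : 0 < y
  start_re : (z a).re = x
  start_im : (z a).im = 0
  fin_re : (z b).re = 0
  fin_im : (z b).im = y
  nonneg_re : ∀ t ∈ Icc a b, 0 ≤ (z t).re
  nonneg_im : ∀ t ∈ Icc a b, 0 ≤ (z t).im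
  pos : ∀ s ∈ Icc a b, ∀ t ∈ Icc a b, s < t → 0 < cr (z s) (z t)
  conv : ∀ s ∈ Icc a b, ∀ t ∈ Icc a b, ∀ r ∈ Icc a b, s < t → t < r →
    cr (z s) (z r) ≤ cr (z s) (z t) + cr (z t) (z r)

/-- Supporting lines at the end points of the arc. -/
structure Supp (z : ℝ → ℂ) (a b x y S c S' c' : ℝ) : Prop where
  c_pos : 0 < c
  c'_pos : 0 < c'
  sq : S ^ 2 + c ^ 2 = 1
  sq' : S' ^ 2 + c' ^ 2 = 1
  left : ∀ t ∈ Icc a b, c * (z t).re + S * (z t).im ≤ c * x
  right : ∀ t ∈ Icc a b, -S' * (z t).re + c' * (z t).im ≤ c' * y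

section
variable {z : ℝ → ℂ} {a b x y S c S' c' : ℝ}

theorem Arc.n0 (A : Arc z a b x y) {s t : ℝ} (hs : s ∈ Icc a b) (ht : t ∈ Icc a b) (hst : s < t) :
    0 < ((z s).re - (z t).re) * (z s).im + ((z t).im - (z s).im) * (z s).re := by
  have := A.pos s hs t ht hst
  unfold cr at this
  nlinarith

theorem Arc.n1 (A : Arc z a b x y) {s t : ℝ} (hs : s ∈ Icc a b) (ht : t ∈ Icc a b) (hst : s < t) :
    0 ≤ ((z s).re - (z t).re) * (z s).im + ((z t).im - (z s).im) * ((z s).re - x) := by
  rcases hs.1.lt_or_eq with h | h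
  · have := A.conv a (left_mem_Icc.2 A.hab.le) s hs t ht h hst
    unfold cr at this
    rw [A.start_re, A.start_im] at this
    nlinarith
  · rw [← h, A.start_re, A.start_im]; simp

theorem Arc.n2 (A : Arc z a b x y) {s t : ℝ} (hs : s ∈ Icc a b) (ht : t ∈ Icc a b) (hst : s < t) :
    0 ≤ ((z s).re - (z t).re) * ((z s).im - y) + ((z t).im - (z s).im) * (z s).re := by
  rcases ht.2.lt_or_eq with h | h
  · have := A.conv s hs t ht b (right_mem_Icc.2 A.hab.le) hst h
    unfold cr at this
    rw [A.fin_re, A.fin_im] at this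
    nlinarith
  · rw [h, A.fin_re, A.fin_im]; nlinarith

theorem Arc.re_pos (A : Arc z a b x y) {s : ℝ} (hs : s ∈ Icc a b) (h : s < b) : 0 < (z s).re := by
  have := A.pos s hs b (right_mem_Icc.2 A.hab.le) h
  unfold cr at this
  rw [A.fin_re, A.fin_im] at this
  have h2 : 0 < (z s).re * y := by linarith
  exact (pos_iff_pos_of_mul_pos h2).2 A.hy

theorem Arc.im_pos (A : Arc z a b x y) {s : ℝ} (hs : s ∈ Icc a b) (h : a < s) : 0 < (z s).im := by
  have := A.pos a (left_mem_Icc.2 A.hab.le) s hs h
  unfold cr at this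
  rw [A.start_re, A.start_im] at this
  have h2 : 0 < x * (z s).im := by linarith
  exact (pos_iff_pos_of_mul_pos h2).1 A.hx

/-- First tangent inequality, for chords that do not descend. -/
theorem N1 (A : Arc z a b x y) (P : Supp z a b x y S c S' c') {s t : ℝ} (hs : s ∈ Icc a b)
    (ht : t ∈ Icc a b) (hst : s < t) (hY : (z s).im ≤ (z t).im) :
    S * ((z t).im - (z s).im) ≤ c * ((z s).re - (z t).re) := by
  have hn1 := A.n1 hs ht hst
  have hf := P.left s hs
  have hft := P.left t ht
  have hc := P.c_pos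
  rcases hs.1.lt_or_eq with h | h
  · have him := A.im_pos hs h
    have h1 : 0 ≤ (c * ((z s).re - (z t).re) - S * ((z t).im - (z s).im)) * (z s).im := by
      have e1 := mul_nonneg hc.le hn1
      have e2 := mul_nonneg (sub_nonneg.2 hY) (sub_nonneg.2 hf)
      nlinarith
    have := nonneg_of_mul_nonneg_left h1 him
    linarith
  · rw [← h, A.start_re, A.start_im]
    linarith

/-- Second tangent inequality, for chords that do not go right. -/
theorem N2 (A : Arc z a b x y) (P : Supp z a b x y S c S' c') {s t : ℝ} (hs : s ∈ Icc a b)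
    (ht : t ∈ Icc a b) (hst : s < t) (hX : (z t).re ≤ (z s).re) :
    0 ≤ S' * ((z s).re - (z t).re) + c' * ((z t).im - (z s).im) := by
  have hn2 := A.n2 hs ht hst
  have hm := P.right s hs
  have hc := P.c'_pos
  have hre := A.re_pos hs (hst.trans_le ht.2)
  have h1 : 0 ≤ (S' * ((z s).re - (z t).re) + c' * ((z t).im - (z s).im)) * (z s).re := by
    have e1 := mul_nonneg hc.le hn2
    have e2 := mul_nonneg (sub_nonneg.2 hX) (sub_nonneg.2 hm)
    nlinarith
  exact nonneg_of_mul_nonneg_left h1 hre

theorem N1' (A : Arc z a b x y) (P : Supp z a b x y S c S' c') (E : 0 ≤ c * c' + S * S') {s t : ℝ}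
    (hs : s ∈ Icc a b) (ht : t ∈ Icc a b) (hst : s < t) :
    S * ((z t).im - (z s).im) ≤ c * ((z s).re - (z t).re) := by
  rcases le_or_gt (z s).im (z t).im with hY | hY
  · exact N1 A P hs ht hst hY
  have h0 := A.n0 hs ht hst
  have hre := A.nonneg_re s hs
  have him := A.nonneg_im s hs
  have hX : (z t).re < (z s).re := by
    by_contra hcon
    push Not at hcon
    have e1 := mul_nonneg (sub_nonneg.2 hcon) him
    have e2 := mul_nonneg (sub_nonneg.2 hY.le) hre
    nlinarith
  have h2 := N2 A P hs ht hst hX.le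
  have hc := P.c_pos
  have hc' := P.c'_pos
  rcases le_or_gt 0 S with hS | hS
  · have e1 := mul_nonneg hS (sub_nonneg.2 hY.le)
    have e2 := mul_nonneg hc.le (sub_nonneg.2 hX.le)
    linarith
  · have h1 : 0 ≤ (c * ((z s).re - (z t).re) - S * ((z t).im - (z s).im)) * c' := by
      have e1 := mul_nonneg E (sub_nonneg.2 hX.le)
      have e2 := mul_nonneg (neg_nonneg.2 hS.le) h2
      nlinarith
    have := nonneg_of_mul_nonneg_left h1 hc'
    linarith

theorem N2' (A : Arc z a b x y) (P : Supp z a b x y S c S' c') (E : 0 ≤ c * c' + S * S') {s t : ℝ}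
    (hs : s ∈ Icc a b) (ht : t ∈ Icc a b) (hst : s < t) :
    0 ≤ S' * ((z s).re - (z t).re) + c' * ((z t).im - (z s).im) := by
  rcases le_or_gt (z t).re (z s).re with hX | hX
  · exact N2 A P hs ht hst hX
  have h0 := A.n0 hs ht hst
  have hre := A.nonneg_re s hs
  have him := A.nonneg_im s hs
  have hY : (z s).im < (z t).im := by
    by_contra hcon
    push Not at hcon
    have e1 := mul_nonneg (sub_nonneg.2 hcon) hre
    have e2 := mul_nonneg (sub_nonneg.2 hX.le) him
    nlinarith
  have h1 := N1 A P hs ht hst hY.le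
  have hc := P.c_pos
  have hc' := P.c'_pos
  rcases le_or_gt S' 0 with hS | hS
  · have e1 := mul_nonneg (neg_nonneg.2 hS) (sub_nonneg.2 hX.le)
    have e2 := mul_nonneg hc'.le (sub_nonneg.2 hY.le)
    linarith
  · have h2 : 0 ≤ (S' * ((z s).re - (z t).re) + c' * ((z t).im - (z s).im)) * c := by
      have e1 := mul_nonneg E (sub_nonneg.2 hY.le)
      have e2 := mul_nonneg hS.le (sub_nonneg.2 h1)
      nlinarith
    exact nonneg_of_mul_nonneg_left h2 hc

theorem norm_chord (s t : ℝ) :
    ‖z t - z s‖ = Real.sqrt (((z s).re - (z t).re) ^ 2 + ((z t).im - (z s).im) ^ 2) := by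
  rw [Complex.norm_def, Complex.normSq_apply]
  congr 1
  simp only [Complex.sub_re, Complex.sub_im]
  ring

/-- Length of an arc between two supporting lines: at most the length of the path through the
corner. -/
theorem length_corner (A : Arc z a b x y) (P : Supp z a b x y S c S' c')
    (E : 0 < c * c' + S * S') :
    eVariationOn z (Icc a b) ≤
      ENNReal.ofReal (((S' + c) * x + (c' - S) * y) / (c * c' + S * S')) := by
  have h := length_le (f := z) (g := fun t =>
    (-(S' + c) * (z t).re + (c' - S) * (z t).im) / (c * c' + S * S')) A.hab.le ?_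
  · refine h.trans (le_of_eq ?_)
    congr 1
    simp only [A.start_re, A.start_im, A.fin_re, A.fin_im]
    ring
  · intro s hs t ht hst
    have h1 := N1' A P E.le hs ht hst
    have h2 := N2' A P E.le hs ht hst
    set X := (z s).re - (z t).re with hX
    set Y := (z t).im - (z s).im with hY
    set D := c * c' + S * S' with hD
    have hp : 0 ≤ (S' * X + c' * Y) / D := div_nonneg h2 E.le
    have hq : 0 ≤ (c * X - S * Y) / D := div_nonneg (by linarith) E.le
    set p := (S' * X + c' * Y) / D with hpd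
    set q := (c * X - S * Y) / D with hqd
    have eX : X = p * S + q * c' := by
      rw [hpd, hqd]; field_simp; rw [hD]; ring
    have eY : Y = p * c - q * S' := by
      rw [hpd, hqd]; field_simp; rw [hD]; ring
    have e : (-(S' + c) * (z t).re + (c' - S) * (z t).im) / D
        - (-(S' + c) * (z s).re + (c' - S) * (z s).im) / D = p + q := by
      rw [hpd, hqd, hX, hY]; field_simp; ring
    rw [e, norm_chord, ← hX, ← hY]
    refine Real.sqrt_le_iff.2 ⟨by linarith, ?_⟩
    rw [eX, eY]
    have e1 := P.sq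
    have e2 := P.sq'
    have hCS : S * c' - c * S' ≤ 1 := by nlinarith [sq_nonneg (S - c'), sq_nonneg (c + S')]
    have : (p * S + q * c') ^ 2 + (p * c - q * S') ^ 2
        = p ^ 2 * (S ^ 2 + c ^ 2) + q ^ 2 * (S' ^ 2 + c' ^ 2) + 2 * (p * q) * (S * c' - c * S') := by
      ring
    rw [this, e1, e2]
    nlinarith [mul_nonneg hp hq]

/-- If both supporting lines have the same direction, the arc is a segment. -/
theorem length_straight (A : Arc z a b x y) (P : Supp z a b x y S c S' c')
    (E : c * c' + S * S' = 0) (hS : 0 < S) :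
    eVariationOn z (Icc a b) ≤ ENNReal.ofReal (S * x + c * y) := by
  have h := length_le (f := z) (g := fun t => -S * (z t).re + c * (z t).im) A.hab.le ?_
  · refine h.trans (le_of_eq ?_)
    congr 1
    simp only [A.start_re, A.start_im, A.fin_re, A.fin_im]
    ring
  · intro s hs t ht hst
    have h1 := N1' A P E.symm.le hs ht hst
    have h2 := N2' A P E.symm.le hs ht hst
    have h0 := A.n0 hs ht hst
    have hre := A.nonneg_re s hs
    have him := A.nonneg_im s hs
    have hc := P.c_pos
    have hc' := P.c'_pos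
    have q1 := P.sq
    have q2 := P.sq'
    -- `c' = S`, `S' = -c`
    have hSS : S ^ 2 * S' ^ 2 = c ^ 2 * c' ^ 2 := by
      have : S * S' = -(c * c') := by linarith
      calc S ^ 2 * S' ^ 2 = (S * S') ^ 2 := by ring
        _ = c ^ 2 * c' ^ 2 := by rw [this]; ring
    have hcS : c' = S := by
      have : c' ^ 2 = S ^ 2 := by nlinarith
      exact (sq_eq_sq₀ hc'.le hS.le).1 this
    have hSc : S' = -c := by
      have : S * (S' + c) = 0 := by rw [hcS] at E; linarith
      rcases mul_eq_zero.1 this with h | h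
      · exact absurd h hS.ne'
      · linarith
    rw [hcS, hSc] at h2
    set X := (z s).re - (z t).re with hX
    set Y := (z t).im - (z s).im with hY
    have hXY : c * X = S * Y := by linarith
    have hnn : 0 ≤ S * X + c * Y := by
      have k1 : 0 < c * (X * (z s).im + Y * (z s).re) := mul_pos hc h0
      have k2 : c * (X * (z s).im + Y * (z s).re) = Y * (S * (z s).im + c * (z s).re) := by
        calc c * (X * (z s).im + Y * (z s).re) = (c * X) * (z s).im + c * Y * (z s).re := by ring
          _ = _ := by rw [hXY]; ring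
      have k3 : 0 ≤ S * (z s).im + c * (z s).re := by positivity
      have hYp : 0 < Y := by
        by_contra hcon
        push Not at hcon
        have := mul_nonneg (neg_nonneg.2 hcon) k3
        linarith
      have hXp : 0 < X := by
        have : 0 < c * X := by rw [hXY]; positivity
        exact (pos_iff_pos_of_mul_pos this).1 hc
      positivity
    have e : -S * (z t).re + c * (z t).im - (-S * (z s).re + c * (z s).im) = S * X + c * Y := by
      rw [hX, hY]; ring
    simp only [e]
    rw [norm_chord, ← hX, ← hY]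
    refine Real.sqrt_le_iff.2 ⟨hnn, ?_⟩
    have : (S * X + c * Y) ^ 2 = (S ^ 2 + c ^ 2) * (X ^ 2 + Y ^ 2) - (c * X - S * Y) ^ 2 := by ring
    rw [this, q1, hXY]
    simp

theorem length_B2 (A : Arc z a b x y) (P : Supp z a b x y S c S' c') (hS : 0 < S) {μ : ℝ}
    (hμ : 0 < μ) (h1 : μ ≤ S) (h2 : μ ≤ c') :
    eVariationOn z (Icc a b) ≤ ENNReal.ofReal (x / μ) := by
  have h := length_le (f := z) (g := fun t => -(z t).re / μ) A.hab.le ?_
  · refine h.trans (le_of_eq ?_)
    congr 1
    simp only [A.start_re, A.fin_re]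
    ring
  · intro s hs t ht hst
    have e : -(z t).re / μ - -(z s).re / μ = ((z s).re - (z t).re) / μ := by ring
    simp only [e]
    rw [le_div_iff₀ hμ, norm_chord]
    have hc := P.c_pos
    have hc' := P.c'_pos
    have q1 := P.sq
    have q2 := P.sq'
    have hre := A.nonneg_re s hs
    have him := A.nonneg_im s hs
    have h0 := A.n0 hs ht hst
    rcases le_or_gt (z s).im (z t).im with hY | hY
    · have hN := N1 A P hs ht hst hY
      set X := (z s).re - (z t).re with hXd
      set Y := (z t).im - (z s).im with hYd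
      have hYn : 0 ≤ Y := sub_nonneg.2 hY
      have hXn : 0 ≤ X := by
        have : 0 ≤ c * X := le_trans (mul_nonneg hS.le hYn) hN
        exact nonneg_of_mul_nonneg_right this hc
      have hsq : (S * Real.sqrt (X ^ 2 + Y ^ 2)) ^ 2 ≤ X ^ 2 := by
        rw [mul_pow, Real.sq_sqrt (by positivity)]
        have : (S * Y) ^ 2 ≤ (c * X) ^ 2 := by
          apply pow_le_pow_left₀ (mul_nonneg hS.le hYn) hN
        nlinarith
      have h3 : S * Real.sqrt (X ^ 2 + Y ^ 2) ≤ X :=
        (abs_le_of_sq_le_sq' hsq hXn).2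
      have h4 : μ * Real.sqrt (X ^ 2 + Y ^ 2) ≤ S * Real.sqrt (X ^ 2 + Y ^ 2) :=
        mul_le_mul_of_nonneg_right h1 (Real.sqrt_nonneg _)
      linarith
    · have hX : (z t).re < (z s).re := by
        by_contra hcon
        push Not at hcon
        have e1 := mul_nonneg (sub_nonneg.2 hcon) him
        have e2 := mul_nonneg (sub_nonneg.2 hY.le) hre
        nlinarith
      have hN := N2 A P hs ht hst hX.le
      set X := (z s).re - (z t).re with hXd
      set Y := (z t).im - (z s).im with hYd
      have hXn : 0 < X := sub_pos.2 hX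
      have hYn : Y < 0 := by rw [hYd]; linarith
      have hsq : (c' * Real.sqrt (X ^ 2 + Y ^ 2)) ^ 2 ≤ X ^ 2 := by
        rw [mul_pow, Real.sq_sqrt (by positivity)]
        have k : 0 ≤ c' * (-Y) := mul_nonneg hc'.le (by linarith)
        have : (c' * (-Y)) ^ 2 ≤ (S' * X) ^ 2 := by
          apply pow_le_pow_left₀ k
          linarith
        nlinarith
      have h3 : c' * Real.sqrt (X ^ 2 + Y ^ 2) ≤ X :=
        (abs_le_of_sq_le_sq' hsq hXn.le).2
      have h4 : μ * Real.sqrt (X ^ 2 + Y ^ 2) ≤ c' * Real.sqrt (X ^ 2 + Y ^ 2) :=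
        mul_le_mul_of_nonneg_right h2 (Real.sqrt_nonneg _)
      linarith

end

end Pool.Agent.V11190.Quad
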