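import Pool.Agent.V11190.Quad9

set_option autoImplicit false

open Set

namespace Pool.Agent.V11190.Quad

section
variable {F : Set ℂ} {γ : ℝ → ℂ}

theorem quarter_eq {L V : ENNReal} (h : V = L / 4) : L = 4 * V := by
  rw [h, mul_comm]
  exact (ENNReal.div_mul_cancel (by norm_num) (by norm_num)).symm

theorem length_period (hγ : IsBoundaryLoop F γ) {s : ℝ} (h0 : 0 ≤ s) (h1 : s ≤ 1) :
    eVariationOn γ (Icc s (s + 1)) = eVariationOn γ (Icc 0 1) := by
  rw [← eVar_add γ h1 (by linarith : (1 : ℝ) ≤ s + 1), ← eVar_add γ h0 h1]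
  have := eVar_shift hγ.periodic 0 s
  rw [zero_add] at this
  rw [this, add_comm]

theorem two_dist_le (hγ : IsBoundaryLoop F γ) {x y : ℂ} (hx : x ∈ frontier F)
    (hy : y ∈ frontier F) :
    ENNReal.ofReal (2 * ‖y - x‖) ≤ eVariationOn γ (Icc 0 1) := by
  have key : ∀ s t : ℝ, 0 ≤ s → s ≤ t → t < 1 →
      ENNReal.ofReal (2 * ‖γ t - γ s‖) ≤ eVariationOn γ (Icc 0 1) := by
    intro s t h0 hst h1
    rw [← length_period hγ h0 (hst.trans h1.le), ← eVar_add γ hst (by linarith)]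
    have c1 := chord_le (f := γ) hst
    have c2 := chord_le (f := γ) (by linarith : t ≤ s + 1)
    rw [hγ.periodic, norm_sub_rev] at c2
    refine le_trans (le_of_eq ?_) (add_le_add c1 c2)
    rw [← ENNReal.ofReal_add (norm_nonneg _) (norm_nonneg _)]
    congr 1; ring
  have rep : ∀ z ∈ frontier F, ∃ s : ℝ, 0 ≤ s ∧ s < 1 ∧ γ s = z := by
    intro z hz
    rw [← hγ.range] at hz
    obtain ⟨t, rfl⟩ := hz
    refine ⟨Int.fract t, Int.fract_nonneg t, Int.fract_lt_one t, ?_⟩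
    have := hγ.per_int (Int.fract t) ⌊t⌋
    rw [Int.fract_add_floor] at this
    exact this.symm
  obtain ⟨s, hs0, hs1, rfl⟩ := rep x hx
  obtain ⟨t, ht0, ht1, rfl⟩ := rep y hy
  rcases le_total s t with h | h
  · exact key s t hs0 h ht1
  · rw [norm_sub_rev]; exact key t s ht0 h hs1

theorem two_diam_le (hFc : IsCompact F) (hFi : (interior F).Nonempty)
    (hγ : IsBoundaryLoop F γ) {x y : ℂ} (hx : x ∈ F) (hy : y ∈ F) :
    ENNReal.ofReal (2 * ‖y - x‖) ≤ eVariationOn γ (Icc 0 1) := by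
  have hne : F.Nonempty := hFi.mono interior_subset
  obtain ⟨p, hp, hmax⟩ := (hFc.prod hFc).exists_isMaxOn (hne.prod hne)
    (f := fun p : ℂ × ℂ => ‖p.2 - p.1‖) (by fun_prop)
  have hle : ∀ a ∈ F, ∀ b ∈ F, ‖b - a‖ ≤ ‖p.2 - p.1‖ := fun a ha b hb =>
    hmax (a := (a, b)) ⟨ha, hb⟩
  rcases (norm_nonneg (y - x)).lt_or_eq with h0 | h0
  swap
  · rw [← h0]; simp
  have hD : 0 < ‖p.2 - p.1‖ := h0.trans_le (hle x hx y hy)
  have ends : ∀ a b : ℂ, a ∈ F → b ∈ F → ‖b - a‖ = ‖p.2 - p.1‖ → b ∈ frontier F := by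
    intro a b ha hb hab
    refine ⟨subset_closure hb, fun hint => ?_⟩
    obtain ⟨ε, hε, hball⟩ := Metric.isOpen_iff.1 isOpen_interior b hint
    set δ : ℝ := ε / (2 * ‖b - a‖) with hδ
    have hba : 0 < ‖b - a‖ := by rw [hab]; exact hD
    have hδp : 0 < δ := by positivity
    have hmem : b + (δ : ℂ) * (b - a) ∈ F := by
      apply interior_subset
      apply hball
      rw [Metric.mem_ball, dist_eq_norm, add_sub_cancel_left, norm_mul, Complex.norm_real,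
        Real.norm_eq_abs, abs_of_pos hδp, hδ]
      field_simp
      linarith
    have h1 := hle a ha _ hmem
    have e : b + (δ : ℂ) * (b - a) - a = ((1 + δ : ℝ) : ℂ) * (b - a) := by push_cast; ring
    rw [e, norm_mul, Complex.norm_real, Real.norm_eq_abs, abs_of_pos (by linarith), ← hab] at h1
    nlinarith
  have hp2 : p.2 ∈ frontier F := ends p.1 p.2 hp.1 hp.2 rfl
  have hp1 : p.1 ∈ frontier F := ends p.2 p.1 hp.2 hp.1 (norm_sub_rev _ _)
  refine le_trans (ENNReal.ofReal_le_ofReal ?_) (two_dist_le hγ hp1 hp2)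
  linarith [hle x hx y hy]

/-- The perimeter bound in terms of the whole length. -/
theorem main_length (hF : Convex ℝ F) (hFc : IsCompact F) (hi : (interior F).Nonempty)
    (hγ : IsBoundaryLoop F γ) {t₁ t₂ t₃ t₄ : ℝ} (h12 : t₁ < t₂) (h23 : t₂ < t₃)
    (h34 : t₃ < t₄) (h41 : t₄ < t₁ + 1)
    (a1 : eVariationOn γ (Icc t₁ t₂) = eVariationOn γ (Icc 0 1) / 4)
    (a2 : eVariationOn γ (Icc t₂ t₃) = eVariationOn γ (Icc 0 1) / 4)
    (a3 : eVariationOn γ (Icc t₃ t₄) = eVariationOn γ (Icc 0 1) / 4)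
    (a4 : eVariationOn γ (Icc t₄ (t₁ + 1)) = eVariationOn γ (Icc 0 1) / 4)
    (hperp : inner ℝ (γ t₃ - γ t₁) (γ t₄ - γ t₂) = 0) :
    eVariationOn γ (Icc 0 1) ≤ ENNReal.ofReal (2 * (‖γ t₃ - γ t₁‖ + ‖γ t₄ - γ t₂‖)) ∧
    (eVariationOn γ (Icc 0 1) = ENNReal.ofReal (2 * (‖γ t₃ - γ t₁‖ + ‖γ t₄ - γ t₂‖)) →
      IsRectangle F) := by
  obtain ⟨k1, k2, k3⟩ := main_real hF hFc.isClosed hi hγ h12 h23 h34 h41 hperp a1 a2 a3 a4
  set V := eVariationOn γ (Icc 0 1) / 4 with hV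
  have hL := quarter_eq hV
  have hL2 : eVariationOn γ (Icc 0 1) = ENNReal.ofReal (4 * V.toReal) := by
    rw [hL, ENNReal.ofReal_mul (by norm_num), ENNReal.ofReal_toReal k1]
    norm_num
  constructor
  · rw [hL2]
    exact ENNReal.ofReal_le_ofReal (by linarith)
  · intro h
    rw [hL2] at h
    have h0 : 0 ≤ 4 * V.toReal := by positivity
    have h0' : 0 ≤ 2 * (‖γ t₃ - γ t₁‖ + ‖γ t₄ - γ t₂‖) := by positivity
    have := (ENNReal.ofReal_eq_ofReal_iff h0 h0').1 h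
    exact k3 (by linarith)

end

end Pool.Agent.V11190.Quad
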