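import Mathlib

set_option autoImplicit false

open Set

namespace Pool.Agent.V11190.Quad

/-- The numerical data of four arcs. -/
structure Data (x S c : Fin 4 → ℝ) (l : ℝ) : Prop where
  l_pos : 0 < l
  x_pos : ∀ i, 0 < x i
  c_pos : ∀ i, 0 < c i
  sq : ∀ i, S i ^ 2 + c i ^ 2 = 1
  a1 : ∀ i, S i * x (i + 1) ≤ c i * x i
  a2 : ∀ i, -S (i + 1) * x i ≤ c (i + 1) * x (i + 1)
  b1 : ∀ i, 0 ≤ S i → x (i + 1) ≤ c i * l
  b1' : ∀ i, S (i + 1) ≤ 0 → x i ≤ c (i + 1) * l
  b2 : ∀ i, 0 < S i → ∀ μ, 0 < μ → μ ≤ S i → μ ≤ c (i + 1) → μ * l ≤ x i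
  b2' : ∀ i, S (i + 1) < 0 → ∀ μ, 0 < μ → μ ≤ -S (i + 1) → μ ≤ c i → μ * l ≤ x (i + 1)
  b4 : ∀ i, 0 < c i * c (i + 1) + S i * S (i + 1) →
    (c i * c (i + 1) + S i * S (i + 1)) * l ≤ (S (i + 1) + c i) * x i + (c (i + 1) - S i) * x (i + 1)
  b5 : ∀ i, c i * c (i + 1) + S i * S (i + 1) = 0 → 0 < S i → l ≤ S i * x i + c i * x (i + 1)

/-- The inequality for one arc, with the information in the case of equality. -/
theorem one_arc {x x' S c S' c' l : ℝ} (hx : 0 < x) (hx' : 0 < x') (hc : 0 < c)
    (hc' : 0 < c') (q : S ^ 2 + c ^ 2 = 1) (q' : S' ^ 2 + c' ^ 2 = 1)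
    (a1 : S * x' ≤ c * x) (a2 : -S' * x ≤ c' * x') (hl : 0 < l)
    (b4 : 0 < c * c' + S * S' → (c * c' + S * S') * l ≤ (S' + c) * x + (c' - S) * x')
    (b5 : c * c' + S * S' = 0 → 0 < S → l ≤ S * x + c * x')
    (g1 : S ≤ c') (g2 : -S' ≤ c) :
    (1 + S - S') * l ≤ (1 + S) * x + (1 - S') * x' ∧
    ((1 + S - S') * l = (1 + S) * x + (1 - S') * x' →
      0 < 1 + S - S' ∧
      (0 < c * c' + S * S' → (S' * x + c' * x') * ((1 - c) * (c + S')) = 0 ∧
        (c * x - S * x') * ((1 - c') * (c' - S)) = 0) ∧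
      (¬ 0 < c * c' + S * S' → 0 < S ∧ S' < 0)) := by
  have hS1 : -1 < S := by nlinarith
  have hS2 : S < 1 := by nlinarith
  have hS1' : -1 < S' := by nlinarith
  have hS2' : S' < 1 := by nlinarith
  have hc1 : c ≤ 1 := by nlinarith
  have hc1' : c' ≤ 1 := by nlinarith
  have hL : 0 < (1 + S) * x + (1 - S') * x' := by
    have := mul_pos (by linarith : 0 < 1 + S) hx
    have := mul_pos (by linarith : 0 < 1 - S') hx'
    linarith
  rcases le_or_gt (1 + S - S') 0 with hK | hK
  · have : (1 + S - S') * l ≤ 0 := mul_nonpos_of_nonpos_of_nonneg hK hl.le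
    exact ⟨by linarith, fun h => absurd h (by linarith)⟩
  -- `E ≥ 0`
  have hE : 0 ≤ c * c' + S * S' := by
    by_contra hcon
    push Not at hcon
    have hcc := mul_pos hc hc'
    rcases lt_trichotomy S 0 with h | h | h
    · -- then `S' > 0`
      have hS' : 0 < S' := by
        by_contra h2
        push Not at h2
        nlinarith [mul_nonneg (neg_nonneg.2 h.le) (neg_nonneg.2 h2)]
      have h3 : S ^ 2 < c' ^ 2 := by nlinarith
      have h4 : -S < c' := by
        apply lt_of_pow_lt_pow_left₀ 2 hc'.le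
        nlinarith
      have h5 : S' < c := by
        apply lt_of_pow_lt_pow_left₀ 2 hc.le
        nlinarith
      nlinarith [mul_pos (sub_pos.2 h4) hc, mul_pos (sub_pos.2 h5) (neg_pos.2 h)]
    · rw [h] at hcon; linarith
    · have hS' : S' < 0 := by
        by_contra h2
        push Not at h2
        nlinarith [mul_nonneg h.le h2]
      -- `c c' x x' ≥ S |S'| x x'`
      have h3 : (S * x') * (-S' * x) ≤ (c * x) * (c' * x') := by
        apply mul_le_mul a1 a2
        · exact (mul_pos (neg_pos.2 hS') hx).le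
        · exact (mul_pos hc hx).le
      have h4 : 0 < x * x' := mul_pos hx hx'
      nlinarith
  rcases hE.lt_or_eq with hE | hE
  · have h1 := b4 hE
    have hM : 0 ≤ S' * x + c' * x' := by linarith
    have hN : 0 ≤ c * x - S * x' := by linarith
    have hg1 : 0 ≤ (1 - c) * (c + S') := mul_nonneg (by linarith) (by linarith)
    have hg2 : 0 ≤ (1 - c') * (c' - S) := mul_nonneg (by linarith) (by linarith)
    have e1 := mul_nonneg hM hg1
    have e2 := mul_nonneg hN hg2
    have e3 : (1 + S - S') * ((c * c' + S * S') * l) ≤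
        (1 + S - S') * ((S' + c) * x + (c' - S) * x') := mul_le_mul_of_nonneg_left h1 hK.le
    have e4 : (c * c' + S * S') * ((1 + S) * x + (1 - S') * x') =
        (1 + S - S') * ((S' + c) * x + (c' - S) * x') +
        (S' * x + c' * x') * ((1 - c) * (c + S')) + (c * x - S * x') * ((1 - c') * (c' - S)) := by
      grind
    have e5 : 0 ≤ (c * c' + S * S') * (((1 + S) * x + (1 - S') * x') - (1 + S - S') * l) := by
      nlinarith
    have e6 := nonneg_of_mul_nonneg_right e5 hE
    refine ⟨by linarith, fun h => ⟨hK, fun _ => ?_, fun h' => absurd hE h'⟩⟩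
    have e7 : (c * c' + S * S') * (((1 + S) * x + (1 - S') * x') - (1 + S - S') * l) = 0 := by
      rw [h]; ring
    constructor <;> nlinarith
  · have hcc := mul_pos hc hc'
    have hSS : S ^ 2 * S' ^ 2 = c ^ 2 * c' ^ 2 := by
      have : S * S' = -(c * c') := by linarith
      calc S ^ 2 * S' ^ 2 = (S * S') ^ 2 := by ring
        _ = c ^ 2 * c' ^ 2 := by rw [this]; ring
    have hsum : S ^ 2 + S' ^ 2 = 1 := by nlinarith
    have hSpos : 0 < S := by
      rcases lt_trichotomy S 0 with h | h | h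
      · exfalso
        have hS' : 0 < S' := by
          by_contra h2
          push Not at h2
          nlinarith [mul_nonneg (neg_nonneg.2 h.le) (neg_nonneg.2 h2)]
        nlinarith [mul_pos (neg_pos.2 h) hS']
      · exfalso; rw [h] at hE; linarith
      · exact h
    have hS'neg : S' < 0 := by
      by_contra h2
      push Not at h2
      nlinarith [mul_nonneg hSpos.le h2]
    have h5 := b5 hE.symm hSpos
    have hcS : c' = S := (sq_eq_sq₀ hc'.le hSpos.le).1 (by linarith)
    have hSc : S' = -c := by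
      have : S * (S' + c) = 0 := by rw [hcS] at hE; linarith
      rcases mul_eq_zero.1 this with h | h
      · exact absurd h hSpos.ne'
      · linarith
    subst hcS
    subst hSc
    have hxy : c * x = c' * x' := by linarith
    have ex : x = c' * (c' * x + c * x') := by
      have : c' * (c' * x + c * x') = c' ^ 2 * x + c * (c' * x') := by ring
      rw [this, ← hxy]
      have : c' ^ 2 * x + c * (c * x) = (c' ^ 2 + c ^ 2) * x := by ring
      rw [this, q, one_mul]
    have ey : x' = c * (c' * x + c * x') := by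
      have : c * (c' * x + c * x') = c' * (c * x) + c ^ 2 * x' := by ring
      rw [this, hxy]
      have : c' * (c' * x') + c ^ 2 * x' = (c' ^ 2 + c ^ 2) * x' := by ring
      rw [this, q, one_mul]
    have key : (1 + c') * x + (1 - -c) * x' = (1 + c' - -c) * (c' * x + c * x') := by
      have : (1 + c' - -c) * (c' * x + c * x') = (c' * x + c * x') + c' * (c' * x + c * x')
        + c * (c' * x + c * x') := by ring
      rw [this, ← ex, ← ey]; ring
    have h6 := mul_le_mul_of_nonneg_left h5 hK.le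
    refine ⟨by rw [key]; exact h6, fun _ => ⟨hK, fun h' => absurd hE h'.ne, fun _ => ⟨hSpos, hS'neg⟩⟩⟩

theorem fin4_a (i : Fin 4) : i = (i - 1) + 1 := by revert i; decide
theorem fin4_b (i : Fin 4) : i + 1 + 1 + 1 + 1 = i := by revert i; decide
theorem fin4_c (i : Fin 4) : -i = -(i + 1) + 1 := by revert i; decide
theorem fin4_d (i : Fin 4) : -(-(i + 1)) = i + 1 := by revert i; decide
theorem fin4_e (i : Fin 4) : -(-(i + 1) + 1) = i := by revert i; decide

/-- The bound, if no two consecutive tilts are bad. -/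
theorem Data.good {x S c : Fin 4 → ℝ} {l : ℝ} (D : Data x S c l)
    (g1 : ∀ i, S i ≤ c (i + 1)) (g2 : ∀ i, -S (i + 1) ≤ c i) :
    2 * l ≤ ∑ i, x i ∧ (2 * l = ∑ i, x i → ∀ i, S i = 0) := by
  have h := fun i => one_arc (D.x_pos i) (D.x_pos (i + 1)) (D.c_pos i) (D.c_pos (i + 1))
    (D.sq i) (D.sq (i + 1)) (D.a1 i) (D.a2 i) D.l_pos (D.b4 i) (D.b5 i) (g1 i) (g2 i)
  have h0 := (h 0).1
  have h1 := (h 1).1
  have h2 := (h 2).1
  have h3 := (h 3).1
  have s0 : (0 : Fin 4) + 1 = 1 := rfl
  have s1 : (1 : Fin 4) + 1 = 2 := rfl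
  have s2 : (2 : Fin 4) + 1 = 3 := rfl
  have s3 : (3 : Fin 4) + 1 = 0 := rfl
  rw [s0] at h0
  rw [s1] at h1
  rw [s2] at h2
  rw [s3] at h3
  rw [Fin.sum_univ_four]
  refine ⟨by linarith, fun heq => ?_⟩
  have key : ∀ i, (1 + S i - S (i + 1)) * l = (1 + S i) * x i + (1 - S (i + 1)) * x (i + 1) := by
    intro i
    fin_cases i
    · show (1 + S 0 - S (0 + 1)) * l = (1 + S 0) * x 0 + (1 - S (0 + 1)) * x (0 + 1)
      rw [s0]; linarith
    · show (1 + S 1 - S (1 + 1)) * l = (1 + S 1) * x 1 + (1 - S (1 + 1)) * x (1 + 1)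
      rw [s1]; linarith
    · show (1 + S 2 - S (2 + 1)) * l = (1 + S 2) * x 2 + (1 - S (2 + 1)) * x (2 + 1)
      rw [s2]; linarith
    · show (1 + S 3 - S (3 + 1)) * l = (1 + S 3) * x 3 + (1 - S (3 + 1)) * x (3 + 1)
      rw [s3]; linarith
  -- no positive tilt
  have npos : ∀ i, ¬ 0 < S (i + 1) := by
    intro i hpos
    obtain ⟨-, e1, e2⟩ := (h i).2 (key i)
    have hE : 0 < c i * c (i + 1) + S i * S (i + 1) := by
      by_contra hcon
      exact absurd (e2 hcon).2 (by linarith)
    obtain ⟨f1, f2⟩ := e1 hE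
    have hM : 0 < S (i + 1) * x i + c (i + 1) * x (i + 1) := by
      have := mul_pos hpos (D.x_pos i)
      have := mul_pos (D.c_pos (i + 1)) (D.x_pos (i + 1))
      linarith
    have f3 : (1 - c i) * (c i + S (i + 1)) = 0 := by
      rcases mul_eq_zero.1 f1 with h' | h'
      · exact absurd h' hM.ne'
      · exact h'
    have f4 : c i = 1 := by
      rcases mul_eq_zero.1 f3 with h' | h'
      · linarith
      · have := D.c_pos i; linarith
    have f5 : S i = 0 := by
      have := D.sq i
      rw [f4] at this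
      nlinarith
    have f6 : c (i + 1) < 1 := by
      have := D.sq (i + 1)
      have := D.c_pos (i + 1)
      nlinarith
    rcases mul_eq_zero.1 f2 with h' | h'
    · rw [f4, f5] at h'
      have := D.x_pos i
      linarith
    · rw [f5] at h'
      rcases mul_eq_zero.1 h' with h'' | h''
      · linarith
      · have := D.c_pos (i + 1); linarith
  have nneg : ∀ i, ¬ S i < 0 := by
    intro i hneg
    obtain ⟨-, e1, e2⟩ := (h i).2 (key i)
    have hE : 0 < c i * c (i + 1) + S i * S (i + 1) := by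
      by_contra hcon
      exact absurd (e2 hcon).1 (by linarith)
    obtain ⟨f1, f2⟩ := e1 hE
    have hN : 0 < c i * x i - S i * x (i + 1) := by
      have := mul_pos (neg_pos.2 hneg) (D.x_pos (i + 1))
      have := mul_pos (D.c_pos i) (D.x_pos i)
      linarith
    have f3 : (1 - c (i + 1)) * (c (i + 1) - S i) = 0 := by
      rcases mul_eq_zero.1 f2 with h' | h'
      · exact absurd h' hN.ne'
      · exact h'
    have f4 : c (i + 1) = 1 := by
      rcases mul_eq_zero.1 f3 with h' | h'
      · linarith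
      · have := D.c_pos (i + 1); linarith
    have f5 : S (i + 1) = 0 := by
      have := D.sq (i + 1)
      rw [f4] at this
      nlinarith
    have f6 : c i < 1 := by
      have := D.sq i
      have := D.c_pos i
      nlinarith
    rcases mul_eq_zero.1 f1 with h' | h'
    · rw [f4, f5] at h'
      have := D.x_pos (i + 1)
      linarith
    · rw [f5] at h'
      rcases mul_eq_zero.1 h' with h'' | h''
      · linarith
      · have := D.c_pos i; linarith
  intro i
  have hi : i = (i - 1) + 1 := fin4_a i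
  have := npos (i - 1)
  rw [← hi] at this
  exact le_antisymm (not_lt.1 this) (not_lt.1 (nneg i))

/-- No bad pair of positive tilts. -/
theorem Data.no_bad {x S c : Fin 4 → ℝ} {l : ℝ} (D : Data x S c l) (i : Fin 4) :
    S i ≤ c (i + 1) := by
  by_contra hbad
  push Not at hbad
  have step : ∀ j, c (j + 1) < S j → c (j + 1 + 1) < S (j + 1) ∧ c (j + 1 + 1) ≤ c j ∧
      c (j + 1 + 1) * l ≤ x (j + 1) ∧ x (j + 1) ≤ c j * l := by
    intro j hj
    have hc := D.c_pos j
    have hc1 := D.c_pos (j + 1)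
    have hc2 := D.c_pos (j + 1 + 1)
    have hl := D.l_pos
    have hSj : 0 < S j := hc1.trans hj
    have hsq : c j ^ 2 < S (j + 1) ^ 2 := by
      have e1 := D.sq j
      have e2 := D.sq (j + 1)
      nlinarith
    have hS1 : 0 < S (j + 1) := by
      by_contra hcon
      push Not at hcon
      have h1 : c j < -S (j + 1) := by
        apply lt_of_pow_lt_pow_left₀ 2 (by linarith)
        nlinarith
      have h3 : (S j * x (j + 1)) * (-S (j + 1) * x j) ≤
          (c j * x j) * (c (j + 1) * x (j + 1)) := by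
        apply mul_le_mul (D.a1 j) (D.a2 j)
        · exact mul_nonneg (by linarith) (D.x_pos j).le
        · exact (mul_pos hc (D.x_pos j)).le
      have h4 : 0 < x j * x (j + 1) := mul_pos (D.x_pos j) (D.x_pos (j + 1))
      have h5 : c j * c (j + 1) < S j * (-S (j + 1)) := by nlinarith
      nlinarith
    have hS2 : c j < S (j + 1) := lt_of_pow_lt_pow_left₀ 2 hS1.le hsq
    have hb1 := D.b1 j hSj.le
    -- now the second arc
    have h6 : c (j + 1 + 1) ≤ c j := by
      by_contra hcon
      push Not at hcon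
      have hμ : c j < min (S (j + 1)) (c (j + 1 + 1)) := lt_min hS2 hcon
      have := D.b2 (j + 1) hS1 (min (S (j + 1)) (c (j + 1 + 1))) (hc.trans hμ)
        (min_le_left _ _) (min_le_right _ _)
      have h7 := mul_lt_mul_of_pos_right hμ hl
      linarith
    have h8 : c (j + 1 + 1) < S (j + 1) := h6.trans_lt hS2
    refine ⟨h8, h6, ?_, hb1⟩
    exact D.b2 (j + 1) hS1 _ hc2 h8.le le_rfl
  obtain ⟨k1, u1, v1, w1⟩ := step i hbad
  obtain ⟨k2, u2, v2, w2⟩ := step (i + 1) k1
  obtain ⟨k3, u3, v3, w3⟩ := step (i + 1 + 1) k2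
  obtain ⟨k4, u4, v4, w4⟩ := step (i + 1 + 1 + 1) k3
  have e4 : i + 1 + 1 + 1 + 1 = i := fin4_b i
  rw [e4] at u3 v3 k3 u4 v4 k4 w4
  have hl := D.l_pos
  -- `c (i+1+1) = c i`, `c (i+1+1+1) = c (i+1)`
  have f1 : c (i + 1 + 1) = c i := le_antisymm u1 u3
  have f2 : c (i + 1 + 1 + 1) = c (i + 1) := le_antisymm u2 u4
  have g1 : x (i + 1) = c i * l := by rw [f1] at v1; linarith
  have g4 : x i = c (i + 1) * l := by rw [f2] at w4; linarith
  have h1 := D.a1 i
  rw [g1, g4] at h1
  have hc := D.c_pos i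
  have : c i * l * S i ≤ c i * l * c (i + 1) := by linarith
  have := le_of_mul_le_mul_left this (mul_pos hc hl)
  linarith

theorem Data.mirror {x S c : Fin 4 → ℝ} {l : ℝ} (D : Data x S c l) :
    Data (fun i => x (-i)) (fun i => -S (-i)) (fun i => c (-i)) l := by
  have e : ∀ i : Fin 4, -i = -(i + 1) + 1 := fin4_c
  refine ⟨D.l_pos, fun i => D.x_pos _, fun i => D.c_pos _, fun i => ?_, fun i => ?_, fun i => ?_,
    fun i h => ?_, fun i h => ?_, fun i h μ h1 h2 h3 => ?_, fun i h μ h1 h2 h3 => ?_,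
    fun i h => ?_, fun i h h' => ?_⟩
  · have := D.sq (-i); simpa using this
  · have := D.a2 (-(i + 1)); rw [← e] at this; exact this
  · have := D.a1 (-(i + 1)); rw [← e] at this; simpa using this
  · have := D.b1' (-(i + 1)); rw [← e] at this; exact this (by simpa using h)
  · have := D.b1 (-(i + 1)); rw [← e] at this; exact this (by simpa using h)
  · have := D.b2' (-(i + 1)); rw [← e] at this; exact this (by simpa using h) μ h1 h2 h3
  · have := D.b2 (-(i + 1)); rw [← e] at this
    exact this (by simpa using h) μ h1 (by simpa using h2) h3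
  · have := D.b4 (-(i + 1)); rw [← e] at this
    have h2 := this (by nlinarith)
    nlinarith
  · -- straight arc
    have h1 := D.b5 (-(i + 1)); rw [← e] at h1
    have hc := D.c_pos (-i)
    have hc' := D.c_pos (-(i + 1))
    have q := D.sq (-i)
    have q' := D.sq (-(i + 1))
    set S0 := S (-(i + 1))
    set c0 := c (-(i + 1))
    set S1 := S (-i)
    set c1 := c (-i)
    have hE : c0 * c1 + S0 * S1 = 0 := by nlinarith
    have hS1 : S1 < 0 := by linarith
    have hS0 : 0 < S0 := by
      by_contra hcon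
      push Not at hcon
      nlinarith [mul_pos hc hc', mul_nonneg (neg_nonneg.2 hcon) (neg_nonneg.2 hS1.le)]
    have hSS : S0 ^ 2 * S1 ^ 2 = c0 ^ 2 * c1 ^ 2 := by
      have : S0 * S1 = -(c0 * c1) := by linarith
      calc S0 ^ 2 * S1 ^ 2 = (S0 * S1) ^ 2 := by ring
        _ = c0 ^ 2 * c1 ^ 2 := by rw [this]; ring
    have e1 : c1 = S0 := (sq_eq_sq₀ hc.le hS0.le).1 (by nlinarith)
    have e2 : c0 = -S1 := (sq_eq_sq₀ hc'.le (by linarith)).1 (by nlinarith)
    have := h1 hE hS0
    rw [e1]
    rw [e2] at this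
    linarith

theorem Data.main {x S c : Fin 4 → ℝ} {l : ℝ} (D : Data x S c l) :
    2 * l ≤ ∑ i, x i ∧ (2 * l = ∑ i, x i → ∀ i, S i = 0) := by
  refine D.good D.no_bad fun i => ?_
  have := D.mirror.no_bad (-(i + 1))
  have e : -(-(i + 1)) = i + 1 := fin4_d i
  have e' : -(-(i + 1) + 1) = i := fin4_e i
  rw [e, e'] at this
  exact this

end Pool.Agent.V11190.Quad
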