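import Pool.Agent.V11190.Quad1
import Pool.Agent.V11190.Quad2

set_option autoImplicit false

open Set

namespace Pool.Agent.V11190.Quad

/-- A continuous choice of the argument. -/
theorem lift_exists (f : ℝ → ℂ) (hf : Continuous f) (h0 : ∀ t, f t ≠ 0) :
    ∃ θ : ℝ → ℝ, Continuous θ ∧ ∀ t, f t = (‖f t‖ : ℂ) * Complex.exp (θ t * Complex.I) := by
  have hn : ∀ t, (‖f t‖ : ℂ) ≠ 0 := fun t => by
    exact_mod_cast (norm_ne_zero_iff.2 (h0 t))
  let g : C(ℝ, Circle) :=
    ⟨fun t => ⟨f t / (‖f t‖ : ℂ), by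
      show f t / (‖f t‖ : ℂ) ∈ Metric.sphere (0 : ℂ) 1
      rw [mem_sphere_zero_iff_norm, norm_div, Complex.norm_real, norm_norm,
        div_self (norm_ne_zero_iff.2 (h0 t))]⟩,
      by
        refine Continuous.subtype_mk ?_ _
        exact hf.div (Complex.continuous_ofReal.comp hf.norm) hn⟩
  obtain ⟨e₀, he⟩ : ∃ e₀ : ℝ, Circle.exp e₀ = g 0 := by
    refine ⟨Complex.arg (g 0 : ℂ), ?_⟩
    exact Circle.exp_arg (g 0)
  obtain ⟨F, ⟨-, hF⟩, -⟩ := Circle.isCoveringMap_exp.existsUnique_continuousMap_lifts g 0 e₀ he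
  refine ⟨F, F.continuous, fun t => ?_⟩
  have h1 : Circle.exp (F t) = g t := congrFun hF t
  have h2 : Complex.exp (F t * Complex.I) = f t / (‖f t‖ : ℂ) := by
    rw [← Circle.coe_exp, h1]; rfl
  rw [h2, mul_div_cancel₀ _ (hn t)]

theorem length_B2' {z : ℝ → ℂ} {a b x y S c S' c' : ℝ} (A : Arc z a b x y)
    (P : Supp z a b x y S c S' c') (hS : S' < 0) {μ : ℝ}
    (hμ : 0 < μ) (h1 : μ ≤ -S') (h2 : μ ≤ c) :
    eVariationOn z (Icc a b) ≤ ENNReal.ofReal (y / μ) := by
  have h := length_le (f := z) (g := fun t => (z t).im / μ) A.hab.le ?_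
  · refine h.trans (le_of_eq ?_)
    congr 1
    simp only [A.start_im, A.fin_im]
    ring
  · intro s hs t ht hst
    have e : (z t).im / μ - (z s).im / μ = ((z t).im - (z s).im) / μ := by ring
    simp only [e]
    rw [le_div_iff₀ hμ, norm_chord]
    have hc := P.c_pos
    have hc' := P.c'_pos
    have q1 := P.sq
    have q2 := P.sq'
    have hre := A.nonneg_re s hs
    have him := A.nonneg_im s hs
    have h0 := A.n0 hs ht hst
    rcases le_or_gt (z t).re (z s).re with hX | hX
    · have hN := N2 A P hs ht hst hX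
      set X := (z s).re - (z t).re with hXd
      set Y := (z t).im - (z s).im with hYd
      have hXn : 0 ≤ X := sub_nonneg.2 hX
      have hk : 0 ≤ -S' * X := mul_nonneg (by linarith) hXn
      have hYn : 0 ≤ Y := by
        have : 0 ≤ c' * Y := by linarith
        exact nonneg_of_mul_nonneg_right this hc'
      have hsq : (-S' * Real.sqrt (X ^ 2 + Y ^ 2)) ^ 2 ≤ Y ^ 2 := by
        rw [mul_pow, Real.sq_sqrt (by positivity)]
        have : (-S' * X) ^ 2 ≤ (c' * Y) ^ 2 := by
          apply pow_le_pow_left₀ hk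
          linarith
        nlinarith
      have h3 : -S' * Real.sqrt (X ^ 2 + Y ^ 2) ≤ Y :=
        (abs_le_of_sq_le_sq' hsq hYn).2
      have h4 : μ * Real.sqrt (X ^ 2 + Y ^ 2) ≤ -S' * Real.sqrt (X ^ 2 + Y ^ 2) :=
        mul_le_mul_of_nonneg_right h1 (Real.sqrt_nonneg _)
      linarith
    · have hY : (z s).im < (z t).im := by
        by_contra hcon
        push Not at hcon
        have e1 := mul_nonneg (sub_nonneg.2 hcon) hre
        have e2 := mul_nonneg (sub_nonneg.2 hX.le) him
        nlinarith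
      have hN := N1 A P hs ht hst hY.le
      set X := (z s).re - (z t).re with hXd
      set Y := (z t).im - (z s).im with hYd
      have hYn : 0 < Y := sub_pos.2 hY
      have hXn : X < 0 := by rw [hXd]; linarith
      have hsq : (c * Real.sqrt (X ^ 2 + Y ^ 2)) ^ 2 ≤ Y ^ 2 := by
        rw [mul_pow, Real.sq_sqrt (by positivity)]
        have k : 0 ≤ c * (-X) := mul_nonneg hc.le (by linarith)
        have : (c * (-X)) ^ 2 ≤ (-S * Y) ^ 2 := by
          apply pow_le_pow_left₀ k
          linarith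
        nlinarith
      have h3 : c * Real.sqrt (X ^ 2 + Y ^ 2) ≤ Y :=
        (abs_le_of_sq_le_sq' hsq hYn.le).2
      have h4 : μ * Real.sqrt (X ^ 2 + Y ^ 2) ≤ c * Real.sqrt (X ^ 2 + Y ^ 2) :=
        mul_le_mul_of_nonneg_right h2 (Real.sqrt_nonneg _)
      linarith

/-- The numerical facts about one arc. -/
structure ArcFacts (x x' S c S' c' l : ℝ) : Prop where
  a1 : S * x' ≤ c * x
  a2 : -S' * x ≤ c' * x'
  b1 : 0 ≤ S → x' ≤ c * l
  b1' : S' ≤ 0 → x ≤ c' * l
  b2 : 0 < S → ∀ μ, 0 < μ → μ ≤ S → μ ≤ c' → μ * l ≤ x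
  b2' : S' < 0 → ∀ μ, 0 < μ → μ ≤ -S' → μ ≤ c → μ * l ≤ x'
  b4 : 0 < c * c' + S * S' → (c * c' + S * S') * l ≤ (S' + c) * x + (c' - S) * x'
  b5 : c * c' + S * S' = 0 → 0 < S → l ≤ S * x + c * x'

section
variable {z : ℝ → ℂ} {a b x y S c S' c' l : ℝ}

theorem Supp.f1 (A : Arc z a b x y) (P : Supp z a b x y S c S' c') : S * y ≤ c * x := by
  have := P.left b (right_mem_Icc.2 A.hab.le)
  rw [A.fin_re, A.fin_im] at this
  linarith

theorem Supp.f2 (A : Arc z a b x y) (P : Supp z a b x y S c S' c') : -S' * x ≤ c' * y := by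
  have := P.right a (left_mem_Icc.2 A.hab.le)
  rw [A.start_re, A.start_im] at this
  linarith

theorem chord_sq (A : Arc z a b x y) : ‖z b - z a‖ = Real.sqrt (x ^ 2 + y ^ 2) := by
  rw [norm_chord, A.start_re, A.start_im, A.fin_re, A.fin_im]
  simp

theorem arcFacts (A : Arc z a b x y) (P : Supp z a b x y S c S' c') (hl : 0 < l)
    (hV : eVariationOn z (Icc a b) = ENNReal.ofReal l) : ArcFacts x y S c S' c' l := by
  have f1 := P.f1 A
  have f2 := P.f2 A
  have hchord : Real.sqrt (x ^ 2 + y ^ 2) ≤ l := by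
    have := chord_le (f := z) A.hab.le
    rw [hV, chord_sq A] at this
    exact (ENNReal.ofReal_le_ofReal_iff hl.le).1 this
  have conv : ∀ w : ℝ, 0 ≤ w → eVariationOn z (Icc a b) ≤ ENNReal.ofReal w → l ≤ w := by
    intro w hw h
    rw [hV] at h
    exact (ENNReal.ofReal_le_ofReal_iff hw).1 h
  have hx := A.hx
  have hy := A.hy
  have hc := P.c_pos
  have hc' := P.c'_pos
  refine ⟨f1, f2, fun hS => ?_, fun hS => ?_, fun hS μ h1 h2 h3 => ?_, fun hS μ h1 h2 h3 => ?_,
    fun hE => ?_, fun hE hS => ?_⟩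
  · refine le_trans ?_ (mul_le_mul_of_nonneg_left hchord hc.le)
    refine (abs_le_of_sq_le_sq' ?_ (by positivity)).2
    rw [mul_pow, Real.sq_sqrt (by positivity)]
    have q := P.sq
    have := pow_le_pow_left₀ (mul_nonneg hS hy.le) f1 2
    nlinarith
  · refine le_trans ?_ (mul_le_mul_of_nonneg_left hchord hc'.le)
    refine (abs_le_of_sq_le_sq' ?_ (by positivity)).2
    rw [mul_pow, Real.sq_sqrt (by positivity)]
    have q := P.sq'
    have := pow_le_pow_left₀ (mul_nonneg (neg_nonneg.2 hS) hx.le) f2 2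
    nlinarith
  · have := conv _ (by positivity) (length_B2 A P hS h1 h2 h3)
    rw [le_div_iff₀ h1] at this
    linarith
  · have := conv _ (by positivity) (length_B2' A P hS h1 h2 h3)
    rw [le_div_iff₀ h1] at this
    linarith
  · have h0 : 0 ≤ ((S' + c) * x + (c' - S) * y) / (c * c' + S * S') :=
      div_nonneg (by linarith) hE.le
    have := conv _ h0 (length_corner A P hE)
    rw [le_div_iff₀ hE] at this
    linarith
  · refine conv _ ?_ (length_straight A P hE hS)
    have := mul_pos hS hx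
    have := mul_pos hc hy
    linarith

theorem finite_of (A : Arc z a b x y) (P : Supp z a b x y S c S' c') (h : S' ≤ S) :
    eVariationOn z (Icc a b) ≠ ⊤ := by
  have f1 := P.f1 A
  have f2 := P.f2 A
  have hx := A.hx
  have hy := A.hy
  have hc := P.c_pos
  have hc' := P.c'_pos
  have hcc := mul_pos hc hc'
  rcases le_or_gt 0 (S * S') with h1 | h1
  · exact ne_top_of_le_ne_top ENNReal.ofReal_ne_top (length_corner A P (by linarith))
  · have hS' : S' < 0 := by
      by_contra hcon
      push Not at hcon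
      nlinarith [mul_nonneg hcon (hcon.trans h)]
    have hS : 0 < S := by
      by_contra hcon
      push Not at hcon
      nlinarith [mul_nonneg (neg_nonneg.2 hcon) (neg_nonneg.2 hS'.le)]
    have h3 : (S * y) * (-S' * x) ≤ (c * x) * (c' * y) := by
      apply mul_le_mul f1 f2
      · exact (mul_pos (neg_pos.2 hS') hx).le
      · exact (mul_pos hc hx).le
    have h4 : 0 < x * y := mul_pos hx hy
    have h5 : 0 ≤ c * c' + S * S' := by
      by_contra hcon
      push Not at hcon
      nlinarith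
    rcases h5.lt_or_eq with h6 | h6
    · exact ne_top_of_le_ne_top ENNReal.ofReal_ne_top (length_corner A P h6)
    · exact ne_top_of_le_ne_top ENNReal.ofReal_ne_top (length_straight A P h6.symm hS)

end

end Pool.Agent.V11190.Quad
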