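import Pool.Agent.V11190.Quad3

set_option autoImplicit false

open Set

namespace Pool.Agent.V11190.Quad

/-- `γ` runs exactly once around the boundary of `F` in each period of length one. -/
structure IsBoundaryLoop (F : Set ℂ) (γ : ℝ → ℂ) : Prop where
  cont : Continuous γ
  periodic : ∀ t, γ (t + 1) = γ t
  inj : InjOn γ (Ico 0 1)
  range : range γ = frontier F

/-- `θ` is an increasing argument of `γ - o`, gaining one turn in each period. -/
structure Incr (γ : ℝ → ℂ) (o : ℂ) (θ : ℝ → ℝ) : Prop where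
  cont : Continuous θ
  mono : StrictMono θ
  per : ∀ t, θ (t + 1) = θ t + 2 * Real.pi
  eq : ∀ t, γ t - o = (‖γ t - o‖ : ℂ) * Complex.exp (θ t * Complex.I)
  ne : ∀ t, 0 < ‖γ t - o‖

section
variable {F : Set ℂ} {γ : ℝ → ℂ} {o : ℂ} {θ : ℝ → ℝ}

theorem IsBoundaryLoop.mem (h : IsBoundaryLoop F γ) (t : ℝ) : γ t ∈ frontier F := by
  rw [← h.range]; exact mem_range_self t

theorem IsBoundaryLoop.per_int (h : IsBoundaryLoop F γ) (t : ℝ) (n : ℤ) : γ (t + n) = γ t := by
  have : Function.Periodic γ 1 := h.periodic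
  simpa using this.int_mul n t

theorem IsBoundaryLoop.eq_int (h : IsBoundaryLoop F γ) {s t : ℝ} (e : γ s = γ t) :
    ∃ n : ℤ, t = s + n := by
  have e1 : γ (Int.fract s) = γ s := by
    have := h.per_int (Int.fract s) ⌊s⌋
    rw [Int.fract_add_floor] at this
    exact this.symm
  have e2 : γ (Int.fract t) = γ t := by
    have := h.per_int (Int.fract t) ⌊t⌋
    rw [Int.fract_add_floor] at this
    exact this.symm
  have e3 : Int.fract s = Int.fract t :=
    h.inj ⟨Int.fract_nonneg s, Int.fract_lt_one s⟩ ⟨Int.fract_nonneg t, Int.fract_lt_one t⟩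
      (by rw [e1, e2, e])
  refine ⟨⌊t⌋ - ⌊s⌋, ?_⟩
  have h1 := Int.fract_add_floor s
  have h2 := Int.fract_add_floor t
  push_cast
  linarith

theorem IsBoundaryLoop.neg (h : IsBoundaryLoop F γ) : IsBoundaryLoop F (fun t => γ (-t)) := by
  refine ⟨h.cont.comp continuous_neg, fun t => ?_, ?_, ?_⟩
  · have := h.per_int (-t) (-1)
    rw [← this]
    congr 1
    push_cast; ring
  · intro s hs t ht e
    obtain ⟨n, hn⟩ := h.eq_int e
    have h1 : s - t = n := by linarith
    have h2 : -1 < (n : ℝ) := by rw [← h1]; linarith [hs.1, ht.2]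
    have h3 : (n : ℝ) < 1 := by rw [← h1]; linarith [hs.2, ht.1]
    have h4 : -1 < n := by exact_mod_cast h2
    have h5 : n < 1 := by exact_mod_cast h3
    have h6 : n = 0 := by omega
    rw [h6] at h1
    push_cast at h1
    linarith
  · rw [← h.range]
    ext z
    constructor
    · rintro ⟨t, rfl⟩; exact ⟨-t, rfl⟩
    · rintro ⟨t, rfl⟩; exact ⟨-t, by simp⟩

/-- A point that is a combination of an interior point and a point of the set is interior. -/
theorem combo (hF : Convex ℝ F) (ho : o ∈ interior F) {w : ℂ} (hw : w ∈ F) {a : ℝ} (ha : 0 ≤ a)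
    (ha1 : a < 1) : o + (a : ℂ) * (w - o) ∈ interior F := by
  have := hF.combo_interior_self_mem_interior ho hw (by linarith : 0 < 1 - a) ha (by ring)
  convert this using 1
  simp only [Complex.real_smul]
  push_cast; ring

theorem combo2 (hF : Convex ℝ F) (ho : o ∈ interior F) {u w : ℂ} (hu : u ∈ F) (hw : w ∈ F)
    {a b : ℝ} (ha : 0 ≤ a) (hb : 0 ≤ b) (hab : a + b < 1) :
    o + (a : ℂ) * (u - o) + (b : ℂ) * (w - o) ∈ interior F := by
  rcases (add_nonneg ha hb).lt_or_eq with h | h
  · have hv : (a / (a + b)) • u + (b / (a + b)) • w ∈ F :=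
      hF hu hw (div_nonneg ha h.le) (div_nonneg hb h.le) (by field_simp)
    have := combo hF ho hv h.le hab
    convert this using 1
    have h' : ((a : ℂ) + b) ≠ 0 := by exact_mod_cast h.ne'
    simp only [Complex.real_smul]
    push_cast
    field_simp
    ring
  · have ha0 : a = 0 := by linarith
    have hb0 : b = 0 := by linarith
    rw [ha0, hb0]
    simpa using ho

/-- A ray from an interior point meets the frontier at most once. -/
theorem ray_unique (hF : Convex ℝ F) (hc : IsClosed F) (ho : o ∈ interior F) {p q : ℂ}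
    (hp : p ∈ frontier F)
    (hq : q ∈ frontier F) {a : ℝ} (ha : 0 < a) (e : p - o = (a : ℂ) * (q - o)) : p = q := by
  have hpF : p ∈ F := hc.frontier_subset hp
  have hqF : q ∈ F := hc.frontier_subset hq
  rcases lt_trichotomy a 1 with h | h | h
  · exfalso
    have := combo hF ho hqF ha.le h
    rw [← e, add_sub_cancel] at this
    exact hp.2 this
  · rw [h] at e
    simpa using e
  · exfalso
    have e2 : q - o = ((a⁻¹ : ℝ) : ℂ) * (p - o) := by
      rw [e, ← mul_assoc]
      push_cast
      rw [inv_mul_cancel₀ (by exact_mod_cast ha.ne'), one_mul]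
    have := combo hF ho hpF (inv_pos.2 ha).le (inv_lt_one_of_one_lt₀ h)
    rw [← e2, add_sub_cancel] at this
    exact hq.2 this

theorem exp_eq_imp {x y : ℝ}
    (h : Complex.exp (x * Complex.I) = Complex.exp (y * Complex.I)) :
    ∃ n : ℤ, x = y + n * (2 * Real.pi) := by
  obtain ⟨n, hn⟩ := Complex.exp_eq_exp_iff_exists_int.1 h
  refine ⟨n, ?_⟩
  have := congrArg Complex.im hn
  simpa using this

theorem exists_incr (hF : Convex ℝ F) (hc : IsClosed F) (hγ : IsBoundaryLoop F γ)
    (ho : o ∈ interior F) :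
    (∃ θ, Incr γ o θ) ∨ (∃ θ, Incr (fun t => γ (-t)) o θ) := by
  have hne : ∀ t, γ t - o ≠ 0 := by
    intro t h
    have : γ t = o := sub_eq_zero.1 h
    exact (hγ.mem t).2 (this ▸ ho)
  obtain ⟨θ, hθc, hθ⟩ := lift_exists (fun t => γ t - o) (hγ.cont.sub continuous_const) hne
  -- equal arguments modulo one turn
  have key : ∀ s t : ℝ, ∀ n : ℤ, θ s = θ t + n * (2 * Real.pi) → ∃ m : ℤ, t = s + m := by
    intro s t n h
    apply hγ.eq_int
    have e : Complex.exp (θ s * Complex.I) = Complex.exp (θ t * Complex.I) := by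
      apply Complex.exp_eq_exp_iff_exists_int.2
      refine ⟨n, ?_⟩
      rw [h]; push_cast; ring
    have hs := hθ s
    have ht := hθ t
    have hnt : ‖γ t - o‖ ≠ 0 := norm_ne_zero_iff.2 (hne t)
    have hns : ‖γ s - o‖ ≠ 0 := norm_ne_zero_iff.2 (hne s)
    refine ray_unique hF hc ho (hγ.mem s) (hγ.mem t) (a := ‖γ s - o‖ / ‖γ t - o‖) (by positivity) ?_
    rw [hs, ht, e]
    simp only [norm_mul, Complex.norm_real, norm_norm, Complex.norm_exp_ofReal_mul_I, mul_one]
    have hnt' : (‖γ t - o‖ : ℂ) ≠ 0 := by exact_mod_cast hnt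
    push_cast
    field_simp
  have hstep : ∀ t, ∃ n : ℤ, θ (t + 1) = θ t + n * (2 * Real.pi) := by
    intro t
    apply exp_eq_imp
    have h1 := hθ (t + 1)
    have h2 := hθ t
    simp only [hγ.periodic t] at h1
    have hnt : (‖γ t - o‖ : ℂ) ≠ 0 := by exact_mod_cast (norm_ne_zero_iff.2 (hne t))
    exact mul_left_cancel₀ hnt (h1.symm.trans h2)
  have hconst : ∀ t, θ (t + 1) = θ t + (θ 1 - θ 0) := by
    have hcov := Circle.isCoveringMap_exp
    have := hcov.eq_of_comp_eq (g₁ := fun t => θ (t + 1)) (g₂ := fun t => θ t + (θ 1 - θ 0))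
      (hθc.comp (continuous_add_const 1)) (hθc.add continuous_const) ?_ 0 (by simp)
    · exact fun t => congrFun this t
    · funext t
      obtain ⟨n, hn⟩ := hstep t
      obtain ⟨m, hm⟩ := hstep 0
      rw [zero_add] at hm
      show Circle.exp (θ (t + 1)) = Circle.exp (θ t + (θ 1 - θ 0))
      rw [hn, hm]
      apply Circle.ext
      rw [Circle.coe_exp, Circle.coe_exp]
      apply Complex.exp_eq_exp_iff_exists_int.2
      refine ⟨n - m, ?_⟩
      push_cast; ring
  obtain ⟨k, hk⟩ := hstep 0
  rw [zero_add] at hk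
  have hconst' : ∀ t, θ (t + 1) = θ t + k * (2 * Real.pi) := by
    intro t; rw [hconst t, hk]; ring
  have hpi : 0 < 2 * Real.pi := by positivity
  have h01 : θ 0 ≠ θ (1 / 2) := by
    intro h
    obtain ⟨m, hm⟩ := key 0 (1 / 2) 0 (by simpa using h)
    rw [zero_add] at hm
    have h1 : (0 : ℝ) < m := by rw [← hm]; norm_num
    have h2 : (m : ℝ) < 1 := by rw [← hm]; norm_num
    have h3 : 0 < m := by exact_mod_cast h1
    have h4 : m < 1 := by exact_mod_cast h2
    omega
  -- the degree is not zero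
  have hk0 : k ≠ 0 := by
    intro h
    rw [h] at hk
    have h10 : θ 1 = θ 0 := by rw [hk]; simp
    set v := (θ 0 + θ (1 / 2)) / 2 with hv
    have hv1 : v ∈ uIcc (θ 0) (θ (1 / 2)) := by
      rw [mem_uIcc]
      rcases le_total (θ 0) (θ (1 / 2)) with h' | h'
      · left; constructor <;> linarith
      · right; constructor <;> linarith
    have hv2 : v ∈ uIcc (θ (1 / 2)) (θ 1) := by rw [h10, uIcc_comm]; exact hv1
    obtain ⟨s, hs, hs'⟩ := intermediate_value_uIcc (f := θ) (a := 0) (b := 1 / 2)
      hθc.continuousOn hv1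
    obtain ⟨t, ht, ht'⟩ := intermediate_value_uIcc (f := θ) (a := 1 / 2) (b := 1)
      hθc.continuousOn hv2
    rw [uIcc_of_le (by norm_num)] at hs ht
    have hne1 : s ≠ 1 / 2 := by
      rintro rfl
      apply h01; linarith
    have hne2 : s ≠ 0 := by
      rintro rfl
      apply h01; linarith
    have hne3 : t ≠ 1 / 2 := by
      rintro rfl
      apply h01; linarith
    have hne4 : t ≠ 1 := by
      rintro rfl
      apply h01; linarith
    obtain ⟨m, hm⟩ := key s t 0 (by rw [hs', ht']; simp)
    have a1 : s < 1 / 2 := lt_of_le_of_ne hs.2 hne1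
    have a2 : 0 < s := lt_of_le_of_ne hs.1 (Ne.symm hne2)
    have a3 : 1 / 2 < t := lt_of_le_of_ne ht.1 (Ne.symm hne3)
    have a4 : t < 1 := lt_of_le_of_ne ht.2 hne4
    have h1 : (0 : ℝ) < m := by linarith
    have h2 : (m : ℝ) < 1 := by linarith
    have h3 : 0 < m := by exact_mod_cast h1
    have h4 : m < 1 := by exact_mod_cast h2
    omega
  have hint : ∀ (t : ℝ) (n : ℕ), θ (t + n) = θ t + n * (k * (2 * Real.pi)) := by
    intro t n
    induction n with
    | zero => simp
    | succ n ih =>
      push_cast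
      rw [← add_assoc, hconst', ih]; ring
  have hint' : ∀ (t : ℝ) (n : ℤ), θ (t + n) = θ t + n * (k * (2 * Real.pi)) := by
    intro t n
    obtain ⟨m, rfl | rfl⟩ := n.eq_nat_or_neg
    · exact_mod_cast hint t m
    · have := hint (t + (-(m : ℤ) : ℤ)) m
      push_cast at this ⊢
      rw [neg_add_cancel_right] at this
      linarith
  have hinj : Function.Injective θ := by
    intro s t h
    obtain ⟨m, hm⟩ := key s t 0 (by simpa using h)
    have := hint' s m
    rw [← hm, ← h] at this
    have h2 : (m : ℝ) * (k * (2 * Real.pi)) = 0 := by linarith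
    have h3 : (k : ℝ) * (2 * Real.pi) ≠ 0 := mul_ne_zero (by exact_mod_cast hk0) hpi.ne'
    rcases mul_eq_zero.1 h2 with h4 | h4
    · rw [h4] at hm; linarith
    · exact absurd h4 h3
  have hdeg : ∀ s ∈ Ioo (0 : ℝ) 1, ∀ n : ℤ, θ s ≠ θ 0 + n * (2 * Real.pi) := by
    intro s hs n h
    obtain ⟨m, hm⟩ := key s 0 n h
    have h1 : (-1 : ℝ) < m := by linarith [hs.2]
    have h2 : (m : ℝ) < 0 := by linarith [hs.1]
    have h3 : -1 < m := by exact_mod_cast h1
    have h4 : m < 0 := by exact_mod_cast h2
    omega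
  rcases hθc.strictMono_of_inj hinj with hm | hm
  · left
    have hkpos : 0 < k := by
      have := hm (zero_lt_one (α := ℝ))
      rw [hk] at this
      have h2 : 0 < (k : ℝ) * (2 * Real.pi) := by linarith
      have := (pos_iff_pos_of_mul_pos h2).2 hpi
      exact_mod_cast this
    have hk1 : k = 1 := by
      by_contra hcon
      have hk2 : 2 ≤ k := by omega
      have hv : θ 0 + 2 * Real.pi ∈ Ioo (θ 0) (θ 1) := by
        refine ⟨by linarith, ?_⟩
        rw [hk]
        have : (2 : ℝ) ≤ k := by exact_mod_cast hk2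
        nlinarith
      obtain ⟨s, hs, hs'⟩ := intermediate_value_Ioo (zero_le_one) hθc.continuousOn hv
      exact hdeg s hs 1 (by rw [hs']; simp)
    refine ⟨θ, hθc, hm, fun t => ?_, hθ, fun t => norm_pos_iff.2 (hne t)⟩
    rw [hconst', hk1]; simp
  · right
    have hkneg : k < 0 := by
      have := hm (zero_lt_one (α := ℝ))
      rw [hk] at this
      have h2 : (k : ℝ) * (2 * Real.pi) < 0 := by linarith
      have : (k : ℝ) < 0 := by
        by_contra hcon
        push Not at hcon
        have := mul_nonneg hcon hpi.le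
        linarith
      exact_mod_cast this
    have hk1 : k = -1 := by
      by_contra hcon
      have hk2 : k ≤ -2 := by omega
      have hv : θ 0 - 2 * Real.pi ∈ Ioo (θ 1) (θ 0) := by
        refine ⟨?_, by linarith⟩
        rw [hk]
        have : (k : ℝ) ≤ -2 := by exact_mod_cast hk2
        nlinarith
      obtain ⟨s, hs, hs'⟩ := intermediate_value_Ioo' (zero_le_one) hθc.continuousOn hv
      exact hdeg s hs (-1) (by rw [hs']; push_cast; ring)
    refine ⟨fun t => θ (-t), hθc.comp continuous_neg, fun s t h => hm (neg_lt_neg h),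
      fun t => ?_, fun t => hθ (-t),
      fun t => norm_pos_iff.2 (hne (-t))⟩
    have := hconst' (-(t + 1))
    rw [neg_add, neg_add_cancel_right] at this
    rw [hk1] at this
    simp only [neg_add]
    push_cast at this
    linarith

end

end Pool.Agent.V11190.Quad
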