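import Pool.Agent.V11190.Quad4

set_option autoImplicit false

open Set

namespace Pool.Agent.V11190.Quad

section
variable {F : Set ℂ} {γ : ℝ → ℂ} {o : ℂ} {θ : ℝ → ℝ}

theorem Incr.re_im (I : Incr γ o θ) (s t : ℝ) :
    (Complex.exp (-(θ s : ℂ) * Complex.I) * (γ t - o)).re = ‖γ t - o‖ * Real.cos (θ t - θ s) ∧
    (Complex.exp (-(θ s : ℂ) * Complex.I) * (γ t - o)).im = ‖γ t - o‖ * Real.sin (θ t - θ s) := by
  have h : Complex.exp (-(θ s : ℂ) * Complex.I) * (γ t - o) =
      (‖γ t - o‖ : ℂ) * Complex.exp (((θ t - θ s : ℝ) : ℂ) * Complex.I) := by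
    conv_lhs => rw [I.eq t]
    rw [mul_left_comm, ← Complex.exp_add]
    congr 2
    push_cast; ring
  rw [h]
  constructor
  · rw [Complex.re_ofReal_mul, Complex.exp_ofReal_mul_I_re]
  · rw [Complex.im_ofReal_mul, Complex.exp_ofReal_mul_I_im]

theorem cr_rot (a b : ℂ) (x : ℝ) :
    cr (Complex.exp (-(x : ℂ) * Complex.I) * a) (Complex.exp (-(x : ℂ) * Complex.I) * b)
      = cr a b := by
  have h1 : (Complex.exp (-(x : ℂ) * Complex.I)).re = Real.cos x := by
    rw [show -(x : ℂ) * Complex.I = ((-x : ℝ) : ℂ) * Complex.I by push_cast; ring,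
      Complex.exp_ofReal_mul_I_re, Real.cos_neg]
  have h2 : (Complex.exp (-(x : ℂ) * Complex.I)).im = -Real.sin x := by
    rw [show -(x : ℂ) * Complex.I = ((-x : ℝ) : ℂ) * Complex.I by push_cast; ring,
      Complex.exp_ofReal_mul_I_im, Real.sin_neg]
  unfold cr
  simp only [Complex.mul_re, Complex.mul_im, h1, h2]
  have := Real.sin_sq_add_cos_sq x
  grind

theorem Incr.cr_eq (I : Incr γ o θ) (s t : ℝ) :
    cr (γ s - o) (γ t - o) = ‖γ s - o‖ * ‖γ t - o‖ * Real.sin (θ t - θ s) := by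
  rw [← cr_rot _ _ (θ s)]
  obtain ⟨h1, h2⟩ := I.re_im s t
  obtain ⟨h3, h4⟩ := I.re_im s s
  unfold cr
  rw [h1, h2, h3, h4]
  simp
  ring

/-- Convexity of the boundary curve, seen from an interior point. -/
theorem Incr.conv (I : Incr γ o θ) (hF : Convex ℝ F) (hc : IsClosed F)
    (hγ : IsBoundaryLoop F γ) (ho : o ∈ interior F) {s t r : ℝ} (hst : s < t) (htr : t < r)
    (hpi : θ r - θ s < Real.pi) :
    cr (γ s - o) (γ r - o) ≤ cr (γ s - o) (γ t - o) + cr (γ t - o) (γ r - o) := by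
  by_contra hcon
  push Not at hcon
  have h1 := I.mono hst
  have h2 := I.mono htr
  have ns := I.ne s
  have nt := I.ne t
  have nr := I.ne r
  have c1 : 0 < cr (γ s - o) (γ t - o) := by
    rw [I.cr_eq]
    exact mul_pos (mul_pos ns nt) (Real.sin_pos_of_pos_of_lt_pi (by linarith) (by linarith))
  have c2 : 0 < cr (γ t - o) (γ r - o) := by
    rw [I.cr_eq]
    exact mul_pos (mul_pos nt nr) (Real.sin_pos_of_pos_of_lt_pi (by linarith) (by linarith))
  have c3 : 0 < cr (γ s - o) (γ r - o) := by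
    rw [I.cr_eq]
    exact mul_pos (mul_pos ns nr) (Real.sin_pos_of_pos_of_lt_pi (by linarith) (by linarith))
  have hlt : cr (γ t - o) (γ r - o) / cr (γ s - o) (γ r - o) +
      cr (γ s - o) (γ t - o) / cr (γ s - o) (γ r - o) < 1 := by
    rw [← add_div, div_lt_one c3]; linarith
  have := combo2 hF ho (hc.frontier_subset (hγ.mem s)) (hc.frontier_subset (hγ.mem r))
    (div_pos c2 c3).le (div_pos c1 c3).le hlt
  have e : o + ((cr (γ t - o) (γ r - o) / cr (γ s - o) (γ r - o) : ℝ) : ℂ) * (γ s - o) +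
      ((cr (γ s - o) (γ t - o) / cr (γ s - o) (γ r - o) : ℝ) : ℂ) * (γ r - o) = γ t := by
    have hne : (cr (γ s - o) (γ r - o)) ≠ 0 := c3.ne'
    have e2 : ((cr (γ t - o) (γ r - o) : ℝ) : ℂ) * (γ s - o) +
        ((cr (γ s - o) (γ t - o) : ℝ) : ℂ) * (γ r - o) =
        ((cr (γ s - o) (γ r - o) : ℝ) : ℂ) * (γ t - o) := by
      unfold cr
      apply Complex.ext
      · simp only [Complex.add_re, Complex.re_ofReal_mul]; ring
      · simp only [Complex.add_im, Complex.im_ofReal_mul]; ring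
    have hne' : ((cr (γ s - o) (γ r - o) : ℝ) : ℂ) ≠ 0 := by exact_mod_cast hne
    push_cast
    have e3 : (γ t - o) = (((cr (γ t - o) (γ r - o) : ℝ) : ℂ) * (γ s - o) +
        ((cr (γ s - o) (γ t - o) : ℝ) : ℂ) * (γ r - o)) / ((cr (γ s - o) (γ r - o) : ℝ) : ℂ) := by
      rw [e2]; field_simp
    linear_combination (norm := ring_nf) -e3
  rw [e] at this
  exact (hγ.mem t).2 this

/-- The loop between two points seen from `o` under a right angle is an arc. -/
theorem Incr.arc (I : Incr γ o θ) (hF : Convex ℝ F) (hc : IsClosed F)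
    (hγ : IsBoundaryLoop F γ) (ho : o ∈ interior F) {a b : ℝ} (hab : a < b)
    (hq : θ b = θ a + Real.pi / 2) :
    Arc (fun t => Complex.exp (-(θ a : ℂ) * Complex.I) * (γ t - o)) a b ‖γ a - o‖ ‖γ b - o‖ := by
  have hpi := Real.pi_pos
  have hm : ∀ t ∈ Icc a b, 0 ≤ θ t - θ a ∧ θ t - θ a ≤ Real.pi / 2 := by
    intro t ht
    have h1 := I.mono.monotone ht.1
    have h2 := I.mono.monotone ht.2
    constructor <;> linarith
  refine ⟨hab, I.ne a, I.ne b, ?_, ?_, ?_, ?_, ?_, ?_, ?_, ?_⟩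
  · rw [(I.re_im a a).1]; simp
  · rw [(I.re_im a a).2]; simp
  · rw [(I.re_im a b).1, hq]; simp
  · rw [(I.re_im a b).2, hq]; simp
  · intro t ht
    obtain ⟨h1, h2⟩ := hm t ht
    show 0 ≤ (Complex.exp (-(θ a : ℂ) * Complex.I) * (γ t - o)).re
    rw [(I.re_im a t).1]
    exact mul_nonneg (norm_nonneg _) (Real.cos_nonneg_of_mem_Icc ⟨by linarith, h2⟩)
  · intro t ht
    obtain ⟨h1, h2⟩ := hm t ht
    show 0 ≤ (Complex.exp (-(θ a : ℂ) * Complex.I) * (γ t - o)).im
    rw [(I.re_im a t).2]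
    exact mul_nonneg (norm_nonneg _) (Real.sin_nonneg_of_nonneg_of_le_pi h1 (by linarith))
  · intro s hs t ht hst
    show 0 < cr _ _
    rw [cr_rot, I.cr_eq]
    have h1 := I.mono hst
    obtain ⟨h2, h3⟩ := hm t ht
    obtain ⟨h4, h5⟩ := hm s hs
    exact mul_pos (mul_pos (I.ne s) (I.ne t))
      (Real.sin_pos_of_pos_of_lt_pi (by linarith) (by linarith))
  · intro s hs t ht r hr hst htr
    show cr _ _ ≤ cr _ _ + cr _ _
    rw [cr_rot, cr_rot, cr_rot]
    obtain ⟨h2, h3⟩ := hm r hr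
    obtain ⟨h4, h5⟩ := hm s hs
    exact I.conv hF hc hγ ho hst htr (by linarith)

theorem eVar_rot (u o : ℂ) (hu : ‖u‖ = 1) (γ : ℝ → ℂ) (A : Set ℝ) :
    eVariationOn (fun t => u * (γ t - o)) A = eVariationOn γ A := by
  unfold eVariationOn
  have : ∀ s t, edist (u * (γ s - o)) (u * (γ t - o)) = edist (γ s) (γ t) := by
    intro s t
    rw [edist_dist, edist_dist, dist_eq_norm, dist_eq_norm, ← mul_sub, norm_mul, hu, one_mul]
    congr 2; ring
  simp only [this]

/-- Supporting lines. -/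
theorem supp_exists (hF : Convex ℝ F) (ho : o ∈ interior F) {p : ℂ}
    (hp : p ∈ frontier F) (u : ℂ) (hu : ‖u‖ = 1) (x : ℝ) (hx : 0 < x)
    (hpx : p - o = (x : ℂ) * u) :
    ∃ S c : ℝ, 0 < c ∧ S ^ 2 + c ^ 2 = 1 ∧
      ∀ w ∈ F, c * ((starRingEnd ℂ) u * (w - o)).re + S * ((starRingEnd ℂ) u * (w - o)).im
        ≤ c * x := by
  obtain ⟨f, hf⟩ := geometric_hahn_banach_open_point hF.interior isOpen_interior hp.2
  have hle : ∀ w ∈ F, f w ≤ f p := by
    intro w hw
    have h1 : F ⊆ closure (interior F) := by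
      rw [hF.closure_interior_eq_closure_of_nonempty_interior ⟨o, ho⟩]
      exact subset_closure
    have h2 : closure (interior F) ⊆ {w | f w ≤ f p} :=
      closure_minimal (fun w hw => (hf w hw).le) (isClosed_le f.continuous continuous_const)
    exact h2 (h1 hw)
  have hsq : u.re ^ 2 + u.im ^ 2 = 1 := by
    have := Complex.sq_norm u
    rw [hu, Complex.normSq_apply] at this
    linarith
  -- `f w - f o` in the rotated frame
  have hlin : ∀ w : ℂ, f w - f o = f u * ((starRingEnd ℂ) u * (w - o)).re +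
      f (Complex.I * u) * ((starRingEnd ℂ) u * (w - o)).im := by
    intro w
    have e : w - o = ((((starRingEnd ℂ) u * (w - o)).re : ℝ)) • u +
        ((((starRingEnd ℂ) u * (w - o)).im : ℝ)) • (Complex.I * u) := by
      apply Complex.ext
      · simp
        grind
      · simp
        grind
    have : f (w - o) = f (((((starRingEnd ℂ) u * (w - o)).re : ℝ)) • u +
        ((((starRingEnd ℂ) u * (w - o)).im : ℝ)) • (Complex.I * u)) := congrArg f e
    rw [map_sub, map_add, map_smul, map_smul, smul_eq_mul, smul_eq_mul] at this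
    rw [this]; ring
  have hp0 : (starRingEnd ℂ) u * (p - o) = (x : ℂ) := by
    rw [hpx, mul_left_comm, mul_comm ((starRingEnd ℂ) u), Complex.mul_conj, Complex.normSq_apply]
    have : u.re * u.re + u.im * u.im = 1 := by linarith
    rw [this]; simp
  have hfp := hlin p
  rw [hp0] at hfp
  simp only [Complex.ofReal_re, Complex.ofReal_im, mul_zero, add_zero] at hfp
  have hpos : 0 < f u := by
    have h1 := hf o ho
    have h2 : 0 < f u * x := by linarith
    exact (pos_iff_pos_of_mul_pos h2).2 hx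
  set A := f u with hA
  set B := f (Complex.I * u) with hB
  have hN : 0 < Real.sqrt (A ^ 2 + B ^ 2) := Real.sqrt_pos.2 (by positivity)
  refine ⟨B / Real.sqrt (A ^ 2 + B ^ 2), A / Real.sqrt (A ^ 2 + B ^ 2), div_pos hpos hN, ?_, ?_⟩
  · rw [div_pow, div_pow, Real.sq_sqrt (by positivity)]
    field_simp
    ring
  · intro w hw
    have h1 := hle w hw
    have h2 := hlin w
    have h3 : A * ((starRingEnd ℂ) u * (w - o)).re + B * ((starRingEnd ℂ) u * (w - o)).im
        ≤ A * x := by linarith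
    have h4 := div_le_div_of_nonneg_right h3 hN.le
    have e1 : A / Real.sqrt (A ^ 2 + B ^ 2) * ((starRingEnd ℂ) u * (w - o)).re +
        B / Real.sqrt (A ^ 2 + B ^ 2) * ((starRingEnd ℂ) u * (w - o)).im =
        (A * ((starRingEnd ℂ) u * (w - o)).re + B * ((starRingEnd ℂ) u * (w - o)).im) /
          Real.sqrt (A ^ 2 + B ^ 2) := by ring
    have e2 : A / Real.sqrt (A ^ 2 + B ^ 2) * x = A * x / Real.sqrt (A ^ 2 + B ^ 2) := by ring
    rw [e1, e2]; exact h4

end

end Pool.Agent.V11190.Quad
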