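import Pool.Agent.V11190.Quad5

set_option autoImplicit false

open Set

namespace Pool.Agent.V11190.Quad

theorem corner {z : ℝ → ℂ} {a b x y : ℝ} (A : Arc z a b x y) (P : Supp z a b x y 0 1 0 1)
    (hV : ENNReal.ofReal (x + y) ≤ eVariationOn z (Icc a b)) {r : ℝ} (hr : r ∈ Ioo a b)
    (hrr : (z r).re * y = (z r).im * x) : (z r).re = x ∧ (z r).im = y := by
  have hx := A.hx
  have hy := A.hy
  have hrI : r ∈ Icc a b := ⟨hr.1.le, hr.2.le⟩
  have hq1 : 0 < (z r).re := A.re_pos hrI hr.2
  have hq2 : 0 < (z r).im := A.im_pos hrI hr.1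
  have hb1 := P.left r hrI
  have hb2 := P.right r hrI
  rw [zero_mul, add_zero, one_mul, one_mul] at hb1
  rw [neg_zero, zero_mul, zero_add, one_mul, one_mul] at hb2
  have hX : ∀ s ∈ Icc a b, ∀ t ∈ Icc a b, s < t → 0 ≤ (z s).re - (z t).re := by
    intro s hs t ht hst
    have := N1' A P (by norm_num) hs ht hst
    linarith
  have hY : ∀ s ∈ Icc a b, ∀ t ∈ Icc a b, s < t → 0 ≤ (z t).im - (z s).im := by
    intro s hs t ht hst
    have := N2' A P (by norm_num) hs ht hst
    linarith
  rcases hb1.lt_or_eq with hlt | heq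
  swap
  · refine ⟨heq, ?_⟩
    rw [heq] at hrr
    have : x * ((z r).im - y) = 0 := by linarith
    rcases mul_eq_zero.1 this with h | h
    · exact absurd h hx.ne'
    · linarith
  exfalso
  set q1 := (z r).re with hq1d
  set q2 := (z r).im with hq2d
  have hlt2 : q2 < y := by
    by_contra hcon
    push Not at hcon
    nlinarith [mul_lt_mul_of_pos_right hlt hy, mul_le_mul_of_nonneg_right hcon hx.le]
  set m := y - q2 with hm
  have hmp : 0 < m := by linarith
  set n := x - q1 with hn
  have hnp : 0 < n := by linarith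
  -- slopes before `r`
  have slope1 : ∀ s ∈ Icc a b, s < r → ((z s).re - q1) * m ≤ (q2 - (z s).im) * q1 := by
    intro s hs hsr
    have := A.n2 hs hrI hsr
    rw [← hq1d, ← hq2d] at this
    rw [hm]
    nlinarith
  have slope2 : ∀ s ∈ Icc a b, ∀ t ∈ Icc a b, s < t → t ≤ r →
      ((z s).re - (z t).re) * m ≤ ((z t).im - (z s).im) * q1 := by
    intro s hs t ht hst htr
    rcases htr.lt_or_eq with h | h
    · have c1 := A.conv s hs t ht r hrI hst h
      have c2 := slope1 t ht h
      have c3 := hX s hs t ht hst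
      have c4 := hY s hs t ht hst
      have c5 := hX t ht r hrI h
      have c6 := hY t ht r hrI h
      have c7 := A.n0 ht hrI h
      unfold cr at c1
      rw [← hq1d, ← hq2d] at c1
      rw [← hq1d] at c5
      rw [← hq2d] at c6
      rw [← hq1d, ← hq2d] at c7
      -- `Y X1 - X Y1 ≥ 0`
      have c8 : ((z s).re - (z t).re) * (q2 - (z t).im) ≤
          ((z t).im - (z s).im) * ((z t).re - q1) := by nlinarith
      rcases c5.lt_or_eq with h5 | h5
      · have e1 : ((z s).re - (z t).re) * (((z t).re - q1) * m) ≤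
            ((z s).re - (z t).re) * ((q2 - (z t).im) * q1) := mul_le_mul_of_nonneg_left c2 c3
        have e2 := mul_le_mul_of_nonneg_right c8 hq1.le
        have e3 : ((z t).re - q1) * (((z s).re - (z t).re) * m) ≤
            ((z t).re - q1) * (((z t).im - (z s).im) * q1) := by nlinarith
        exact le_of_mul_le_mul_left e3 h5
      · have hre := A.nonneg_re t ht
        have him := A.nonneg_im t ht
        have h6 : 0 < q2 - (z t).im := by
          rcases c6.lt_or_eq with h6 | h6
          · exact h6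
          · rw [← h5, ← h6] at c7; simp at c7
        rw [← h5] at c8
        have h7 : (z s).re - (z t).re = 0 := by
          refine le_antisymm ?_ c3
          by_contra hcon
          push Not at hcon
          have := mul_pos hcon h6
          linarith
        rw [h7, zero_mul]
        exact mul_nonneg c4 hq1.le
    · rw [h, ← hq1d, ← hq2d]
      rw [h] at hst
      exact slope1 s hs hst
  -- slopes after `r`
  have slope3 : ∀ t ∈ Icc a b, r < t → ((z t).im - q2) * n ≤ (q1 - (z t).re) * q2 := by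
    intro t ht hrt
    have := A.n1 hrI ht hrt
    rw [← hq1d, ← hq2d] at this
    rw [hn]
    nlinarith
  have slope4 : ∀ s ∈ Icc a b, ∀ t ∈ Icc a b, s < t → r ≤ s →
      ((z t).im - (z s).im) * n ≤ ((z s).re - (z t).re) * q2 := by
    intro s hs t ht hst hrs
    rcases hrs.lt_or_eq with h | h
    · have c1 := A.conv r hrI s hs t ht h hst
      have c2 := slope3 s hs h
      have c3 := hX s hs t ht hst
      have c4 := hY s hs t ht hst
      have c5 := hX r hrI s hs h
      have c6 := hY r hrI s hs h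
      have c7 := A.n0 hrI hs h
      unfold cr at c1
      rw [← hq1d, ← hq2d] at c1
      rw [← hq1d] at c5
      rw [← hq2d] at c6
      rw [← hq1d, ← hq2d] at c7
      have c8 : ((z t).im - (z s).im) * (q1 - (z s).re) ≤
          ((z s).re - (z t).re) * ((z s).im - q2) := by nlinarith
      rcases c6.lt_or_eq with h6 | h6
      · have e1 : ((z t).im - (z s).im) * (((z s).im - q2) * n) ≤
            ((z t).im - (z s).im) * ((q1 - (z s).re) * q2) := mul_le_mul_of_nonneg_left c2 c4
        have e2 := mul_le_mul_of_nonneg_right c8 hq2.le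
        have e3 : ((z s).im - q2) * (((z t).im - (z s).im) * n) ≤
            ((z s).im - q2) * (((z s).re - (z t).re) * q2) := by nlinarith
        exact le_of_mul_le_mul_left e3 h6
      · have h5 : 0 < q1 - (z s).re := by
          rcases c5.lt_or_eq with h5 | h5
          · exact h5
          · rw [← h5, ← h6] at c7; simp at c7
        rw [← h6] at c8
        have h7 : (z t).im - (z s).im = 0 := by
          refine le_antisymm ?_ c4
          by_contra hcon
          push Not at hcon
          have := mul_pos hcon h5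
          linarith
        rw [h7, zero_mul]
        exact mul_nonneg c3 hq2.le
    · rw [← h, ← hq1d, ← hq2d]
      rw [← h] at hst
      exact slope3 t ht hst
  -- the elementary bound
  have elem : ∀ X Y p m : ℝ, 0 ≤ X → 0 ≤ Y → 0 < p → 0 < m → X * m ≤ Y * p →
      Real.sqrt (X ^ 2 + Y ^ 2) ≤ Y + p / (p + m) * X := by
    intro X Y p m hX hY hp hm h
    have hpm : 0 < p + m := by linarith
    have hk : 0 ≤ p / (p + m) := (div_pos hp hpm).le
    refine Real.sqrt_le_iff.2 ⟨by positivity, ?_⟩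
    have e : Y + p / (p + m) * X = (Y * (p + m) + p * X) / (p + m) := by field_simp
    rw [e, div_pow, le_div_iff₀ (by positivity)]
    have h1 : 0 ≤ X * (Y * p - X * m) := mul_nonneg hX (by linarith)
    nlinarith [mul_nonneg h1 hpm.le, sq_nonneg (X * m)]
  have hs1 : eVariationOn z (Icc a r) ≤ ENNReal.ofReal (q2 + q1 / (q1 + m) * n) := by
    have h := length_le (f := z) (g := fun t => (z t).im - q1 / (q1 + m) * (z t).re) hr.1.le ?_
    · refine h.trans (le_of_eq ?_)
      congr 1
      simp only [A.start_re, A.start_im, ← hq1d, ← hq2d, hn]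
      ring
    · intro s hs t ht hst
      have hs' : s ∈ Icc a b := ⟨hs.1, hs.2.trans hr.2.le⟩
      have ht' : t ∈ Icc a b := ⟨ht.1, ht.2.trans hr.2.le⟩
      rw [norm_chord]
      refine (elem _ _ q1 m (hX s hs' t ht' hst) (hY s hs' t ht' hst) hq1 hmp
        (slope2 s hs' t ht' hst ht.2)).trans (le_of_eq ?_)
      ring
  have hs2 : eVariationOn z (Icc r b) ≤ ENNReal.ofReal (q1 + q2 / (q2 + n) * m) := by
    have h := length_le (f := z) (g := fun t => q2 / (q2 + n) * (z t).im - (z t).re) hr.2.le ?_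
    · refine h.trans (le_of_eq ?_)
      congr 1
      simp only [A.fin_re, A.fin_im, ← hq1d, ← hq2d, hm]
      ring
    · intro s hs t ht hst
      have hs' : s ∈ Icc a b := ⟨hr.1.le.trans hs.1, hs.2⟩
      have ht' : t ∈ Icc a b := ⟨hr.1.le.trans ht.1, ht.2⟩
      rw [norm_chord, add_comm]
      refine (elem _ _ q2 n (hY s hs' t ht' hst) (hX s hs' t ht' hst) hq2 hnp
        (slope4 s hs' t ht' hst hs.1)).trans (le_of_eq ?_)
      ring
  have hadd := eVariationOn.Icc_add_Icc z (s := univ) hr.1.le hr.2.le (mem_univ r)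
  simp only [univ_inter] at hadd
  rw [← hadd] at hV
  have hV2 := hV.trans (add_le_add hs1 hs2)
  rw [← ENNReal.ofReal_add (by positivity) (by positivity)] at hV2
  have hV3 := (ENNReal.ofReal_le_ofReal_iff (by positivity)).1 hV2
  have k1 : q1 / (q1 + m) * n < n := by
    have : q1 / (q1 + m) < 1 := by rw [div_lt_one (by linarith)]; linarith
    nlinarith
  have k2 : q2 / (q2 + n) * m < m := by
    have : q2 / (q2 + n) < 1 := by rw [div_lt_one (by linarith)]; linarith
    nlinarith
  linarith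

/-- A rectangle with vertex `p` and sides of length `a`, `b` in the directions `e`, `i e`. -/
def IsRectangle (F : Set ℂ) : Prop :=
  ∃ (p e : ℂ) (a b : ℝ), ‖e‖ = 1 ∧ 0 < a ∧ 0 < b ∧
    F = {w | ∃ s t : ℝ, 0 ≤ s ∧ s ≤ a ∧ 0 ≤ t ∧ t ≤ b ∧ w = p + (s + t * Complex.I) * e}

section
variable {F : Set ℂ} {γ : ℝ → ℂ} {o : ℂ} {θ : ℝ → ℝ}

/-- Data of a supporting line at `γ s`. -/
def HasSupp (F : Set ℂ) (γ : ℝ → ℂ) (o : ℂ) (θ : ℝ → ℝ) (s S c : ℝ) : Prop :=
  0 < c ∧ S ^ 2 + c ^ 2 = 1 ∧ ∀ w ∈ F,
    c * (Complex.exp (-(θ s : ℂ) * Complex.I) * (w - o)).re +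
      S * (Complex.exp (-(θ s : ℂ) * Complex.I) * (w - o)).im ≤ c * ‖γ s - o‖

theorem conj_exp (x : ℝ) : (starRingEnd ℂ) (Complex.exp (x * Complex.I)) =
    Complex.exp (-(x : ℂ) * Complex.I) := by
  rw [← Complex.exp_conj]
  congr 1
  simp

theorem norm_exp (x : ℝ) : ‖Complex.exp (-(x : ℂ) * Complex.I)‖ = 1 := by
  have := Complex.norm_exp_ofReal_mul_I (-x)
  rwa [show ((-x : ℝ) : ℂ) * Complex.I = -(x : ℂ) * Complex.I by push_cast; ring] at this

theorem Incr.hasSupp (I : Incr γ o θ) (hF : Convex ℝ F) (hγ : IsBoundaryLoop F γ)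
    (ho : o ∈ interior F) (s : ℝ) : ∃ S c, HasSupp F γ o θ s S c := by
  obtain ⟨S, c, h1, h2, h3⟩ := supp_exists hF ho (hγ.mem s) (Complex.exp (θ s * Complex.I))
    (Complex.norm_exp_ofReal_mul_I _) ‖γ s - o‖ (I.ne s) (I.eq s)
  refine ⟨S, c, h1, h2, fun w hw => ?_⟩
  have := h3 w hw
  rwa [conj_exp] at this

theorem HasSupp.shift (I : Incr γ o θ) (hγ : IsBoundaryLoop F γ) {s S c : ℝ}
    (h : HasSupp F γ o θ s S c) : HasSupp F γ o θ (s + 1) S c := by
  refine ⟨h.1, h.2.1, fun w hw => ?_⟩
  have e : Complex.exp (-(θ (s + 1) : ℂ) * Complex.I) = Complex.exp (-(θ s : ℂ) * Complex.I) := by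
    rw [I.per]
    apply Complex.exp_eq_exp_iff_exists_int.2
    refine ⟨-1, ?_⟩
    push_cast; ring
  rw [e, hγ.periodic]
  exact h.2.2 w hw

theorem mkSupp (hc : IsClosed F) (hγ : IsBoundaryLoop F γ) {a b S c S' c' : ℝ}
    (hq : θ b = θ a + Real.pi / 2) (h : HasSupp F γ o θ a S c) (h' : HasSupp F γ o θ b S' c') :
    Supp (fun t => Complex.exp (-(θ a : ℂ) * Complex.I) * (γ t - o)) a b ‖γ a - o‖ ‖γ b - o‖
      S c S' c' := by
  refine ⟨h.1, h'.1, h.2.1, h'.2.1, fun t _ => h.2.2 _ (hc.frontier_subset (hγ.mem t)),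
    fun t _ => ?_⟩
  have h1 := h'.2.2 _ (hc.frontier_subset (hγ.mem t))
  have e : Complex.exp (-(θ b : ℂ) * Complex.I) =
      -Complex.I * Complex.exp (-(θ a : ℂ) * Complex.I) := by
    rw [hq]
    have : -((θ a + Real.pi / 2 : ℝ) : ℂ) * Complex.I =
        -(θ a : ℂ) * Complex.I + -(Real.pi / 2 : ℂ) * Complex.I := by push_cast; ring
    rw [this, Complex.exp_add]
    have h2 : Complex.exp (-(Real.pi / 2 : ℂ) * Complex.I) = -Complex.I := by
      have := Complex.exp_ofReal_mul_I (-(Real.pi / 2))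
      rw [Real.cos_neg, Real.sin_neg, Real.cos_pi_div_two, Real.sin_pi_div_two] at this
      push_cast at this
      rw [this]; ring
    rw [h2]; ring
  rw [e, mul_assoc] at h1
  have e1 : ∀ v : ℂ, (-Complex.I * v).re = v.im := by intro v; simp
  have e2 : ∀ v : ℂ, (-Complex.I * v).im = -v.re := by intro v; simp
  rw [e1, e2] at h1
  show -S' * (Complex.exp (-(θ a : ℂ) * Complex.I) * (γ t - o)).re +
    c' * (Complex.exp (-(θ a : ℂ) * Complex.I) * (γ t - o)).im ≤ c' * ‖γ b - o‖
  linarith

theorem Incr.quarter (I : Incr γ o θ) {s t : ℝ} (h1 : s < t) (h2 : t < s + 1) {u : ℂ}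
    (hu : ‖u‖ = 1) {x y : ℝ} (hx : 0 < x) (hy : 0 < y) (e1 : γ s - o = (x : ℂ) * u)
    (e2 : γ t - o = (y : ℂ) * (Complex.I * u)) : θ t = θ s + Real.pi / 2 := by
  have n1 : ‖γ s - o‖ = x := by
    rw [e1, norm_mul, hu, Complex.norm_real, Real.norm_eq_abs, abs_of_pos hx, mul_one]
  have n2 : ‖γ t - o‖ = y := by
    rw [e2, norm_mul, norm_mul, hu, Complex.norm_I, Complex.norm_real, Real.norm_eq_abs,
      abs_of_pos hy]; ring
  have f1 : Complex.exp (θ s * Complex.I) = u := by
    have := I.eq s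
    rw [n1, e1] at this
    exact (mul_left_cancel₀ (by exact_mod_cast hx.ne') this).symm
  have f2 : Complex.exp (θ t * Complex.I) = Complex.I * u := by
    have := I.eq t
    rw [n2, e2] at this
    exact (mul_left_cancel₀ (by exact_mod_cast hy.ne') this).symm
  have f3 : Complex.exp (θ t * Complex.I) =
      Complex.exp (((θ s + Real.pi / 2 : ℝ) : ℂ) * Complex.I) := by
    rw [f2, ← f1]
    have : ((θ s + Real.pi / 2 : ℝ) : ℂ) * Complex.I =
        (θ s : ℂ) * Complex.I + ((Real.pi / 2 : ℝ) : ℂ) * Complex.I := by push_cast; ring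
    rw [this, Complex.exp_add]
    have h2 : Complex.exp (((Real.pi / 2 : ℝ) : ℂ) * Complex.I) = Complex.I := by
      rw [Complex.exp_ofReal_mul_I, Real.cos_pi_div_two, Real.sin_pi_div_two]; simp
    rw [h2]; ring
  obtain ⟨n, hn⟩ := exp_eq_imp f3
  have g1 := I.mono h1
  have g2 := I.mono h2
  rw [I.per] at g2
  have hpi := Real.pi_pos
  have k1 : (-1 : ℝ) < n := by
    by_contra hcon
    push Not at hcon
    nlinarith
  have k2 : (n : ℝ) < 1 := by
    by_contra hcon
    push Not at hcon
    nlinarith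
  have k3 : -1 < n := by exact_mod_cast k1
  have k4 : n < 1 := by exact_mod_cast k2
  have : n = 0 := by omega
  rw [this] at hn
  simpa using hn

theorem Incr.corner_mem (I : Incr γ o θ) (hF : Convex ℝ F) (hc : IsClosed F)
    (hγ : IsBoundaryLoop F γ) (ho : o ∈ interior F) {a b : ℝ} (hab : a < b)
    (hq : θ b = θ a + Real.pi / 2) (h : HasSupp F γ o θ a 0 1) (h' : HasSupp F γ o θ b 0 1)
    (hV : ENNReal.ofReal (‖γ a - o‖ + ‖γ b - o‖) ≤ eVariationOn γ (Icc a b)) :
    o + ((‖γ a - o‖ : ℂ) + (‖γ b - o‖ : ℂ) * Complex.I) * Complex.exp (θ a * Complex.I) ∈ F := by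
  have A := I.arc hF hc hγ ho hab hq
  have P := mkSupp hc hγ hq h h'
  set x := ‖γ a - o‖ with hx
  set y := ‖γ b - o‖ with hy
  have hxp : 0 < x := I.ne a
  have hyp : 0 < y := I.ne b
  have hat1 : 0 < Real.arctan (y / x) := by
    rw [Real.arctan_pos]; positivity
  have hat2 := Real.arctan_lt_pi_div_two (y / x)
  obtain ⟨r, hr, hr'⟩ : θ a + Real.arctan (y / x) ∈ θ '' Ioo a b := by
    apply intermediate_value_Ioo hab.le I.cont.continuousOn
    constructor
    · linarith
    · rw [hq]; linarith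
  obtain ⟨r1, r2⟩ := I.re_im a r
  have hd : θ r - θ a = Real.arctan (y / x) := by linarith
  rw [hd] at r1 r2
  have hcos : 0 < Real.cos (Real.arctan (y / x)) := Real.cos_arctan_pos _
  have hsin : Real.sin (Real.arctan (y / x)) = y / x * Real.cos (Real.arctan (y / x)) := by
    have := Real.tan_arctan (y / x)
    rw [Real.tan_eq_sin_div_cos, div_eq_iff hcos.ne'] at this
    exact this
  have hcor := corner A P (by rw [eVar_rot _ _ (norm_exp _)]; exact hV) hr (by
    show (Complex.exp (-(θ a : ℂ) * Complex.I) * (γ r - o)).re * y =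
      (Complex.exp (-(θ a : ℂ) * Complex.I) * (γ r - o)).im * x
    rw [r1, r2, hsin]; field_simp)
  have hz : Complex.exp (-(θ a : ℂ) * Complex.I) * (γ r - o) = (x : ℂ) + (y : ℂ) * Complex.I := by
    apply Complex.ext
    · rw [hcor.1]; simp
    · rw [hcor.2]; simp
  have : γ r = o + ((x : ℂ) + (y : ℂ) * Complex.I) * Complex.exp (θ a * Complex.I) := by
    rw [← hz, mul_comm (Complex.exp (-(θ a : ℂ) * Complex.I)), mul_assoc, ← Complex.exp_add]
    have : -(θ a : ℂ) * Complex.I + (θ a : ℂ) * Complex.I = 0 := by ring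
    rw [this, Complex.exp_zero, mul_one]
    ring
  rw [← this]
  exact hc.frontier_subset (hγ.mem r)

end

end Pool.Agent.V11190.Quad
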