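import Pool.Agent.V11190.Quad6

set_option autoImplicit false

open Set

namespace Pool.Agent.V11190.Quad

section
variable {F : Set ℂ} {γ : ℝ → ℂ} {o : ℂ} {θ : ℝ → ℝ}

/-- The main inequality for a loop that runs counterclockwise around the crossing point. -/
theorem core_incr (hF : Convex ℝ F) (hc : IsClosed F) (hγ : IsBoundaryLoop F γ)
    (ho : o ∈ interior F) (I : Incr γ o θ) {t : Fin 4 → ℝ} (h01 : t 0 < t 1) (h12 : t 1 < t 2)
    (h23 : t 2 < t 3) (h30 : t 3 < t 0 + 1) {u : ℂ} (hu : ‖u‖ = 1) {x : Fin 4 → ℝ}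
    (hx : ∀ i, 0 < x i)
    (e0 : γ (t 0) - o = (x 0 : ℂ) * u) (e1 : γ (t 1) - o = (x 1 : ℂ) * (Complex.I * u))
    (e2 : γ (t 2) - o = (x 2 : ℂ) * (-u)) (e3 : γ (t 3) - o = (x 3 : ℂ) * (-Complex.I * u))
    {V : ENNReal} (v0 : eVariationOn γ (Icc (t 0) (t 1)) = V)
    (v1 : eVariationOn γ (Icc (t 1) (t 2)) = V) (v2 : eVariationOn γ (Icc (t 2) (t 3)) = V)
    (v3 : eVariationOn γ (Icc (t 3) (t 0 + 1)) = V) :
    V ≠ ⊤ ∧ 2 * V.toReal ≤ x 0 + x 1 + x 2 + x 3 ∧
      (2 * V.toReal = x 0 + x 1 + x 2 + x 3 → IsRectangle F) := by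
  have hII : Complex.I * Complex.I = -1 := Complex.I_mul_I
  have nIu : ‖Complex.I * u‖ = 1 := by rw [norm_mul, Complex.norm_I, hu, one_mul]
  have nmu : ‖-u‖ = 1 := by rw [norm_neg, hu]
  have nmIu : ‖-Complex.I * u‖ = 1 := by rw [norm_mul, norm_neg, Complex.norm_I, hu, one_mul]
  have e4 : γ (t 0 + 1) - o = (x 0 : ℂ) * (Complex.I * (-Complex.I * u)) := by
    rw [hγ.periodic, e0]
    linear_combination ((x 0 : ℂ) * u) * hII
  have e2' : γ (t 2) - o = (x 2 : ℂ) * (Complex.I * (Complex.I * u)) := by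
    rw [e2]; linear_combination (-(x 2 : ℂ) * u) * hII
  have e3' : γ (t 3) - o = (x 3 : ℂ) * (Complex.I * (-u)) := by
    rw [e3]; ring
  have q0 := I.quarter h01 (by linarith) hu (hx 0) (hx 1) e0 e1
  have q1 := I.quarter h12 (by linarith) nIu (hx 1) (hx 2) e1 e2'
  have q2 := I.quarter h23 (by linarith) nmu (hx 2) (hx 3) e2 e3'
  have q3 := I.quarter h30 (by linarith) nmIu (hx 3) (hx 0) e3 e4
  have nx : ∀ {s : ℝ} {y : ℝ} {w : ℂ}, 0 < y → ‖w‖ = 1 → γ s - o = (y : ℂ) * w →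
      ‖γ s - o‖ = y := by
    intro s y w hy hw h
    rw [h, norm_mul, hw, Complex.norm_real, Real.norm_eq_abs, abs_of_pos hy, mul_one]
  have n0 := nx (hx 0) hu e0
  have n1 := nx (hx 1) nIu e1
  have n2 := nx (hx 2) nmu e2
  have n3 := nx (hx 3) nmIu e3
  have n4 : ‖γ (t 0 + 1) - o‖ = x 0 := by rw [hγ.periodic]; exact n0
  obtain ⟨S0, c0, s0⟩ := I.hasSupp hF hγ ho (t 0)
  obtain ⟨S1, c1, s1⟩ := I.hasSupp hF hγ ho (t 1)
  obtain ⟨S2, c2, s2⟩ := I.hasSupp hF hγ ho (t 2)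
  obtain ⟨S3, c3, s3⟩ := I.hasSupp hF hγ ho (t 3)
  have s4 := s0.shift I hγ
  have A0 := I.arc hF hc hγ ho h01 q0
  have A1 := I.arc hF hc hγ ho h12 q1
  have A2 := I.arc hF hc hγ ho h23 q2
  have A3 := I.arc hF hc hγ ho h30 q3
  have P0 := mkSupp hc hγ q0 s0 s1
  have P1 := mkSupp hc hγ q1 s1 s2
  have P2 := mkSupp hc hγ q2 s2 s3
  have P3 := mkSupp hc hγ q3 s3 s4
  rw [n0, n1] at A0 P0
  rw [n1, n2] at A1 P1
  rw [n2, n3] at A2 P2
  rw [n3, n4] at A3 P3
  have w0 := (eVar_rot _ o (norm_exp (θ (t 0))) γ (Icc (t 0) (t 1))).trans v0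
  have w1 := (eVar_rot _ o (norm_exp (θ (t 1))) γ (Icc (t 1) (t 2))).trans v1
  have w2 := (eVar_rot _ o (norm_exp (θ (t 2))) γ (Icc (t 2) (t 3))).trans v2
  have w3 := (eVar_rot _ o (norm_exp (θ (t 3))) γ (Icc (t 3) (t 0 + 1))).trans v3
  have hfin : V ≠ ⊤ := by
    rcases le_or_gt S1 S0 with h | h
    · rw [← w0]; exact finite_of A0 P0 h
    rcases le_or_gt S2 S1 with h' | h'
    · rw [← w1]; exact finite_of A1 P1 h'
    rcases le_or_gt S3 S2 with h'' | h''
    · rw [← w2]; exact finite_of A2 P2 h''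
    · rw [← w3]; exact finite_of A3 P3 (by linarith)
  have hVr : V = ENNReal.ofReal V.toReal := (ENNReal.ofReal_toReal hfin).symm
  have hVpos : 0 < V.toReal := by
    have h1 := chord_le (f := γ) h01.le
    rw [v0, hVr] at h1
    have h2 : 0 < ‖γ (t 1) - γ (t 0)‖ := by
      rw [norm_pos_iff]
      intro h
      have h3 : (x 1 : ℂ) * (Complex.I * u) = (x 0 : ℂ) * u := by
        rw [← e1, ← e0]; linear_combination h
      have hune : u ≠ 0 := by intro h; rw [h] at hu; simp at hu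
      have h4 : (x 1 : ℂ) * Complex.I = x 0 := by
        apply mul_right_cancel₀ hune
        rw [← h3]; ring
      have h5 := congrArg Complex.re h4
      simp at h5
      linarith [hx 0]
    by_contra hcon
    push Not at hcon
    rw [ENNReal.ofReal_of_nonpos hcon] at h1
    have h3 := ENNReal.ofReal_pos.2 h2
    exact absurd h1 (not_le.2 h3)
  have F0 := arcFacts A0 P0 hVpos (w0.trans hVr)
  have F1 := arcFacts A1 P1 hVpos (w1.trans hVr)
  have F2 := arcFacts A2 P2 hVpos (w2.trans hVr)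
  have F3 := arcFacts A3 P3 hVpos (w3.trans hVr)
  set S : Fin 4 → ℝ := ![S0, S1, S2, S3] with hS
  set c : Fin 4 → ℝ := ![c0, c1, c2, c3] with hcd
  have H : ∀ i : Fin 4, ArcFacts (x i) (x (i + 1)) (S i) (c i) (S (i + 1)) (c (i + 1))
      V.toReal := by
    intro i
    fin_cases i
    · exact F0
    · exact F1
    · exact F2
    · exact F3
  have hcpos : ∀ i : Fin 4, 0 < c i := by
    intro i
    fin_cases i
    · exact s0.1
    · exact s1.1
    · exact s2.1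
    · exact s3.1
  have hsq : ∀ i : Fin 4, S i ^ 2 + c i ^ 2 = 1 := by
    intro i
    fin_cases i
    · exact s0.2.1
    · exact s1.2.1
    · exact s2.2.1
    · exact s3.2.1
  have D : Data x S c V.toReal :=
    ⟨hVpos, hx, hcpos, hsq, fun i => (H i).a1, fun i => (H i).a2, fun i => (H i).b1,
      fun i => (H i).b1', fun i => (H i).b2, fun i => (H i).b2', fun i => (H i).b4,
      fun i => (H i).b5⟩
  obtain ⟨M1, M2⟩ := D.main
  rw [Fin.sum_univ_four] at M1 M2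
  refine ⟨hfin, M1, fun heq => ?_⟩
  have hS0 := M2 heq
  have z0 : S0 = 0 := hS0 0
  have z1 : S1 = 0 := hS0 1
  have z2 : S2 = 0 := hS0 2
  have z3 : S3 = 0 := hS0 3
  have one : ∀ {a : ℝ}, 0 < a → (0 : ℝ) ^ 2 + a ^ 2 = 1 → a = 1 := by
    intro a ha h; nlinarith
  have y0 : c0 = 1 := one s0.1 (by have := s0.2.1; rwa [z0] at this)
  have y1 : c1 = 1 := one s1.1 (by have := s1.2.1; rwa [z1] at this)
  have y2 : c2 = 1 := one s2.1 (by have := s2.2.1; rwa [z2] at this)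
  have y3 : c3 = 1 := one s3.1 (by have := s3.2.1; rwa [z3] at this)
  subst z0 z1 z2 z3 y0 y1 y2 y3
  -- lengths of the arcs
  have g0 := F0.b4 (by norm_num)
  have g1 := F1.b4 (by norm_num)
  have g2 := F2.b4 (by norm_num)
  have g3 := F3.b4 (by norm_num)
  have k0 : V.toReal = x 0 + x 1 := by linarith
  have k1 : V.toReal = x 1 + x 2 := by linarith
  have k2 : V.toReal = x 2 + x 3 := by linarith
  have k3 : V.toReal = x 3 + x 0 := by linarith
  have C0 := I.corner_mem hF hc hγ ho h01 q0 s0 s1 (by rw [n0, n1, v0, hVr, k0])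
  have C1 := I.corner_mem hF hc hγ ho h12 q1 s1 s2 (by rw [n1, n2, v1, hVr, k1])
  have C2 := I.corner_mem hF hc hγ ho h23 q2 s2 s3 (by rw [n2, n3, v2, hVr, k2])
  have C3 := I.corner_mem hF hc hγ ho h30 q3 s3 s4 (by rw [n3, n4, v3, hVr, k3])
  have hexp : ∀ {s : ℝ} {y : ℝ} {w : ℂ}, 0 < y → ‖w‖ = 1 → γ s - o = (y : ℂ) * w →
      Complex.exp (θ s * Complex.I) = w := by
    intro s y w hy hw h
    have h1 := I.eq s
    rw [nx hy hw h, h] at h1
    exact (mul_left_cancel₀ (by exact_mod_cast hy.ne') h1).symm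
  rw [n0, n1, hexp (hx 0) hu e0] at C0
  rw [n1, n2, hexp (hx 1) nIu e1] at C1
  rw [n2, n3, hexp (hx 2) nmu e2] at C2
  rw [n3, n4, hexp (hx 3) nmIu e3] at C3
  -- the box
  have box : ∀ w ∈ F, ((starRingEnd ℂ) u * (w - o)).re ≤ x 0 ∧
      ((starRingEnd ℂ) u * (w - o)).im ≤ x 1 ∧ -((starRingEnd ℂ) u * (w - o)).re ≤ x 2 ∧
      -((starRingEnd ℂ) u * (w - o)).im ≤ x 3 := by
    intro w hw
    have b0 := s0.2.2 w hw
    have b1 := s1.2.2 w hw
    have b2 := s2.2.2 w hw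
    have b3 := s3.2.2 w hw
    rw [← conj_exp, hexp (hx 0) hu e0, n0] at b0
    rw [← conj_exp, hexp (hx 1) nIu e1, n1] at b1
    rw [← conj_exp, hexp (hx 2) nmu e2, n2] at b2
    rw [← conj_exp, hexp (hx 3) nmIu e3, n3] at b3
    rw [map_mul, Complex.conj_I, mul_assoc] at b1
    rw [map_neg, neg_mul] at b2
    rw [map_mul, map_neg, Complex.conj_I, neg_neg, mul_assoc] at b3
    have r1 : ∀ v : ℂ, (-Complex.I * v).re = v.im := by intro v; simp
    have r2 : ∀ v : ℂ, (Complex.I * v).re = -v.im := by intro v; simp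
    rw [r1] at b1
    rw [Complex.neg_re] at b2
    rw [r2] at b3
    refine ⟨by linarith, by linarith, by linarith, by linarith⟩
  have hconv : ∀ a ∈ F, ∀ b ∈ F, ∀ l : ℝ, 0 ≤ l → l ≤ 1 → ((1 - l : ℝ) : ℂ) * a + (l : ℂ) * b ∈ F := by
    intro a ha b hb l hl hl1
    have := hF ha hb (by linarith : 0 ≤ 1 - l) hl (by ring)
    simpa only [Complex.real_smul] using this
  have hx0 := hx 0
  have hx1 := hx 1
  have hx2 := hx 2
  have hx3 := hx 3
  have huu : u * (starRingEnd ℂ) u = 1 := by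
    rw [Complex.mul_conj, Complex.normSq_eq_norm_sq, hu]; simp
  refine ⟨o + (-(x 2 : ℂ) - (x 3 : ℂ) * Complex.I) * u, u, x 0 + x 2, x 1 + x 3, hu,
    by linarith, by linarith, ?_⟩
  ext w
  constructor
  · intro hw
    obtain ⟨b0, b1, b2, b3⟩ := box w hw
    refine ⟨((starRingEnd ℂ) u * (w - o)).re + x 2, ((starRingEnd ℂ) u * (w - o)).im + x 3,
      by linarith, by linarith, by linarith, by linarith, ?_⟩
    have hw2 : w = o + u * ((starRingEnd ℂ) u * (w - o)) := by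
      rw [← mul_assoc, huu, one_mul]; ring
    have hw3 : ((starRingEnd ℂ) u * (w - o)) =
        ((((starRingEnd ℂ) u * (w - o)).re : ℝ) : ℂ) +
        ((((starRingEnd ℂ) u * (w - o)).im : ℝ) : ℂ) * Complex.I := (Complex.re_add_im _).symm
    push_cast
    conv_lhs => rw [hw2, hw3]
    ring
  · rintro ⟨s, r, hs0, hs1, hr0, hr1, rfl⟩
    -- points on the right and on the left side
    have hr : ∃ l : ℝ, 0 ≤ l ∧ l ≤ 1 ∧ r = l * (x 1 + x 3) :=
      ⟨r / (x 1 + x 3), by positivity, by rw [div_le_one (by linarith)]; exact hr1,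
        by field_simp⟩
    have hs : ∃ l : ℝ, 0 ≤ l ∧ l ≤ 1 ∧ s = l * (x 0 + x 2) :=
      ⟨s / (x 0 + x 2), by positivity, by rw [div_le_one (by linarith)]; exact hs1,
        by field_simp⟩
    obtain ⟨l, hl0, hl1, rfl⟩ := hr
    obtain ⟨k, hk0, hk1, rfl⟩ := hs
    have R := hconv _ C3 _ C0 l hl0 hl1
    have L := hconv _ C2 _ C1 l hl0 hl1
    have := hconv _ L _ R k hk0 hk1
    convert this using 1
    push_cast
    linear_combination (-(((1 - k : ℂ)) * ((1 - l) * (x 3 : ℂ) * 0 + l * (x 2 : ℂ) * 0)) + 0) * hII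
      + (k * (1 - l) * (x 0 : ℂ) * u - (1 - k) * l * (x 2 : ℂ) * u) * hII

end

end Pool.Agent.V11190.Quad
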