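import Pool.Agent.V11190.Quad7

set_option autoImplicit false

open Set

namespace Pool.Agent.V11190.Quad

section
variable {F : Set ℂ} {γ : ℝ → ℂ} {o : ℂ} {θ : ℝ → ℝ}

/-- A boundary arc seen under an angle less than `π` whose end points are joined by a segment with
a frontier point in its interior is not longer than this segment. -/
theorem Incr.straight (I : Incr γ o θ) (hF : Convex ℝ F) (hc : IsClosed F)
    (hγ : IsBoundaryLoop F γ) (ho : o ∈ interior F) {a b : ℝ} (hab : a < b)
    (hpi : θ b - θ a < Real.pi) {l : ℝ} (hl : 0 < l) (hl1 : l < 1)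
    (hm : γ a + (l : ℂ) * (γ b - γ a) ∈ frontier F) :
    eVariationOn γ (Icc a b) ≤ ENNReal.ofReal ‖γ b - γ a‖ := by
  -- the supporting functional
  obtain ⟨f, hf⟩ := geometric_hahn_banach_open_point hF.interior isOpen_interior hm.2
  set m := γ a + (l : ℂ) * (γ b - γ a) with hmd
  have hle : ∀ w ∈ F, f w ≤ f m := by
    intro w hw
    have h1 : F ⊆ closure (interior F) := by
      rw [hF.closure_interior_eq_closure_of_nonempty_interior ⟨o, ho⟩]
      exact subset_closure
    have h2 : closure (interior F) ⊆ {w | f w ≤ f m} :=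
      closure_minimal (fun w hw => (hf w hw).le) (isClosed_le f.continuous continuous_const)
    exact h2 (h1 hw)
  have hfa := hle _ (hc.frontier_subset (hγ.mem a))
  have hfb := hle _ (hc.frontier_subset (hγ.mem b))
  have hfm : f m = (1 - l) * f (γ a) + l * f (γ b) := by
    have : m = (1 - l) • γ a + l • γ b := by
      rw [hmd]; simp only [Complex.real_smul]; push_cast; ring
    rw [this, map_add, map_smul, map_smul, smul_eq_mul, smul_eq_mul]
  have ha : f (γ a) = f m := by nlinarith
  have hb : f (γ b) = f m := by nlinarith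
  have hoo : f o < f m := hf o ho
  -- coordinates
  set A := γ a - o with hA
  set B := γ b - o with hB
  have hcr : 0 < cr A B := by
    rw [hA, hB, I.cr_eq]
    exact mul_pos (mul_pos (I.ne a) (I.ne b))
      (Real.sin_pos_of_pos_of_lt_pi (by linarith [I.mono hab]) hpi)
  -- every vector in the basis `A, B`
  have basis : ∀ v : ℂ, ((cr A B : ℝ) : ℂ) * v = ((cr v B : ℝ) : ℂ) * A + ((cr A v : ℝ) : ℂ) * B := by
    intro v
    unfold cr
    apply Complex.ext
    · simp only [Complex.add_re, Complex.re_ofReal_mul]; ring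
    · simp only [Complex.add_im, Complex.im_ofReal_mul]; ring
  set h := f m - f o with hh
  have hhp : 0 < h := by linarith
  have hfA : f A = h := by rw [hA, map_sub, ha]
  have hfB : f B = h := by rw [hB, map_sub, hb]
  have fv : ∀ v : ℂ, cr A B * f v = (cr v B + cr A v) * h := by
    intro v
    have e := congrArg f (basis v)
    have e2 : ∀ (r : ℝ) (w : ℂ), f ((r : ℂ) * w) = r * f w := by
      intro r w
      rw [← Complex.real_smul, map_smul, smul_eq_mul]
    rw [e2, map_add, e2, e2, hfA, hfB] at e
    rw [e]; ring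
  -- points of the arc lie on the line
  have online : ∀ s ∈ Icc a b, f (γ s - o) = h := by
    intro s hs
    rcases hs.1.lt_or_eq with h1 | h1
    swap
    · rw [← h1]; exact hfA
    rcases hs.2.lt_or_eq with h2 | h2
    swap
    · rw [h2]; exact hfB
    have c1 := I.conv hF hc hγ ho h1 h2 hpi
    have c2 := fv (γ s - o)
    have c3 : h ≤ f (γ s - o) := by
      have : cr A B * h ≤ cr A B * f (γ s - o) := by
        rw [c2]
        apply mul_le_mul_of_nonneg_right _ hhp.le
        rw [hA, hB]; linarith
      exact le_of_mul_le_mul_left this hcr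
    have c4 := hle _ (hc.frontier_subset (hγ.mem s))
    rw [map_sub] at c3 ⊢
    linarith
  -- so each point is determined by `cr A`
  have point : ∀ s ∈ Icc a b, ((cr A B : ℝ) : ℂ) * (γ s - o) =
      ((cr A B : ℝ) : ℂ) * A + ((cr A (γ s - o) : ℝ) : ℂ) * (B - A) := by
    intro s hs
    have c1 := fv (γ s - o)
    rw [online s hs] at c1
    have c2 : cr (γ s - o) B = cr A B - cr A (γ s - o) := by
      have : cr A B * h - (cr (γ s - o) B + cr A (γ s - o)) * h = 0 := by linarith
      have : (cr A B - (cr (γ s - o) B + cr A (γ s - o))) * h = 0 := by linarith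
      rcases mul_eq_zero.1 this with h1 | h1
      · linarith
      · linarith
    rw [basis, c2]; push_cast; ring
  have hBA : B - A = γ b - γ a := by rw [hA, hB]; ring
  have hlen := length_le (f := γ) (g := fun t => cr A (γ t - o) / cr A B * ‖γ b - γ a‖) hab.le ?_
  · refine hlen.trans (le_of_eq ?_)
    congr 1
    have e1 : cr A (γ b - o) = cr A B := rfl
    have e2 : cr A (γ a - o) = 0 := by rw [← hA]; unfold cr; ring
    show cr A (γ b - o) / cr A B * ‖γ b - γ a‖ - cr A (γ a - o) / cr A B * ‖γ b - γ a‖ = _
    rw [e1, e2]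
    field_simp
    ring
  · intro s hs t ht hst
    have p1 := point s hs
    have p2 := point t ht
    have hne : ((cr A B : ℝ) : ℂ) ≠ 0 := by exact_mod_cast hcr.ne'
    have p3 : γ t - γ s =
        (((cr A (γ t - o) - cr A (γ s - o)) / cr A B : ℝ) : ℂ) * (γ b - γ a) := by
      push_cast
      rw [← hBA]
      field_simp
      linear_combination p2 - p1
    -- the increment is nonnegative
    have p4 : 0 ≤ cr A (γ t - o) - cr A (γ s - o) := by
      have k1 : 0 < cr (γ s - o) (γ t - o) := by
        rw [I.cr_eq]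
        have := I.mono.monotone hs.1
        have := I.mono.monotone ht.2
        exact mul_pos (mul_pos (I.ne s) (I.ne t))
          (Real.sin_pos_of_pos_of_lt_pi (by linarith [I.mono hst]) (by linarith))
      have q1 : cr A B * (cr A B * cr (γ s - o) (γ t - o)) =
          cr A B * (cr A B * (cr A (γ t - o) - cr A (γ s - o))) := by
        have r1 : cr (((cr A B : ℝ) : ℂ) * (γ s - o)) (((cr A B : ℝ) : ℂ) * (γ t - o)) =
            cr A B * (cr A B * cr (γ s - o) (γ t - o)) := by
          unfold cr
          simp only [Complex.re_ofReal_mul, Complex.im_ofReal_mul]; ring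
        rw [← r1, p1, p2]
        unfold cr
        simp only [Complex.add_re, Complex.add_im, Complex.re_ofReal_mul, Complex.im_ofReal_mul,
          Complex.sub_re, Complex.sub_im]
        ring
      have q2 := mul_left_cancel₀ hcr.ne' q1
      have q3 := mul_left_cancel₀ hcr.ne' q2
      rw [← q3]; exact k1.le
    rw [p3, norm_mul, Complex.norm_real, Real.norm_eq_abs,
      abs_of_nonneg (div_nonneg p4 hcr.le)]
    apply le_of_eq
    ring

theorem eVar_neg (γ : ℝ → ℂ) (a b : ℝ) :
    eVariationOn (fun t => γ (-t)) (Icc (-b) (-a)) = eVariationOn γ (Icc a b) := by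
  have := eVariationOn.comp_eq_of_antitoneOn γ (t := Icc (-b) (-a)) (fun t => -t)
    (fun s _ t _ h => neg_le_neg h)
  have e : (fun t : ℝ => -t) '' Icc (-b) (-a) = Icc a b := by simp
  rw [e] at this
  exact this

theorem eVar_shift {γ : ℝ → ℂ} (h : ∀ t, γ (t + 1) = γ t) (a b : ℝ) :
    eVariationOn γ (Icc (a + 1) (b + 1)) = eVariationOn γ (Icc a b) := by
  have := eVariationOn.comp_eq_of_monotoneOn γ (t := Icc a b) (fun t => t + 1)
    (fun s _ t _ h => by simpa using h)
  have e : (fun t : ℝ => t + 1) '' Icc a b = Icc (a + 1) (b + 1) := by simp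
  rw [e] at this
  rw [← this]
  congr 1
  funext t
  exact h t

theorem eVar_add (γ : ℝ → ℂ) {a b c : ℝ} (hab : a ≤ b) (hbc : b ≤ c) :
    eVariationOn γ (Icc a b) + eVariationOn γ (Icc b c) = eVariationOn γ (Icc a c) := by
  have := eVariationOn.Icc_add_Icc γ (s := univ) hab hbc (mem_univ b)
  simpa only [univ_inter] using this

theorem straight_incr (hF : Convex ℝ F) (hc : IsClosed F) (ho : o ∈ interior F)
    (hγ : IsBoundaryLoop F γ) (I : Incr γ o θ) {a b : ℝ} (hab : a < b) (hba : b < a + 1)
    {l : ℝ} (hl : 0 < l) (hl1 : l < 1) (hm : γ a + (l : ℂ) * (γ b - γ a) ∈ frontier F) :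
    eVariationOn γ (Icc a b) ≤ ENNReal.ofReal ‖γ b - γ a‖ ∨
    eVariationOn γ (Icc b (a + 1)) ≤ ENNReal.ofReal ‖γ b - γ a‖ := by
  rcases lt_trichotomy (θ b - θ a) Real.pi with h | h | h
  · left; exact I.straight hF hc hγ ho hab h hl hl1 hm
  · -- `o` would lie on the segment
    exfalso
    obtain ⟨f, hf⟩ := geometric_hahn_banach_open_point hF.interior isOpen_interior hm.2
    have hle : ∀ w ∈ F, f w ≤ f (γ a + (l : ℂ) * (γ b - γ a)) := by
      intro w hw
      have h1 : F ⊆ closure (interior F) := by
        rw [hF.closure_interior_eq_closure_of_nonempty_interior ⟨o, ho⟩]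
        exact subset_closure
      have h2 : closure (interior F) ⊆ {w | f w ≤ f (γ a + (l : ℂ) * (γ b - γ a))} :=
        closure_minimal (fun w hw => (hf w hw).le) (isClosed_le f.continuous continuous_const)
      exact h2 (h1 hw)
    have hfa := hle _ (hc.frontier_subset (hγ.mem a))
    have hfb := hle _ (hc.frontier_subset (hγ.mem b))
    have hfo := hf o ho
    have hfm : f (γ a + (l : ℂ) * (γ b - γ a)) = (1 - l) * f (γ a) + l * f (γ b) := by
      have : γ a + (l : ℂ) * (γ b - γ a) = (1 - l) • γ a + l • γ b := by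
        simp only [Complex.real_smul]; push_cast; ring
      rw [this, map_add, map_smul, map_smul, smul_eq_mul, smul_eq_mul]
    have ha : f (γ a) = f (γ a + (l : ℂ) * (γ b - γ a)) := by nlinarith
    have hb : f (γ b) = f (γ a + (l : ℂ) * (γ b - γ a)) := by nlinarith
    have hθ : Complex.exp (θ b * Complex.I) = -Complex.exp (θ a * Complex.I) := by
      have : (θ b : ℂ) * Complex.I = θ a * Complex.I + Real.pi * Complex.I := by
        have h' : θ b = θ a + Real.pi := by linarith
        rw [h']; push_cast; ring
      rw [this, Complex.exp_add, Complex.exp_pi_mul_I]; ring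
    have hA := I.eq a
    have hB := I.eq b
    rw [hθ] at hB
    have hcomb : ‖γ b - o‖ • (γ a - o) + ‖γ a - o‖ • (γ b - o) = 0 := by
      simp only [Complex.real_smul]
      linear_combination (‖γ b - o‖ : ℂ) * hA + (‖γ a - o‖ : ℂ) * hB
    have hcomb2 := congrArg f hcomb
    rw [map_add, map_smul, map_smul, map_sub, map_sub, map_zero, smul_eq_mul, smul_eq_mul,
      ha, hb] at hcomb2
    have h1 := mul_pos (I.ne b) (sub_pos.2 hfo)
    have h2 := mul_pos (I.ne a) (sub_pos.2 hfo)
    linarith
  · right
    have hm' : γ b + ((1 - l : ℝ) : ℂ) * (γ (a + 1) - γ b) ∈ frontier F := by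
      rw [hγ.periodic]
      convert hm using 1
      push_cast; ring
    have := I.straight hF hc hγ ho hba (by rw [I.per]; linarith) (by linarith : 0 < 1 - l)
      (by linarith) hm'
    rw [hγ.periodic] at this
    rwa [norm_sub_rev]

/-- Either arc between the end points of a boundary segment. -/
theorem straight_or (hF : Convex ℝ F) (hc : IsClosed F) (hi : (interior F).Nonempty)
    (hγ : IsBoundaryLoop F γ) {a b : ℝ} (hab : a < b) (hba : b < a + 1)
    {l : ℝ} (hl : 0 < l) (hl1 : l < 1) (hm : γ a + (l : ℂ) * (γ b - γ a) ∈ frontier F) :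
    eVariationOn γ (Icc a b) ≤ ENNReal.ofReal ‖γ b - γ a‖ ∨
    eVariationOn γ (Icc b (a + 1)) ≤ ENNReal.ofReal ‖γ b - γ a‖ := by
  obtain ⟨o, ho⟩ := hi
  rcases exists_incr hF hc hγ ho with ⟨θ, I⟩ | ⟨θ, I⟩
  · exact straight_incr hF hc ho hγ I hab hba hl hl1 hm
  · have hm' : (fun t => γ (-t)) (-b) + ((1 - l : ℝ) : ℂ) *
        ((fun t => γ (-t)) (-a) - (fun t => γ (-t)) (-b)) ∈ frontier F := by
      simp only [neg_neg]
      convert hm using 1
      push_cast; ring
    have := straight_incr hF hc ho hγ.neg I (a := -b) (b := -a) (by linarith) (by linarith)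
      (by linarith : 0 < 1 - l) (by linarith) hm'
    simp only [neg_neg] at this
    rw [norm_sub_rev] at this
    rcases this with h | h
    · left
      rwa [eVar_neg] at h
    · right
      have e : -b + 1 = -(b - 1) := by ring
      rw [e, eVar_neg] at h
      have e2 := eVar_shift hγ.periodic (b - 1) a
      rw [sub_add_cancel] at e2
      rw [e2]; exact h

end

end Pool.Agent.V11190.Quad
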