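import Pool.Agent.V11190.Quad8

set_option autoImplicit false

open Set

namespace Pool.Agent.V11190.Quad

section
variable {F : Set ℂ} {γ : ℝ → ℂ} {o : ℂ} {θ : ℝ → ℝ}

theorem inner_eq (v w : ℂ) : inner ℝ v w = v.re * w.re + v.im * w.im := by
  rw [Complex.inner, Complex.mul_re, Complex.conj_re, Complex.conj_im]; ring

/-- The main inequality, if `γ` runs counterclockwise around the crossing point of the chords. -/
theorem core_pts (hF : Convex ℝ F) (hc : IsClosed F) (hγ : IsBoundaryLoop F γ)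
    (ho : o ∈ interior F) (I : Incr γ o θ) {t₁ t₂ t₃ t₄ : ℝ} (h12 : t₁ < t₂) (h23 : t₂ < t₃)
    (h34 : t₃ < t₄) (h41 : t₄ < t₁ + 1) {a b : ℝ} (ha : 0 < a) (ha1 : a < 1) (hb : 0 < b)
    (hb1 : b < 1) (eo : o = γ t₁ + (a : ℂ) * (γ t₃ - γ t₁)) (eo' : o = γ t₂ + (b : ℂ) * (γ t₄ - γ t₂))
    (hperp : inner ℝ (γ t₃ - γ t₁) (γ t₄ - γ t₂) = 0)
    (hv : γ t₃ ≠ γ t₁) (hw : γ t₄ ≠ γ t₂)
    {V : ENNReal} (v0 : eVariationOn γ (Icc t₁ t₂) = V)
    (v1 : eVariationOn γ (Icc t₂ t₃) = V) (v2 : eVariationOn γ (Icc t₃ t₄) = V)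
    (v3 : eVariationOn γ (Icc t₄ (t₁ + 1)) = V) :
    V ≠ ⊤ ∧ 2 * V.toReal ≤ ‖γ t₃ - γ t₁‖ + ‖γ t₄ - γ t₂‖ ∧
      (2 * V.toReal = ‖γ t₃ - γ t₁‖ + ‖γ t₄ - γ t₂‖ → IsRectangle F) := by
  set v := γ t₃ - γ t₁ with hvd
  set w := γ t₄ - γ t₂ with hwd
  have nv : 0 < ‖v‖ := norm_pos_iff.2 (sub_ne_zero.2 hv)
  have nw : 0 < ‖w‖ := norm_pos_iff.2 (sub_ne_zero.2 hw)
  have nv' : (‖v‖ : ℂ) ≠ 0 := by exact_mod_cast nv.ne'
  have nw' : (‖w‖ : ℂ) ≠ 0 := by exact_mod_cast nw.ne'
  have p1 : γ t₁ - o = -((a : ℂ) * v) := by linear_combination -eo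
  have p3 : γ t₃ - o = (((1 - a : ℝ)) : ℂ) * v := by
    push_cast; linear_combination -eo
  have p2 : γ t₂ - o = -((b : ℂ) * w) := by linear_combination -eo'
  have p4 : γ t₄ - o = (((1 - b : ℝ)) : ℂ) * w := by
    push_cast; linear_combination -eo'
  -- orientation
  have hθ13 : Complex.exp (θ t₃ * Complex.I) = -Complex.exp (θ t₁ * Complex.I) := by
    have e1 := I.eq t₁
    have e3 := I.eq t₃
    have n1 : ‖γ t₁ - o‖ = a * ‖v‖ := by
      rw [p1, norm_neg, norm_mul, Complex.norm_real, Real.norm_eq_abs, abs_of_pos ha]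
    have n3 : ‖γ t₃ - o‖ = (1 - a) * ‖v‖ := by
      rw [p3, norm_mul, Complex.norm_real, Real.norm_eq_abs, abs_of_pos (by linarith)]
    rw [n1, p1] at e1
    rw [n3, p3] at e3
    have ha' : (a : ℂ) ≠ 0 := by exact_mod_cast ha.ne'
    have ha1' : ((1 - a : ℝ) : ℂ) ≠ 0 := by exact_mod_cast (by linarith : (1 - a) ≠ 0)
    have f1 : Complex.exp (θ t₁ * Complex.I) = -(v / ‖v‖) := by
      push_cast at e1
      have : (a : ℂ) * (‖v‖ : ℂ) * Complex.exp (θ t₁ * Complex.I) = (a : ℂ) * (-v) := by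
        rw [← e1]; ring
      rw [mul_assoc] at this
      have := mul_left_cancel₀ ha' this
      field_simp
      linear_combination this
    have f3 : Complex.exp (θ t₃ * Complex.I) = v / ‖v‖ := by
      push_cast at e3 ha1'
      have : (1 - (a : ℂ)) * (‖v‖ : ℂ) * Complex.exp (θ t₃ * Complex.I) = (1 - (a : ℂ)) * v := by
        rw [← e3]
      rw [mul_assoc] at this
      have := mul_left_cancel₀ ha1' this
      field_simp
      linear_combination this
    rw [f1, f3]; ring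
  have hθ : θ t₃ = θ t₁ + Real.pi := by
    have e : Complex.exp (θ t₃ * Complex.I) =
        Complex.exp (((θ t₁ + Real.pi : ℝ) : ℂ) * Complex.I) := by
      rw [hθ13]
      have : ((θ t₁ + Real.pi : ℝ) : ℂ) * Complex.I = θ t₁ * Complex.I + Real.pi * Complex.I := by
        push_cast; ring
      rw [this, Complex.exp_add, Complex.exp_pi_mul_I]; ring
    obtain ⟨n, hn⟩ := exp_eq_imp e
    have g1 := I.mono (h12.trans h23)
    have g2 := I.mono (h34.trans h41)
    rw [I.per] at g2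
    have hpi := Real.pi_pos
    have k1 : (-1 : ℝ) < n := by
      by_contra hcon
      push Not at hcon
      nlinarith
    have k2 : (n : ℝ) < 1 := by
      by_contra hcon
      push Not at hcon
      nlinarith
    have k3 : -1 < n := by exact_mod_cast k1
    have k4 : n < 1 := by exact_mod_cast k2
    have : n = 0 := by omega
    rw [this] at hn
    simpa using hn
  have hcr : 0 < cr v w := by
    have h1 : 0 < cr (γ t₁ - o) (γ t₂ - o) := by
      rw [I.cr_eq]
      have g1 := I.mono h12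
      have g2 := I.mono h23
      exact mul_pos (mul_pos (I.ne t₁) (I.ne t₂))
        (Real.sin_pos_of_pos_of_lt_pi (by linarith) (by linarith))
    rw [p1, p2] at h1
    have h2 : cr (-((a : ℂ) * v)) (-((b : ℂ) * w)) = a * b * cr v w := by
      unfold cr
      simp only [Complex.neg_re, Complex.neg_im, Complex.re_ofReal_mul, Complex.im_ofReal_mul]
      ring
    rw [h2] at h1
    exact (pos_iff_pos_of_mul_pos h1).1 (mul_pos ha hb)
  have hin : v.re * w.re + v.im * w.im = 0 := by rw [← inner_eq]; exact hperp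
  have sqv : ‖v‖ ^ 2 = v.re ^ 2 + v.im ^ 2 := by
    rw [Complex.sq_norm, Complex.normSq_apply]; ring
  have sqw : ‖w‖ ^ 2 = w.re ^ 2 + w.im ^ 2 := by
    rw [Complex.sq_norm, Complex.normSq_apply]; ring
  have hcrv : cr v w = ‖v‖ * ‖w‖ := by
    have h1 : cr v w ^ 2 = (‖v‖ * ‖w‖) ^ 2 := by
      rw [mul_pow, sqv, sqw]
      unfold cr
      have : (v.re ^ 2 + v.im ^ 2) * (w.re ^ 2 + w.im ^ 2) =
          (v.re * w.im - v.im * w.re) ^ 2 + (v.re * w.re + v.im * w.im) ^ 2 := by ring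
      rw [this, hin]; ring
    exact (sq_eq_sq₀ hcr.le (by positivity)).1 h1
  -- `w = i v |w| / |v|`
  have hw' : (‖v‖ : ℂ) * w = (‖w‖ : ℂ) * (Complex.I * v) := by
    have k : ‖v‖ ^ 2 * w.re = -(‖v‖ * ‖w‖) * v.im ∧ ‖v‖ ^ 2 * w.im = (‖v‖ * ‖w‖) * v.re := by
      rw [← hcrv, sqv]
      unfold cr
      constructor
      · grind
      · grind
    apply Complex.ext
    · have := k.1
      have h2 : ‖v‖ * (‖v‖ * w.re) = ‖v‖ * (‖w‖ * (-v.im)) := by
        linarith [this, sq ‖v‖]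
      have h3 := mul_left_cancel₀ nv.ne' h2
      rw [Complex.re_ofReal_mul, Complex.re_ofReal_mul, h3]
      simp
    · have := k.2
      have h2 : ‖v‖ * (‖v‖ * w.im) = ‖v‖ * (‖w‖ * v.re) := by
        linarith [this, sq ‖v‖]
      have h3 := mul_left_cancel₀ nv.ne' h2
      rw [Complex.im_ofReal_mul, Complex.im_ofReal_mul, h3]
      simp
  set u : ℂ := -(v / ‖v‖) with hud
  have hu : ‖u‖ = 1 := by
    rw [hud, norm_neg, norm_div, Complex.norm_real, norm_norm, div_self nv.ne']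
  have hvu : v = -((‖v‖ : ℂ) * u) := by rw [hud]; field_simp
  have hwu : w = -((‖w‖ : ℂ) * (Complex.I * u)) := by
    apply mul_left_cancel₀ nv'
    rw [hw']
    conv_lhs => rw [hvu]
    ring
  have key := core_incr hF hc hγ ho I (t := ![t₁, t₂, t₃, t₄]) h12 h23 h34 h41 hu
    (x := ![a * ‖v‖, b * ‖w‖, (1 - a) * ‖v‖, (1 - b) * ‖w‖]) ?_ ?_ ?_ ?_ ?_ v0 v1 v2 v3
  · obtain ⟨k1, k2, k3⟩ := key
    have e : a * ‖v‖ + b * ‖w‖ + (1 - a) * ‖v‖ + (1 - b) * ‖w‖ = ‖v‖ + ‖w‖ := by ring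
    refine ⟨k1, ?_, fun h => k3 ?_⟩
    · have : 2 * V.toReal ≤ a * ‖v‖ + b * ‖w‖ + (1 - a) * ‖v‖ + (1 - b) * ‖w‖ := k2
      linarith
    · show 2 * V.toReal = a * ‖v‖ + b * ‖w‖ + (1 - a) * ‖v‖ + (1 - b) * ‖w‖
      linarith
  · intro i
    fin_cases i
    · exact mul_pos ha nv
    · exact mul_pos hb nw
    · exact mul_pos (by linarith : 0 < 1 - a) nv
    · exact mul_pos (by linarith : 0 < 1 - b) nw
  · show γ t₁ - o = ((a * ‖v‖ : ℝ) : ℂ) * u
    rw [p1]
    push_cast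
    conv_lhs => rw [hvu]
    ring
  · show γ t₂ - o = ((b * ‖w‖ : ℝ) : ℂ) * (Complex.I * u)
    rw [p2]
    push_cast
    conv_lhs => rw [hwu]
    ring
  · show γ t₃ - o = (((1 - a) * ‖v‖ : ℝ) : ℂ) * (-u)
    rw [p3]
    push_cast
    conv_lhs => rw [hvu]
    ring
  · show γ t₄ - o = (((1 - b) * ‖w‖ : ℝ) : ℂ) * (-Complex.I * u)
    rw [p4]
    push_cast
    conv_lhs => rw [hwu]
    ring

theorem on_line {p q r : ℂ} (h : dist p r + dist r q ≤ dist p q) :
    ∃ l : ℝ, r - p = (l : ℂ) * (q - p) := by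
  have h1 : dist p r + dist r q = dist p q := le_antisymm h (dist_triangle _ _ _)
  obtain ⟨l, -, hl⟩ := dist_add_dist_eq_iff.1 h1
  refine ⟨l, ?_⟩
  rw [← hl, AffineMap.lineMap_apply]
  simp

/-- The first chord does not meet the boundary in between. -/
theorem no_boundary_chord (hF : Convex ℝ F) (hc : IsClosed F) (hi : (interior F).Nonempty)
    (hγ : IsBoundaryLoop F γ) {t₁ t₂ t₃ t₄ : ℝ} (h12 : t₁ < t₂) (h23 : t₂ < t₃)
    (h34 : t₃ < t₄) (h41 : t₄ < t₁ + 1)
    (hperp : inner ℝ (γ t₃ - γ t₁) (γ t₄ - γ t₂) = 0)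
    (hv : γ t₃ ≠ γ t₁) (hw : γ t₄ ≠ γ t₂)
    {V : ENNReal} (v0 : eVariationOn γ (Icc t₁ t₂) = V)
    (v1 : eVariationOn γ (Icc t₂ t₃) = V) (v2 : eVariationOn γ (Icc t₃ t₄) = V)
    (v3 : eVariationOn γ (Icc t₄ (t₁ + 1)) = V) {l : ℝ} (hl : 0 < l) (hl1 : l < 1) :
    γ t₁ + (l : ℂ) * (γ t₃ - γ t₁) ∈ interior F := by
  by_contra hcon
  have hmem : γ t₁ + (l : ℂ) * (γ t₃ - γ t₁) ∈ F := by
    have := hF (hc.frontier_subset (hγ.mem t₁)) (hc.frontier_subset (hγ.mem t₃))
      (by linarith : 0 ≤ 1 - l) hl.le (by ring)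
    convert this using 1
    simp only [Complex.real_smul]; push_cast; ring
  have hfr : γ t₁ + (l : ℂ) * (γ t₃ - γ t₁) ∈ frontier F := ⟨subset_closure hmem, hcon⟩
  have hVV : V + V ≤ ENNReal.ofReal ‖γ t₃ - γ t₁‖ := by
    rcases straight_or hF hc hi hγ (h12.trans h23) (h34.trans h41) hl hl1 hfr with h | h
    · rwa [← eVar_add γ h12.le h23.le, v0, v1] at h
    · rwa [← eVar_add γ h34.le h41.le, v2, v3] at h
  have c0 := chord_le (f := γ) h12.le
  have c1 := chord_le (f := γ) h23.le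
  have c2 := chord_le (f := γ) h34.le
  have c3 := chord_le (f := γ) h41.le
  rw [v0] at c0
  rw [v1] at c1
  rw [v2] at c2
  rw [v3, hγ.periodic] at c3
  have d1 : dist (γ t₁) (γ t₂) + dist (γ t₂) (γ t₃) ≤ dist (γ t₁) (γ t₃) := by
    have := (add_le_add c0 c1).trans hVV
    rw [← ENNReal.ofReal_add (norm_nonneg _) (norm_nonneg _),
      ENNReal.ofReal_le_ofReal_iff (norm_nonneg _)] at this
    rw [dist_comm (γ t₁) (γ t₂), dist_comm (γ t₂) (γ t₃), dist_comm (γ t₁) (γ t₃), dist_eq_norm,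
      dist_eq_norm, dist_eq_norm]
    exact this
  have d2 : dist (γ t₁) (γ t₄) + dist (γ t₄) (γ t₃) ≤ dist (γ t₁) (γ t₃) := by
    have := (add_le_add c3 c2).trans hVV
    rw [← ENNReal.ofReal_add (norm_nonneg _) (norm_nonneg _),
      ENNReal.ofReal_le_ofReal_iff (norm_nonneg _)] at this
    rw [dist_comm (γ t₁) (γ t₃), dist_eq_norm, dist_eq_norm, dist_eq_norm]
    exact this
  obtain ⟨l1, e1⟩ := on_line d1
  obtain ⟨l2, e2⟩ := on_line d2
  have e3 : γ t₄ - γ t₂ = ((l2 - l1 : ℝ) : ℂ) * (γ t₃ - γ t₁) := by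
    push_cast; linear_combination e2 - e1
  rw [e3, inner_eq] at hperp
  simp only [Complex.re_ofReal_mul, Complex.im_ofReal_mul] at hperp
  have hn : 0 < (γ t₃ - γ t₁).re ^ 2 + (γ t₃ - γ t₁).im ^ 2 := by
    have : 0 < ‖γ t₃ - γ t₁‖ ^ 2 := by
      have := norm_pos_iff.2 (sub_ne_zero.2 hv)
      positivity
    rw [Complex.sq_norm, Complex.normSq_apply] at this
    linarith
  have h0 : (l2 - l1) * ((γ t₃ - γ t₁).re ^ 2 + (γ t₃ - γ t₁).im ^ 2) = 0 := by linarith
  rcases mul_eq_zero.1 h0 with h | h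
  · rw [h] at e3
    apply hw
    rw [← sub_eq_zero, e3]; simp
  · exact hn.ne' h

/-- The chords cross in the interior. -/
theorem crossing (hF : Convex ℝ F) (hc : IsClosed F)
    (hγ : IsBoundaryLoop F γ) {t₁ t₂ t₃ t₄ : ℝ} (h12 : t₁ < t₂) (h23 : t₂ < t₃)
    (h34 : t₃ < t₄) (h41 : t₄ < t₁ + 1)
    (hv : γ t₃ ≠ γ t₁)
    (k1 : ∀ l : ℝ, 0 < l → l < 1 → γ t₁ + (l : ℂ) * (γ t₃ - γ t₁) ∈ interior F)
    (k2 : ∀ l : ℝ, 0 < l → l < 1 → γ t₂ + (l : ℂ) * (γ t₄ - γ t₂) ∈ interior F) :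
    ∃ a b : ℝ, 0 < a ∧ a < 1 ∧ 0 < b ∧ b < 1 ∧
      γ t₁ + (a : ℂ) * (γ t₃ - γ t₁) = γ t₂ + (b : ℂ) * (γ t₄ - γ t₂) := by
  set m : ℂ := γ t₁ + (((1 / 2 : ℝ)) : ℂ) * (γ t₃ - γ t₁) with hm
  have hmi : m ∈ interior F := k1 (1 / 2) (by norm_num) (by norm_num)
  have e13 : γ t₃ - m = -(γ t₁ - m) := by rw [hm]; push_cast; ring
  -- opposite sides
  have aux : ∀ (δ : ℝ → ℂ) (θ : ℝ → ℝ), Incr δ m θ → ∀ s₁ s₂ s₃ s₄ : ℝ, s₁ < s₂ → s₂ < s₃ →
      s₃ < s₄ → s₄ < s₁ + 1 → δ s₃ - m = -(δ s₁ - m) →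
      0 < cr (δ s₁ - m) (δ s₂ - m) ∧ cr (δ s₁ - m) (δ s₄ - m) < 0 := by
    intro δ θ I s₁ s₂ s₃ s₄ g12 g23 g34 g41 e
    have hn : ‖δ s₃ - m‖ = ‖δ s₁ - m‖ := by rw [e, norm_neg]
    have hθ13 : Complex.exp (θ s₃ * Complex.I) = -Complex.exp (θ s₁ * Complex.I) := by
      have e1 := I.eq s₁
      have e3 := I.eq s₃
      rw [hn, e] at e3
      have hne : (‖δ s₁ - m‖ : ℂ) ≠ 0 := by exact_mod_cast (I.ne s₁).ne'
      apply mul_left_cancel₀ hne
      rw [← e3, mul_neg, ← e1]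
    have hθ : θ s₃ = θ s₁ + Real.pi := by
      have e : Complex.exp (θ s₃ * Complex.I) =
          Complex.exp (((θ s₁ + Real.pi : ℝ) : ℂ) * Complex.I) := by
        rw [hθ13]
        have : ((θ s₁ + Real.pi : ℝ) : ℂ) * Complex.I = θ s₁ * Complex.I + Real.pi * Complex.I := by
          push_cast; ring
        rw [this, Complex.exp_add, Complex.exp_pi_mul_I]; ring
      obtain ⟨n, hn⟩ := exp_eq_imp e
      have g1 := I.mono (g12.trans g23)
      have g2 := I.mono (g34.trans g41)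
      rw [I.per] at g2
      have hpi := Real.pi_pos
      have k1 : (-1 : ℝ) < n := by
        by_contra hcon
        push Not at hcon
        nlinarith
      have k2 : (n : ℝ) < 1 := by
        by_contra hcon
        push Not at hcon
        nlinarith
      have k3 : -1 < n := by exact_mod_cast k1
      have k4 : n < 1 := by exact_mod_cast k2
      have : n = 0 := by omega
      rw [this] at hn
      simpa using hn
    have f1 := I.mono g12
    have f2 := I.mono g23
    have f3 := I.mono g34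
    have f4 := I.mono g41
    rw [I.per] at f4
    constructor
    · rw [I.cr_eq]
      exact mul_pos (mul_pos (I.ne _) (I.ne _))
        (Real.sin_pos_of_pos_of_lt_pi (by linarith) (by linarith))
    · rw [I.cr_eq]
      have : Real.sin (θ s₄ - θ s₁) < 0 := by
        have h1 : Real.sin (θ s₄ - θ s₁) = -Real.sin (θ s₄ - θ s₁ - Real.pi) := by
          rw [Real.sin_sub_pi, neg_neg]
        rw [h1]
        have := Real.sin_pos_of_pos_of_lt_pi (x := θ s₄ - θ s₁ - Real.pi) (by linarith)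
          (by linarith)
        linarith
      exact mul_neg_of_pos_of_neg (mul_pos (I.ne _) (I.ne _)) this
  have opp : cr (γ t₁ - m) (γ t₂ - m) * cr (γ t₁ - m) (γ t₄ - m) < 0 := by
    rcases exists_incr hF hc hγ hmi with ⟨θ, I⟩ | ⟨θ, I⟩
    · obtain ⟨g1, g2⟩ := aux γ θ I t₁ t₂ t₃ t₄ h12 h23 h34 h41 e13
      exact mul_neg_of_pos_of_neg g1 g2
    · -- times `-t₃ < -t₂ < -t₁ < -t₄ + 1`
      obtain ⟨g1, g2⟩ := aux (fun t => γ (-t)) θ I (-t₃) (-t₂) (-t₁) (-t₄ + 1) (by linarith)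
        (by linarith) (by linarith) (by linarith) (by simp only [neg_neg]; rw [e13, neg_neg])
      simp only [neg_neg] at g1 g2
      have e4 : γ (-(-t₄ + 1)) = γ t₄ := by
        have := hγ.periodic (-(-t₄ + 1))
        rw [← this]; congr 1; ring
      rw [e4, e13] at g2
      rw [e13] at g1
      have n1 : cr (-(γ t₁ - m)) (γ t₂ - m) = -cr (γ t₁ - m) (γ t₂ - m) := by
        unfold cr; simp only [Complex.neg_re, Complex.neg_im]; ring
      have n2 : cr (-(γ t₁ - m)) (γ t₄ - m) = -cr (γ t₁ - m) (γ t₄ - m) := by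
        unfold cr; simp only [Complex.neg_re, Complex.neg_im]; ring
      rw [n1] at g1
      rw [n2] at g2
      exact mul_neg_of_neg_of_pos (by linarith) (by linarith)
  set A := γ t₁ - m with hA
  set P := cr A (γ t₂ - m) with hP
  set Q := cr A (γ t₄ - m) with hQ
  have hPQ : P - Q ≠ 0 := by
    intro h
    have : P = Q := by linarith
    rw [this] at opp
    nlinarith [sq_nonneg Q]
  set b : ℝ := P / (P - Q) with hb
  have hb01 : 0 < b ∧ b < 1 := by
    rcases lt_trichotomy P 0 with h | h | h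
    · have hQ0 : 0 < Q := by
        by_contra hcon
        push Not at hcon
        nlinarith [mul_nonneg (neg_nonneg.2 h.le) (neg_nonneg.2 hcon)]
      rw [hb]
      constructor
      · exact div_pos_of_neg_of_neg h (by linarith)
      · rw [div_lt_one_of_neg (by linarith)]; linarith
    · rw [h] at opp; simp at opp
    · have hQ0 : Q < 0 := by
        by_contra hcon
        push Not at hcon
        nlinarith [mul_nonneg h.le hcon]
      rw [hb]
      constructor
      · exact div_pos h (by linarith)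
      · rw [div_lt_one (by linarith)]; linarith
  set o : ℂ := γ t₂ + (b : ℂ) * (γ t₄ - γ t₂) with ho
  have hoi : o ∈ interior F := k2 b hb01.1 hb01.2
  have hcro : cr A (o - m) = 0 := by
    have : cr A (o - m) = (1 - b) * P + b * Q := by
      rw [ho, hP, hQ]
      unfold cr
      simp only [Complex.sub_re, Complex.sub_im, Complex.add_re, Complex.add_im,
        Complex.re_ofReal_mul, Complex.im_ofReal_mul]
      ring
    rw [this, hb]
    field_simp
    ring
  have hA0 : A ≠ 0 := by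
    intro h
    apply hv
    have h1 : γ t₁ = m := sub_eq_zero.1 h
    have h2 : γ t₃ - m = 0 := by rw [e13, h, neg_zero]
    rw [h1]; exact sub_eq_zero.1 h2
  have nA : 0 < A.re ^ 2 + A.im ^ 2 := by
    have : 0 < ‖A‖ ^ 2 := by
      have := norm_pos_iff.2 hA0
      positivity
    rw [Complex.sq_norm, Complex.normSq_apply] at this
    linarith
  -- `o - m = μ A`
  set μ : ℝ := (A.re * (o - m).re + A.im * (o - m).im) / (A.re ^ 2 + A.im ^ 2) with hμ
  have hom : o - m = (μ : ℂ) * A := by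
    unfold cr at hcro
    apply Complex.ext
    · rw [Complex.re_ofReal_mul, hμ]
      field_simp
      linear_combination (-A.im) * hcro
    · rw [Complex.im_ofReal_mul, hμ]
      field_simp
      linear_combination (A.re) * hcro
  have conv_int : Convex ℝ (interior F) := hF.interior
  have hμ1 : μ < 1 := by
    by_contra hcon
    push Not at hcon
    have hμp : 0 < μ := by linarith
    have h1 : m + ((1 / μ : ℝ) : ℂ) * (o - m) ∈ interior F := by
      have := conv_int hmi hoi (a := 1 - 1 / μ) (b := 1 / μ)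
        (by rw [sub_nonneg, div_le_one hμp]; exact hcon) (by positivity) (by ring)
      convert this using 1
      simp only [Complex.real_smul]; push_cast; ring
    have h2 : m + ((1 / μ : ℝ) : ℂ) * (o - m) = γ t₁ := by
      rw [hom]
      have : (μ : ℂ) ≠ 0 := by exact_mod_cast hμp.ne'
      push_cast
      field_simp
      rw [hA]; ring
    rw [h2] at h1
    exact (hγ.mem t₁).2 h1
  have hμ2 : -1 < μ := by
    by_contra hcon
    push Not at hcon
    have hμp : 0 < -μ := by linarith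
    have h1 : m + ((1 / -μ : ℝ) : ℂ) * (o - m) ∈ interior F := by
      have := conv_int hmi hoi (a := 1 - 1 / -μ) (b := 1 / -μ)
        (by rw [sub_nonneg, div_le_one hμp]; linarith) (by positivity) (by ring)
      convert this using 1
      simp only [Complex.real_smul]; push_cast; ring
    have h2 : m + ((1 / -μ : ℝ) : ℂ) * (o - m) = γ t₃ := by
      rw [hom]
      have : (μ : ℂ) ≠ 0 := by
        have : μ ≠ 0 := by linarith
        exact_mod_cast this
      have e3 : γ t₃ = m - A := by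
        have := e13
        linear_combination this
      rw [e3]
      push_cast
      field_simp
      ring
    rw [h2] at h1
    exact (hγ.mem t₃).2 h1
  refine ⟨(1 - μ) / 2, b, by linarith, by linarith, hb01.1, hb01.2, ?_⟩
  rw [← ho]
  have e5 : o = m + (μ : ℂ) * A := by linear_combination hom
  rw [e5, hA, hm]
  push_cast
  ring

/-- The inequality in real form. -/
theorem main_real (hF : Convex ℝ F) (hc : IsClosed F) (hi : (interior F).Nonempty)
    (hγ : IsBoundaryLoop F γ) {t₁ t₂ t₃ t₄ : ℝ} (h12 : t₁ < t₂) (h23 : t₂ < t₃)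
    (h34 : t₃ < t₄) (h41 : t₄ < t₁ + 1)
    (hperp : inner ℝ (γ t₃ - γ t₁) (γ t₄ - γ t₂) = 0)
    {V : ENNReal} (v0 : eVariationOn γ (Icc t₁ t₂) = V)
    (v1 : eVariationOn γ (Icc t₂ t₃) = V) (v2 : eVariationOn γ (Icc t₃ t₄) = V)
    (v3 : eVariationOn γ (Icc t₄ (t₁ + 1)) = V) :
    V ≠ ⊤ ∧ 2 * V.toReal ≤ ‖γ t₃ - γ t₁‖ + ‖γ t₄ - γ t₂‖ ∧
      (2 * V.toReal = ‖γ t₃ - γ t₁‖ + ‖γ t₄ - γ t₂‖ → IsRectangle F) := by
  have inj : ∀ s t : ℝ, s < t → t < s + 1 → γ t ≠ γ s := by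
    intro s t h1 h2 h
    obtain ⟨n, hn⟩ := hγ.eq_int h.symm
    have k1 : (0 : ℝ) < n := by linarith
    have k2 : (n : ℝ) < 1 := by linarith
    have k3 : 0 < n := by exact_mod_cast k1
    have k4 : n < 1 := by exact_mod_cast k2
    omega
  have hv : γ t₃ ≠ γ t₁ := inj _ _ (h12.trans h23) (h34.trans h41)
  have hw : γ t₄ ≠ γ t₂ := inj _ _ (h23.trans h34) (by linarith)
  have k1 := fun l hl hl1 => no_boundary_chord hF hc hi hγ h12 h23 h34 h41 hperp hv hw v0 v1 v2 v3
    (l := l) hl hl1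
  have v4 : eVariationOn γ (Icc (t₁ + 1) (t₂ + 1)) = V := by rw [eVar_shift hγ.periodic]; exact v0
  have hperp' : inner ℝ (γ t₄ - γ t₂) (γ (t₁ + 1) - γ t₃) = 0 := by
    rw [hγ.periodic]
    rw [inner_eq] at hperp ⊢
    simp only [Complex.sub_re, Complex.sub_im] at hperp ⊢
    linarith
  have hv' : γ (t₁ + 1) ≠ γ t₃ := by rw [hγ.periodic]; exact hv.symm
  have k2 := fun l hl hl1 => no_boundary_chord hF hc hi hγ h23 h34 h41 (by linarith) hperp' hw hv'
    v1 v2 v3 v4 (l := l) hl hl1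
  obtain ⟨a, b, ha, ha1, hb, hb1, hab⟩ := crossing hF hc hγ h12 h23 h34 h41 hv k1 k2
  have ho := k1 a ha ha1
  rcases exists_incr hF hc hγ ho with ⟨θ, I⟩ | ⟨θ, I⟩
  · exact core_pts hF hc hγ ho I h12 h23 h34 h41 ha ha1 hb hb1 rfl hab hperp hv hw v0 v1 v2 v3
  · -- the reversed loop: `-t₄ < -t₃ < -t₂ < -t₁ < -t₄ + 1`
    have key := core_pts (V := V) hF hc hγ.neg ho I (t₁ := -t₄) (t₂ := -t₃) (t₃ := -t₂) (t₄ := -t₁)
      (by linarith) (by linarith) (by linarith) (by linarith) (a := 1 - b) (b := 1 - a)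
      (by linarith) (by linarith) (by linarith) (by linarith)
      (by simp only [neg_neg]; rw [hab]; push_cast; ring)
      (by simp only [neg_neg]; push_cast; ring_nf)
      (by
        simp only [neg_neg]
        rw [inner_eq] at hperp ⊢
        simp only [Complex.sub_re, Complex.sub_im] at hperp ⊢
        linarith)
      (by simp only [neg_neg]; exact hw.symm) (by simp only [neg_neg]; exact hv.symm)
      (by rw [eVar_neg]; exact v2) (by rw [eVar_neg]; exact v1) (by rw [eVar_neg]; exact v0)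
      (by
        have e : -t₄ + 1 = -(t₄ - 1) := by ring
        rw [e, eVar_neg]
        have := eVar_shift hγ.periodic (t₄ - 1) t₁
        rw [sub_add_cancel] at this
        rw [← this]; exact v3)
    simp only [neg_neg] at key
    rw [norm_sub_rev (γ t₂), norm_sub_rev (γ t₁), add_comm ‖γ t₄ - γ t₂‖] at key
    exact key

end

end Pool.Agent.V11190.Quad
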